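import Pool.Agent.Helper17.MW.Defs
import Pool.Agent.Helper66.SH.Syl

/-!
# The Magnus expansion modulo a prime is injective
-/

set_option autoImplicit false
set_option linter.unusedSectionVars false

namespace Pool.MW

open Ser

namespace Mag

variable {α K : Type} [DecidableEq α]

/-- the series is supported on the powers of the letter `x` -/
def Sup [Ring K] (x : α) (f : Ser α K) : Prop := ∀ w, f w ≠ 0 → ∀ a ∈ w, a = x

lemma sup_one [Ring K] (x : α) : Sup x (1 : Ser α K) := by
  intro w hw a ha
  cases w with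
  | nil => simp at ha
  | cons b w => exact absurd (one_cons b w) hw

lemma sup_mul [Ring K] {x : α} {f g : Ser α K} (hf : Sup x f) (hg : Sup x g) : Sup x (f * g) := by
  intro w hw a ha
  obtain ⟨u, v, huv, hu, hv⟩ := exists_of_mul_ne_zero f g w hw
  rw [huv, List.mem_append] at ha
  rcases ha with ha | ha
  · exact hf u hu a ha
  · exact hg v hv a ha

lemma sup_pow [Ring K] {x : α} {f : Ser α K} (hf : Sup x f) (n : ℕ) : Sup x (f ^ n) := by
  induction n with
  | zero => rw [pow_zero]; exact sup_one x
  | succ n ih => rw [pow_succ]; exact sup_mul ih hf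

lemma sup_uX [CommRing K] (x : α) : Sup x (1 + mon [x] : Ser α K) := by
  intro w hw a ha
  cases w with
  | nil => simp at ha
  | cons b w =>
    rw [Ser.add_apply, one_cons, zero_add] at hw
    have h1 : b :: w = [x] := by
      by_contra hne
      apply hw
      unfold mon
      rw [if_neg hne]
    rw [h1] at ha
    simpa using ha

lemma sup_geo [CommRing K] (x : α) : Sup x (geo x : Ser α K) := by
  intro w hw a ha
  unfold geo at hw
  by_contra hne
  apply hw
  rw [if_neg]
  intro hall
  exact hne (hall a ha)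

lemma sup_zpow [CommRing K] (x : α) (m : ℤ) :
    Sup x (((uX x : (Ser α K)ˣ) ^ m : (Ser α K)ˣ) : Ser α K) := by
  obtain ⟨n, rfl | rfl⟩ := m.eq_nat_or_neg
  · rw [zpow_natCast, Units.val_pow_eq_pow_val]
    exact sup_pow (sup_uX x) n
  · rw [zpow_neg, zpow_natCast, ← inv_pow, Units.val_pow_eq_pow_val]
    exact sup_pow (sup_geo x) n

lemma mul_low' [Ring K] (f g : Ser α K) (w : List α)
    (hg : ∀ v : List α, 0 < v.length → v.length ≤ w.length → g v = 0) :
    (f * g) w = f w * g [] := by
  induction w generalizing f with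
  | nil => rw [mul_nil]
  | cons a w ih =>
    rw [mul_cons, hg (a :: w) (by simp) le_rfl, mul_zero, zero_add,
      ih (dl a f) (fun v h1 h2 => hg v h1 (by simp only [List.length_cons]; omega)), dl_apply]

lemma mul_low [Ring K] (f g : Ser α K) (a : α) (w : List α)
    (hg : ∀ v : List α, 0 < v.length → v.length ≤ w.length → g v = 0) :
    (f * g) (a :: w) = f [] * g (a :: w) + f (a :: w) * g [] := by
  rw [mul_cons, mul_low' (dl a f) g w hg, dl_apply]

lemma coef [Ring K] (x : α) (f g : Ser α K) (hf : Sup x f) (v : List α)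
    (hv : ∀ b w, v = b :: w → b ≠ x)
    (hg : ∀ j : ℕ, 1 ≤ j → g (List.replicate j x ++ v) = 0) (q : ℕ) :
    (f * g) (List.replicate q x ++ v) = f (List.replicate q x) * g v := by
  induction q generalizing f with
  | zero =>
    rw [List.replicate_zero, List.nil_append]
    cases v with
    | nil => rw [mul_nil]
    | cons b w =>
      have h0 : dl b f = 0 := by
        funext u
        by_contra hne
        exact hv b w rfl (hf (b :: u) hne b (by simp))
      rw [mul_cons, h0, zero_mul, Ser.zero_apply, add_zero]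
  | succ q ih =>
    have h1 := hg (q + 1) (by omega)
    rw [List.replicate_succ, List.cons_append] at h1 ⊢
    rw [mul_cons, h1, mul_zero, zero_add, ih (dl x f), dl_apply]
    intro w hw a ha
    exact hf (x :: w) hw a (List.mem_cons_of_mem _ ha)

/-- number of blocks of equal letters -/
def syl : List α → ℕ
  | [] => 0
  | [_] => 1
  | a :: b :: w => if a = b then syl (b :: w) else syl (b :: w) + 1

lemma syl_cons_le (a : α) (w : List α) : syl (a :: w) ≤ syl w + 1 := by
  cases w with
  | nil => simp [syl]
  | cons b w =>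
    rw [syl]
    split_ifs <;> omega

lemma syl_cons_ne (a : α) (w : List α) (h : ∀ b u, w = b :: u → b ≠ a) :
    syl (a :: w) = syl w + 1 := by
  cases w with
  | nil => simp [syl]
  | cons b w => rw [syl, if_neg (fun hh => h b w rfl hh.symm)]

lemma syl_cons_cons (a : α) (w : List α) : syl (a :: a :: w) = syl (a :: w) := by
  rw [syl, if_pos rfl]

lemma syl_pow_le (x : α) (u v : List α) (hu : ∀ a ∈ u, a = x) : syl (u ++ v) ≤ syl v + 1 := by
  induction u with
  | nil => rw [List.nil_append]; omega
  | cons a u ih =>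
    have ha : a = x := hu a (by simp)
    subst ha
    have hu' : ∀ b ∈ u, b = a := fun b hb => hu b (List.mem_cons_of_mem _ hb)
    cases u with
    | nil => exact syl_cons_le a v
    | cons b u =>
      have hb : b = a := hu' b (by simp)
      subst hb
      rw [List.cons_append, List.cons_append, syl_cons_cons]
      exact ih hu'

lemma syl_replicate (x : α) (v : List α) (hv : ∀ b u, v = b :: u → b ≠ x) (j : ℕ) (hj : 1 ≤ j) :
    syl (List.replicate j x ++ v) = syl v + 1 := by
  obtain ⟨j, rfl⟩ : ∃ i, j = i + 1 := ⟨j - 1, by omega⟩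
  induction j with
  | zero => exact syl_cons_ne x v hv
  | succ j ih =>
    rw [List.replicate_succ, List.replicate_succ, List.cons_append, List.cons_append,
      syl_cons_cons]
    exact ih (by omega)

section prime

variable (p : ℕ) [Fact p.Prime]

lemma charP_ser : CharP (Ser α (ZMod p)) p where
  cast_eq_zero_iff := by
    intro n
    rw [← nsmul_one]
    constructor
    · intro h
      have h1 := congrFun h []
      have h2 : (n • (1 : Ser α (ZMod p))) [] = n • (1 : ZMod p) := rfl
      rw [h2, nsmul_one] at h1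
      exact (ZMod.natCast_eq_zero_iff n p).1 h1
    · intro h
      funext w
      have h2 : (n • (1 : Ser α (ZMod p))) w = n • ((1 : Ser α (ZMod p)) w) := rfl
      rw [h2, nsmul_eq_mul, (ZMod.natCast_eq_zero_iff n p).2 h, zero_mul]
      rfl

lemma mon_pow (x : α) (n : ℕ) : (mon [x] : Ser α (ZMod p)) ^ n = mon (List.replicate n x) := by
  induction n with
  | zero => rw [pow_zero, List.replicate_zero, mon_nil]
  | succ n ih => rw [pow_succ, ih, ← mon_append, ← List.replicate_succ']

lemma add_pow_q (x : α) (k : ℕ) :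
    (1 + mon [x] : Ser α (ZMod p)) ^ (p ^ k) = 1 + mon (List.replicate (p ^ k) x) := by
  have := charP_ser (α := α) p
  rw [add_pow_char_pow_of_commute _ _ (Commute.one_left _), one_pow, mon_pow]

lemma pow_coef (x : α) (k n : ℕ) :
    (((1 + mon [x] : Ser α (ZMod p)) ^ (p ^ k)) ^ n) [] = 1 ∧
      (∀ w : List α, 0 < w.length → w.length < p ^ k →
        (((1 + mon [x] : Ser α (ZMod p)) ^ (p ^ k)) ^ n) w = 0) ∧
      (((1 + mon [x] : Ser α (ZMod p)) ^ (p ^ k)) ^ n) (List.replicate (p ^ k) x) = n := by
  have hq : 0 < p ^ k := pow_pos (Fact.out : p.Prime).pos k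
  have hrep : List.replicate (p ^ k) x ≠ [] := by
    intro h
    have := congrArg List.length h
    rw [List.length_replicate, List.length_nil] at this
    omega
  have hlow : ∀ w : List α, 0 < w.length → w.length < p ^ k →
      (1 + mon (List.replicate (p ^ k) x) : Ser α (ZMod p)) w = 0 := by
    intro w h1 h2
    rw [Ser.add_apply, one_apply, if_neg (by rintro rfl; simp at h1), zero_add]
    unfold mon
    rw [if_neg]
    intro h
    rw [h, List.length_replicate] at h2
    omega
  have hnil : (1 + mon (List.replicate (p ^ k) x) : Ser α (ZMod p)) [] = 1 := by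
    rw [Ser.add_apply, one_nil]
    unfold mon
    rw [if_neg, add_zero]
    intro h
    exact hrep h.symm
  rw [add_pow_q]
  induction n with
  | zero =>
    rw [pow_zero]
    refine ⟨rfl, ?_, ?_⟩
    · intro w h1 h2
      rw [one_apply, if_neg (by rintro rfl; simp at h1)]
    · rw [one_apply, if_neg, Nat.cast_zero]
      intro h
      exact hrep h
  | succ n ih =>
    obtain ⟨i1, i2, i3⟩ := ih
    rw [pow_succ]
    refine ⟨?_, ?_, ?_⟩
    · rw [mul_nil, i1, hnil, mul_one]
    · intro w h1 h2
      rw [mul_low' _ _ w (fun v hv1 hv2 => hlow v hv1 (by omega)), i2 w h1 h2, zero_mul]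
    · obtain ⟨q, hq'⟩ : ∃ q, p ^ k = q + 1 := ⟨p ^ k - 1, by omega⟩
      have e1 : (1 + mon (List.replicate (p ^ k) x) : Ser α (ZMod p))
          (List.replicate (p ^ k) x) = 1 := by
        rw [Ser.add_apply, one_apply, if_neg, zero_add]
        · unfold mon
          rw [if_pos rfl]
        · exact hrep
      rw [hq'] at i3 e1 hlow hnil ⊢
      rw [List.replicate_succ] at i3 e1 hlow hnil ⊢
      rw [mul_low _ _ x _ (fun v hv1 hv2 => ?_), i3, e1, hnil]
      · rw [hq', List.replicate_succ] at i1
        rw [i1]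
        push_cast
        ring
      · refine hlow v hv1 ?_
        rw [List.length_replicate] at hv2
        omega

lemma zpow_coef (x : α) (m : ℤ) (hm : m ≠ 0) :
    ∃ q : ℕ, 1 ≤ q ∧ (((uX x : (Ser α (ZMod p))ˣ) ^ m : (Ser α (ZMod p))ˣ) : Ser α (ZMod p))
      (List.replicate q x) ≠ 0 := by
  have hp : p.Prime := Fact.out
  obtain ⟨k, n, hn, hkn⟩ := Nat.exists_eq_pow_mul_and_not_dvd (n := m.natAbs) (by omega) p
    hp.ne_one
  obtain ⟨c1, c2, c3⟩ := pow_coef p x k n
  have hn0 : ((n : ℕ) : ZMod p) ≠ 0 := by
    intro h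
    exact hn ((ZMod.natCast_eq_zero_iff n p).1 h)
  have hq : 0 < p ^ k := pow_pos hp.pos k
  refine ⟨p ^ k, hq, ?_⟩
  have hu : (((uX x : (Ser α (ZMod p))ˣ) ^ m.natAbs : (Ser α (ZMod p))ˣ) : Ser α (ZMod p)) =
      ((1 + mon [x] : Ser α (ZMod p)) ^ (p ^ k)) ^ n := by
    rw [Units.val_pow_eq_pow_val, hkn, pow_mul]
    rfl
  rcases le_or_gt 0 m with h0 | h0
  · have : m = (m.natAbs : ℤ) := by omega
    rw [this, zpow_natCast, hu, c3]
    exact hn0
  · have : m = -(m.natAbs : ℤ) := by omega
    rw [this, zpow_neg, zpow_natCast]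
    set g : (Ser α (ZMod p))ˣ := (uX x : (Ser α (ZMod p))ˣ) ^ m.natAbs with hg
    have e1 : ((g⁻¹ : (Ser α (ZMod p))ˣ) : Ser α (ZMod p)) * (g : Ser α (ZMod p)) = 1 := by
      rw [← Units.val_mul, inv_mul_cancel, Units.val_one]
    intro hz
    obtain ⟨q, hq'⟩ : ∃ q, p ^ k = q + 1 := ⟨p ^ k - 1, by omega⟩
    have e2 := congrFun e1 (List.replicate (p ^ k) x)
    have e3 := congrFun e1 []
    rw [← hu] at c1 c2 c3
    rw [mul_nil, c1, mul_one, one_nil] at e3
    have c2' : ∀ v : List α, 0 < v.length → v.length ≤ (List.replicate q x).length →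
        (g : Ser α (ZMod p)) v = 0 := by
      intro v h1 h2
      rw [List.length_replicate] at h2
      exact c2 v h1 (by omega)
    rw [hq', List.replicate_succ] at e2 c3 hz
    rw [mul_low _ _ x _ c2', hz, e3, c3, one_cons, zero_mul, one_mul, add_zero] at e2
    exact hn0 e2

end prime

end Mag

open Mag

/-- the Magnus expansion modulo `p` is injective -/
theorem exists_cf {α : Type} [DecidableEq α] (p : ℕ) [Fact p.Prime] (ω : FreeGroup α) (h : ω ≠ 1) :
    ∃ v : List α, v ≠ [] ∧ cf (ZMod p) ω v ≠ 0 := by
  obtain ⟨L, hL, rfl⟩ := SH.exists_redu ω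
  have key : ∀ L : List (α × ℤ), SH.Redu L →
      (∀ w, cf (ZMod p) (SH.sprod L) w ≠ 0 → syl w ≤ L.length) ∧
      ∃ v : List α, cf (ZMod p) (SH.sprod L) v ≠ 0 ∧ syl v = L.length ∧
        ∀ b u, v = b :: u → ∃ m L', L = (b, m) :: L' := by
    intro L
    induction L with
    | nil =>
      intro _
      have h1 : ∀ w, cf (ZMod p) (SH.sprod ([] : List (α × ℤ))) w =
          (1 : Ser α (ZMod p)) w := by
        intro w
        unfold cf SH.sprod
        simp
      refine ⟨?_, [], ?_, rfl, ?_⟩
      · intro w hw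
        rw [h1] at hw
        cases w with
        | nil => simp [syl]
        | cons a w => exact absurd (one_cons a w) hw
      · rw [h1, one_nil]
        exact one_ne_zero
      · intro b u hbu
        cases hbu
    | cons s L ih =>
      intro hL
      obtain ⟨x, m⟩ := s
      have hL' : SH.Redu L := ⟨fun q hq => hL.1 q (List.mem_cons_of_mem _ hq), hL.2.tail⟩
      obtain ⟨i1, v, i2, i3, i4⟩ := ih hL'
      have hm : m ≠ 0 := hL.1 (x, m) (by simp)
      have hmul : ∀ w, cf (ZMod p) (SH.sprod ((x, m) :: L)) w =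
          ((((uX x : (Ser α (ZMod p))ˣ) ^ m : (Ser α (ZMod p))ˣ) : Ser α (ZMod p)) *
            (mag α (ZMod p) (SH.sprod L) : Ser α (ZMod p))) w := by
        intro w
        unfold cf
        rw [SH.sprod_cons, map_mul, map_zpow, Units.val_mul]
        unfold mag
        rw [FreeGroup.lift_apply_of]
      refine ⟨?_, ?_⟩
      · intro w hw
        rw [hmul] at hw
        obtain ⟨u, v', huv, hu, hv'⟩ := exists_of_mul_ne_zero _ _ w hw
        have h1 := i1 v' hv'
        have h2 := syl_pow_le x u v' (sup_zpow x m u hu)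
        rw [huv, List.length_cons]
        omega
      · obtain ⟨q, hq, hqc⟩ := zpow_coef p x m hm
        have hvx : ∀ b u, v = b :: u → b ≠ x := by
          intro b u hbu hbx
          obtain ⟨m', L', hLL⟩ := i4 b u hbu
          have h2 := hL.2
          rw [hLL, List.isChain_cons_cons] at h2
          exact h2.1 hbx.symm
        have hv0 : ∀ j : ℕ, 1 ≤ j →
            (mag α (ZMod p) (SH.sprod L) : Ser α (ZMod p)) (List.replicate j x ++ v) = 0 := by
          intro j hj
          by_contra hne
          have h1 := i1 _ hne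
          rw [syl_replicate x v hvx j hj, i3] at h1
          omega
        refine ⟨List.replicate q x ++ v, ?_, ?_, ?_⟩
        · rw [hmul, coef x _ _ (sup_zpow x m) v hvx hv0 q]
          exact mul_ne_zero hqc i2
        · rw [syl_replicate x v hvx q hq, i3, List.length_cons]
        · intro b u hbu
          obtain ⟨q', rfl⟩ : ∃ i, q = i + 1 := ⟨q - 1, by omega⟩
          rw [List.replicate_succ, List.cons_append, List.cons.injEq] at hbu
          exact ⟨m, L, by rw [hbu.1]⟩
  obtain ⟨-, v, h1, h2, -⟩ := key L hL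
  refine ⟨v, ?_, h1⟩
  rintro rfl
  apply h
  have : L = [] := by
    apply List.eq_nil_of_length_eq_zero
    rw [← h2]
    rfl
  rw [this]
  simp [SH.sprod]

end Pool.MW
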