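import Pool.Agent.Helper17.MW.Lead
import Pool.Agent.Helper17.MW.Mag

/-!
# The leading word of a word in two elements
-/

set_option autoImplicit false
set_option linter.unusedSectionVars false

namespace Pool.MW

open Ser

namespace Fun

/-! ### sums over the words in two letters of bounded length -/

/-- the sum over the words of length less than `n` in two letters -/
def S {M : Type} [AddCommMonoid M] : ℕ → (List Bool → M) → M
  | 0, _ => 0
  | n + 1, F => F [] + S n (fun l => F (true :: l)) + S n (fun l => F (false :: l))

lemma S_eq_zero {M : Type} [AddCommMonoid M] (n : ℕ) (F : List Bool → M)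
    (h : ∀ l : List Bool, l.length < n → F l = 0) : S n F = 0 := by
  induction n generalizing F with
  | zero => rfl
  | succ n ih =>
    simp only [S]
    rw [h [] (by simp), ih (fun l => F (true :: l)) fun l hl => h _ (by simpa using hl),
      ih (fun l => F (false :: l)) fun l hl => h _ (by simpa using hl)]
    simp

lemma S_eq_single {M : Type} [AddCommMonoid M] (n : ℕ) (F : List Bool → M) (l0 : List Bool)
    (h0 : l0.length < n) (h : ∀ l : List Bool, l.length < n → l ≠ l0 → F l = 0) :
    S n F = F l0 := by
  induction n generalizing F l0 with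
  | zero => omega
  | succ n ih =>
    simp only [S]
    cases l0 with
    | nil =>
      rw [S_eq_zero n (fun l => F (true :: l)) fun l hl => h _ (by simpa using hl) (by simp),
        S_eq_zero n (fun l => F (false :: l)) fun l hl => h _ (by simpa using hl) (by simp)]
      simp
    | cons b l0 =>
      rw [h [] (by simp) (by simp), zero_add]
      have hl0 : l0.length < n := by simpa using h0
      cases b with
      | true =>
        rw [S_eq_zero n (fun l => F (false :: l)) fun l hl => h _ (by simpa using hl) (by simp),
          ih (fun l => F (true :: l)) l0 hl0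
            fun l hl hne => h _ (by simpa using hl) (by simpa using hne)]
        simp
      | false =>
        rw [S_eq_zero n (fun l => F (true :: l)) fun l hl => h _ (by simpa using hl) (by simp),
          ih (fun l => F (false :: l)) l0 hl0
            fun l hl hne => h _ (by simpa using hl) (by simpa using hne)]
        simp

lemma S_ne_zero {M : Type} [AddCommMonoid M] (n : ℕ) (F : List Bool → M) (h : S n F ≠ 0) :
    ∃ l : List Bool, l.length < n ∧ F l ≠ 0 := by
  by_contra hc
  push Not at hc
  exact h (S_eq_zero n F hc)

lemma map_S {M M' : Type} [AddCommMonoid M] [AddCommMonoid M'] (φ : M →+ M') (n : ℕ)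
    (F : List Bool → M) : φ (S n F) = S n (fun l => φ (F l)) := by
  induction n generalizing F with
  | zero => simp [S]
  | succ n ih => simp only [S]; rw [map_add, map_add, ih, ih]

/-! ### the order of a series -/

section order

variable {α K : Type} [CommRing K]

/-- no words of length less than `n` -/
def J (n : ℕ) (f : Ser α K) : Prop := ∀ w : List α, w.length < n → f w = 0

lemma J_zero (f : Ser α K) : J 0 f := fun w hw => absurd hw (by omega)

lemma J_zero' (n : ℕ) : J n (0 : Ser α K) := fun _ _ => rfl

lemma J_add {n : ℕ} {f g : Ser α K} (hf : J n f) (hg : J n g) : J n (f + g) := fun w hw => by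
  rw [Ser.add_apply, hf w hw, hg w hw, add_zero]

lemma J_neg {n : ℕ} {f : Ser α K} (hf : J n f) : J n (-f) := fun w hw => by
  rw [Ser.neg_apply, hf w hw, neg_zero]

lemma J_sub {n : ℕ} {f g : Ser α K} (hf : J n f) (hg : J n g) : J n (f - g) := fun w hw => by
  rw [Ser.sub_apply, hf w hw, hg w hw, sub_zero]

lemma J_smul {n : ℕ} {f : Ser α K} (c : K) (hf : J n f) : J n (c • f) := fun w hw => by
  rw [Ser.smul_apply, hf w hw, mul_zero]

lemma J_mul {m n : ℕ} {f g : Ser α K} (hf : J m f) (hg : J n g) : J (m + n) (f * g) := by
  intro w hw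
  by_contra hne
  obtain ⟨u, v, huv, hu, hv⟩ := exists_of_mul_ne_zero f g w hne
  have h1 : ¬ u.length < m := fun h => hu (hf u h)
  have h2 : ¬ v.length < n := fun h => hv (hg v h)
  rw [huv, List.length_append] at hw
  omega

lemma J_mul1 {n : ℕ} {f g : Ser α K} (hf : J 1 f) (hg : J n g) : J (n + 1) (f * g) := by
  have := J_mul hf hg
  rwa [add_comm 1 n] at this

lemma J_mul_left {n : ℕ} {g : Ser α K} (f : Ser α K) (hg : J n g) : J n (f * g) := by
  have := J_mul (J_zero f) hg
  rwa [zero_add] at this

lemma J_mul_right {n : ℕ} {f : Ser α K} (g : Ser α K) (hf : J n f) : J n (f * g) := by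
  have := J_mul hf (J_zero g)
  rwa [add_zero] at this

lemma smul_mul' (c : K) (f g : Ser α K) : (c • f) * g = c • (f * g) :=
  funext fun w => mulS_smul_left c f g w

lemma mul_smul' (c : K) (f g : Ser α K) : f * (c • g) = c • (f * g) := by
  funext w
  induction w generalizing f with
  | nil =>
    rw [Ser.smul_apply, mul_nil, mul_nil, Ser.smul_apply]
    ring
  | cons a w ih =>
    have h := ih (dl a f)
    rw [Ser.smul_apply, mul_cons, mul_cons, Ser.smul_apply, h, Ser.smul_apply]
    ring

/-! ### substitution -/

/-- the product of the `a b` along a word -/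
def apow (a : Bool → Ser α K) : List Bool → Ser α K
  | [] => 1
  | b :: l => a b * apow a l

/-- the substitution of `a` in the words of length less than `n` of a series -/
def ph (a : Bool → Ser α K) (n : ℕ) (f : Ser Bool K) : Ser α K := S n (fun l => f l • apow a l)

lemma ph_zero (a : Bool → Ser α K) (f : Ser Bool K) : ph a 0 f = 0 := rfl

lemma ph_succ (a : Bool → Ser α K) (n : ℕ) (f : Ser Bool K) :
    ph a (n + 1) f = f [] • (1 : Ser α K) + a true * ph a n (dl true f) +
      a false * ph a n (dl false f) := by
  have h1 : ∀ b : Bool, a b * ph a n (dl b f) = S n (fun l => f (b :: l) • apow a (b :: l)) := by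
    intro b
    have := map_S (AddMonoidHom.mulLeft (a b)) n (fun l => dl b f l • apow a l)
    simp only [AddMonoidHom.coe_mulLeft] at this
    unfold ph
    rw [this]
    congr 1
    funext l
    rw [mul_smul', dl_apply]
    rfl
  rw [h1, h1]
  rfl

lemma ph_add (a : Bool → Ser α K) (n : ℕ) (f g : Ser Bool K) :
    ph a n (f + g) = ph a n f + ph a n g := by
  induction n generalizing f g with
  | zero => simp [ph_zero]
  | succ n ih =>
    have h1 : ∀ b : Bool, dl b (f + g) = dl b f + dl b g := fun b => rfl
    rw [ph_succ, ph_succ, ph_succ, h1, h1, ih, ih, Ser.add_apply, add_smul, mul_add, mul_add]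
    abel

lemma ph_smul (a : Bool → Ser α K) (n : ℕ) (c : K) (f : Ser Bool K) :
    ph a n (c • f) = c • ph a n f := by
  induction n generalizing f with
  | zero => simp [ph_zero]
  | succ n ih =>
    have h1 : ∀ b : Bool, dl b (c • f) = c • dl b f := fun b => rfl
    rw [ph_succ, ph_succ, h1, h1, ih, ih, Ser.smul_apply, mul_smul', mul_smul', smul_add, smul_add,
      smul_smul]

lemma ph_zero' (a : Bool → Ser α K) (n : ℕ) : ph a n (0 : Ser Bool K) = 0 := by
  have := ph_smul a n 0 (0 : Ser Bool K)
  rwa [zero_smul, zero_smul] at this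

lemma ph_one (a : Bool → Ser α K) (n : ℕ) : ph a (n + 1) (1 : Ser Bool K) = 1 := by
  rw [ph_succ]
  have h1 : ∀ b : Bool, dl b (1 : Ser Bool K) = 0 := fun b => rfl
  rw [h1, h1, ph_zero', mul_zero, mul_zero, add_zero, add_zero, one_nil, one_smul]

variable {a : Bool → Ser α K} (ha : ∀ b, a b [] = 0)

include ha

lemma ha' (b : Bool) : J 1 (a b) := by
  intro w hw
  have : w = [] := List.length_eq_zero_iff.1 (by omega)
  rw [this, ha b]

lemma ph_stab (n : ℕ) (f : Ser Bool K) : J n (ph a (n + 1) f - ph a n f) := by
  induction n generalizing f with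
  | zero => exact J_zero _
  | succ n ih =>
    have h1 : ph a (n + 1 + 1) f - ph a (n + 1) f =
        a true * (ph a (n + 1) (dl true f) - ph a n (dl true f)) +
          a false * (ph a (n + 1) (dl false f) - ph a n (dl false f)) := by
      rw [ph_succ a (n + 1) f, ph_succ a n f, mul_sub, mul_sub]
      abel
    rw [h1]
    exact J_add (J_mul1 (ha' ha true) (ih _)) (J_mul1 (ha' ha false) (ih _))

lemma ph_mul (n : ℕ) (f g : Ser Bool K) : J n (ph a n (f * g) - ph a n f * ph a n g) := by
  induction n generalizing f with
  | zero => exact J_zero _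
  | succ n ih =>
    have hd : ∀ b : Bool, dl b (f * g) = f [] • dl b g + dl b f * g := fun b => rfl
    have h0 : ∀ b : Bool, J n (ph a n (dl b f * g) - ph a n (dl b f) * ph a (n + 1) g) := by
      intro b
      have h2 : ph a n (dl b f * g) - ph a n (dl b f) * ph a (n + 1) g =
          (ph a n (dl b f * g) - ph a n (dl b f) * ph a n g) -
            ph a n (dl b f) * (ph a (n + 1) g - ph a n g) := by
        rw [mul_sub]
        abel
      rw [h2]
      exact J_sub (ih _) (J_mul_left _ (ph_stab ha n g))
    have h1 : ph a (n + 1) (f * g) - ph a (n + 1) f * ph a (n + 1) g =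
        a true * (ph a n (dl true f * g) - ph a n (dl true f) * ph a (n + 1) g) +
          a false * (ph a n (dl false f * g) - ph a n (dl false f) * ph a (n + 1) g) := by
      rw [ph_succ a n (f * g), hd, hd, ph_add, ph_add, ph_smul, ph_smul, ph_succ a n f, mul_add,
        mul_add, mul_smul', mul_smul', add_mul, add_mul, smul_mul', one_mul, mul_sub, mul_sub,
        mul_assoc, mul_assoc, mul_nil]
      have h3 : f [] • ph a (n + 1) g = (f [] * g []) • (1 : Ser α K) +
          f [] • (a true * ph a n (dl true g)) + f [] • (a false * ph a n (dl false g)) := by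
        conv_lhs => rw [ph_succ a n g]
        rw [smul_add, smul_add, smul_smul]
      rw [h3]
      abel
    rw [h1]
    exact J_add (J_mul1 (ha' ha true) (h0 _)) (J_mul1 (ha' ha false) (h0 _))

omit ha in
/-- `x` is the value of `f` at `a` -/
def Rel (a : Bool → Ser α K) (f : Ser Bool K) (x : Ser α K) : Prop := ∀ n, J n (ph a n f - x)

omit ha in
lemma rel_one : Rel a 1 1 := by
  intro n
  cases n with
  | zero => exact J_zero _
  | succ n => rw [ph_one, sub_self]; exact J_zero' _

lemma rel_mul {f g : Ser Bool K} {x y : Ser α K} (hf : Rel a f x) (hg : Rel a g y) :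
    Rel a (f * g) (x * y) := by
  intro n
  have h1 : ph a n (f * g) - x * y = (ph a n (f * g) - ph a n f * ph a n g) +
      ph a n f * (ph a n g - y) + (ph a n f - x) * y := by
    rw [mul_sub, sub_mul]
    abel
  rw [h1]
  exact J_add (J_add (ph_mul ha n f g) (J_mul_left _ (hg n))) (J_mul_right _ (hf n))

lemma rel_inv {f f' : Ser Bool K} {x x' : Ser α K} (hf : Rel a f x) (h1 : f' * f = 1)
    (h2 : x * x' = 1) : Rel a f' x' := by
  intro n
  have h3 : ph a n f' - x' = ph a n f' * (x - ph a n f) * x' +
      (ph a n f' * ph a n f - ph a n (f' * f)) * x' + (ph a n (f' * f) - 1) * x' := by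
    have : ph a n f' * x * x' = ph a n f' := by rw [mul_assoc, h2, mul_one]
    rw [mul_sub, sub_mul, this, sub_mul, sub_mul, one_mul]
    abel
  rw [h3, h1]
  refine J_add (J_add (J_mul_right _ (J_mul_left _ ?_)) (J_mul_right _ ?_))
    (J_mul_right _ (rel_one n))
  · have := J_neg (hf n)
    rwa [neg_sub] at this
  · have := J_neg (ph_mul ha n f' f)
    rwa [neg_sub, h1] at this

lemma rel_gen (b : Bool) : Rel a (1 + mon [b]) (1 + a b) := by
  intro n
  have hd : ∀ c : Bool, dl c (1 + mon [b] : Ser Bool K) = if c = b then 1 else 0 := by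
    intro c
    rw [dl_add, dl_mon_cons, mon_nil]
    have : dl c (1 : Ser Bool K) = 0 := rfl
    rw [this, zero_add]
  have h0 : (1 + mon [b] : Ser Bool K) [] = 1 := by simp [mon]
  cases n with
  | zero => exact J_zero _
  | succ n =>
    cases n with
    | zero =>
      rw [ph_succ, ph_zero, ph_zero, mul_zero, mul_zero, add_zero, add_zero, h0, one_smul]
      have : (1 : Ser α K) - (1 + a b) = - a b := by abel
      rw [this]
      exact J_neg (ha' ha b)
    | succ n =>
      have : ph a (n + 1 + 1) (1 + mon [b]) = 1 + a b := by
        rw [ph_succ, hd, hd, h0, one_smul]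
        cases b
        · simp [ph_one, ph_zero']
        · simp [ph_one, ph_zero']
      rw [this, sub_self]
      exact J_zero' _

end order

/-! ### the Magnus expansion of a word in two elements -/

section main

variable {α : Type} [LinearOrder α] {K : Type} [Field K]

lemma rel_mag (g : Bool → FreeGroup α) (ω : FreeGroup Bool) :
    Rel (fun b => (mag α K (g b) : Ser α K) - 1) (mag Bool K ω : Ser Bool K)
      (mag α K (FreeGroup.lift g ω) : Ser α K) := by
  have ha : ∀ b, ((mag α K (g b) : Ser α K) - 1) [] = 0 := by
    intro b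
    rw [Ser.sub_apply, mag_nil, one_nil, sub_self]
  have hgen : ∀ b, Rel (fun b => (mag α K (g b) : Ser α K) - 1) (1 + mon [b])
      (mag α K (g b) : Ser α K) := by
    intro b
    have := rel_gen (a := fun b => (mag α K (g b) : Ser α K) - 1) ha b
    rwa [add_sub_cancel] at this
  induction ω using FreeGroup.induction_on with
  | C1 => rw [map_one, map_one, map_one]; exact rel_one
  | of b =>
    show Rel _ (mag Bool K (FreeGroup.of b) : Ser Bool K)
      (mag α K (FreeGroup.lift g (FreeGroup.of b)) : Ser α K)
    have h1 : (mag Bool K (FreeGroup.of b) : Ser Bool K) = 1 + mon [b] := by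
      unfold mag
      rw [FreeGroup.lift_apply_of]
      rfl
    rw [h1, FreeGroup.lift_apply_of]
    exact hgen b
  | inv_of b _ =>
    show Rel _ (mag Bool K (FreeGroup.of b)⁻¹ : Ser Bool K)
      (mag α K (FreeGroup.lift g (FreeGroup.of b)⁻¹) : Ser α K)
    refine rel_inv ha (hgen b) ?_ ?_
    · have h1 : (mag Bool K (FreeGroup.of b) : Ser Bool K) = 1 + mon [b] := by
        unfold mag
        rw [FreeGroup.lift_apply_of]
        rfl
      rw [← h1, ← Units.val_mul, ← map_mul, inv_mul_cancel, map_one, Units.val_one]
    · rw [map_inv, FreeGroup.lift_apply_of, ← Units.val_mul, ← map_mul, mul_inv_cancel, map_one,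
        Units.val_one]
  | mul x y hx hy =>
    rw [map_mul, map_mul, map_mul, Units.val_mul, Units.val_mul]
    exact rel_mul ha hx hy

/-- products of blocks of the same length are determined by the blocks -/
lemma bw_inj {β : Type} {W V : List β} (hlen : W.length = V.length) (hWV : W ≠ V)
    (l l' : List Bool) (hl : l.length = l'.length) (h : bw W V l = bw W V l') : l = l' := by
  induction l generalizing l' with
  | nil => exact (List.length_eq_zero_iff.1 hl.symm).symm
  | cons b l ih =>
    cases l' with
    | nil => simp at hl
    | cons b' l' =>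
      have h1 : (bif b then W else V) ++ bw W V l = (bif b' then W else V) ++ bw W V l' := h
      have h2 : (bif b then W else V).length = (bif b' then W else V).length := by
        cases b <;> cases b' <;> simp [hlen]
      obtain ⟨h3, h4⟩ := List.append_inj h1 h2
      have h5 : b = b' := by
        cases b <;> cases b'
        · rfl
        · exact absurd h3.symm hWV
        · exact absurd h3 hWV
        · rfl
      rw [h5, ih l' (by simpa using hl) h4]

lemma bw_length {β : Type} {W V : List β} (hlen : W.length = V.length) (l : List Bool) :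
    (bw W V l).length = l.length * W.length := by
  induction l with
  | nil => simp [bw]
  | cons b l ih =>
    have h1 : bw W V (b :: l) = (bif b then W else V) ++ bw W V l := rfl
    have h2 : (bif b then W else V).length = W.length := by cases b <;> simp [hlen]
    rw [h1, List.length_append, ih, h2, List.length_cons]
    ring

lemma lead_apow {a : Bool → Ser α K} {W V : List α} (h1 : Lead (a true) W)
    (h2 : Lead (a false) V) (l : List Bool) : Lead (apow a l) (bw W V l) := by
  induction l with
  | nil => exact lead_of_nil (f := (1 : Ser α K)) (by rw [one_nil]; exact one_ne_zero)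
  | cons b l ih =>
    have h3 : Lead (a b) (bif b then W else V) := by cases b <;> assumption
    exact lead_mul h3 ih

/-- the leading word of a word in `g`, `h` -/
theorem lead_pair_of (g h : FreeGroup α) (W V : List α)
    (hg : Lead ((mag α K g : Ser α K) - 1) W) (hh : Lead ((mag α K h : Ser α K) - 1) V)
    (hlen : W.length = V.length) (hWV : W ≠ V) (ω : FreeGroup Bool)
    (hω : ∃ v : List Bool, v ≠ [] ∧ cf K ω v ≠ 0) :
    ∃ l : List Bool, l ≠ [] ∧
      Lead ((mag α K (FreeGroup.lift (fun b => bif b then g else h) ω) : Ser α K) - 1)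
        (bw W V l) := by
  -- the shortest words
  have hm : ∃ m : ℕ, ∃ v : List Bool, v.length = m ∧ v ≠ [] ∧ cf K ω v ≠ 0 := by
    obtain ⟨v, hv, hc⟩ := hω
    exact ⟨_, v, rfl, hv, hc⟩
  classical
  obtain ⟨v0, hv0, hv0ne, hv0c⟩ := Nat.find_spec hm
  have hmin : ∀ v : List Bool, v ≠ [] → cf K ω v ≠ 0 → Nat.find hm ≤ v.length :=
    fun v hv hc => Nat.find_min' hm ⟨v, rfl, hv, hc⟩
  -- the first one among them
  obtain ⟨l0, ⟨hl0, hl0c⟩, hl0min⟩ := Set.exists_min_image
    {v : List Bool | v.length = Nat.find hm ∧ cf K ω v ≠ 0} (fun v => bw W V v)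
    ((List.finite_length_eq Bool (Nat.find hm)).subset fun v hv => hv.1) ⟨v0, hv0, hv0c⟩
  have hmpos : 0 < Nat.find hm := by rw [← hv0]; exact List.length_pos_iff.2 hv0ne
  have hl0ne : l0 ≠ [] := by
    intro h
    rw [h] at hl0
    simp at hl0
    omega
  set a : Bool → Ser α K := fun b => (mag α K (bif b then g else h) : Ser α K) - 1 with hadef
  have hat : Lead (a true) W := hg
  have haf : Lead (a false) V := hh
  have hWpos : 0 < W.length := by
    rw [List.length_pos_iff]
    intro h0
    have h1 := hg.1
    rw [h0, Ser.sub_apply, mag_nil, one_nil, sub_self] at h1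
    exact h1 rfl
  -- the expansion
  have hrel := rel_mag (K := K) (fun b => bif b then g else h) ω
  set x : Ser α K := (mag α K (FreeGroup.lift (fun b => bif b then g else h) ω) : Ser α K)
    with hx
  have hexp : ∀ n w, w.length < n →
      (x - 1) w = S n (fun l => if l = [] then 0 else cf K ω l * apow a l w) := by
    intro n w hw
    have h1 := hrel n w hw
    rw [Ser.sub_apply, sub_eq_zero] at h1
    obtain ⟨n, rfl⟩ : ∃ k, n = k + 1 := ⟨n - 1, by omega⟩
    have h2 : ph a (n + 1) (mag Bool K ω : Ser Bool K) w =
        S (n + 1) (fun l => cf K ω l * apow a l w) := by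
      let φ : Ser α K →+ K := { toFun := fun f => f w, map_zero' := rfl, map_add' := fun _ _ => rfl }
      exact map_S φ (n + 1) (fun l => (mag Bool K ω : Ser Bool K) l • apow a l)
    have h3 : S (n + 1) (fun l => cf K ω l * apow a l w) =
        (1 : Ser α K) w + S (n + 1) (fun l => if l = [] then 0 else cf K ω l * apow a l w) := by
      have h4 : cf K ω [] = 1 := mag_nil ω
      have h5 : ∀ (F G : List Bool → K) (c : K), F [] = c + G [] → (∀ b l, F (b :: l) = G (b :: l)) →
          S (n + 1) F = c + S (n + 1) G := by
        intro F G c hF hG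
        have h6 : (fun l => F (true :: l)) = fun l => G (true :: l) := funext fun l => hG _ l
        have h7 : (fun l => F (false :: l)) = fun l => G (false :: l) := funext fun l => hG _ l
        simp only [S]
        rw [h6, h7, hF]
        ring
      apply h5
      · show cf K ω [] * (1 : Ser α K) w = (1 : Ser α K) w + if ([] : List Bool) = [] then 0 else _
        rw [h4, one_mul, if_pos rfl, add_zero]
      · intro b l
        show _ = if b :: l = [] then 0 else cf K ω (b :: l) * apow a (b :: l) w
        rw [if_neg (List.cons_ne_nil b l)]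
    rw [Ser.sub_apply, ← h1, h2, h3, add_sub_cancel_left]
  refine ⟨l0, hl0ne, ?_, ?_⟩
  · -- the coefficient
    rw [hexp ((bw W V l0).length + l0.length + 1) _ (by omega),
      S_eq_single _ _ l0 (by omega), if_neg hl0ne]
    · exact mul_ne_zero hl0c (lead_apow hat haf l0).1
    · intro l _ hne
      by_cases hl : l = []
      · rw [if_pos hl]
      · rw [if_neg hl]
        by_contra h0
        have hc := left_ne_zero_of_mul h0
        have hle := (lead_apow hat haf l).2 _ (right_ne_zero_of_mul h0)
        have h1 := hmin l hl hc
        have h2 := le2_len hle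
        rw [bw_length hlen, bw_length hlen] at h2
        have h3 : l.length ≤ l0.length := Nat.le_of_mul_le_mul_right h2 hWpos
        have h4 : l.length = Nat.find hm := by omega
        have h5 : bw W V l0 ≤ bw W V l := hl0min l ⟨h4, hc⟩
        have h6 : le2 (bw W V l0) (bw W V l) :=
          Or.inr ⟨by rw [bw_length hlen, bw_length hlen, h4, hl0], h5⟩
        exact hne (bw_inj hlen hWV l l0 (by omega) (le2_antisymm hle h6))
  · intro w hw
    rw [hexp (w.length + 1) w (by omega)] at hw
    obtain ⟨l, -, hl⟩ := S_ne_zero _ _ hw
    by_cases hl' : l = []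
    · exact absurd (if_pos hl') hl
    · rw [if_neg hl'] at hl
      have hc := left_ne_zero_of_mul hl
      have hle := (lead_apow hat haf l).2 _ (right_ne_zero_of_mul hl)
      refine le2_trans ?_ hle
      rcases (hmin l hl' hc).lt_or_eq with h1 | h1
      · refine Or.inl ?_
        rw [bw_length hlen, bw_length hlen, hl0]
        exact Nat.mul_lt_mul_of_pos_right h1 hWpos
      · refine Or.inr ⟨?_, hl0min l ⟨h1.symm, hc⟩⟩
        rw [bw_length hlen, bw_length hlen, hl0, h1]

end main

end Fun

/-- ROW Fun: the leading word of a word in `g`, `h` -/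
theorem lead_pair {α : Type} [LinearOrder α] (p : ℕ) [Fact p.Prime] (g h : FreeGroup α)
    (W V : List α) (hg : Lead ((mag α (ZMod p) g : Ser α (ZMod p)) - 1) W)
    (hh : Lead ((mag α (ZMod p) h : Ser α (ZMod p)) - 1) V) (hlen : W.length = V.length)
    (hWV : W ≠ V) (ω : FreeGroup Bool) (hω : ω ≠ 1) :
    ∃ l : List Bool, l ≠ [] ∧
      Lead ((mag α (ZMod p) (FreeGroup.lift (fun b => bif b then g else h) ω) : Ser α (ZMod p)) - 1)
        (bw W V l) :=
  Fun.lead_pair_of g h W V hg hh hlen hWV ω (exists_cf p ω hω)

end Pool.MW
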