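import Pool.Agent.Helper17.MW.Ret
import Pool.Agent.Helper17.MW.Fun

/-!
# Free subgroups of quotients by ideals with controlled leading words
-/

set_option autoImplicit false
set_option linter.unusedSectionVars false

namespace Pool.MW

open Ser

section pair

variable {α K : Type} [LinearOrder α] [Field K]

lemma bw_nil (A B : List α) : bw A B [] = [] := rfl

lemma bw_cons (A B : List α) (b : Bool) (l : List Bool) :
    bw A B (b :: l) = (bif b then A else B) ++ bw A B l := by
  unfold bw
  rw [List.flatMap_cons]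

lemma bw_append (A B : List α) (l l' : List Bool) : bw A B (l ++ l') = bw A B l ++ bw A B l' := by
  unfold bw
  rw [List.flatMap_append]

/-- products of products -/
lemma bw_bw (U V : List α) (l1 l2 l : List Bool) :
    bw (bw U V l1) (bw U V l2) l = bw U V (bw l1 l2 l) := by
  induction l with
  | nil => rfl
  | cons b l ih =>
    rw [bw_cons, bw_cons, bw_append, ih]
    cases b <;> rfl

/-- two elements with different leading words of the same length -/
theorem pair_words {U V : List α} (gU gV : FreeGroup α)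
    (hU : Lead ((mag α K gU : Ser α K) - 1) U) (hV : Lead ((mag α K gV : Ser α K) - 1) V)
    (h : U ++ V < V ++ U) :
    ∃ (g g' : FreeGroup α) (l l' : List Bool),
      Lead ((mag α K g : Ser α K) - 1) (bw U V l) ∧ Lead ((mag α K g' : Ser α K) - 1) (bw U V l') ∧
      (bw U V l).length = (bw U V l').length ∧ bw U V l ≠ bw U V l' := by
  -- `UV`
  have h1 := lead_comm hU hV h
  -- `U (UV)`
  have o2 : U ++ (U ++ V) < (U ++ V) ++ U := by
    rw [List.append_assoc, app_lt_app_left]
    exact h
  have h2 := lead_comm hU h1 o2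
  -- `(UV) V`
  have o3 : (U ++ V) ++ V < V ++ (U ++ V) := by
    rw [← List.append_assoc]
    exact app_lt_app_of_lt (by simp only [List.length_append]; omega) h V V
  have h3 := lead_comm h1 hV o3
  -- `UUVV < UVUV`
  have e1 : U ++ (U ++ (V ++ V)) < U ++ (V ++ (U ++ V)) := by
    rw [app_lt_app_left, ← List.append_assoc, ← List.append_assoc]
    exact app_lt_app_of_lt (by simp only [List.length_append]; omega) h V V
  -- `UVUV < VUUV`
  have e2 : U ++ (V ++ (U ++ V)) < V ++ (U ++ (U ++ V)) := by
    rw [← List.append_assoc, ← List.append_assoc V U]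
    exact app_lt_app_of_lt (by simp only [List.length_append]; omega) h (U ++ V) (U ++ V)
  -- `(UUV)(UVV)`
  have o4 : (U ++ (U ++ V)) ++ ((U ++ V) ++ V) < ((U ++ V) ++ V) ++ (U ++ (U ++ V)) := by
    simp only [List.append_assoc]
    rw [app_lt_app_left]
    -- `UVUVV < VVUUV`
    have a1 : U ++ (V ++ (U ++ (V ++ V))) < V ++ (U ++ (U ++ (V ++ V))) := by
      rw [← List.append_assoc, ← List.append_assoc V U]
      exact app_lt_app_of_lt (by simp only [List.length_append]; omega) h _ _
    have a2 : V ++ (U ++ (U ++ (V ++ V))) < V ++ (V ++ (U ++ (U ++ V))) := by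
      rw [app_lt_app_left]
      exact e1.trans e2
    exact a1.trans a2
  have h4 := lead_comm h2 h3 o4
  -- `(UUV) V`
  have o5 : (U ++ (U ++ V)) ++ V < V ++ (U ++ (U ++ V)) := by
    simp only [List.append_assoc]
    exact e1.trans e2
  have h5 := lead_comm h2 hV o5
  -- `(UUVV)(UV)`
  have o6 : ((U ++ (U ++ V)) ++ V) ++ (U ++ V) < (U ++ V) ++ ((U ++ (U ++ V)) ++ V) := by
    simp only [List.append_assoc]
    rw [app_lt_app_left]
    have := app_lt_app_of_lt (by simp only [List.length_append]; omega) h (V ++ (U ++ V))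
      (U ++ (V ++ V))
    simpa only [List.append_assoc] using this
  have h6 := lead_comm h5 h1 o6
  have w1 : bw U V [true, true, false, true, false, false] =
      (U ++ (U ++ V)) ++ ((U ++ V) ++ V) := by simp [bw]
  have w2 : bw U V [true, true, false, false, true, false] =
      ((U ++ (U ++ V)) ++ V) ++ (U ++ V) := by simp [bw]
  rw [← w1] at h4
  rw [← w2] at h6
  refine ⟨_, _, _, _, h4, h6, ?_, ?_⟩
  · rw [w1, w2]
    simp only [List.length_append]
    omega
  · intro he
    rw [w1, w2] at he
    simp only [List.append_assoc, List.append_cancel_left_eq] at he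
    have : U ++ (V ++ V) < V ++ (U ++ V) := by
      rw [← List.append_assoc, ← List.append_assoc]
      exact app_lt_app_of_lt (by simp only [List.length_append]; omega) h V V
    rw [he] at this
    exact lt_irrefl _ this

end pair

section core

variable {α : Type} [LinearOrder α]

/-- the general criterion -/
theorem core (p : ℕ) [Fact p.Prime] (C : Set (List α)) (hfin : C.Finite) (h0 : [] ∉ C)
    (A B : List α) (hAB : A ≠ B) (hlen : A.length = B.length) (hav : ∀ l, Av C (bw A B l))
    (I : Set (Ser α (ZMod p))) (hadd : ∀ f ∈ I, ∀ g ∈ I, f + g ∈ I)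
    (hmul : ∀ f ∈ I, ∀ a b : Ser α (ZMod p), a * f * b ∈ I)
    (hlead : ∀ f ∈ I, ∀ w, Lead f w → ∃ u ∈ C, u <:+: w)
    (R : Set (FreeGroup α)) (hR : ∀ r ∈ R, (mag α (ZMod p) r : Ser α (ZMod p)) - 1 ∈ I)
    {G : Type} [Group G] (φ : FreeGroup α →* G) (hker : φ.ker = Subgroup.normalClosure R)
    (hzero : (0 : Ser α (ZMod p)) ∈ I) :
    ∃ f : FreeGroup (Fin 2) →* G, Function.Injective f := by
  obtain ⟨U, V, hLU, hLV, hUV, hav'⟩ := ret C hfin h0 A B hAB hlen hav
  obtain ⟨gU, hgU⟩ := exists_lyn (K := ZMod p) U hLU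
  obtain ⟨gV, hgV⟩ := exists_lyn (K := ZMod p) V hLV
  obtain ⟨g, g', l, l', hg, hg', hl, hne⟩ := pair_words gU gV hgU hgV hUV
  -- the normal subgroup
  let N : Subgroup (FreeGroup α) :=
    { carrier := {x | (mag α (ZMod p) x : Ser α (ZMod p)) - 1 ∈ I}
      one_mem' := by
        show (mag α (ZMod p) 1 : Ser α (ZMod p)) - 1 ∈ I
        rw [map_one, Units.val_one, sub_self]
        exact hzero
      mul_mem' := by
        intro a b ha hb
        show (mag α (ZMod p) (a * b) : Ser α (ZMod p)) - 1 ∈ I
        have h1 : (mag α (ZMod p) (a * b) : Ser α (ZMod p)) - 1 =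
            1 * ((mag α (ZMod p) a : Ser α (ZMod p)) - 1) * (mag α (ZMod p) b : Ser α (ZMod p)) +
              ((mag α (ZMod p) b : Ser α (ZMod p)) - 1) := by
          rw [map_mul, Units.val_mul, one_mul, sub_mul, one_mul]
          abel
        rw [h1]
        exact hadd _ (hmul _ ha _ _) _ hb
      inv_mem' := by
        intro a ha
        show (mag α (ZMod p) a⁻¹ : Ser α (ZMod p)) - 1 ∈ I
        have h1 : (mag α (ZMod p) a⁻¹ : Ser α (ZMod p)) - 1 =
            (-(mag α (ZMod p) a⁻¹ : Ser α (ZMod p))) *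
              ((mag α (ZMod p) a : Ser α (ZMod p)) - 1) * 1 := by
          rw [mul_one, mul_sub, mul_one, neg_mul, ← Units.val_mul, ← map_mul, inv_mul_cancel,
            map_one, Units.val_one]
          abel
        rw [h1]
        exact hmul _ ha _ _ }
  have hN : N.Normal := by
    constructor
    intro a ha b
    show (mag α (ZMod p) (b * a * b⁻¹) : Ser α (ZMod p)) - 1 ∈ I
    have h1 : (mag α (ZMod p) (b * a * b⁻¹) : Ser α (ZMod p)) - 1 =
        (mag α (ZMod p) b : Ser α (ZMod p)) * ((mag α (ZMod p) a : Ser α (ZMod p)) - 1) *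
          (mag α (ZMod p) b⁻¹ : Ser α (ZMod p)) := by
      rw [mul_sub, sub_mul, mul_one, map_mul, map_mul, Units.val_mul, Units.val_mul,
        ← Units.val_mul (mag α (ZMod p) b) (mag α (ZMod p) b⁻¹), ← map_mul, mul_inv_cancel,
        map_one, Units.val_one]
    rw [h1]
    exact hmul _ ha _ _
  have hle : Subgroup.normalClosure R ≤ N := Subgroup.normalClosure_le_normal fun r hr => hR r hr
  let θ : FreeGroup Bool →* FreeGroup α := FreeGroup.lift fun b => bif b then g else g'
  have hinj : Function.Injective (φ.comp θ) := by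
    rw [injective_iff_map_eq_one]
    intro ω hω
    by_contra hne1
    have h1 : θ ω ∈ φ.ker := hω
    rw [hker] at h1
    have h2 : (mag α (ZMod p) (θ ω) : Ser α (ZMod p)) - 1 ∈ I := hle h1
    obtain ⟨m, hm, hlm⟩ := lead_pair p g g' _ _ hg hg' hl hne ω hne1
    obtain ⟨u, hu, hu'⟩ := hlead _ h2 _ hlm
    rw [bw_bw] at hu'
    exact hav' _ u hu hu'
  exact ⟨(φ.comp θ).comp (FreeGroup.freeGroupCongr finTwoEquiv).toMonoidHom,
    hinj.comp (FreeGroup.freeGroupCongr finTwoEquiv).injective⟩

/-- the criterion for monomials -/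
theorem core_mono (p : ℕ) [Fact p.Prime] (C : Set (List α)) (hfin : C.Finite) (h0 : [] ∉ C)
    (A B : List α) (hAB : A ≠ B) (hlen : A.length = B.length) (hav : ∀ l, Av C (bw A B l))
    (R : Set (FreeGroup α))
    (hR : ∀ r ∈ R, ∀ w, w ≠ [] → cf (ZMod p) r w ≠ 0 → ∃ u ∈ C, u <:+: w)
    {G : Type} [Group G] (φ : FreeGroup α →* G) (hker : φ.ker = Subgroup.normalClosure R) :
    ∃ f : FreeGroup (Fin 2) →* G, Function.Injective f := by
  refine core p C hfin h0 A B hAB hlen hav {f | ∀ w, f w ≠ 0 → ∃ u ∈ C, u <:+: w} ?_ ?_ ?_ R ?_ φ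
    hker ?_
  · intro f hf g hg w hw
    rw [Ser.add_apply] at hw
    by_cases h : f w = 0
    · rw [h, zero_add] at hw
      exact hg w hw
    · exact hf w h
  · intro f hf a b w hw
    obtain ⟨x, y, rfl, hx, -⟩ := exists_of_mul_ne_zero _ _ _ hw
    obtain ⟨x', z, rfl, -, hz⟩ := exists_of_mul_ne_zero _ _ _ hx
    obtain ⟨u, hu, s, t, hst⟩ := hf z hz
    exact ⟨u, hu, x' ++ s, t ++ y, by simp only [List.append_assoc, ← hst]⟩
  · intro f hf w hw
    exact hf w hw.1
  · intro r hr w hw
    by_cases hw' : w = []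
    · subst hw'
      rw [Ser.sub_apply, mag_nil, one_nil, sub_self] at hw
      exact absurd rfl hw
    · apply hR r hr w hw'
      rw [Ser.sub_apply, one_apply, if_neg hw', sub_zero] at hw
      exact hw
  · intro w hw
    exact absurd rfl hw

end core

end Pool.MW
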