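import Pool.Agent.Helper17.MW.Ret

/-!
# Two Lyndon words inside the products of two words

For two different words `A`, `B` of the same length there are Lyndon words `U`, `V` with
`U V < V U` such that every product of `U`s and `V`s is a factor of a product of `A`s and `B`s.
-/

set_option autoImplicit false

namespace Pool.MW

namespace RetAny

open RetAux

variable {α : Type}

/-! ### commuting words -/

/-- powers of a word -/
def pw (Q : List α) : ℕ → List α
  | 0 => []
  | n + 1 => Q ++ pw Q n

theorem length_pw (Q : List α) (n : ℕ) : (pw Q n).length = n * Q.length := by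
  induction n with
  | zero => simp [pw]
  | succ n ih => rw [pw, List.length_append, ih]; ring

theorem comm_pw {P Q : List α} (h : Q ++ P = P ++ Q) (n : ℕ) : P ++ pw Q n = pw Q n ++ P := by
  induction n with
  | zero => simp [pw]
  | succ n ih =>
    rw [pw, ← List.append_assoc, ← h, List.append_assoc, ih, List.append_assoc]

theorem prefix_pw {P Q : List α} (hQ : Q ≠ []) (h : Q ++ P = P ++ Q) : P <+: pw Q P.length := by
  refine List.prefix_of_prefix_length_le (List.prefix_append P (pw Q P.length))
    (comm_pw h P.length ▸ List.prefix_append _ _) ?_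
  rw [length_pw]
  exact Nat.le_mul_of_pos_right _ (List.length_pos_iff.2 hQ)

theorem eq_of_comm {P R Q : List α} (hQ : Q ≠ []) (hP : Q ++ P = P ++ Q) (hR : Q ++ R = R ++ Q)
    (hl : P.length = R.length) : P = R := by
  have h1 := prefix_pw hQ hP
  have h2 := prefix_pw hQ hR
  rw [← hl] at h2
  exact (List.prefix_of_prefix_length_le h1 h2 hl.le).eq_of_length hl

theorem comm_of_sq {P Q : List α} (hQ : Q ≠ []) (h : Q ++ (Q ++ P) = P ++ (Q ++ Q)) :
    Q ++ P = P ++ Q := by
  have hQQ : Q ++ Q ≠ [] := by simp [hQ]
  refine eq_of_comm hQQ ?_ ?_ (by simp only [List.length_append]; omega)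
  · have h1 : Q ++ (Q ++ (Q ++ P)) = Q ++ (P ++ (Q ++ Q)) := by rw [h]
    simpa only [List.append_assoc] using h1
  · have h1 : Q ++ (Q ++ P) ++ Q = P ++ (Q ++ Q) ++ Q := by rw [h]
    simpa only [List.append_assoc] using h1

/-- no synchronization defect -/
theorem no_shift {P Q R S : List α} (hPR : P.length = R.length) (hQS : Q.length = S.length)
    (hP : P ≠ []) (hQ : Q ≠ []) (hne : P ++ Q ≠ R ++ S)
    (h0 : Q ++ P = P ++ Q ∨ Q ++ P = R ++ S)
    (h1 : Q ++ R = P ++ Q ∨ Q ++ R = R ++ S)
    (h2 : (S ++ P = P ++ Q ∨ S ++ P = R ++ S) ∨ (S ++ R = P ++ Q ∨ S ++ R = R ++ S)) : False := by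
  have fin : S = Q → P = R → False := by
    rintro rfl rfl
    exact hne rfl
  have inj : ∀ {x y z w : List α}, x ++ y = z ++ w → x.length = z.length → x = z ∧ y = w :=
    fun h hl => List.append_inj h hl
  have alt : S = Q → Q ++ P = R ++ Q → Q ++ R = P ++ Q → False := by
    intro hS ha hb
    have h3 : Q ++ (Q ++ P) = P ++ (Q ++ Q) := by
      rw [ha, ← List.append_assoc, hb, List.append_assoc]
    have h4 := comm_of_sq hQ h3
    rw [h4] at ha
    exact fin hS (inj ha hPR).1
  rcases h0 with h0 | h0
  · rcases h1 with h1 | h1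
    · have h3 : P = R := (inj (h0.trans h1.symm) rfl).2
      subst h3
      have h4 : S ++ P = P ++ Q ∨ S ++ P = P ++ S := by
        rcases h2 with h2 | h2 <;> exact h2
      rcases h4 with h4 | h4
      · exact fin (inj (h4.trans h0.symm) hQS.symm).1 rfl
      · exact fin (eq_of_comm hP h4.symm h0.symm hQS.symm) rfl
    · rcases h2 with (h2 | h2) | (h2 | h2)
      · have hS : S = Q := (inj (h2.trans h0.symm) hQS.symm).1
        subst hS
        exact fin rfl (eq_of_comm hQ h0 h1 hPR)
      · have h3 := inj (h2.trans h1.symm) hQS.symm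
        exact fin h3.1 h3.2
      · have h3 := inj (h2.trans h0.symm) hQS.symm
        exact fin h3.1 h3.2.symm
      · have hS : S = Q := (inj (h2.trans h1.symm) hQS.symm).1
        subst hS
        exact fin rfl (eq_of_comm hQ h0 h1 hPR)
  · rcases h1 with h1 | h1
    · rcases h2 with (h2 | h2) | (h2 | h2)
      · have h3 := inj (h2.trans h1.symm) hQS.symm
        exact fin h3.1 h3.2
      · have hS : S = Q := (inj (h2.trans h0.symm) hQS.symm).1
        have h5 := h0
        rw [hS] at h5
        exact alt hS h5 h1
      · have hS : S = Q := (inj (h2.trans h1.symm) hQS.symm).1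
        have h5 := h0
        rw [hS] at h5
        exact alt hS h5 h1
      · have h3 := inj (h2.trans h0.symm) hQS.symm
        exact fin h3.1 h3.2.symm
    · have h3 : P = R := (inj (h0.trans h1.symm) rfl).2
      subst h3
      have h4 : S ++ P = P ++ Q ∨ S ++ P = P ++ S := by
        rcases h2 with h2 | h2 <;> exact h2
      rcases h4 with h4 | h4
      · have h5 : P ++ (P ++ Q) = Q ++ (P ++ P) := by
          rw [← h4, ← List.append_assoc, ← h0, List.append_assoc]
        have h6 := comm_of_sq hP h5
        rw [h0] at h6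
        exact fin (inj h6 rfl).2.symm rfl
      · exact fin (inj (h4.trans h0.symm) hQS.symm).1 rfl

/-! ### blocks -/

section blocks

variable {A B : List α}

theorem bw_take (h : A.length = B.length) (l : List Bool) (t : ℕ) :
    bw A B (l.take t) = (bw A B l).take (t * A.length) := by
  induction l generalizing t with
  | nil => simp [bw]
  | cons b l ih =>
    cases t with
    | zero => simp [bw]
    | succ t =>
      have hb : (bw A B [b]).length = A.length := by
        rw [bw_singleton]; cases b
        · exact h.symm
        · rfl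
      rw [List.take_succ_cons, show b :: l.take t = [b] ++ l.take t from rfl, bw_append, ih,
        show b :: l = [b] ++ l from rfl, bw_append, List.take_append, hb]
      congr 1
      · rw [List.take_of_length_le]
        rw [hb]
        exact Nat.le_mul_of_pos_left _ (Nat.succ_pos t)
      · congr 1
        rw [Nat.succ_mul]
        omega

theorem bw_drop (h : A.length = B.length) (l : List Bool) (t : ℕ) :
    bw A B (l.drop t) = (bw A B l).drop (t * A.length) := by
  have h1 : bw A B l = bw A B (l.take t) ++ bw A B (l.drop t) := by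
    rw [← bw_append, List.take_append_drop]
  have h2 : bw A B l = (bw A B l).take (t * A.length) ++ (bw A B l).drop (t * A.length) :=
    (List.take_append_drop _ _).symm
  rw [bw_take h] at h1
  exact List.append_cancel_left (h1.symm.trans h2)

/-- the code -/
def cd (l : List Bool) : List Bool := l.flatMap fun b => [true, true, false, b]

theorem bw_cd (l : List Bool) :
    bw (A ++ A ++ B ++ A) (A ++ A ++ B ++ B) l = bw A B (cd l) := by
  induction l with
  | nil => rfl
  | cons b l ih =>
    have h1 : cd (b :: l) = [true] ++ ([true] ++ ([false] ++ ([b] ++ cd l))) := rfl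
    rw [h1, show b :: l = [b] ++ l from rfl, bw_append, ih]
    simp only [bw_append, bw_singleton, cond_true, cond_false]
    cases b <;> simp

theorem bw_eq_cases (b : Bool) : bw A B [b] = A ∨ bw A B [b] = B := by
  rw [bw_singleton]
  cases b
  · exact Or.inr rfl
  · exact Or.inl rfl

theorem aligned (h : A.length = B.length) (hne : A ≠ B) (q r : List α) (b : Bool) (l : List Bool)
    (hq : q ++ ((A ++ A ++ B ++ (bif b then A else B)) ++ r) = bw A B l) :
    q.length % A.length = 0 := by
  by_contra hmod
  have hA : 0 < A.length := by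
    rcases Nat.eq_zero_or_pos A.length with h0 | h0
    · exact absurd ((List.length_eq_zero_iff.1 h0).trans
        (List.length_eq_zero_iff.1 (h ▸ h0)).symm) hne
    · exact h0
  have hlt := Nat.mod_lt q.length hA
  have hdm := Nat.div_add_mod q.length A.length
  obtain ⟨k, hk⟩ : ∃ k, k = A.length - q.length % A.length := ⟨_, rfl⟩
  obtain ⟨t, ht⟩ : ∃ t, t = q.length / A.length + 1 := ⟨_, rfl⟩
  have hk0 : 0 < k := by omega
  have hkA : k < A.length := by omega
  have htk : t * A.length = q.length + k := by
    have h1 : t * A.length = A.length * (q.length / A.length) + A.length := by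
      rw [ht]; ring
    omega
  have hc : (bif b then A else B).length = A.length := by
    cases b
    · exact h.symm
    · rfl
  have hlen := congrArg List.length hq
  rw [length_bw A B h] at hlen
  simp only [List.length_append, hc, ← h] at hlen
  have ht3 : t + 3 ≤ l.length := by
    by_contra hcon
    have h1 : l.length * A.length ≤ (t + 2) * A.length := Nat.mul_le_mul_right _ (by omega)
    have h2 : (t + 2) * A.length = t * A.length + 2 * A.length := by ring
    omega
  -- the three blocks
  obtain ⟨l1, x0, x1, x2, l2, hl, hl1⟩ : ∃ l1 x0 x1 x2 l2,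
      l = l1 ++ ([x0] ++ ([x1] ++ ([x2] ++ l2))) ∧ l1.length = t := by
    refine ⟨l.take t, l[t], l[t + 1], l[t + 2], l.drop (t + 3), ?_, by
      rw [List.length_take]; omega⟩
    conv_lhs => rw [← List.take_append_drop t l]
    congr 1
    rw [List.drop_eq_getElem_cons (by omega), List.drop_eq_getElem_cons (by omega),
      List.drop_eq_getElem_cons (by omega)]
    rfl
  have hAk : A = A.take k ++ A.drop k := (List.take_append_drop k A).symm
  have hBk : B = B.take k ++ B.drop k := (List.take_append_drop k B).symm
  obtain ⟨P, hP⟩ : ∃ P, P = A.take k := ⟨_, rfl⟩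
  obtain ⟨Q, hQ⟩ : ∃ Q, Q = A.drop k := ⟨_, rfl⟩
  obtain ⟨R, hR⟩ : ∃ R, R = B.take k := ⟨_, rfl⟩
  obtain ⟨S, hS⟩ : ∃ S, S = B.drop k := ⟨_, rfl⟩
  have lP : P.length = k := by rw [hP, List.length_take]; omega
  have lQ : Q.length = A.length - k := by rw [hQ, List.length_drop]
  have lR : R.length = k := by rw [hR, List.length_take]; omega
  have lS : S.length = A.length - k := by rw [hS, List.length_drop]; omega
  have eA : A = P ++ Q := by rw [hP, hQ]; exact hAk
  have eB : B = R ++ S := by rw [hR, hS]; exact hBk
  obtain ⟨C1, C2, hC, lC, hC1⟩ : ∃ C1 C2, (bif b then A else B) = C1 ++ C2 ∧ C1.length = k ∧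
      (C1 = P ∨ C1 = R) := by
    cases b
    · exact ⟨R, S, eB, lR, Or.inr rfl⟩
    · exact ⟨P, Q, eA, lP, Or.inl rfl⟩
  have lX : ∀ b, (bw A B [b]).length = A.length := by
    intro b
    rw [length_bw A B h]
    simp
  have e1 : (q ++ P) ++ ((Q ++ P) ++ ((Q ++ R) ++ ((S ++ C1) ++ (C2 ++ r)))) =
      bw A B l1 ++ (bw A B [x0] ++ (bw A B [x1] ++ (bw A B [x2] ++ bw A B l2))) := by
    rw [← bw_append, ← bw_append, ← bw_append, ← bw_append, ← hl, ← hq, hC]
    have e2 : A ++ A ++ B ++ (C1 ++ C2) = P ++ Q ++ (P ++ Q) ++ (R ++ S) ++ (C1 ++ C2) := by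
      rw [← eA, ← eB]
    rw [e2]
    simp only [List.append_assoc]
  obtain ⟨-, e3⟩ := List.append_inj e1 (by
    rw [length_bw A B h, hl1, htk, List.length_append, lP])
  obtain ⟨e4, e5⟩ := List.append_inj e3 (by rw [lX, List.length_append, lP, lQ]; omega)
  obtain ⟨e6, e7⟩ := List.append_inj e5 (by rw [lX, List.length_append, lR, lQ]; omega)
  obtain ⟨e8, -⟩ := List.append_inj e7 (by rw [lX, List.length_append, lC, lS]; omega)
  have hX : ∀ b, bw A B [b] = P ++ Q ∨ bw A B [b] = R ++ S := by
    intro b
    rw [← eA, ← eB]
    exact bw_eq_cases b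
  refine no_shift (P := P) (Q := Q) (R := R) (S := S) (by rw [lP, lR]) (by rw [lQ, lS]) ?_ ?_ ?_
    (e4 ▸ hX x0) (e6 ▸ hX x1) ?_
  · intro h1; rw [h1] at lP; simp at lP; omega
  · intro h1; rw [h1] at lQ; simp at lQ; omega
  · rw [← eA, ← eB]; exact hne
  · have h9 := hX x2
    rw [← e8] at h9
    rcases hC1 with h10 | h10
    · rw [h10] at h9
      exact Or.inl h9
    · rw [h10] at h9
      exact Or.inr h9

theorem sync (h : A.length = B.length) (hne : A ≠ B) (p u s : List α) (l : List Bool)
    (p0 s0 : List α) (l0 : List Bool) (h1 : p ++ (u ++ s) = bw A B l)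
    (h2 : p0 ++ (u ++ s0) = bw A B (cd l0)) (hu : 8 * A.length ≤ u.length + 1) :
    p.length % A.length = p0.length % A.length := by
  have hA : 0 < A.length := by
    rcases Nat.eq_zero_or_pos A.length with h0 | h0
    · exact absurd ((List.length_eq_zero_iff.1 h0).trans
        (List.length_eq_zero_iff.1 (h ▸ h0)).symm) hne
    · exact h0
  set L := A.length with hL
  obtain ⟨m, hm⟩ : ∃ m, m = (p0.length + 4 * L - 1) / (4 * L) := ⟨_, rfl⟩
  have hdm := Nat.div_add_mod (p0.length + 4 * L - 1) (4 * L)
  have hlt := Nat.mod_lt (p0.length + 4 * L - 1) (show 0 < 4 * L by omega)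
  rw [← hm] at hdm
  have hm1 : p0.length ≤ 4 * L * m := by omega
  have hm2 : 4 * L * m + 1 ≤ p0.length + 4 * L := by omega
  have hcd : ∀ l : List Bool, (cd l).length = 4 * l.length := by
    intro l
    induction l with
    | nil => rfl
    | cons b l ih =>
      have : cd (b :: l) = [true, true, false, b] ++ cd l := rfl
      rw [this, List.length_append, ih]
      simp only [List.length_cons, List.length_nil]
      ring
  have hlen := congrArg List.length h2
  rw [length_bw A B h, hcd, List.length_append, List.length_append, ← hL] at hlen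
  have hml : m + 1 ≤ l0.length := by
    by_contra hcon
    have h3 : 4 * l0.length * L ≤ 4 * m * L := Nat.mul_le_mul_right _ (by omega)
    have h4 : 4 * m * L = 4 * L * m := by ring
    omega
  obtain ⟨l1, b, l2, hl, hl1⟩ : ∃ l1 b l2, l0 = l1 ++ ([b] ++ l2) ∧ l1.length = m := by
    refine ⟨l0.take m, l0[m], l0.drop (m + 1), ?_, by rw [List.length_take]; omega⟩
    conv_lhs => rw [← List.take_append_drop m l0]
    congr 1
    rw [List.drop_eq_getElem_cons (by omega)]
    rfl
  have hcda : ∀ x y : List Bool, cd (x ++ y) = cd x ++ cd y := by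
    intro x y
    simp [cd, List.flatMap_append]
  obtain ⟨X, hX⟩ : ∃ X, X = bw A B (cd l1) := ⟨_, rfl⟩
  obtain ⟨Y, hY⟩ : ∃ Y, Y = A ++ A ++ B ++ (bif b then A else B) := ⟨_, rfl⟩
  have lY : Y.length = 4 * L := by
    have hc : (bif b then A else B).length = A.length := by
      cases b
      · exact h.symm
      · rfl
    rw [hY]
    simp only [List.length_append, hc, ← h, ← hL]
    ring
  have lX : X.length = 4 * L * m := by
    rw [hX, length_bw A B h, hcd, hl1, ← hL]
    ring
  have h3 : p0 ++ (u ++ s0) = X ++ (Y ++ bw A B (cd l2)) := by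
    rw [h2, hl, hcda, hcda, bw_append, bw_append, hX]
    congr 2
    have : cd [b] = [true] ++ ([true] ++ ([false] ++ [b])) := rfl
    rw [this, bw_append, bw_append, bw_append, bw_singleton, bw_singleton, bw_singleton, hY]
    simp only [cond_true, cond_false, List.append_assoc]
  -- `X = p0 ++ u1`
  obtain ⟨u1, hu1, hu2⟩ : ∃ u1, X = p0 ++ u1 ∧ u ++ s0 = u1 ++ (Y ++ bw A B (cd l2)) := by
    rcases List.append_eq_append_iff.1 h3 with ⟨a, ha, hb⟩ | ⟨a, ha, hb⟩
    · exact ⟨a, ha, hb⟩
    · have h4 : a = [] := by
        have := congrArg List.length ha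
        rw [List.length_append, lX] at this
        exact List.length_eq_zero_iff.1 (by omega)
      subst h4
      rw [List.append_nil] at ha
      exact ⟨[], by rw [List.append_nil]; exact ha.symm, by simpa using hb.symm⟩
  have lu1 : p0.length + u1.length = 4 * L * m := by
    rw [← lX, hu1, List.length_append]
  obtain ⟨u2, hu3⟩ : ∃ u2, u = u1 ++ Y ++ u2 := by
    have h4 : u1 ++ Y <+: u ++ s0 := ⟨bw A B (cd l2), by rw [hu2, List.append_assoc]⟩
    obtain ⟨u2, h5⟩ := List.prefix_of_prefix_length_le h4 (List.prefix_append u s0)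
      (by rw [List.length_append, lY]; omega)
    exact ⟨u2, h5.symm⟩
  have h6 : (p ++ u1) ++ ((A ++ A ++ B ++ (bif b then A else B)) ++ (u2 ++ s)) = bw A B l := by
    rw [← h1, hu3, ← hY]
    simp only [List.append_assoc]
  have h7 := aligned h hne (p ++ u1) (u2 ++ s) b l h6
  rw [List.length_append, ← hL] at h7
  have h8 : (p.length + u1.length) % L = 0 := h7
  have h9 : (p0.length + u1.length) % L = 0 := by
    rw [lu1, show 4 * L * m = L * (4 * m) by ring]
    exact Nat.mul_mod_right _ _
  have h10 : (p.length + u1.length) ≡ (p0.length + u1.length) [MOD L] := by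
    unfold Nat.ModEq
    rw [h8, h9]
  exact Nat.ModEq.add_right_cancel' _ h10

theorem glue (h : A.length = B.length) (hne : A ≠ B) (w : List α)
    (hw : 8 * A.length ≤ w.length)
    (hloc : ∀ e : List α, e.length = 8 * A.length → e <:+: w →
      ∃ l, e <:+: bw (A ++ A ++ B ++ A) (A ++ A ++ B ++ B) l) :
    ∃ l, w <:+: bw A B l := by
  have hA : 0 < A.length := by
    rcases Nat.eq_zero_or_pos A.length with h0 | h0
    · exact absurd ((List.length_eq_zero_iff.1 h0).trans
        (List.length_eq_zero_iff.1 (h ▸ h0)).symm) hne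
    · exact h0
  induction w with
  | nil =>
    rw [List.length_nil] at hw
    omega
  | cons a w ih =>
    rcases Nat.lt_or_ge w.length (8 * A.length) with hlt | hge
    · obtain ⟨l, hl⟩ := hloc (a :: w) (by rw [List.length_cons] at hw ⊢; omega)
        (List.infix_refl _)
      rw [bw_cd] at hl
      exact ⟨cd l, hl⟩
    · obtain ⟨l, p, s, hps⟩ := ih hge fun e he hi =>
        hloc e he (hi.trans (List.suffix_cons a w).isInfix)
      obtain ⟨u, hu⟩ : ∃ u, u = w.take (8 * A.length - 1) := ⟨_, rfl⟩
      obtain ⟨v, hv⟩ : ∃ v, v = w.drop (8 * A.length - 1) := ⟨_, rfl⟩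
      have huv : w = u ++ v := by rw [hu, hv, List.take_append_drop]
      have lu : u.length = 8 * A.length - 1 := by rw [hu, List.length_take]; omega
      obtain ⟨l0, p0, s0, hps0⟩ := hloc (a :: u) (by rw [List.length_cons, lu]; omega)
        (by rw [huv]; exact (List.prefix_append (a :: u) v).isInfix)
      rw [bw_cd] at hps0
      have h1 : p ++ (u ++ (v ++ s)) = bw A B l := by
        rw [← hps, huv]; simp only [List.append_assoc]
      have h2 : (p0 ++ [a]) ++ (u ++ s0) = bw A B (cd l0) := by
        rw [← hps0]; simp
      have hs := sync h hne p u (v ++ s) l (p0 ++ [a]) s0 l0 h1 h2 (by rw [lu]; omega)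
      -- the boundary
      set L := A.length with hL
      obtain ⟨t, ht⟩ : ∃ t, t = (p.length + L - 1) / L := ⟨_, rfl⟩
      have hdm := Nat.div_add_mod (p.length + L - 1) L
      have hlt := Nat.mod_lt (p.length + L - 1) hA
      rw [← ht] at hdm
      obtain ⟨x, hx⟩ : ∃ x, t * L = p.length + x := ⟨t * L - p.length, by
        have : L * t = t * L := by ring
        omega⟩
      have hxL : x < L := by
        have : L * t = t * L := by ring
        omega
      obtain ⟨t0, ht0⟩ : ∃ t0, t0 * L = (p0 ++ [a]).length + x := by
        have h3 : (p.length + x) % L = ((p0 ++ [a]).length + x) % L := Nat.ModEq.add_right x hs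
        rw [← hx, Nat.mul_mod_left] at h3
        obtain ⟨t0, h4⟩ := Nat.dvd_of_mod_eq_zero h3.symm
        exact ⟨t0, by rw [h4]; ring⟩
      refine ⟨(cd l0).take t0 ++ l.drop t, p0, s, ?_⟩
      rw [bw_append, bw_take h, bw_drop h, ← h1, ← h2, ← hL, hx, ht0]
      rw [List.take_append, List.drop_append]
      have e1 : (p0 ++ [a]).take ((p0 ++ [a]).length + x) = p0 ++ [a] :=
        List.take_of_length_le (by omega)
      have e2 : p.drop (p.length + x) = [] := List.drop_of_length_le (by omega)
      rw [e1, e2, Nat.add_sub_cancel_left, Nat.add_sub_cancel_left, List.nil_append,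
        List.take_append_of_le_length (by rw [lu]; omega),
        List.drop_append_of_le_length (by rw [lu]; omega), huv]
      have e3 : u = u.take x ++ u.drop x := (List.take_append_drop x u).symm
      conv_lhs => rw [e3]
      simp only [List.append_assoc, List.cons_append, List.nil_append]

end blocks

end RetAny

open RetAux RetAny

/-- ROW RetAny -/
theorem ret_any {α : Type} [LinearOrder α] [Finite α] (A B : List α) (hAB : A ≠ B)
    (hlen : A.length = B.length) :
    ∃ U V : List α, Lyn U ∧ Lyn V ∧ U ++ V < V ++ U ∧ ∀ l, ∃ l', bw U V l <:+: bw A B l' := by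
  have hA : 0 < A.length := by
    rcases Nat.eq_zero_or_pos A.length with h0 | h0
    · exact absurd ((List.length_eq_zero_iff.1 h0).trans
        (List.length_eq_zero_iff.1 (hlen ▸ h0)).symm) hAB
    · exact h0
  let A' := A ++ A ++ B ++ A
  let B' := A ++ A ++ B ++ B
  let C : Set (List α) := {c | c.length = 8 * A.length ∧ ∀ l, ¬ c <:+: bw A' B' l}
  have hC : C.Finite := (List.finite_length_eq α (8 * A.length)).subset fun c hc => hc.1
  obtain ⟨U, V, hU, hV, hUV, hav⟩ := ret C hC (by
      intro h
      have h1 := h.1
      rw [List.length_nil] at h1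
      omega) A' B' (by
      intro h
      exact hAB (List.append_cancel_left h)) (by
      simp only [A', B', List.length_append, hlen])
    (fun l c hc hi => hc.2 l hi)
  refine ⟨U, V, hU, hV, hUV, fun l => ?_⟩
  have hU0 : 0 < U.length := List.length_pos_iff.2 hU.1
  obtain ⟨l', hl'⟩ := glue hlen hAB (bw U V (l ++ List.replicate (8 * A.length) true)) (by
      have h1 : ∀ n, n ≤ (bw U V (List.replicate n true)).length := by
        intro n
        induction n with
        | zero => exact Nat.zero_le _
        | succ n ih =>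
          rw [List.replicate_succ, show true :: List.replicate n true =
            [true] ++ List.replicate n true from rfl, bw_append, bw_singleton,
            List.length_append]
          simp only [cond_true]
          omega
      rw [bw_append, List.length_append]
      have := h1 (8 * A.length)
      omega) (fun e he hi => by
      by_contra hcon
      push Not at hcon
      exact hav _ e ⟨he, hcon⟩ hi)
  refine ⟨l', List.IsInfix.trans ?_ hl'⟩
  rw [bw_append]
  exact (List.prefix_append _ _).isInfix

end Pool.MW
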