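import Pool.Agent.Helper17.MW.Core
import Pool.Agent.Helper17.MW.RetAny

/-!
# Free subgroups of quotients by ideals: any factor closed language
-/

set_option autoImplicit false
set_option linter.unusedSectionVars false

namespace Pool.MW

open Ser

section core

variable {α : Type} [LinearOrder α] [Finite α]

/-- the general criterion: leading words of the ideal are not factors of products of `A`s and `B`s -/
theorem core_any (p : ℕ) [Fact p.Prime]
    (A B : List α) (hAB : A ≠ B) (hlen : A.length = B.length)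
    (I : Set (Ser α (ZMod p))) (hadd : ∀ f ∈ I, ∀ g ∈ I, f + g ∈ I)
    (hmul : ∀ f ∈ I, ∀ a b : Ser α (ZMod p), a * f * b ∈ I)
    (hlead : ∀ f ∈ I, ∀ w, Lead f w → ∀ l, ¬ w <:+: bw A B l)
    (R : Set (FreeGroup α)) (hR : ∀ r ∈ R, (mag α (ZMod p) r : Ser α (ZMod p)) - 1 ∈ I)
    {G : Type} [Group G] (φ : FreeGroup α →* G) (hker : φ.ker = Subgroup.normalClosure R)
    (hzero : (0 : Ser α (ZMod p)) ∈ I) :
    ∃ f : FreeGroup (Fin 2) →* G, Function.Injective f := by
  obtain ⟨U, V, hLU, hLV, hUV, hfac⟩ := ret_any A B hAB hlen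
  obtain ⟨gU, hgU⟩ := exists_lyn (K := ZMod p) U hLU
  obtain ⟨gV, hgV⟩ := exists_lyn (K := ZMod p) V hLV
  obtain ⟨g, g', l, l', hg, hg', hl, hne⟩ := pair_words gU gV hgU hgV hUV
  -- the normal subgroup
  let N : Subgroup (FreeGroup α) :=
    { carrier := {x | (mag α (ZMod p) x : Ser α (ZMod p)) - 1 ∈ I}
      one_mem' := by
        show (mag α (ZMod p) 1 : Ser α (ZMod p)) - 1 ∈ I
        rw [map_one, Units.val_one, sub_self]
        exact hzero
      mul_mem' := by
        intro a b ha hb
        show (mag α (ZMod p) (a * b) : Ser α (ZMod p)) - 1 ∈ I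
        have h1 : (mag α (ZMod p) (a * b) : Ser α (ZMod p)) - 1 =
            1 * ((mag α (ZMod p) a : Ser α (ZMod p)) - 1) * (mag α (ZMod p) b : Ser α (ZMod p)) +
              ((mag α (ZMod p) b : Ser α (ZMod p)) - 1) := by
          rw [map_mul, Units.val_mul, one_mul, sub_mul, one_mul]
          abel
        rw [h1]
        exact hadd _ (hmul _ ha _ _) _ hb
      inv_mem' := by
        intro a ha
        show (mag α (ZMod p) a⁻¹ : Ser α (ZMod p)) - 1 ∈ I
        have h1 : (mag α (ZMod p) a⁻¹ : Ser α (ZMod p)) - 1 =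
            (-(mag α (ZMod p) a⁻¹ : Ser α (ZMod p))) *
              ((mag α (ZMod p) a : Ser α (ZMod p)) - 1) * 1 := by
          rw [mul_one, mul_sub, mul_one, neg_mul, ← Units.val_mul, ← map_mul, inv_mul_cancel,
            map_one, Units.val_one]
          abel
        rw [h1]
        exact hmul _ ha _ _ }
  have hN : N.Normal := by
    constructor
    intro a ha b
    show (mag α (ZMod p) (b * a * b⁻¹) : Ser α (ZMod p)) - 1 ∈ I
    have h1 : (mag α (ZMod p) (b * a * b⁻¹) : Ser α (ZMod p)) - 1 =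
        (mag α (ZMod p) b : Ser α (ZMod p)) * ((mag α (ZMod p) a : Ser α (ZMod p)) - 1) *
          (mag α (ZMod p) b⁻¹ : Ser α (ZMod p)) := by
      rw [mul_sub, sub_mul, mul_one, map_mul, map_mul, Units.val_mul, Units.val_mul,
        ← Units.val_mul (mag α (ZMod p) b) (mag α (ZMod p) b⁻¹), ← map_mul, mul_inv_cancel,
        map_one, Units.val_one]
    rw [h1]
    exact hmul _ ha _ _
  have hle : Subgroup.normalClosure R ≤ N := Subgroup.normalClosure_le_normal fun r hr => hR r hr
  let θ : FreeGroup Bool →* FreeGroup α := FreeGroup.lift fun b => bif b then g else g'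
  have hinj : Function.Injective (φ.comp θ) := by
    rw [injective_iff_map_eq_one]
    intro ω hω
    by_contra hne1
    have h1 : θ ω ∈ φ.ker := hω
    rw [hker] at h1
    have h2 : (mag α (ZMod p) (θ ω) : Ser α (ZMod p)) - 1 ∈ I := hle h1
    obtain ⟨m, hm, hlm⟩ := lead_pair p g g' _ _ hg hg' hl hne ω hne1
    rw [bw_bw] at hlm
    obtain ⟨l', hl'⟩ := hfac (bw l l' m)
    exact hlead _ h2 _ hlm l' hl'
  exact ⟨(φ.comp θ).comp (FreeGroup.freeGroupCongr finTwoEquiv).toMonoidHom,
    hinj.comp (FreeGroup.freeGroupCongr finTwoEquiv).injective⟩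

end core

end Pool.MW
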