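import Pool.Agent.Helper17.MW.Lead

/-!
# The diamond lemma for power series whose leading words do not overlap
-/

set_option autoImplicit false
set_option linter.unusedSectionVars false

namespace Pool.MW

open Ser

namespace Dia

section rank

variable {α : Type} [LinearOrder α] [Fintype α]

/-- number of words below `u` -/
noncomputable def rk (u : List α) : ℕ := Set.ncard {v : List α | le2 v u ∧ v ≠ u}

lemma fin_below (u : List α) : {v : List α | le2 v u ∧ v ≠ u}.Finite :=
  (List.finite_length_le α u.length).subset fun _ hv => le2_len hv.1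

lemma below_sub {u v : List α} (h : le2 u v) :
    {x : List α | le2 x u ∧ x ≠ u} ⊆ {x : List α | le2 x v ∧ x ≠ v} := by
  rintro x ⟨hx, hne⟩
  refine ⟨le2_trans hx h, ?_⟩
  rintro rfl
  exact hne (le2_antisymm hx h)

lemma rk_mono {u v : List α} (h : le2 u v) : rk u ≤ rk v :=
  Set.ncard_le_ncard (below_sub h) (fin_below v)

lemma rk_lt {u v : List α} (h : le2 u v) (hne : u ≠ v) : rk u < rk v := by
  apply Set.ncard_lt_ncard _ (fin_below v)
  refine ⟨below_sub h, fun hsub => ?_⟩
  exact (hsub (show u ∈ {x : List α | le2 x v ∧ x ≠ v} from ⟨h, hne⟩)).2 rfl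

lemma rk_inj {u v : List α} (h : rk u = rk v) : u = v := by
  by_contra hne
  rcases le2_total u v with h1 | h1
  · exact absurd h (rk_lt h1 hne).ne
  · exact absurd h (rk_lt h1 (Ne.symm hne)).ne'

end rank

section ser

variable {α K : Type} [LinearOrder α] [Field K]

lemma smul_mul_ser (c : K) (f g : Ser α K) : (c • f) * g = c • (f * g) :=
  funext fun w => mulS_smul_left c f g w

lemma mulS_smul_right (c : K) (f g : List α → K) (w : List α) :
    mulS f (fun u => c * g u) w = c * mulS f g w := by
  induction w generalizing f with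
  | nil => simp only [mulS]; ring
  | cons a w ih => simp only [mulS]; rw [ih]; ring

lemma mul_smul_ser (c : K) (f g : Ser α K) : f * (c • g) = c • (f * g) :=
  funext fun w => mulS_smul_right c f g w

lemma sum_apply_ser {ι : Type} (P : Finset ι) (g : ι → Ser α K) (w : List α) :
    (∑ i ∈ P, g i) w = ∑ i ∈ P, g i w := by
  classical
  induction P using Finset.induction_on with
  | empty => rfl
  | insert i P hi ih => rw [Finset.sum_insert hi, Finset.sum_insert hi, Ser.add_apply, ih]

/-- the part of a series outside a finite set of words -/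
def off (P : Finset (List α)) (x : Ser α K) : Ser α K := fun p => if p ∈ P then 0 else x p

lemma sum_ite_aux (P : Finset (List α)) (x : List α → K) (w : List α) :
    (∑ p ∈ P, if w = p then x p else 0) + (if w ∈ P then 0 else x w) = x w := by
  rw [Finset.sum_ite_eq]
  by_cases h : w ∈ P
  · rw [if_pos h, if_pos h, add_zero]
  · rw [if_neg h, if_neg h, zero_add]

lemma split (P : Finset (List α)) (x : Ser α K) :
    x = ∑ p ∈ P, x p • mon p + off P x := by
  funext w
  rw [Ser.add_apply, sum_apply_ser]
  have h : ∀ p ∈ P, (x p • mon p : Ser α K) w = if w = p then x p else 0 := by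
    intro p _
    rw [Ser.smul_apply]
    show x p * (if w = p then 1 else 0) = _
    by_cases hp : w = p
    · rw [if_pos hp, if_pos hp, mul_one]
    · rw [if_neg hp, if_neg hp, mul_zero]
  rw [Finset.sum_congr rfl h]
  exact (sum_ite_aux P x w).symm

lemma off_ne {P : Finset (List α)} {x : Ser α K} {p : List α} (h : off P x p ≠ 0) :
    p ∉ P ∧ x p ≠ 0 := by
  unfold off at h
  by_cases hp : p ∈ P
  · rw [if_pos hp] at h
    exact absurd rfl h
  · rw [if_neg hp] at h
    exact ⟨hp, h⟩

lemma mon_ne {p q : List α} (h : (mon p : Ser α K) q ≠ 0) : q = p := by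
  by_contra hne
  exact h (by show (if q = p then (1 : K) else 0) = 0; rw [if_neg hne])

end ser

section main

variable {α K : Type} [LinearOrder α] [Fintype α] [Field K]

/-- the span of the products all of whose leading words have rank at least `n` -/
def J (F : Set (Ser α K)) (L : Ser α K → List α) (n : ℕ) : Submodule K (Ser α K) :=
  Submodule.span K {x | ∃ a b : Ser α K, ∃ f ∈ F, x = a * f * b ∧
    ∀ p q, a p ≠ 0 → b q ≠ 0 → n ≤ rk (p ++ L f ++ q)}

/-- the monic form of a series -/
noncomputable def nf (L : Ser α K → List α) (f : Ser α K) : Ser α K := (f (L f))⁻¹ • f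

/-- the monic form without the leading word -/
noncomputable def tl (L : Ser α K → List α) (f : Ser α K) : Ser α K := nf L f - mon (L f)

/-- the monic monomial multiples with leading word `u` -/
def Mu (F : Set (Ser α K)) (L : Ser α K → List α) (u : List α) : Set (Ser α K) :=
  {x | ∃ a b : List α, ∃ f ∈ F, x = mon a * nf L f * mon b ∧ a ++ L f ++ b = u}

variable {F : Set (Ser α K)} {L : Ser α K → List α}

lemma mem_J {n : ℕ} {a b f : Ser α K} (hf : f ∈ F)
    (h : ∀ p q, a p ≠ 0 → b q ≠ 0 → n ≤ rk (p ++ L f ++ q)) : a * f * b ∈ J F L n :=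
  Submodule.subset_span ⟨a, b, f, hf, rfl, h⟩

lemma mem_J_nf {n : ℕ} {a b f : Ser α K} (hf : f ∈ F)
    (h : ∀ p q, a p ≠ 0 → b q ≠ 0 → n ≤ rk (p ++ L f ++ q)) : a * nf L f * b ∈ J F L n := by
  unfold nf
  rw [mul_smul_ser, smul_mul_ser]
  exact Submodule.smul_mem _ _ (mem_J hf h)

lemma tl_spec (hL : ∀ f ∈ F, Lead f (L f) ∧ L f ≠ []) {f : Ser α K} (hf : f ∈ F) {t : List α}
    (ht : tl L f t ≠ 0) : le2 (L f) t ∧ L f ≠ t := by
  have h0 : f (L f) ≠ 0 := (hL f hf).1.1
  have h1 : tl L f t = (f (L f))⁻¹ * f t - if t = L f then 1 else 0 := rfl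
  rw [h1] at ht
  by_cases h2 : t = L f
  · exfalso
    apply ht
    rw [if_pos h2, h2, inv_mul_cancel₀ h0, sub_self]
  · rw [if_neg h2, sub_zero] at ht
    exact ⟨(hL f hf).1.2 t (right_ne_zero_of_mul ht), Ne.symm h2⟩

/-- the words of the elements of `J n` have rank at least `n` -/
lemma J_supp (hL : ∀ f ∈ F, Lead f (L f) ∧ L f ≠ []) {n : ℕ} {h : Ser α K} (hh : h ∈ J F L n)
    (v : List α) (hv : h v ≠ 0) : n ≤ rk v := by
  unfold J at hh
  induction hh using Submodule.span_induction with
  | mem x hx =>
    obtain ⟨a, b, f, hf, rfl, hab⟩ := hx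
    obtain ⟨u, q, rfl, hu, hq⟩ := exists_of_mul_ne_zero _ _ _ hv
    obtain ⟨p, m, rfl, hp, hm⟩ := exists_of_mul_ne_zero _ _ _ hu
    exact (hab p q hp hq).trans
      (rk_mono (le2_app (le2_app (le2_refl p) ((hL f hf).1.2 m hm)) (le2_refl q)))
  | zero => exact absurd rfl hv
  | add x y _ _ hx hy =>
    rw [Ser.add_apply] at hv
    by_cases h0 : x v = 0
    · rw [h0, zero_add] at hv
      exact hy hv
    · exact hx h0
  | smul c x _ hx =>
    rw [Ser.smul_apply] at hv
    exact hx (right_ne_zero_of_mul hv)

/-- splitting off the products with leading word `u` -/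
lemma J_split (hL : ∀ f ∈ F, Lead f (L f) ∧ L f ≠ []) (u : List α) :
    J F L (rk u) ≤ Submodule.span K (Mu F L u) ⊔ J F L (rk u + 1) := by
  unfold J
  rw [Submodule.span_le]
  rintro _ ⟨a, b, f, hf, rfl, hab⟩
  show a * f * b ∈ Submodule.span K (Mu F L u) ⊔ J F L (rk u + 1)
  have hJ : ∀ x ∈ J F L (rk u + 1), x ∈ Submodule.span K (Mu F L u) ⊔ J F L (rk u + 1) :=
    fun x hx => Submodule.mem_sup_right hx
  have hstep : ∀ w : List α, rk u ≤ rk w → w ≠ u → rk u + 1 ≤ rk w := by
    intro w hw hne
    rcases hw.lt_or_eq with h | h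
    · exact h
    · exact absurd (rk_inj h).symm hne
  -- split `a`
  rw [split u.inits.toFinset a, add_mul, add_mul, Finset.sum_mul, Finset.sum_mul]
  refine Submodule.add_mem _ (Submodule.sum_mem _ ?_) (hJ _ (mem_J hf ?_))
  · intro p _
    rw [smul_mul_ser, smul_mul_ser]
    by_cases hp : a p = 0
    · rw [hp, zero_smul]
      exact Submodule.zero_mem _
    apply Submodule.smul_mem
    -- split `b`
    rw [split u.tails.toFinset b, mul_add, Finset.mul_sum]
    refine Submodule.add_mem _ (Submodule.sum_mem _ ?_) (hJ _ (mem_J hf ?_))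
    · intro q _
      rw [mul_smul_ser]
      by_cases hq : b q = 0
      · rw [hq, zero_smul]
        exact Submodule.zero_mem _
      apply Submodule.smul_mem
      by_cases hu : p ++ L f ++ q = u
      · apply Submodule.mem_sup_left
        have h0 : f (L f) ≠ 0 := (hL f hf).1.1
        have h1 : (mon p * f * mon q : Ser α K) = f (L f) • (mon p * nf L f * mon q) := by
          unfold nf
          rw [mul_smul_ser, smul_mul_ser, smul_smul, mul_inv_cancel₀ h0, one_smul]
        rw [h1]
        exact Submodule.smul_mem _ _ (Submodule.subset_span ⟨p, q, f, hf, rfl, hu⟩)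
      · apply hJ
        apply mem_J hf
        intro p' q' hp' hq'
        rw [mon_ne hp', mon_ne hq']
        exact hstep _ (hab p q hp hq) hu
    · intro p' q' hp' hq'
      rw [mon_ne hp']
      obtain ⟨h1, h2⟩ := off_ne hq'
      refine hstep _ (hab p q' hp h2) ?_
      intro hu
      apply h1
      rw [List.mem_toFinset, List.mem_tails]
      exact ⟨_, hu⟩
  · intro p' q' hp' hq'
    obtain ⟨h1, h2⟩ := off_ne hp'
    refine hstep _ (hab p' q' h2 hq') ?_
    intro hu
    apply h1
    rw [List.mem_toFinset, List.mem_inits]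
    exact ⟨L f ++ q', by rw [← List.append_assoc]; exact hu⟩

/-- disjoint occurrences -/
lemma disj (hL : ∀ f ∈ F, Lead f (L f) ∧ L f ≠ []) {f g : Ser α K} (hf : f ∈ F) (hg : g ∈ F)
    (a c b : List α) :
    mon a * nf L f * mon (c ++ L g ++ b) - mon (a ++ L f ++ c) * nf L g * mon b ∈
      J F L (rk (a ++ L f ++ c ++ L g ++ b) + 1) := by
  have hkey : (mon a * nf L f * mon (c ++ L g ++ b) - mon (a ++ L f ++ c) * nf L g * mon b :
      Ser α K) = (mon a * tl L f * mon c) * nf L g * mon b -
        mon a * nf L f * (mon c * tl L g * mon b) := by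
    unfold tl
    rw [mon_append, mon_append, mon_append, mon_append]
    noncomm_ring
  rw [hkey]
  apply Submodule.sub_mem
  · apply mem_J_nf hg
    intro p q hp hq
    rw [mon_ne hq]
    obtain ⟨u, v, rfl, hu, hv⟩ := exists_of_mul_ne_zero _ _ _ hp
    obtain ⟨s, t, rfl, hs, ht⟩ := exists_of_mul_ne_zero _ _ _ hu
    rw [mon_ne hs, mon_ne hv]
    obtain ⟨h1, h2⟩ := tl_spec hL hf ht
    apply rk_lt
    · exact le2_app (le2_app (le2_app (le2_app (le2_refl _) h1) (le2_refl _)) (le2_refl _))
        (le2_refl _)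
    · intro h
      apply h2
      simpa using h
  · apply mem_J_nf hf
    intro p q hp hq
    rw [mon_ne hp]
    obtain ⟨u, v, rfl, hu, hv⟩ := exists_of_mul_ne_zero _ _ _ hq
    obtain ⟨s, t, rfl, hs, ht⟩ := exists_of_mul_ne_zero _ _ _ hu
    rw [mon_ne hs, mon_ne hv]
    obtain ⟨h1, h2⟩ := tl_spec hL hg ht
    have h3 : a ++ L f ++ (c ++ t ++ b) = a ++ L f ++ c ++ t ++ b := by
      simp only [List.append_assoc]
    rw [h3]
    apply rk_lt
    · exact le2_app (le2_app (le2_refl _) h1) (le2_refl _)
    · intro h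
      apply h2
      simpa using h

/-- two monomial multiples with the same leading word, the first one further left -/
lemma diff_of_le (hL : ∀ f ∈ F, Lead f (L f) ∧ L f ≠ [])
    (h1 : ∀ f ∈ F, ∀ g ∈ F, L f <:+: L g → f = g)
    (h2 : ∀ f ∈ F, ∀ g ∈ F, ∀ x y z : List α, x ≠ [] → y ≠ [] → z ≠ [] →
      ¬ (L f = x ++ y ∧ L g = y ++ z)) {f g : Ser α K} (hf : f ∈ F) (hg : g ∈ F)
    (a b a' b' : List α) (h : a ++ L f ++ b = a' ++ L g ++ b') (hle : a.length ≤ a'.length) :
    mon a * nf L f * mon b - mon a' * nf L g * mon b' ∈ J F L (rk (a ++ L f ++ b) + 1) := by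
  -- `a'` starts with `a`
  obtain ⟨c, rfl⟩ : ∃ c, a' = a ++ c := by
    have h3 : a <+: a' := by
      apply List.prefix_of_prefix_length_le (l₃ := a ++ L f ++ b) _ _ hle
      · exact ⟨L f ++ b, by simp⟩
      · rw [h]
        exact ⟨L g ++ b', by simp⟩
    obtain ⟨c, hc⟩ := h3
    exact ⟨c, hc.symm⟩
  have h3 : L f ++ b = c ++ (L g ++ b') := by
    have h4 : a ++ (L f ++ b) = a ++ (c ++ (L g ++ b')) := by
      simpa [List.append_assoc] using h
    exact List.append_cancel_left h4
  rcases List.append_eq_append_iff.1 h3 with ⟨c', hc, hb⟩ | ⟨y, hy, hb⟩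
  · -- `c = L f ++ c'`, `b = c' ++ (L g ++ b')`
    subst hc
    rw [hb]
    have h5 := disj hL hf hg a c' b'
    have h6 : a ++ L f ++ (c' ++ (L g ++ b')) = a ++ L f ++ c' ++ L g ++ b' := by
      simp only [List.append_assoc]
    have h7 : a ++ (L f ++ c') = a ++ L f ++ c' := by simp only [List.append_assoc]
    have h8 : c' ++ (L g ++ b') = c' ++ L g ++ b' := by simp only [List.append_assoc]
    rw [h6, h7, h8]
    exact h5
  · -- `L f = c ++ y`, `L g ++ b' = y ++ b`
    rcases List.append_eq_append_iff.1 hb with ⟨z, hz, hb2⟩ | ⟨z, hz, hb2⟩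
    · -- `y = L g ++ z`
      have hgf : g = f := by
        apply h1 g hg f hf
        rw [hy, hz]
        exact ⟨c, z, by simp only [List.append_assoc]⟩
      subst hgf
      have hlen : c = [] ∧ z = [] := by
        have h5 := congrArg List.length hy
        rw [hz] at h5
        simp only [List.length_append] at h5
        exact ⟨List.length_eq_zero_iff.1 (by omega), List.length_eq_zero_iff.1 (by omega)⟩
      obtain ⟨rfl, rfl⟩ := hlen
      have hbb : b = b' := by simpa using hb2.symm
      rw [List.append_nil, hbb, sub_self]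
      exact Submodule.zero_mem _
    · -- `L g = y ++ z`
      by_cases hcn : c = []
      · subst hcn
        have hfg : f = g := by
          apply h1 f hf g hg
          rw [hz, hy]
          exact ⟨[], z, by simp⟩
        subst hfg
        have hbb : b = b' := by
          have := List.append_cancel_left (h3.trans (List.nil_append _))
          exact this
        rw [List.append_nil, hbb, sub_self]
        exact Submodule.zero_mem _
      by_cases hyn : y = []
      · -- disjoint, `c = L f`
        subst hyn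
        rw [List.append_nil] at hy
        subst hy
        have h5 := disj hL hf hg a [] b'
        have hbb : b = L g ++ b' := by simpa using hb.symm
        rw [hbb]
        simpa only [List.nil_append, List.append_nil, List.append_assoc] using h5
      by_cases hzn : z = []
      · subst hzn
        rw [List.append_nil] at hz
        have hgf : g = f := by
          apply h1 g hg f hf
          rw [hy, ← hz]
          exact ⟨c, [], by simp⟩
        subst hgf
        exfalso
        apply hcn
        have h5 := congrArg List.length hy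
        rw [← hz] at h5
        simp only [List.length_append] at h5
        exact List.length_eq_zero_iff.1 (by omega)
      exact absurd ⟨hy, hz⟩ (h2 f hf g hg c y z hcn hyn hzn)

/-- two monomial multiples with the same leading word -/
lemma diff_mem (hL : ∀ f ∈ F, Lead f (L f) ∧ L f ≠ [])
    (h1 : ∀ f ∈ F, ∀ g ∈ F, L f <:+: L g → f = g)
    (h2 : ∀ f ∈ F, ∀ g ∈ F, ∀ x y z : List α, x ≠ [] → y ≠ [] → z ≠ [] →
      ¬ (L f = x ++ y ∧ L g = y ++ z)) (u : List α) {x y : Ser α K} (hx : x ∈ Mu F L u)
    (hy : y ∈ Mu F L u) : x - y ∈ J F L (rk u + 1) := by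
  obtain ⟨a, b, f, hf, rfl, hab⟩ := hx
  obtain ⟨a', b', g, hg, rfl, hab'⟩ := hy
  rcases le_total a.length a'.length with hle | hle
  · have := diff_of_le hL h1 h2 hf hg a b a' b' (hab.trans hab'.symm) hle
    rwa [hab] at this
  · have := diff_of_le hL h1 h2 hg hf a' b' a b (hab'.trans hab.symm) hle
    rw [hab'] at this
    rw [← neg_sub]
    exact Submodule.neg_mem _ this

/-- coefficient of a monic monomial multiple at its leading word -/
lemma mu_coeff (hL : ∀ f ∈ F, Lead f (L f) ∧ L f ≠ []) {u : List α} {x : Ser α K}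
    (hx : x ∈ Mu F L u) : x u = 1 := by
  obtain ⟨a, b, f, hf, rfl, rfl⟩ := hx
  have h0 : f (L f) ≠ 0 := (hL f hf).1.1
  have hlow := lead_low (hL f hf).1
  have hlow' : ∀ v : List α, v.length < (L f).length → nf L f v = 0 := by
    intro v hv
    show (f (L f))⁻¹ * f v = 0
    rw [hlow v hv, mul_zero]
  have hmon : ∀ c : List α, ∀ v : List α, v.length < c.length → (mon c : Ser α K) v = 0 := by
    intro c v hv
    by_contra hne
    rw [mon_ne hne] at hv
    exact absurd hv (lt_irrefl _)
  have h3 : ∀ v : List α, v.length < (a ++ L f).length → (mon a * nf L f : Ser α K) v = 0 := by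
    intro v hv
    by_contra hne
    obtain ⟨s, t, rfl, hs, ht⟩ := exists_of_mul_ne_zero _ _ _ hne
    rw [mon_ne hs, List.length_append, List.length_append] at hv
    exact ht (hlow' t (by omega))
  rw [mul_append _ _ (a ++ L f) b h3 (hmon b), mul_append _ _ a (L f) (hmon a) hlow']
  show (if a = a then (1 : K) else 0) * ((f (L f))⁻¹ * f (L f)) * (if b = b then 1 else 0) = 1
  rw [if_pos rfl, if_pos rfl, inv_mul_cancel₀ h0, mul_one, mul_one]

/-- going up by one word -/
lemma J_succ (hL : ∀ f ∈ F, Lead f (L f) ∧ L f ≠ [])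
    (h1 : ∀ f ∈ F, ∀ g ∈ F, L f <:+: L g → f = g)
    (h2 : ∀ f ∈ F, ∀ g ∈ F, ∀ x y z : List α, x ≠ [] → y ≠ [] → z ≠ [] →
      ¬ (L f = x ++ y ∧ L g = y ++ z)) (u : List α) {h : Ser α K} (hh : h ∈ J F L (rk u))
    (hu : h u = 0 ∨ ¬ ∃ f ∈ F, L f <:+: u) : h ∈ J F L (rk u + 1) := by
  have h3 := J_split hL u hh
  by_cases hne : (Mu F L u).Nonempty
  · obtain ⟨m, hm⟩ := hne
    have h4 : Submodule.span K (Mu F L u) ⊔ J F L (rk u + 1) ≤
        Submodule.span K {m} ⊔ J F L (rk u + 1) := by
      apply sup_le _ le_sup_right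
      rw [Submodule.span_le]
      intro x hx
      have h5 : x = m + (x - m) := by abel
      rw [h5]
      exact Submodule.add_mem _
        (Submodule.mem_sup_left (Submodule.subset_span (Set.mem_singleton m)))
        (Submodule.mem_sup_right (diff_mem hL h1 h2 u hx hm))
    obtain ⟨y, hy, z, hz, rfl⟩ := Submodule.mem_sup.1 (h4 h3)
    obtain ⟨c, rfl⟩ := Submodule.mem_span_singleton.1 hy
    have hzu : z u = 0 := by
      by_contra hne
      have := J_supp hL hz u hne
      omega
    have h6 : (c • m + z : Ser α K) u = c := by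
      rw [Ser.add_apply, Ser.smul_apply, mu_coeff hL hm, hzu, mul_one, add_zero]
    rcases hu with hu | hu
    · rw [h6] at hu
      rw [hu, zero_smul, zero_add]
      exact hz
    · exfalso
      apply hu
      obtain ⟨a, b, f, hf, -, hab⟩ := hm
      exact ⟨f, hf, ⟨a, b, hab⟩⟩
  · rw [Set.not_nonempty_iff_eq_empty.1 hne, Submodule.span_empty, bot_sup_eq] at h3
    exact h3

end main

end Dia

open Dia in
/-- ROW Dia: the diamond lemma for power series whose leading words do not overlap -/
theorem dia {α K : Type} [LinearOrder α] [Fintype α] [Field K] (F : Set (Ser α K))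
    (L : Ser α K → List α) (hL : ∀ f ∈ F, Lead f (L f) ∧ L f ≠ [])
    (h1 : ∀ f ∈ F, ∀ g ∈ F, L f <:+: L g → f = g)
    (h2 : ∀ f ∈ F, ∀ g ∈ F, ∀ x y z : List α, x ≠ [] → y ≠ [] → z ≠ [] →
      ¬ (L f = x ++ y ∧ L g = y ++ z))
    (h : Ser α K) (hh : h ∈ Submodule.span K {x | ∃ a b : Ser α K, ∃ f ∈ F, x = a * f * b})
    (w : List α) (hw : Lead h w) : ∃ f ∈ F, L f <:+: w := by
  have hJ0 : h ∈ J F L 0 := by
    unfold J
    refine Submodule.span_mono ?_ hh
    rintro _ ⟨a, b, f, hf, rfl⟩
    exact ⟨a, b, f, hf, rfl, fun _ _ _ _ => Nat.zero_le _⟩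
  -- `h` lies in `J n` for all `n` up to the rank of `w`
  have hJ : ∀ n ≤ rk w, h ∈ J F L n := by
    intro n
    induction n with
    | zero => exact fun _ => hJ0
    | succ n ih =>
      intro hn
      have h3 := ih (by omega)
      by_cases hex : ∃ u : List α, rk u = n
      · obtain ⟨u, rfl⟩ := hex
        refine J_succ hL h1 h2 u h3 (Or.inl ?_)
        by_contra hne
        have := rk_mono (hw.2 u hne)
        omega
      · unfold J at h3 ⊢
        refine Submodule.span_mono ?_ h3
        rintro _ ⟨a, b, f, hf, rfl, hab⟩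
        refine ⟨a, b, f, hf, rfl, fun p q hp hq => ?_⟩
        have h4 := hab p q hp hq
        rcases h4.lt_or_eq with h5 | h5
        · exact h5
        · exact absurd ⟨_, h5.symm⟩ hex
  by_contra hno
  have h4 := J_succ hL h1 h2 w (hJ _ le_rfl) (Or.inr hno)
  have h5 := J_supp hL h4 w hw.1
  omega

end Pool.MW
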