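import Pool.Agent.Helper17.MW.FinalB
import Pool.Agent.Helper17.MW.Dia

/-!
# Relators the leading words of whose linear combinations do not overlap
-/

set_option autoImplicit false
set_option linter.unusedSectionVars false

namespace Pool.MW

open Ser Pool.H96.GS

/-- the leading words of the linear combinations of the `r - 1`, `r ∈ R` -/
def spanWords (p : ℕ) [Fact p.Prime] {d : ℕ} (R : Set (FreeGroup (Fin d))) :
    Set (List (Fin d)) :=
  {w | ∃ f ∈ Submodule.span (ZMod p) {x : Ser (Fin d) (ZMod p) | ∃ r ∈ R,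
    x = (mag (Fin d) (ZMod p) r : Ser (Fin d) (ZMod p)) - 1}, Lead f w}

namespace Cup

variable {p d : ℕ} [Fact p.Prime]

/-- the span of the `r - 1` -/
noncomputable def W (p : ℕ) [Fact p.Prime] {d : ℕ} (R : Set (FreeGroup (Fin d))) :
    Submodule (ZMod p) (Ser (Fin d) (ZMod p)) :=
  Submodule.span (ZMod p) {x : Ser (Fin d) (ZMod p) | ∃ r ∈ R,
    x = (mag (Fin d) (ZMod p) r : Ser (Fin d) (ZMod p)) - 1}

lemma lead_unique {K : Type} [Field K] (f : Ser (Fin d) K) (u v : List (Fin d))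
    (hu : Lead f u) (hv : Lead f v) : u = v :=
  le2_antisymm (hu.2 v hv.1) (hv.2 u hu.1)

lemma lead_exists {K : Type} [Field K] (f : Ser (Fin d) K) (hf : f ≠ 0) : ∃ u, Lead f u := by
  obtain ⟨w0, hw0⟩ : ∃ w, f w ≠ 0 := by
    by_contra hcon
    push Not at hcon
    exact hf (funext hcon)
  obtain ⟨u, ⟨huw, huf⟩, humin⟩ := Set.exists_min_image
    {v : List (Fin d) | v.length ≤ w0.length ∧ f v ≠ 0} (fun v => Dia.rk v)
    ((List.finite_length_le (Fin d) w0.length).subset fun v hv => hv.1) ⟨w0, le_rfl, hw0⟩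
  refine ⟨u, huf, fun w hw => ?_⟩
  rcases le2_total u w with h | h
  · exact h
  · by_cases hne : w = u
    · rw [hne]
      exact le2_refl u
    · have h1 := Dia.rk_lt h hne
      have h2 := humin w ⟨(le2_len h).trans huw, hw⟩
      have h3 : Dia.rk u ≤ Dia.rk w := h2
      omega

lemma W_ind {R : Set (FreeGroup (Fin d))} {w : List (Fin d)}
    (h : ∀ r ∈ R, ((mag (Fin d) (ZMod p) r : Ser (Fin d) (ZMod p)) - 1) w = 0)
    {f : Ser (Fin d) (ZMod p)} (hf : f ∈ W p R) : f w = 0 := by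
  unfold W at hf
  induction hf using Submodule.span_induction with
  | mem x hx =>
    obtain ⟨r, hr, rfl⟩ := hx
    exact h r hr
  | zero => rfl
  | add x y _ _ hx hy => rw [Ser.add_apply, hx, hy, add_zero]
  | smul c x _ hx => rw [Ser.smul_apply, hx, mul_zero]

lemma W_nil {R : Set (FreeGroup (Fin d))} {f : Ser (Fin d) (ZMod p)} (hf : f ∈ W p R) :
    f [] = 0 := by
  refine W_ind (fun r _ => ?_) hf
  rw [Ser.sub_apply, mag_nil, one_nil, sub_self]

lemma W_finite {R : Set (FreeGroup (Fin d))} (hfin : R.Finite) :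
    (W p R : Set (Ser (Fin d) (ZMod p))).Finite := by
  have h1 : {x : Ser (Fin d) (ZMod p) | ∃ r ∈ R,
      x = (mag (Fin d) (ZMod p) r : Ser (Fin d) (ZMod p)) - 1}.Finite := by
    refine (hfin.image fun r => (mag (Fin d) (ZMod p) r : Ser (Fin d) (ZMod p)) - 1).subset ?_
    rintro x ⟨r, hr, rfl⟩
    exact ⟨r, hr, rfl⟩
  have : Module.Finite (ZMod p) (W p R) := by
    rw [Module.Finite.iff_fg]
    exact Submodule.fg_span h1
  have : Finite (W p R) := Module.finite_of_finite (ZMod p)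
  exact Set.toFinite _

end Cup

open Cup in
/-- **Relators the leading words of whose linear combinations do not overlap.** -/
theorem span_lead {p d : ℕ} [Fact p.Prime] (R : Set (FreeGroup (Fin d))) (hfin : R.Finite)
    (hfac : ∀ u ∈ spanWords p R, ∀ v ∈ spanWords p R, u <:+: v → u = v)
    (hov : ∀ u ∈ spanWords p R, ∀ v ∈ spanWords p R, ∀ x y z : List (Fin d),
      x ≠ [] → y ≠ [] → z ≠ [] → ¬ (u = x ++ y ∧ v = y ++ z)) :
    (spanWords p R).Finite ∧
      ∀ w : List (Fin d), w ∈ leadWords p R ↔ ∃ u ∈ spanWords p R, u <:+: w := by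
  classical
  have hC : spanWords p R = {u | ∃ f ∈ W p R, Lead f u} := rfl
  -- finitely many leading words
  have hCfin : (spanWords p R).Finite := by
    have h1 : spanWords p R ⊆ ⋃ f ∈ (W p R : Set (Ser (Fin d) (ZMod p))), {u | Lead f u} := by
      rintro u ⟨f, hf, hfu⟩
      exact Set.mem_biUnion hf hfu
    refine Set.Finite.subset ((W_finite hfin).biUnion fun f _ => ?_) h1
    exact Set.Subsingleton.finite fun u hu v hv => lead_unique f u v hu hv
  refine ⟨hCfin, ?_⟩
  -- one element for each leading word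
  have hch : ∀ u : List (Fin d), ∃ f, u ∈ spanWords p R → f ∈ W p R ∧ Lead f u := by
    intro u
    by_cases hu : u ∈ spanWords p R
    · obtain ⟨f, hf, hfu⟩ := hu
      exact ⟨f, fun _ => ⟨hf, hfu⟩⟩
    · exact ⟨0, fun h => absurd h hu⟩
  choose e he using hch
  set F : Set (Ser (Fin d) (ZMod p)) := e '' spanWords p R with hF
  -- `W` is spanned by these elements
  have hspan : ∀ f ∈ W p R, f ∈ Submodule.span (ZMod p) F := by
    by_contra hcon
    push Not at hcon
    obtain ⟨f, hf, hfn⟩ := hcon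
    have hf0 : f ≠ 0 := by
      rintro rfl
      exact hfn (Submodule.zero_mem _)
    obtain ⟨l, hl⟩ := lead_exists f hf0
    obtain ⟨u, ⟨huC, g, hg, hgu, hgn⟩, humax⟩ := Set.exists_max_image
      {u : List (Fin d) | u ∈ spanWords p R ∧
        ∃ g ∈ W p R, Lead g u ∧ g ∉ Submodule.span (ZMod p) F}
      (fun u => Dia.rk u) (hCfin.subset fun u hu => hu.1)
      ⟨l, ⟨f, hf, hl⟩, f, hf, hl, hfn⟩
    obtain ⟨heW, heL⟩ := he u huC
    have heF : e u ∈ Submodule.span (ZMod p) F := Submodule.subset_span ⟨u, huC, rfl⟩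
    set c : ZMod p := g u * (e u u)⁻¹ with hc
    set g' : Ser (Fin d) (ZMod p) := g - c • e u with hg'
    have hg'W : g' ∈ W p R := Submodule.sub_mem _ hg (Submodule.smul_mem _ _ heW)
    have hg'n : g' ∉ Submodule.span (ZMod p) F := by
      intro h
      apply hgn
      have h3 : g = g' + c • e u := by rw [hg']; abel
      rw [h3]
      exact Submodule.add_mem _ h (Submodule.smul_mem _ _ heF)
    have hg'0 : g' ≠ 0 := by
      intro h
      exact hg'n (h ▸ Submodule.zero_mem _)
    obtain ⟨l', hl'⟩ := lead_exists g' hg'0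
    have h4 := humax l' ⟨⟨g', hg'W, hl'⟩, g', hg'W, hl', hg'n⟩
    -- the leading word has become larger
    have h5 : g' u = 0 := by
      rw [hg', Ser.sub_apply, Ser.smul_apply, hc, mul_assoc, inv_mul_cancel₀ heL.1, mul_one,
        sub_self]
    have h6 : le2 u l' := by
      by_cases h7 : g l' = 0
      · have h8 : e u l' ≠ 0 := by
          intro h8
          apply hl'.1
          rw [hg', Ser.sub_apply, Ser.smul_apply, h7, h8, mul_zero, sub_zero]
        exact heL.2 _ h8
      · exact hgu.2 _ h7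
    have h7 : u ≠ l' := by
      intro h
      rw [← h] at hl'
      exact hl'.1 h5
    have h8 := Dia.rk_lt h6 h7
    have h9 : Dia.rk l' ≤ Dia.rk u := h4
    omega
  -- leading words as a function
  have hLw : ∀ f : Ser (Fin d) (ZMod p), ∃ u, (∃ v, Lead f v) → Lead f u := by
    intro f
    by_cases h : ∃ v, Lead f v
    · obtain ⟨v, hv⟩ := h
      exact ⟨v, fun _ => hv⟩
    · exact ⟨[], fun h' => absurd h' h⟩
  choose L hL using hLw
  have hLe : ∀ u ∈ spanWords p R, L (e u) = u := fun u hu =>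
    lead_unique (e u) _ _ (hL (e u) ⟨u, (he u hu).2⟩) (he u hu).2
  refine fun w => ⟨?_, ?_⟩
  · rintro ⟨h, hh, hw⟩
    have hh' : h ∈ Submodule.span (ZMod p)
        {x | ∃ a b : Ser (Fin d) (ZMod p), ∃ f ∈ F, x = a * f * b} := by
      unfold rid at hh
      refine (Submodule.span_le.2 ?_) hh
      rintro _ ⟨a, b, r, hr, rfl⟩
      have h3 : (mag (Fin d) (ZMod p) r : Ser (Fin d) (ZMod p)) - 1 ∈
          Submodule.span (ZMod p) F := hspan _ (Submodule.subset_span ⟨r, hr, rfl⟩)
      show a * ((mag (Fin d) (ZMod p) r : Ser (Fin d) (ZMod p)) - 1) * b ∈ _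
      refine Submodule.span_induction ?_ ?_ ?_ ?_ h3
      · intro x hx
        exact Submodule.subset_span ⟨a, b, x, hx, rfl⟩
      · rw [mul_zero, zero_mul]
        exact Submodule.zero_mem _
      · intro x y _ _ hx hy
        rw [mul_add, add_mul]
        exact Submodule.add_mem _ hx hy
      · intro c x _ hx
        rw [Dia.mul_smul_ser, Dia.smul_mul_ser]
        exact Submodule.smul_mem _ _ hx
    have d1 : ∀ f ∈ F, Lead f (L f) ∧ L f ≠ [] := by
      rintro _ ⟨u, hu, rfl⟩
      rw [hLe u hu]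
      refine ⟨(he u hu).2, ?_⟩
      rintro rfl
      exact (he [] hu).2.1 (W_nil (he [] hu).1)
    have d2 : ∀ f ∈ F, ∀ g ∈ F, L f <:+: L g → f = g := by
      rintro _ ⟨u, hu, rfl⟩ _ ⟨v, hv, rfl⟩ huv
      rw [hLe u hu, hLe v hv] at huv
      rw [hfac u hu v hv huv]
    have d3 : ∀ f ∈ F, ∀ g ∈ F, ∀ x y z : List (Fin d), x ≠ [] → y ≠ [] → z ≠ [] →
        ¬ (L f = x ++ y ∧ L g = y ++ z) := by
      rintro _ ⟨u, hu, rfl⟩ _ ⟨v, hv, rfl⟩ x y z hx hy hz h3
      rw [hLe u hu, hLe v hv] at h3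
      exact hov u hu v hv x y z hx hy hz h3
    obtain ⟨_, ⟨u, hu, rfl⟩, hfu⟩ := dia F L d1 d2 d3 h hh' w hw
    rw [hLe u hu] at hfu
    exact ⟨u, hu, hfu⟩
  · rintro ⟨u, ⟨f, hf, hfu⟩, huw⟩
    rw [← leadWords_iff]
    intro hav
    refine hav u ⟨f, ?_, hfu⟩ huw
    have h3 : W p R ≤ rid (ZMod p) R := by
      unfold W
      rw [Submodule.span_le]
      rintro _ ⟨r, hr, rfl⟩
      exact Submodule.subset_span ⟨1, 1, r, hr, by rw [one_mul, mul_one]⟩
    exact h3 hf

end Pool.MW
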