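import Pool.Agent.Helper17.MW.Cup

/-!
# The cup product criterion
-/

set_option autoImplicit false
set_option linter.unusedSectionVars false

namespace Pool.MW

open Ser Pool.H96.GS

namespace Cup

variable {p d : ℕ} [Fact p.Prime]

/-- the coefficients of the words `X_i X_j` with `i < k ≤ j` -/
def E (K : Type) [Field K] (d k : ℕ) : Ser (Fin d) K →ₗ[K] (Fin d × Fin d → K) where
  toFun f q := if (q.1 : ℕ) < k ∧ k ≤ (q.2 : ℕ) then f [q.1, q.2] else 0
  map_add' f g := by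
    funext q
    show (if (q.1 : ℕ) < k ∧ k ≤ (q.2 : ℕ) then f [q.1, q.2] + g [q.1, q.2] else 0) =
      (if (q.1 : ℕ) < k ∧ k ≤ (q.2 : ℕ) then f [q.1, q.2] else 0) +
        (if (q.1 : ℕ) < k ∧ k ≤ (q.2 : ℕ) then g [q.1, q.2] else 0)
    by_cases h : (q.1 : ℕ) < k ∧ k ≤ (q.2 : ℕ)
    · rw [if_pos h, if_pos h, if_pos h]
    · rw [if_neg h, if_neg h, if_neg h, add_zero]
  map_smul' c f := by
    funext q
    show (if (q.1 : ℕ) < k ∧ k ≤ (q.2 : ℕ) then c * f [q.1, q.2] else 0) =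
      c * (if (q.1 : ℕ) < k ∧ k ≤ (q.2 : ℕ) then f [q.1, q.2] else 0)
    by_cases h : (q.1 : ℕ) < k ∧ k ≤ (q.2 : ℕ)
    · rw [if_pos h, if_pos h]
    · rw [if_neg h, if_neg h, mul_zero]

/-- the leading words of the nonzero elements of `W` -/
lemma lead_W (k : ℕ) (R : Set (FreeGroup (Fin d))) (h2 : ∀ r ∈ R, 2 ≤ deg p r)
    (hU : ∀ r ∈ R, ∀ i j : Fin d, (i : ℕ) < k → (j : ℕ) < k → cf (ZMod p) r [i, j] = 0)
    (hli : LinearIndependent (ZMod p) (fun (r : R) (q : Fin d × Fin d) =>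
      if (q.1 : ℕ) < k ∧ k ≤ (q.2 : ℕ) then cf (ZMod p) (r : FreeGroup (Fin d)) [q.1, q.2] else 0))
    (f : Ser (Fin d) (ZMod p)) (hf : f ∈ W p R) (hf0 : f ≠ 0) :
    ∃ i j : Fin d, (i : ℕ) < k ∧ k ≤ (j : ℕ) ∧ Lead f [i, j] := by
  have hlow : ∀ w : List (Fin d), w.length < 2 → f w = 0 := by
    intro w hw
    refine W_ind (fun r hr => ?_) hf
    by_cases hw0 : w = []
    · subst hw0
      rw [Ser.sub_apply, mag_nil, one_nil, sub_self]
    · rw [Ser.sub_apply, one_apply, if_neg hw0, sub_zero]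
      by_contra hne
      have h3 := deg_le r w hw0 hne
      have h4 := h2 r hr
      omega
  have hUU : ∀ i j : Fin d, (i : ℕ) < k → (j : ℕ) < k → f [i, j] = 0 := by
    intro i j hi hj
    refine W_ind (fun r hr => ?_) hf
    rw [Ser.sub_apply, one_cons, sub_zero]
    exact hU r hr i j hi hj
  have hE : E (ZMod p) d k f ≠ 0 := by
    intro h0
    have hW : W p R = Submodule.span (ZMod p) (Set.range fun r : R =>
        (mag (Fin d) (ZMod p) (r : FreeGroup (Fin d)) : Ser (Fin d) (ZMod p)) - 1) := by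
      unfold W
      congr 1
      ext x
      constructor
      · rintro ⟨r, hr, rfl⟩
        exact ⟨⟨r, hr⟩, rfl⟩
      · rintro ⟨r, rfl⟩
        exact ⟨r, r.2, rfl⟩
    have hdis : Disjoint (W p R) (LinearMap.ker (E (ZMod p) d k)) := by
      rw [hW]
      apply Submodule.range_ker_disjoint
      convert hli using 1
      funext r q
      show (if (q.1 : ℕ) < k ∧ k ≤ (q.2 : ℕ) then
        ((mag (Fin d) (ZMod p) (r : FreeGroup (Fin d)) : Ser (Fin d) (ZMod p)) - 1) [q.1, q.2]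
        else 0) = _
      rw [Ser.sub_apply, one_cons, sub_zero]
      rfl
    have h1 : f ∈ (⊥ : Submodule (ZMod p) (Ser (Fin d) (ZMod p))) :=
      hdis.le_bot ⟨hf, h0⟩
    exact hf0 ((Submodule.mem_bot _).1 h1)
  obtain ⟨⟨i0, j0⟩, hq⟩ := Function.ne_iff.1 hE
  have hij : ((i0 : ℕ) < k ∧ k ≤ (j0 : ℕ)) ∧ f [i0, j0] ≠ 0 := by
    by_cases h : (i0 : ℕ) < k ∧ k ≤ (j0 : ℕ)
    · refine ⟨h, fun h0 => hq ?_⟩
      show (if (i0 : ℕ) < k ∧ k ≤ (j0 : ℕ) then f [i0, j0] else 0) = 0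
      rw [if_pos h, h0]
    · exact absurd (if_neg h) hq
  obtain ⟨⟨hi0, hj0⟩, hf00⟩ := hij
  -- the first word of length two
  obtain ⟨u, ⟨hu2, huf⟩, humin⟩ := Set.exists_min_image
    {v : List (Fin d) | v.length = 2 ∧ f v ≠ 0} id
    ((List.finite_length_eq (Fin d) 2).subset fun v hv => hv.1) ⟨[i0, j0], rfl, hf00⟩
  obtain ⟨i, j, rfl⟩ := List.length_eq_two.1 hu2
  have hle : [i, j] ≤ [i0, j0] := humin [i0, j0] ⟨rfl, hf00⟩
  have hi : (i : ℕ) < k := by
    by_contra hcon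
    have h3 : i0 < i := by
      rw [Fin.lt_def]
      omega
    have h4 : [i0, j0] < [i, j] := by
      rw [List.cons_lt_cons_iff]
      exact Or.inl h3
    exact absurd hle (not_le.2 h4)
  have hj : k ≤ (j : ℕ) := by
    by_contra hcon
    exact huf (hUU i j hi (by omega))
  refine ⟨i, j, hi, hj, huf, fun w hw => ?_⟩
  have h3 : ¬ w.length < 2 := fun h => hw (hlow w h)
  by_cases h4 : w.length = 2
  · exact Or.inr ⟨h4.symm, humin w ⟨h4, hw⟩⟩
  · left
    show 2 < w.length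
    omega

end Cup

open Cup in
/-- **The cup product criterion**: the linear combinations have leading words `X_i X_j` with
`i < k ≤ j`, which do not overlap. -/
theorem cup_over {p d : ℕ} [Fact p.Prime] (k : ℕ) (R : Set (FreeGroup (Fin d)))
    (h2 : ∀ r ∈ R, 2 ≤ deg p r)
    (hU : ∀ r ∈ R, ∀ i j : Fin d, (i : ℕ) < k → (j : ℕ) < k → cf (ZMod p) r [i, j] = 0)
    (hli : LinearIndependent (ZMod p) (fun (r : R) (q : Fin d × Fin d) =>
      if (q.1 : ℕ) < k ∧ k ≤ (q.2 : ℕ) then cf (ZMod p) (r : FreeGroup (Fin d)) [q.1, q.2] else 0)) :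
    R.Finite ∧ (∀ u ∈ spanWords p R, ∀ v ∈ spanWords p R, u <:+: v → u = v) ∧
      ∀ u ∈ spanWords p R, ∀ v ∈ spanWords p R, ∀ x y z : List (Fin d),
        x ≠ [] → y ≠ [] → z ≠ [] → ¬ (u = x ++ y ∧ v = y ++ z) := by
  have hshape : ∀ u ∈ spanWords p R, ∃ i j : Fin d, (i : ℕ) < k ∧ k ≤ (j : ℕ) ∧ u = [i, j] := by
    rintro u ⟨f, hf, hfu⟩
    have hf0 : f ≠ 0 := by
      rintro rfl
      exact hfu.1 rfl
    obtain ⟨i, j, hi, hj, hl⟩ := lead_W k R h2 hU hli f hf hf0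
    exact ⟨i, j, hi, hj, lead_unique f u _ hfu hl⟩
  refine ⟨(Set.finite_coe_iff (s := R)).1 hli.finite, ?_, ?_⟩
  · intro u hu v hv huv
    obtain ⟨i, j, -, -, rfl⟩ := hshape u hu
    obtain ⟨i', j', -, -, rfl⟩ := hshape v hv
    exact huv.eq_of_length rfl
  · intro u hu v hv x y z hx hy hz ⟨h3, h4⟩
    obtain ⟨i, j, -, hj, rfl⟩ := hshape u hu
    obtain ⟨i', j', hi', -, rfl⟩ := hshape v hv
    have hx1 := List.length_pos_iff.2 hx
    have hy1 := List.length_pos_iff.2 hy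
    have h5 := congrArg List.length h3
    rw [List.length_append] at h5
    have h6 : x.length = 1 ∧ y.length = 1 := by
      simp only [List.length_cons, List.length_nil] at h5
      omega
    obtain ⟨a, rfl⟩ := List.length_eq_one_iff.1 h6.1
    obtain ⟨b, rfl⟩ := List.length_eq_one_iff.1 h6.2
    simp only [List.cons_append, List.nil_append, List.cons.injEq, and_true] at h3 h4
    obtain ⟨-, h7⟩ := h3
    obtain ⟨h8, -⟩ := h4
    rw [h7] at hj
    rw [h8] at hi'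
    omega

/-- **The cup product criterion.** -/
theorem cup_lead {p d : ℕ} [Fact p.Prime] (k : ℕ) (R : Set (FreeGroup (Fin d)))
    (h2 : ∀ r ∈ R, 2 ≤ deg p r)
    (hU : ∀ r ∈ R, ∀ i j : Fin d, (i : ℕ) < k → (j : ℕ) < k → cf (ZMod p) r [i, j] = 0)
    (hli : LinearIndependent (ZMod p) (fun (r : R) (q : Fin d × Fin d) =>
      if (q.1 : ℕ) < k ∧ k ≤ (q.2 : ℕ) then cf (ZMod p) (r : FreeGroup (Fin d)) [q.1, q.2] else 0)) :
    ∃ C : Set (List (Fin d)), C.Finite ∧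
      ∀ w : List (Fin d), w ∈ leadWords p R ↔ ∃ u ∈ C, u <:+: w := by
  obtain ⟨hR, h3, h4⟩ := cup_over k R h2 hU hli
  obtain ⟨h5, h6⟩ := span_lead R hR h3 h4
  exact ⟨_, h5, h6⟩

end Pool.MW
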