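import Pool.Agent.Helper17.MW.Ser
import Pool.Agent.Helper96.GS.Defs

/-!
# Definitions for the leading word arguments
-/

set_option autoImplicit false
set_option linter.unusedSectionVars false

namespace Pool.MW

open Ser

/-- degree-lexicographic order on words -/
def le2 {α : Type} [LinearOrder α] (u w : List α) : Prop :=
  u.length < w.length ∨ (u.length = w.length ∧ u ≤ w)

/-- `U` is the leading word of the series `f`: the shortest and then lexicographically first word
with a nonzero coefficient -/
def Lead {α K : Type} [LinearOrder α] [Ring K] (f : Ser α K) (U : List α) : Prop :=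
  f U ≠ 0 ∧ ∀ w, f w ≠ 0 → le2 U w

/-- the word `w` has no factor in `C` -/
def Av {α : Type} (C : Set (List α)) (w : List α) : Prop := ∀ u ∈ C, ¬ u <:+: w

/-- product of `A`s and `B`s -/
def bw {α : Type} (A B : List α) (l : List Bool) : List α := l.flatMap fun b => bif b then A else B

/-- Lyndon words -/
def Lyn {α : Type} [LinearOrder α] (U : List α) : Prop :=
  U ≠ [] ∧ ∀ q s, q ≠ [] → s ≠ [] → U = q ++ s → U < s

/-- number of words of length `n` without factor in `C` -/
noncomputable def cnt {d : ℕ} (C : Set (List (Fin d))) (n : ℕ) : ℕ :=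
  Set.ncard {w : List (Fin d) | w.length = n ∧ Av C w}

/-- the letters of an element of the free group -/
def letters {d : ℕ} (r : FreeGroup (Fin d)) : Finset (Fin d) := (r.toWord.map Prod.fst).toFinset

/-- good words: in `T`, along edges of `Γ`, no letter twice -/
def Good {d : ℕ} (Γ : SimpleGraph (Fin d)) (T : Set (Fin d)) (u : List (Fin d)) : Prop :=
  (∀ a ∈ u, a ∈ T) ∧ u.Nodup ∧ u.IsChain Γ.Adj

/-- short bad words -/
def badC {d : ℕ} (Γ : SimpleGraph (Fin d)) (T : Set (Fin d)) (s : ℕ) : Set (List (Fin d)) :=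
  {u | u ≠ [] ∧ u.length ≤ s + 1 ∧ ¬ Good Γ T u}

open Pool.H96.GS in
/-- pairs of letters outside `K` without a relator of degree two -/
def lam (p : ℕ) {d : ℕ} (K : Finset (Fin d)) (R : Set (FreeGroup (Fin d))) :
    SimpleGraph (Fin d) where
  Adj i j := i ≠ j ∧ i ∉ K ∧ j ∉ K ∧ ∀ r ∈ R, letters r \ K = {i, j} → 3 ≤ deg p r
  symm := ⟨fun i j h => ⟨h.1.symm, h.2.2.1, h.2.1,
    fun r hr h1 => h.2.2.2 r hr (by rw [h1, Finset.pair_comm])⟩⟩
  loopless := ⟨fun i h => h.1 rfl⟩

/-- product of the numbers of the letters of a word -/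
def wt {d : ℕ} (t : Fin d → ℝ) (u : List (Fin d)) : ℝ := (u.map t).prod

end Pool.MW
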