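import Pool.Agent.Helper17.MW.Lead

/-!
# Rows Deg1, Deg2: length and letters of the words in the Magnus expansion
-/

set_option autoImplicit false

namespace Pool.MW

open Ser

section alg

variable {α K : Type} [CommRing K]

lemma mulS_smul_right (c : K) (f g : List α → K) (w : List α) :
    Ser.mulS f (fun u => c * g u) w = c * Ser.mulS f g w := by
  induction w generalizing f with
  | nil => simp only [Ser.mulS]; ring
  | cons a w ih => simp only [Ser.mulS]; rw [ih]; ring

/-- the algebra structure on series -/
@[reducible] def algSer (α K : Type) [CommRing K] : Algebra K (Ser α K) :=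
  Algebra.ofModule (fun c f g => funext fun w => Ser.mulS_smul_left c f g w)
    (fun c f g => funext fun w => mulS_smul_right c f g w)

/-- series without words shorter than `n` -/
def lowS (α K : Type) [CommRing K] (n : ℕ) : Submodule K (Ser α K) where
  carrier := {f | ∀ w : List α, w.length < n → f w = 0}
  add_mem' := fun {f g} hf hg w hw => by
    have h1 := hf w hw
    have h2 := hg w hw
    rw [Ser.add_apply, h1, h2, add_zero]
  zero_mem' := fun _ _ => rfl
  smul_mem' := fun c f hf w hw => by
    have h1 := hf w hw
    rw [Ser.smul_apply, h1, mul_zero]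

lemma lowS_mul {m n : ℕ} {f g : Ser α K} (hf : f ∈ lowS α K m) (hg : g ∈ lowS α K n) :
    f * g ∈ lowS α K (m + n) := by
  intro w hw
  by_contra h
  obtain ⟨u, v, rfl, hu, hv⟩ := exists_of_mul_ne_zero f g w h
  have h1 : m ≤ u.length := by
    by_contra hcon
    exact hu (hf u (by omega))
  have h2 : n ≤ v.length := by
    by_contra hcon
    exact hv (hg v (by omega))
  rw [List.length_append] at hw
  omega

end alg

section deg

variable {d p : ℕ}

lemma mag_low (hp : p.Prime) (g : FreeGroup (Fin d)) :
    ((mag (Fin d) (ZMod p) g : Ser (Fin d) (ZMod p)) - 1) ∈ lowS (Fin d) (ZMod p) 1 := by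
  haveI : Fact p.Prime := ⟨hp⟩
  intro w hw
  have : w = [] := List.length_eq_zero_iff.1 (by omega)
  subst this
  rw [Ser.sub_apply, mag_nil, Ser.one_nil, sub_self]

open Pool.H96.GS in
lemma M_low (hp : p.Prime) (n : ℕ) :
    letI := algSer (Fin d) (ZMod p)
    ∀ x ∈ M p d n, (MonoidAlgebra.lift (ZMod p) (Ser (Fin d) (ZMod p)) (FreeGroup (Fin d))
      ((Units.coeHom _).comp (mag (Fin d) (ZMod p)))) x ∈ lowS (Fin d) (ZMod p) n := by
  letI := algSer (Fin d) (ZMod p)
  set Θ := (MonoidAlgebra.lift (ZMod p) (Ser (Fin d) (ZMod p)) (FreeGroup (Fin d))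
      ((Units.coeHom _).comp (mag (Fin d) (ZMod p)))) with hΘ
  have h1 : ∀ x ∈ (Submodule.span (ZMod p) (Set.range (fun g : FreeGroup (Fin d) =>
      MonoidAlgebra.of (ZMod p) (FreeGroup (Fin d)) g - 1))), Θ x ∈ lowS (Fin d) (ZMod p) 1 := by
    intro x hx
    induction hx using Submodule.span_induction with
    | mem x hx =>
      obtain ⟨g, rfl⟩ := hx
      change Θ (MonoidAlgebra.of (ZMod p) (FreeGroup (Fin d)) g - 1) ∈ _
      rw [map_sub, map_one, hΘ, MonoidAlgebra.lift_of]
      exact mag_low hp g
    | zero => rw [map_zero]; exact Submodule.zero_mem _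
    | add x y _ _ hx hy => rw [map_add]; exact Submodule.add_mem _ hx hy
    | smul c x _ hx => rw [map_smul]; exact Submodule.smul_mem _ c hx
  induction n with
  | zero =>
    intro x _ w hw
    omega
  | succ n ih =>
    intro x hx
    have h2 : M p d (n + 1) = M p d n * (Submodule.span (ZMod p)
      (Set.range (fun g : FreeGroup (Fin d) =>
      MonoidAlgebra.of (ZMod p) (FreeGroup (Fin d)) g - 1))) := pow_succ _ _
    rw [h2] at hx
    induction hx using Submodule.mul_induction_on' with
    | mem_mul_mem m hm x hx =>
      rw [map_mul]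
      exact lowS_mul (ih m hm) (h1 x hx)
    | add x _ y _ hx hy => rw [map_add]; exact Submodule.add_mem _ hx hy

open Pool.H96.GS in
/-- ROW Deg1: words in the Magnus expansion have at least the length of the degree -/
theorem deg_le {p d : ℕ} [Fact p.Prime] (r : FreeGroup (Fin d)) (w : List (Fin d)) (hw : w ≠ [])
    (h : cf (ZMod p) r w ≠ 0) : deg p r ≤ w.length := by
  refine csSup_le' ?_
  intro n hn
  rw [Set.mem_setOf_eq] at hn
  letI := algSer (Fin d) (ZMod p)
  have h1 := M_low (Fact.out : p.Prime) n _ hn
  rw [map_sub, map_one, MonoidAlgebra.lift_of] at h1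
  by_contra hcon
  apply h
  have h2 := h1 w (by omega)
  rw [Ser.sub_apply] at h2
  cases w with
  | nil => exact absurd rfl hw
  | cons a w =>
    rw [Ser.one_cons, sub_zero] at h2
    exact h2

end deg

section letters

/-- ROW Deg2: words in the Magnus expansion use the letters of the element -/
theorem letters_of_cf {d : ℕ} (K : Type) [Field K] (r : FreeGroup (Fin d)) (w : List (Fin d))
    (h : cf K r w ≠ 0) : ∀ a ∈ w, a ∈ letters r := by
  have key : ∀ (L : List (Fin d × Bool)) (w : List (Fin d)),
      (mag (Fin d) K (FreeGroup.mk L) : Ser (Fin d) K) w ≠ 0 → ∀ a ∈ w, a ∈ L.map Prod.fst := by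
    intro L
    induction L with
    | nil =>
      intro w hw a ha
      rw [← FreeGroup.one_eq_mk, map_one, Units.val_one, Ser.one_apply] at hw
      by_cases h : w = []
      · subst h; simp at ha
      · rw [if_neg h] at hw; exact absurd rfl hw
    | cons x L ih =>
      intro w hw a ha
      have h1 : FreeGroup.mk (x :: L) = FreeGroup.mk [x] * FreeGroup.mk L := by
        rw [FreeGroup.mul_mk]; rfl
      rw [h1, map_mul, Units.val_mul] at hw
      obtain ⟨u, v, rfl, hu, hv⟩ := exists_of_mul_ne_zero _ _ w hw
      rw [List.map_cons, List.mem_cons]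
      rcases List.mem_append.1 ha with ha | ha
      · left
        obtain ⟨i, b⟩ := x
        cases b with
        | true =>
          have h2 : (mag (Fin d) K (FreeGroup.mk [(i, true)]) : Ser (Fin d) K) = 1 + mon [i] := by
            change (mag (Fin d) K (FreeGroup.of i) : Ser (Fin d) K) = 1 + mon [i]
            unfold mag
            rw [FreeGroup.lift_apply_of]
            rfl
          rw [h2, Ser.add_apply, Ser.one_apply] at hu
          by_cases hu0 : u = []
          · subst hu0; simp at ha
          · rw [if_neg hu0, zero_add] at hu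
            by_cases hu1 : u = [i]
            · subst hu1; simpa using ha
            · simp [mon, hu1] at hu
        | false =>
          have h2 : (mag (Fin d) K (FreeGroup.mk [(i, false)]) : Ser (Fin d) K) = geo i := by
            have h3 : (FreeGroup.mk [(i, false)] : FreeGroup (Fin d)) = (FreeGroup.of i)⁻¹ := rfl
            rw [h3, map_inv]
            unfold mag
            rw [FreeGroup.lift_apply_of]
            rfl
          rw [h2] at hu
          unfold geo at hu
          by_cases hu1 : ∀ a ∈ u, a = i
          · exact hu1 a ha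
          · rw [if_neg hu1] at hu; exact absurd rfl hu
      · right
        exact ih v hv a ha
  intro a ha
  have h1 := key r.toWord w (by rw [FreeGroup.mk_toWord]; exact h) a ha
  unfold letters
  rw [List.mem_toFinset]
  exact h1

end letters

end Pool.MW
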