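import Pool.Agent.Helper17.MW.Final

/-!
# Relators with few letters: a weighted inequality over the sets of letters
-/

set_option autoImplicit false
set_option linter.unusedSectionVars false

namespace Pool.MW

open Ser Pool.H96.GS

lemma sum_Wd {d : ℕ} (t : Fin d → ℝ) (S : Finset (Fin d)) (n : ℕ) :
    ∑ u ∈ Wd S n, wt t u = (∑ i ∈ S, t i) ^ n := by
  unfold Wd
  rw [Finset.sum_image (fun f _ g _ h => List.ofFn_injective h)]
  have h1 : (∑ i ∈ S, t i) ^ n = ∏ _k : Fin n, ∑ i ∈ S, t i := by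
    rw [Finset.prod_const, Finset.card_univ, Fintype.card_fin]
  rw [h1, Finset.prod_univ_sum]
  apply Finset.sum_congr rfl
  intro f _
  unfold wt
  rw [List.map_ofFn, List.prod_ofFn]
  rfl

/-- elements different from one have positive degree -/
lemma one_le_deg {p d : ℕ} [Fact p.Prime] (r : FreeGroup (Fin d)) (h : r ≠ 1) : 1 ≤ deg p r := by
  by_contra hd
  obtain ⟨v, hv, hc⟩ := exists_cf p r h
  exact hc (cf_zero r (by omega) v hv)

/-- the least degree of a relator with the set `S` of letters -/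
noncomputable def mdeg (p : ℕ) {d : ℕ} (R : Set (FreeGroup (Fin d))) (S : Finset (Fin d)) : ℕ :=
  sInf {n | ∃ r ∈ R, letters r = S ∧ deg p r = n}

open Classical in
/-- **Few letters, weighted inequality.** -/
theorem mainA3 {G : Type} [Group G] {p d : ℕ} (hp : p.Prime)
    (φ : FreeGroup (Fin d) →* G) (R : Set (FreeGroup (Fin d)))
    (hR : φ.ker = Subgroup.normalClosure R) (t : Fin d → ℝ) (ht : ∀ i, 0 ≤ t i ∧ t i ≤ 1)
    (hlt : 1 - ∑ i, t i + ∑ S ∈ Finset.univ.filter (fun S : Finset (Fin d) => ∃ r ∈ R, letters r = S),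
      (∑ i ∈ S, t i) ^ mdeg p R S < 0) :
    ∃ f : FreeGroup (Fin 2) →* G, Function.Injective f := by
  have : Fact p.Prime := ⟨hp⟩
  set Q : Finset (Finset (Fin d)) :=
    Finset.univ.filter (fun S : Finset (Fin d) => ∃ r ∈ R, letters r = S) with hQ
  set Q' : Finset (Finset (Fin d)) := Q.filter fun S => S ≠ ∅ with hQ'
  -- the least degree
  have hdeg : ∀ S ∈ Q', 1 ≤ mdeg p R S := by
    intro S hS
    rw [hQ', Finset.mem_filter, hQ, Finset.mem_filter] at hS
    obtain ⟨⟨-, r, hr, hrS⟩, hS0⟩ := hS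
    have hmem : mdeg p R S ∈ {n | ∃ r ∈ R, letters r = S ∧ deg p r = n} :=
      Nat.sInf_mem ⟨_, r, hr, hrS, rfl⟩
    obtain ⟨r', -, hr'S, hd⟩ := hmem
    rw [← hd]
    apply one_le_deg
    rintro rfl
    apply hS0
    rw [← hr'S]
    simp [letters]
  have hmin : ∀ r ∈ R, mdeg p R (letters r) ≤ deg p r := fun r hr => Nat.sInf_le ⟨r, hr, rfl, rfl⟩
  set C : Finset (List (Fin d)) := Q'.biUnion fun S => Wd S (mdeg p R S) with hC
  have hC0 : [] ∉ C := by
    intro h
    rw [hC, Finset.mem_biUnion] at h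
    obtain ⟨S, hS, hS'⟩ := h
    have h1 := length_Wd hS'
    have h2 := hdeg S hS
    rw [List.length_nil] at h1
    omega
  have hwt : ∀ u : List (Fin d), 0 ≤ wt t u := by
    intro u
    unfold wt
    apply List.prod_nonneg
    intro x hx
    obtain ⟨i, -, rfl⟩ := List.mem_map.1 hx
    exact (ht i).1
  have hineq : 1 - ∑ i, t i + ∑ u ∈ C, wt t u < 0 := by
    have e1 : ∑ u ∈ C, wt t u ≤ ∑ S ∈ Q', (∑ i ∈ S, t i) ^ mdeg p R S := by
      rw [hC]
      refine (sum_biUnion_le' Q' _ _ hwt).trans ?_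
      exact (Finset.sum_congr rfl fun S _ => sum_Wd t S _).le
    have e2 : ∑ S ∈ Q', (∑ i ∈ S, t i) ^ mdeg p R S ≤ ∑ S ∈ Q, (∑ i ∈ S, t i) ^ mdeg p R S := by
      apply Finset.sum_le_sum_of_subset_of_nonneg (Finset.filter_subset _ _)
      intro S _ _
      exact pow_nonneg (Finset.sum_nonneg fun i _ => (ht i).1) _
    linarith
  obtain ⟨c, hc, hgr⟩ := mil C hC0 t ht hineq
  obtain ⟨A, B, hAB, hlen, hav⟩ := grow (C : Set (List (Fin d))) C.finite_toSet (by simpa using hC0)
    c 1 hc one_pos (by simpa using hgr)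
  refine core_mono p (C : Set (List (Fin d))) C.finite_toSet (by simpa using hC0) A B hAB hlen hav
    R ?_ φ hR
  intro r hr w hw hcf
  have hle := (hmin r hr).trans (deg_le r w hw hcf)
  have hlet := letters_of_cf (ZMod p) r w hcf
  have hS : letters r ∈ Q' := by
    rw [hQ', Finset.mem_filter, hQ, Finset.mem_filter]
    refine ⟨⟨Finset.mem_univ _, r, hr, rfl⟩, ?_⟩
    intro h
    cases w with
    | nil => exact hw rfl
    | cons a w =>
      have := hlet a (by simp)
      rw [h] at this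
      simp at this
  refine ⟨w.take (mdeg p R (letters r)), ?_, (List.take_prefix _ _).isInfix⟩
  rw [hC, Finset.mem_coe, Finset.mem_biUnion]
  refine ⟨letters r, hS, ?_⟩
  have h1 := mem_Wd (S := letters r) (u := w.take (mdeg p R (letters r)))
    (fun a ha => hlet a (List.mem_of_mem_take ha))
  have h2 : (w.take (mdeg p R (letters r))).length = mdeg p R (letters r) := by
    rw [List.length_take]
    omega
  rwa [h2] at h1

end Pool.MW
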