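import Pool.Agent.Helper17.MW.Defs

/-!
# Exponential growth gives two different words whose products avoid `C`
-/

set_option autoImplicit false

namespace Pool.MW

open Filter Topology

/-- a short factor of `a ++ b ++ c` lies in `a ++ b` or in `b ++ c` -/
theorem infix_three {α : Type} {f a b c : List α} (hf : f.length ≤ b.length)
    (h : f <:+: a ++ b ++ c) : f <:+: a ++ b ∨ f <:+: b ++ c := by
  obtain ⟨s, t, hst⟩ := h
  by_cases hle : s.length + f.length ≤ a.length + b.length
  · left
    have h1 : s ++ f <+: a ++ b ++ c := ⟨t, hst⟩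
    have h2 : a ++ b <+: a ++ b ++ c := ⟨c, rfl⟩
    have h3 : s ++ f <+: a ++ b := List.prefix_of_prefix_length_le h1 h2 (by simp; omega)
    exact (List.suffix_append s f).isInfix.trans h3.isInfix
  · right
    have h1 : f ++ t <:+ a ++ (b ++ c) := ⟨s, by rw [← List.append_assoc, hst, List.append_assoc]⟩
    have h2 : b ++ c <:+ a ++ (b ++ c) := ⟨a, rfl⟩
    have hlen := congrArg List.length hst
    simp only [List.length_append] at hlen
    have h3 : f ++ t <:+ b ++ c := List.suffix_of_suffix_length_le h1 h2 (by simp; omega)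
    exact (List.prefix_append f t).isInfix.trans h3.isInfix

/-- loops at `v` may be appended -/
theorem loop_append {α : Type} {C : Set (List α)} {v x u : List α}
    (hN : ∀ f ∈ C, f.length ≤ v.length) (hx : Av C (v ++ x)) (hv : v <:+ v ++ x)
    (hu : Av C u) (hvu : v <:+ u) : Av C (u ++ x) ∧ v <:+ u ++ x := by
  obtain ⟨u', rfl⟩ := hvu
  refine ⟨fun f hf h => ?_, ?_⟩
  · rcases infix_three (hN f hf) h with h | h
    · exact hu f hf h
    · exact hx f hf h
  · rw [List.append_assoc]
    exact hv.trans (List.suffix_append u' (v ++ x))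

/-- products of two loops at `v` -/
theorem loops_bw {α : Type} {C : Set (List α)} {v A B : List α}
    (hN : ∀ f ∈ C, f.length ≤ v.length) (hA : Av C (v ++ A)) (hvA : v <:+ v ++ A)
    (hB : Av C (v ++ B)) (hvB : v <:+ v ++ B) (l : List Bool) :
    ∀ u, Av C u → v <:+ u → Av C (u ++ bw A B l) := by
  induction l with
  | nil => intro u hu _; simpa [bw] using hu
  | cons b l ih =>
    intro u hu hvu
    have e : u ++ bw A B (b :: l) = (u ++ (bif b then A else B)) ++ bw A B l := by
      simp [bw, List.append_assoc]
    rw [e]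
    cases b with
    | true =>
      obtain ⟨h1, h2⟩ := loop_append hN hA hvA hu hvu
      exact ih _ h1 h2
    | false =>
      obtain ⟨h1, h2⟩ := loop_append hN hB hvB hu hvu
      exact ih _ h1 h2

theorem av_of_infix {α : Type} {C : Set (List α)} {u w : List α} (h : u <:+: w) (hw : Av C w) :
    Av C u := fun f hf hfu => hw f hf (hfu.trans h)

/-- the last visit of the state `v` -/
noncomputable def lastv {α : Type} (N n : ℕ) (w v : List α) : ℕ :=
  open Classical in Nat.findGreatest (fun i => (w.drop i).take N = v) n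

theorem lastv_le {α : Type} (N n : ℕ) (w v : List α) : lastv N n w v ≤ n := by
  classical
  exact Nat.findGreatest_le n

theorem lastv_spec {α : Type} {N n i : ℕ} {w v : List α} (hi : i ≤ n)
    (h : (w.drop i).take N = v) :
    (w.drop (lastv N n w v)).take N = v ∧ i ≤ lastv N n w v := by
  classical
  refine ⟨?_, ?_⟩
  · exact Nat.findGreatest_spec (P := fun i => (w.drop i).take N = v) hi h
  · exact Nat.le_findGreatest hi h

/-- the loop between two visits -/
theorem seg {α : Type} {C : Set (List α)} {N n i l : ℕ} {w v : List α} (hw : w.length = n + N)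
    (hC : Av C w) (hil : i ≤ l) (hln : l ≤ n) (hi : (w.drop i).take N = v)
    (hl : (w.drop l).take N = v) :
    ((w.drop (i + N)).take (l - i)).length = l - i ∧
      Av C (v ++ (w.drop (i + N)).take (l - i)) ∧ v <:+ v ++ (w.drop (i + N)).take (l - i) ∧
      w.take (l + N) = w.take (i + N) ++ (w.drop (i + N)).take (l - i) := by
  have e : v ++ (w.drop (i + N)).take (l - i) = (w.drop i).take (N + (l - i)) := by
    rw [List.take_add, hi, List.drop_drop]
  refine ⟨?_, ?_, ?_, ?_⟩
  · rw [List.length_take, List.length_drop, hw]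
    omega
  · rw [e]
    exact av_of_infix ((List.take_prefix _ _).isInfix.trans (List.drop_suffix _ _).isInfix) hC
  · rw [e]
    have e2 : ((w.drop i).take (N + (l - i))).drop (l - i) = v := by
      rw [List.drop_take, List.drop_drop, ← hl]
      congr 1
      · omega
      · congr 1
        omega
    nth_rewrite 1 [← e2]
    exact List.drop_suffix _ _
  · have e3 : l + N = (i + N) + (l - i) := by omega
    rw [e3, List.take_add]

/-- a word is determined by its first state, the last visits and the letters after them -/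
theorem word_unique {d : ℕ} {C : Set (List (Fin d))} {N n : ℕ}
    (huniq : ∀ v x y : List (Fin d), v.length = N → x.length = y.length → Av C (v ++ x) →
      Av C (v ++ y) → v <:+ v ++ x → v <:+ v ++ y → x = y)
    {w w' : List (Fin d)} (hw : w.length = n + N) (hw' : w'.length = n + N) (hC : Av C w)
    (hC' : Av C w') (hL : ∀ v, v.length = N → lastv N n w v = lastv N n w' v)
    (hn : ∀ v, v.length = N → w[lastv N n w v + N]? = w'[lastv N n w' v + N]?) :
    ∀ m i, i ≤ n → n - i ≤ m → w.take (i + N) = w'.take (i + N) → w = w' := by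
  intro m
  induction m with
  | zero =>
    intro i hi hm h
    have : i = n := by omega
    subst this
    rw [List.take_of_length_le (by omega), List.take_of_length_le (by omega)] at h
    exact h
  | succ m ih =>
    intro i hi hm h
    have hs : (w.drop i).take N = (w'.drop i).take N := by
      have h1 := congrArg (List.drop i) h
      rw [List.drop_take, List.drop_take] at h1
      have : i + N - i = N := by omega
      rwa [this] at h1
    set v := (w.drop i).take N with hv
    have hvN : v.length = N := by
      rw [hv, List.length_take, List.length_drop, hw]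
      omega
    obtain ⟨h1, h2⟩ := lastv_spec (N := N) hi hv.symm
    obtain ⟨h1', -⟩ := lastv_spec (N := N) hi hs.symm
    have hL' := hL v hvN
    rw [← hL'] at h1'
    have hln := lastv_le N n w v
    set l := lastv N n w v with hl
    obtain ⟨a1, a2, a3, a4⟩ := seg hw hC h2 hln hv.symm h1
    obtain ⟨b1, b2, b3, b4⟩ := seg hw' hC' h2 hln hs.symm h1'
    have hxy := huniq v _ _ hvN (a1.trans b1.symm) a2 b2 a3 b3
    have ht : w.take (l + N) = w'.take (l + N) := by rw [a4, b4, hxy, h]
    by_cases hlen : l = n
    · rw [hlen, List.take_of_length_le (by omega), List.take_of_length_le (by omega)] at ht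
      exact ht
    · refine ih (l + 1) (by omega) (by omega) ?_
      have e : l + 1 + N = l + N + 1 := by omega
      rw [e, List.take_add_one, List.take_add_one, ht]
      have := hn v hvN
      rw [← hL', ← hl] at this
      rw [this]

/-- polynomial growth -/
theorem cnt_le {d : ℕ} {C : Set (List (Fin d))} {N : ℕ}
    (huniq : ∀ v x y : List (Fin d), v.length = N → x.length = y.length → Av C (v ++ x) →
      Av C (v ++ y) → v <:+ v ++ x → v <:+ v ++ y → x = y) :
    ∃ K V : ℕ, ∀ n, cnt C (n + N) ≤ K * (n + 1) ^ V := by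
  classical
  refine ⟨(Fintype.card (List.Vector (Fin d) N) + 1) *
    (d + 1) ^ Fintype.card (List.Vector (Fin d) N), Fintype.card (List.Vector (Fin d) N),
    fun n => ?_⟩
  let T := Option (List.Vector (Fin d) N) × (List.Vector (Fin d) N → Option (Fin d)) ×
    (List.Vector (Fin d) N → Fin (n + 1))
  let F : List (Fin d) → T := fun w =>
    (if hw : (w.take N).length = N then some ⟨w.take N, hw⟩ else none,
      fun v => w[lastv N n w v.1 + N]?, fun v => ⟨lastv N n w v.1, by
        have := lastv_le N n w v.1
        omega⟩)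
  have hinj : Set.InjOn F {w : List (Fin d) | w.length = n + N ∧ Av C w} := by
    rintro w ⟨hw, hC⟩ w' ⟨hw', hC'⟩ hF
    have hF1 := congrArg Prod.fst hF
    have hF2 := congrArg (fun t : T => t.2.1) hF
    have hF3 := congrArg (fun t : T => t.2.2) hF
    have e1 : (w.take N).length = N := by
      rw [List.length_take, hw]
      omega
    have e2 : (w'.take N).length = N := by
      rw [List.length_take, hw']
      omega
    simp only [F, dif_pos e1, dif_pos e2, Option.some.injEq] at hF1
    have ht : w.take N = w'.take N := congrArg Subtype.val hF1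
    refine word_unique huniq hw hw' hC hC' (fun v hv => ?_) (fun v hv => ?_) n 0 (Nat.zero_le n)
      (by omega) (by rw [Nat.zero_add]; exact ht)
    · exact congrArg Fin.val (congrFun hF3 ⟨v, hv⟩)
    · exact congrFun hF2 ⟨v, hv⟩
  have hle := Set.ncard_le_ncard_of_injOn F (fun a _ => Set.mem_univ _) hinj Set.finite_univ
  rw [Set.ncard_univ, Nat.card_eq_fintype_card] at hle
  refine hle.trans (le_of_eq ?_)
  simp only [T, Fintype.card_prod, Fintype.card_option, Fintype.card_fun, Fintype.card_fin]
  ring

/-- ROW Grow: exponential growth gives two different words of the same length all of whose products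
avoid `C` -/
theorem grow {d : ℕ} (C : Set (List (Fin d))) (hfin : C.Finite) (h0 : [] ∉ C) (c k : ℝ) (hc : 1 < c)
    (hk : 0 < k) (h : ∀ n, k * c ^ n ≤ (cnt C n : ℝ)) :
    ∃ A B : List (Fin d), A ≠ B ∧ A.length = B.length ∧ ∀ l, Av C (bw A B l) := by
  obtain ⟨N, hN⟩ : ∃ N : ℕ, ∀ f ∈ C, f.length ≤ N := by
    obtain ⟨N, hN⟩ := (hfin.image List.length).bddAbove
    exact ⟨N, fun f hf => hN ⟨f, hf, rfl⟩⟩
  by_contra hcon
  push Not at hcon
  have huniq : ∀ v x y : List (Fin d), v.length = N → x.length = y.length → Av C (v ++ x) →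
      Av C (v ++ y) → v <:+ v ++ x → v <:+ v ++ y → x = y := by
    intro v x y hv hxy hx hy hvx hvy
    by_contra hne
    obtain ⟨l, hl⟩ := hcon x y hne hxy
    apply hl
    have hvC : Av C v := av_of_infix (List.prefix_append v x).isInfix hx
    have := loops_bw (by intro f hf; rw [hv]; exact hN f hf) hx hvx hy hvy l v hvC
      (List.suffix_refl v)
    exact av_of_infix (List.suffix_append v _).isInfix this
  obtain ⟨K, V, hKV⟩ := cnt_le huniq
  have hlim := tendsto_pow_const_div_const_pow_of_one_lt V hc
  have hlim2 : Tendsto (fun n : ℕ => (K : ℝ) * (((n + N + 1 : ℕ) : ℝ) ^ V / c ^ (n + N + 1) * c))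
      atTop (𝓝 ((K : ℝ) * (0 * c))) := by
    have h1 : Tendsto (fun n : ℕ => n + N + 1) atTop atTop := by
      have : (fun n : ℕ => n + N + 1) = fun n : ℕ => n + (N + 1) := by
        funext n
        omega
      rw [this]
      exact tendsto_add_atTop_nat (N + 1)
    exact ((hlim.comp h1).mul_const c).const_mul (K : ℝ)
  rw [zero_mul, mul_zero] at hlim2
  obtain ⟨n, hn⟩ := (hlim2.eventually (gt_mem_nhds hk)).exists
  have hcpos : (0 : ℝ) < c := lt_trans one_pos hc
  have h2 := h (n + N)
  have h3 : ((cnt C (n + N) : ℕ) : ℝ) ≤ (K : ℝ) * ((n + 1 : ℕ) : ℝ) ^ V := by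
    exact_mod_cast hKV n
  have h4 : ((n + 1 : ℕ) : ℝ) ^ V ≤ ((n + N + 1 : ℕ) : ℝ) ^ V := by
    apply pow_le_pow_left₀ (Nat.cast_nonneg _)
    exact_mod_cast (by omega : n + 1 ≤ n + N + 1)
  have h5 : (K : ℝ) * (((n + N + 1 : ℕ) : ℝ) ^ V / c ^ (n + N + 1) * c) * c ^ (n + N) =
      (K : ℝ) * ((n + N + 1 : ℕ) : ℝ) ^ V := by
    rw [pow_succ]
    field_simp
  have h6 : (K : ℝ) * (((n + N + 1 : ℕ) : ℝ) ^ V / c ^ (n + N + 1) * c) * c ^ (n + N) <
      k * c ^ (n + N) := mul_lt_mul_of_pos_right hn (pow_pos hcpos _)
  have h7 : (K : ℝ) * ((n + 1 : ℕ) : ℝ) ^ V ≤ (K : ℝ) * ((n + N + 1 : ℕ) : ℝ) ^ V :=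
    mul_le_mul_of_nonneg_left h4 (Nat.cast_nonneg _)
  linarith

end Pool.MW
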