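import Pool.Agent.Helper17.MW.Defs

/-!
# A graph with many edges has a part of large minimal degree
-/

set_option autoImplicit false
set_option linter.unusedSectionVars false

namespace Pool.MW

namespace Loc1

variable {d : ℕ}

/-- the edges inside `T` -/
def ed (Γ : SimpleGraph (Fin d)) (T : Finset (Fin d)) : Set (Sym2 (Fin d)) :=
  {e | e ∈ Γ.edgeSet ∧ ∀ x ∈ e, x ∈ T}

lemma ed_erase (Γ : SimpleGraph (Fin d)) (T : Finset (Fin d)) (v : Fin d) :
    (ed Γ T).ncard ≤ (ed Γ (T.erase v)).ncard +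
      {w | w ∈ (T : Set (Fin d)) ∧ Γ.Adj v w}.ncard := by
  have hsub : ed Γ T ⊆ ed Γ (T.erase v) ∪
      (fun w => s(v, w)) '' {w | w ∈ (T : Set (Fin d)) ∧ Γ.Adj v w} := by
    intro e he
    obtain ⟨he, hT⟩ := he
    by_cases hv : v ∈ e
    · right
      obtain ⟨w, rfl⟩ := Sym2.mem_iff_exists.1 hv
      exact ⟨w, ⟨hT w (Sym2.mem_mk_right v w), he⟩, rfl⟩
    · left
      refine ⟨he, fun x hx => Finset.mem_erase.2 ⟨?_, hT x hx⟩⟩
      rintro rfl
      exact hv hx
  calc (ed Γ T).ncard ≤ _ := Set.ncard_le_ncard hsub (Set.toFinite _)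
    _ ≤ _ := Set.ncard_union_le _ _
    _ ≤ _ := Nat.add_le_add_left (Set.ncard_image_le (Set.toFinite _)) _

lemma core (s : ℕ) (Γ : SimpleGraph (Fin d)) (n : ℕ) : ∀ T : Finset (Fin d), T.card = n →
    s * n < (ed Γ T).ncard →
      ∃ T : Set (Fin d), T.Nonempty ∧ ∀ v ∈ T, s + 1 ≤ {w | w ∈ T ∧ Γ.Adj v w}.ncard := by
  induction n with
  | zero =>
    intro T hT h
    rw [Finset.card_eq_zero] at hT
    subst hT
    have hem : ed Γ ∅ = ∅ := by
      ext e
      constructor
      · rintro ⟨-, he⟩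
        induction e with
        | h a b => exact absurd (he a (Sym2.mem_mk_left a b)) (Finset.notMem_empty a)
      · exact fun h => absurd h (Set.notMem_empty e)
    rw [hem, Set.ncard_empty] at h
    omega
  | succ n ih =>
    intro T hT h
    by_cases hall : ∀ v ∈ T, s + 1 ≤ {w | w ∈ (T : Set (Fin d)) ∧ Γ.Adj v w}.ncard
    · refine ⟨T, ?_, hall⟩
      rw [Finset.coe_nonempty, ← Finset.card_pos]
      omega
    · push Not at hall
      obtain ⟨v, hv, hlt⟩ := hall
      apply ih (T.erase v)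
      · rw [Finset.card_erase_of_mem hv, hT]
        rfl
      · have h1 := ed_erase Γ T v
        have h2 : s * (n + 1) = s * n + s := by ring
        omega

end Loc1

open Loc1 in
/-- ROW Loc1: a graph with more than `s d` edges has a part of minimal degree `s + 1` -/
theorem loc_core {d : ℕ} (s : ℕ) (Γ : SimpleGraph (Fin d)) (h : s * d < Γ.edgeSet.ncard) :
    ∃ T : Set (Fin d), T.Nonempty ∧ ∀ v ∈ T, s + 1 ≤ {w | w ∈ T ∧ Γ.Adj v w}.ncard := by
  apply core s Γ d Finset.univ (by simp)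
  have : ed Γ Finset.univ = Γ.edgeSet := by
    ext e
    exact ⟨fun h => h.1, fun h => ⟨h, fun x _ => Finset.mem_univ x⟩⟩
  rw [this]
  exact h

end Pool.MW
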