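import Pool.Agent.Helper17.MW.Defs

/-!
# Walks in a graph with at least two continuations
-/

set_option autoImplicit false
set_option linter.unusedSectionVars false

namespace Pool.MW

namespace Loc2

variable {d : ℕ}

lemma good_cons {s : ℕ} (Γ : SimpleGraph (Fin d)) (T : Set (Fin d)) {v : Fin d}
    {w : List (Fin d)} (hw : Av (badC Γ T s) (v :: w)) {a : Fin d} (ha : a ∈ T)
    (hav : Γ.Adj v a) (hne : a ∉ w.take (s - 1)) : Av (badC Γ T s) (a :: v :: w) := by
  intro u hu hin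
  rcases List.infix_cons_iff.1 hin with hp | hin'
  · obtain ⟨hu0, hul, hug⟩ := hu
    apply hug
    rcases List.prefix_cons_iff.1 hp with rfl | ⟨u', rfl, hp'⟩
    · exact absurd rfl hu0
    rw [List.length_cons] at hul
    rcases List.prefix_cons_iff.1 hp' with rfl | ⟨t, rfl, hp''⟩
    · exact ⟨by simpa using ha, by simp, List.isChain_singleton a⟩
    · have hg : Good Γ T (v :: t) := by
        by_contra hng
        exact hw (v :: t) ⟨by simp, by omega, hng⟩ hp'.isInfix
      obtain ⟨hg1, hg2, hg3⟩ := hg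
      refine ⟨?_, ?_, ?_⟩
      · intro x hx
        rcases List.mem_cons.1 hx with rfl | hx
        · exact ha
        · exact hg1 x hx
      · rw [List.nodup_cons]
        refine ⟨?_, hg2⟩
        intro hmem
        rcases List.mem_cons.1 hmem with rfl | hmem
        · exact hav.ne rfl
        · apply hne
          rw [List.length_cons] at hul
          have h1 : t = w.take t.length := List.prefix_iff_eq_take.1 hp''
          have h2 : t <+: w.take (s - 1) := by
            rw [h1]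
            exact List.take_prefix_take_left (by omega)
          exact h2.subset hmem
      · exact List.isChain_cons_cons.2 ⟨hav.symm, hg3⟩
  · exact hw u hu hin'

lemma two_cont {s : ℕ} (hs : 1 ≤ s) (Γ : SimpleGraph (Fin d)) (T : Set (Fin d))
    (h : ∀ v ∈ T, s + 1 ≤ {w | w ∈ T ∧ Γ.Adj v w}.ncard) (w : List (Fin d)) (hw0 : w ≠ [])
    (hw : Av (badC Γ T s) w) :
    ∃ a b, a ≠ b ∧ Av (badC Γ T s) (a :: w) ∧ Av (badC Γ T s) (b :: w) := by
  obtain ⟨v, w, rfl⟩ := List.exists_cons_of_ne_nil hw0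
  have hv : v ∈ T := by
    by_contra hv
    refine hw [v] ⟨by simp, by simp, fun hg => hv (hg.1 v (by simp))⟩ ⟨[], w, by simp⟩
  set N : Set (Fin d) := {a | a ∈ T ∧ Γ.Adj v a} with hN
  set S : Set (Fin d) := {a | a ∈ w.take (s - 1)} with hS
  have h1 : s + 1 ≤ N.ncard := h v hv
  have h2 : S.ncard ≤ s - 1 := by
    have h3 : S = ((w.take (s - 1)).toFinset : Set (Fin d)) := by
      ext a
      simp [hS]
    rw [h3, Set.ncard_coe_finset]
    exact (List.toFinset_card_le _).trans (List.length_take_le _ _)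
  have h3 : N.ncard - S.ncard ≤ (N \ S).ncard := Set.le_ncard_sdiff S N (Set.toFinite _)
  obtain ⟨a, b, ha, hb, hab⟩ := (Set.one_lt_ncard_iff (Set.toFinite (N \ S))).1 (by omega)
  exact ⟨a, b, hab, good_cons Γ T hw ha.1.1 ha.1.2 ha.2, good_cons Γ T hw hb.1.1 hb.1.2 hb.2⟩

lemma cnt_succ {s : ℕ} (hs : 1 ≤ s) (Γ : SimpleGraph (Fin d)) (T : Set (Fin d)) (hT : T.Nonempty)
    (h : ∀ v ∈ T, s + 1 ≤ {w | w ∈ T ∧ Γ.Adj v w}.ncard) (n : ℕ) (hn : 1 ≤ n) :
    2 * cnt (badC Γ T s) n ≤ cnt (badC Γ T s) (n + 1) := by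
  obtain ⟨v0, -⟩ := hT
  have : Nonempty (Fin d × Fin d) := ⟨(v0, v0)⟩
  have hex : ∀ w : List (Fin d), (w.length = n ∧ Av (badC Γ T s) w) → ∃ ab : Fin d × Fin d,
      ab.1 ≠ ab.2 ∧ Av (badC Γ T s) (ab.1 :: w) ∧ Av (badC Γ T s) (ab.2 :: w) := by
    intro w hw
    have hw0 : w ≠ [] := by
      rintro rfl
      have := hw.1
      rw [List.length_nil] at this
      omega
    obtain ⟨a, b, hab, ha, hb⟩ := two_cont hs Γ T h w hw0 hw.2
    exact ⟨(a, b), hab, ha, hb⟩
  choose! f hf using hex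
  set W : Set (List (Fin d)) := {w | w.length = n ∧ Av (badC Γ T s) w} with hW
  have hfin : {w : List (Fin d) | w.length = n + 1 ∧ Av (badC Γ T s) w}.Finite :=
    (List.finite_length_eq (Fin d) (n + 1)).subset fun w hw => hw.1
  have hWfin : W.Finite := (List.finite_length_eq (Fin d) n).subset fun w hw => hw.1
  have hi1 : Function.Injective fun w : List (Fin d) => (f w).1 :: w :=
    fun w w' hww => (List.cons.inj hww).2
  have hi2 : Function.Injective fun w : List (Fin d) => (f w).2 :: w :=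
    fun w w' hww => (List.cons.inj hww).2
  have hdis : Disjoint ((fun w => (f w).1 :: w) '' W) ((fun w => (f w).2 :: w) '' W) := by
    rw [Set.disjoint_left]
    rintro _ ⟨w, hw, rfl⟩ ⟨w', hw', hww⟩
    obtain ⟨h1, h2⟩ := List.cons.inj hww
    subst h2
    exact (hf w' hw).1 h1.symm
  have hsub : (fun w => (f w).1 :: w) '' W ∪ (fun w => (f w).2 :: w) '' W ⊆
      {w : List (Fin d) | w.length = n + 1 ∧ Av (badC Γ T s) w} := by
    rintro _ (⟨w, hw, rfl⟩ | ⟨w, hw, rfl⟩)
    · exact ⟨by show w.length + 1 = n + 1; rw [hw.1], (hf w hw).2.1⟩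
    · exact ⟨by show w.length + 1 = n + 1; rw [hw.1], (hf w hw).2.2⟩
  have hcard := Set.ncard_le_ncard hsub hfin
  rw [Set.ncard_union_eq hdis (hWfin.image _) (hWfin.image _),
    Set.ncard_image_of_injective _ hi1, Set.ncard_image_of_injective _ hi2] at hcard
  unfold cnt
  rw [← hW]
  omega

lemma cnt_zero {s : ℕ} (Γ : SimpleGraph (Fin d)) (T : Set (Fin d)) :
    1 ≤ cnt (badC Γ T s) 0 := by
  unfold cnt
  rw [Nat.one_le_iff_ne_zero, ← Nat.pos_iff_ne_zero, Set.ncard_pos
    ((List.finite_length_eq (Fin d) 0).subset fun w hw => hw.1)]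
  refine ⟨[], rfl, fun u hu hin => hu.1 ?_⟩
  exact List.infix_nil.1 hin

lemma cnt_one {s : ℕ} (Γ : SimpleGraph (Fin d)) (T : Set (Fin d)) (hT : T.Nonempty) :
    1 ≤ cnt (badC Γ T s) 1 := by
  obtain ⟨v, hv⟩ := hT
  unfold cnt
  rw [Nat.one_le_iff_ne_zero, ← Nat.pos_iff_ne_zero, Set.ncard_pos
    ((List.finite_length_eq (Fin d) 1).subset fun w hw => hw.1)]
  refine ⟨[v], rfl, fun u hu hin => hu.2.2 ?_⟩
  have hu1 : u = [v] := by
    rcases List.infix_cons_iff.1 hin with hp | hp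
    · rcases List.prefix_cons_iff.1 hp with rfl | ⟨u', rfl, hp'⟩
      · exact absurd rfl hu.1
      · rw [List.prefix_nil.1 hp']
    · exact absurd (List.infix_nil.1 hp) hu.1
  rw [hu1]
  exact ⟨by simpa using hv, by simp, List.isChain_singleton v⟩

end Loc2

open Loc2 in
/-- ROW Loc2: walks with at least two continuations -/
theorem loc_walk {d : ℕ} (s : ℕ) (hs : 1 ≤ s) (Γ : SimpleGraph (Fin d)) (T : Set (Fin d))
    (hT : T.Nonempty) (h : ∀ v ∈ T, s + 1 ≤ {w | w ∈ T ∧ Γ.Adj v w}.ncard) :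
    (badC Γ T s).Finite ∧ [] ∉ badC Γ T s ∧
      ∀ n, (1 / 2 : ℝ) * 2 ^ n ≤ (cnt (badC Γ T s) n : ℝ) := by
  refine ⟨(List.finite_length_le (Fin d) (s + 1)).subset fun u hu => hu.2.1,
    fun h => h.1 rfl, ?_⟩
  have h1 : ∀ n, 2 ^ n ≤ cnt (badC Γ T s) (n + 1) := by
    intro n
    induction n with
    | zero => simpa using cnt_one Γ T hT
    | succ n ih =>
      have h2 := cnt_succ hs Γ T hT h (n + 1) (by omega)
      rw [pow_succ]
      omega
  intro n
  cases n with
  | zero =>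
    have h2 : (1 : ℝ) ≤ (cnt (badC Γ T s) 0 : ℝ) := by exact_mod_cast cnt_zero Γ T
    rw [pow_zero]
    linarith
  | succ n =>
    have h2 : ((2 ^ n : ℕ) : ℝ) ≤ (cnt (badC Γ T s) (n + 1) : ℝ) := by exact_mod_cast h1 n
    push_cast at h2
    rw [pow_succ]
    linarith

end Pool.MW
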