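import Pool.Agent.Helper17.MW.Defs

/-!
# Row Loc3: the Golod-Shafarevich inequality leaves many edges
-/

set_option autoImplicit false

namespace Pool.MW

open Ser

open Pool.H96.GS in
/-- ROW Loc3: the Golod-Shafarevich inequality leaves many edges -/
theorem loc_gs {p d s : ℕ} (K : Finset (Fin d)) (R : Set (FreeGroup (Fin d))) (hR : GSIneq p d R)
    (_h2 : ∀ r ∈ R, 2 ≤ deg p r) (hd : 4 * (s + K.card) + 2 ≤ d) :
    s * d < (lam p K R).edgeSet.ncard := by
  classical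
  obtain ⟨t, ht0, ht1, hsum, hlt⟩ := hR
  let T : Finset (Sym2 (Fin d)) := (Kᶜ).offDiag.image (fun x => s(x.1, x.2))
  have hT : T.card = (Kᶜ).card.choose 2 := Sym2.card_image_offDiag _
  let N : Finset (Sym2 (Fin d)) := T.filter (fun e => e ∉ (lam p K R).edgeSet)
  have hex : ∀ e : N, ∃ r : R, deg p (r : FreeGroup (Fin d)) ≤ 2 ∧
      ∀ x, x ∈ letters (r : FreeGroup (Fin d)) \ K ↔ x ∈ (e : Sym2 (Fin d)) := by
    rintro ⟨e, he⟩
    obtain ⟨heT, hne⟩ := Finset.mem_filter.1 he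
    obtain ⟨⟨i, j⟩, hij, rfl⟩ := Finset.mem_image.1 heT
    obtain ⟨hi, hj, hij⟩ := Finset.mem_offDiag.1 hij
    have hi' : i ∉ K := Finset.mem_compl.1 hi
    have hj' : j ∉ K := Finset.mem_compl.1 hj
    have h3 : ¬ ∀ r ∈ R, letters r \ K = {i, j} → 3 ≤ deg p r :=
      fun h => hne ((SimpleGraph.mem_edgeSet _).2 ⟨hij, hi', hj', h⟩)
    push Not at h3
    obtain ⟨r, hr, hl, hdr⟩ := h3
    refine ⟨⟨r, hr⟩, by change deg p r ≤ 2; omega, fun x => ?_⟩
    change x ∈ letters r \ K ↔ _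
    rw [hl]
    simp
  choose f hf1 hf2 using hex
  have hinj : Function.Injective f := by
    intro e e' h
    apply Subtype.ext
    apply Sym2.ext
    intro x
    rw [← hf2 e x, ← hf2 e' x, h]
  have hm : (N.card : ℝ) * t ^ 2 ≤ ∑' r : R, t ^ deg p (r : FreeGroup (Fin d)) := by
    have h1 : ∑ r ∈ Finset.univ.image f, t ^ deg p (r : FreeGroup (Fin d)) ≤
        ∑' r : R, t ^ deg p (r : FreeGroup (Fin d)) :=
      hsum.sum_le_tsum _ (fun r _ => by positivity)
    rw [Finset.sum_image (fun a _ b _ h => hinj h)] at h1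
    refine le_trans ?_ h1
    calc (N.card : ℝ) * t ^ 2 = ∑ _e : N, t ^ 2 := by
          rw [Finset.sum_const, nsmul_eq_mul, Finset.card_univ, Fintype.card_coe]
      _ ≤ _ := Finset.sum_le_sum (fun e _ => pow_le_pow_of_le_one ht0.le ht1.le (hf1 e))
  have hm2 : 4 * (N.card : ℝ) < (d : ℝ) ^ 2 := by
    by_contra hcon
    rw [not_lt] at hcon
    have h1 : (d : ℝ) ^ 2 * t ^ 2 ≤ 4 * (N.card : ℝ) * t ^ 2 :=
      mul_le_mul_of_nonneg_right hcon (by positivity)
    nlinarith [sq_nonneg (1 - (d : ℝ) * t / 2)]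
  have htop : T.card ≤ (lam p K R).edgeSet.ncard + N.card := by
    have h1 : (T : Set (Sym2 (Fin d))) ⊆ (lam p K R).edgeSet ∪ (N : Set (Sym2 (Fin d))) := by
      intro e he
      by_cases h : e ∈ (lam p K R).edgeSet
      · exact Or.inl h
      · exact Or.inr (Finset.mem_coe.2 (Finset.mem_filter.2 ⟨he, h⟩))
    calc T.card = (T : Set (Sym2 (Fin d))).ncard := (Set.ncard_coe_finset T).symm
      _ ≤ ((lam p K R).edgeSet ∪ (N : Set (Sym2 (Fin d)))).ncard :=
          Set.ncard_le_ncard h1 (Set.toFinite _)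
      _ ≤ (lam p K R).edgeSet.ncard + (N : Set (Sym2 (Fin d))).ncard := Set.ncard_union_le _ _
      _ = _ := by rw [Set.ncard_coe_finset]
  have hkd : K.card ≤ d := by simpa using Finset.card_le_univ K
  have hkc : (((Kᶜ).card : ℕ) : ℝ) = (d : ℝ) - K.card := by
    rw [Finset.card_compl, Fintype.card_fin, Nat.cast_sub hkd]
  have htop' : ((d : ℝ) - K.card) * ((d : ℝ) - K.card - 1) / 2 ≤
      ((lam p K R).edgeSet.ncard : ℝ) + (N.card : ℝ) := by
    rw [← hkc, ← Nat.cast_choose_two, ← hT]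
    exact_mod_cast htop
  have hd' : 4 * ((s : ℝ) + K.card) + 2 ≤ d := by exact_mod_cast hd
  have hs : (0 : ℝ) ≤ s := Nat.cast_nonneg s
  have hk : (0 : ℝ) ≤ (K.card : ℝ) := Nat.cast_nonneg _
  have hd0 : (0 : ℝ) ≤ d := Nat.cast_nonneg _
  have hfin : (s : ℝ) * d < ((lam p K R).edgeSet.ncard : ℝ) := by
    nlinarith [mul_le_mul_of_nonneg_left hd' hd0, mul_nonneg hk hk]
  exact_mod_cast hfin

end Pool.MW
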