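import Pool.Agent.Helper17.MW.Defs

/-!
# The inequality gives exponential growth

The total weight of the words of length `n` without factor in `C` grows at least geometrically.
-/

set_option autoImplicit false

namespace Pool.MW

namespace MilAux

open Classical

variable {d : ℕ}

/-- the words of length `n` -/
noncomputable def words (d : ℕ) : ℕ → Finset (List (Fin d))
  | 0 => {[]}
  | n + 1 => (Finset.univ ×ˢ words d n).image fun p : Fin d × List (Fin d) => p.1 :: p.2

lemma mem_words (n : ℕ) (w : List (Fin d)) : w ∈ words d n ↔ w.length = n := by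
  induction n generalizing w with
  | zero => simp [words]
  | succ n ih =>
    simp only [words, Finset.mem_image, Finset.mem_product, Finset.mem_univ, true_and, ih]
    constructor
    · rintro ⟨p, hp, rfl⟩
      simp [hp]
    · intro h
      cases w with
      | nil => simp at h
      | cons a w => exact ⟨(a, w), by simpa using h, rfl⟩

/-- the words of length `n` without factor in `C` -/
noncomputable def good (C : Set (List (Fin d))) (n : ℕ) : Finset (List (Fin d)) :=
  (words d n).filter (Av C)

lemma mem_good (C : Set (List (Fin d))) (n : ℕ) (w : List (Fin d)) :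
    w ∈ good C n ↔ w.length = n ∧ Av C w := by
  rw [good, Finset.mem_filter, mem_words]

lemma cnt_eq (C : Set (List (Fin d))) (n : ℕ) : cnt C n = (good C n).card := by
  rw [cnt, ← Set.ncard_coe_finset]
  congr 1
  ext w
  simp [mem_good]

/-- the total weight -/
noncomputable def tw (C : Set (List (Fin d))) (t : Fin d → ℝ) (n : ℕ) : ℝ := ∑ w ∈ good C n, wt t w

lemma wt_nonneg (t : Fin d → ℝ) (ht : ∀ i, 0 ≤ t i ∧ t i ≤ 1) (w : List (Fin d)) : 0 ≤ wt t w := by
  induction w with
  | nil => simp [wt]
  | cons a w ih =>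
    have h1 : wt t (a :: w) = t a * wt t w := by simp [wt]
    rw [h1]
    exact mul_nonneg (ht a).1 ih

lemma wt_le_one (t : Fin d → ℝ) (ht : ∀ i, 0 ≤ t i ∧ t i ≤ 1) (w : List (Fin d)) : wt t w ≤ 1 := by
  induction w with
  | nil => simp [wt]
  | cons a w ih =>
    have h1 : wt t (a :: w) = t a * wt t w := by simp [wt]
    rw [h1]
    exact mul_le_one₀ (ht a).2 (wt_nonneg t ht w) ih

lemma wt_append (t : Fin d → ℝ) (u v : List (Fin d)) : wt t (u ++ v) = wt t u * wt t v := by
  simp [wt]

lemma tw_nonneg (C : Set (List (Fin d))) (t : Fin d → ℝ) (ht : ∀ i, 0 ≤ t i ∧ t i ≤ 1) (n : ℕ) :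
    0 ≤ tw C t n := Finset.sum_nonneg fun w _ => wt_nonneg t ht w

lemma tw_zero (C : Set (List (Fin d))) (h0 : [] ∉ C) (t : Fin d → ℝ) : tw C t 0 = 1 := by
  have h1 : good C 0 = {[]} := by
    ext w
    rw [mem_good, Finset.mem_singleton, List.length_eq_zero_iff]
    constructor
    · exact fun h => h.1
    · rintro rfl
      refine ⟨rfl, fun u hu h => h0 ?_⟩
      have h2 : u = [] := List.infix_nil.1 h
      rwa [h2] at hu
  rw [tw, h1, Finset.sum_singleton]
  simp [wt]

lemma tw_le_cnt (C : Set (List (Fin d))) (t : Fin d → ℝ) (ht : ∀ i, 0 ≤ t i ∧ t i ≤ 1) (n : ℕ) :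
    tw C t n ≤ (cnt C n : ℝ) := by
  rw [cnt_eq, tw]
  calc ∑ w ∈ good C n, wt t w ≤ ∑ w ∈ good C n, (1 : ℝ) :=
        Finset.sum_le_sum fun w _ => wt_le_one t ht w
    _ = ((good C n).card : ℝ) := by simp

lemma av_suffix (C : Set (List (Fin d))) (u v : List (Fin d)) (h : Av C (u ++ v)) : Av C v :=
  fun x hx hxv => h x hx (hxv.trans (List.suffix_append u v).isInfix)

/-- the basic inequality -/
lemma tw_succ (C : Finset (List (Fin d))) (h0 : [] ∉ C) (t : Fin d → ℝ)
    (ht : ∀ i, 0 ≤ t i ∧ t i ≤ 1) (n : ℕ) :
    (∑ i, t i) * tw (C : Set (List (Fin d))) t n ≤ tw (C : Set (List (Fin d))) t (n + 1) +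
      ∑ u ∈ C, wt t u * (if u.length ≤ n + 1 then
        tw (C : Set (List (Fin d))) t (n + 1 - u.length) else 0) := by
  set D : Set (List (Fin d)) := (C : Set (List (Fin d))) with hD
  -- the extensions
  set E : Finset (List (Fin d)) :=
    (Finset.univ ×ˢ good D n).image fun p : Fin d × List (Fin d) => p.1 :: p.2 with hE
  have hinj : Set.InjOn (fun p : Fin d × List (Fin d) => p.1 :: p.2)
      ((Finset.univ ×ˢ good D n : Finset (Fin d × List (Fin d))) :
        Set (Fin d × List (Fin d))) := by
    rintro ⟨a, w⟩ _ ⟨b, v⟩ _ h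
    simp only [List.cons.injEq] at h
    rw [h.1, h.2]
  have hsum : ∑ w ∈ E, wt t w = (∑ i, t i) * tw D t n := by
    rw [hE, Finset.sum_image hinj, Finset.sum_product, tw, Finset.sum_mul_sum]
    refine Finset.sum_congr rfl fun a _ => Finset.sum_congr rfl fun w _ => ?_
    simp [wt]
  -- every extension is good or starts with a word of `C`
  have hmem : ∀ w ∈ E, w ∈ good D (n + 1) ∨ ∃ u ∈ C, ∃ v ∈ good D (n + 1 - u.length),
      u.length ≤ n + 1 ∧ w = u ++ v := by
    intro w hw
    rw [hE, Finset.mem_image] at hw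
    obtain ⟨⟨a, x⟩, hp, rfl⟩ := hw
    rw [Finset.mem_product] at hp
    have hx := (mem_good _ _ _).1 hp.2
    by_cases hav : Av D (a :: x)
    · exact Or.inl ((mem_good _ _ _).2 ⟨by simp [hx.1], hav⟩)
    · right
      unfold Av at hav
      push Not at hav
      obtain ⟨u, hu, huw⟩ := hav
      rcases List.infix_cons_iff.1 huw with hpre | hin
      · obtain ⟨v, hv⟩ := hpre
        have hune : u ≠ [] := by
          rintro rfl
          exact h0 (by simpa [hD] using hu)
        have hlen : u.length + v.length = n + 1 := by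
          have := congrArg List.length hv
          rw [List.length_append] at this
          simp only [List.length_cons] at this
          rw [this]
          have hx1 : x.length = n := hx.1
          omega
        refine ⟨u, by simpa [hD] using hu, v, ?_, by omega, hv.symm⟩
        rw [mem_good]
        refine ⟨by omega, ?_⟩
        cases u with
        | nil => exact absurd rfl hune
        | cons b u' =>
          rw [List.cons_append, List.cons.injEq] at hv
          apply av_suffix D u' v
          rw [hv.2]
          exact hx.2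
      · exact absurd hin (hx.2 u hu)
  rw [← hsum]
  have hle : ∑ w ∈ E, wt t w ≤ ∑ w ∈ E, ((if w ∈ good D (n + 1) then wt t w else 0) +
      ∑ u ∈ C, ∑ v ∈ good D (n + 1 - u.length),
        if u.length ≤ n + 1 ∧ w = u ++ v then wt t w else 0) := by
    refine Finset.sum_le_sum fun w hw => ?_
    have hw0 := wt_nonneg t ht w
    have hnn : ∀ u ∈ C, ∀ v ∈ good D (n + 1 - u.length),
        0 ≤ (if u.length ≤ n + 1 ∧ w = u ++ v then wt t w else 0) := by
      intro u _ v _
      split_ifs
      · exact hw0
      · exact le_refl _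
    have hnn2 : 0 ≤ ∑ u ∈ C, ∑ v ∈ good D (n + 1 - u.length),
        (if u.length ≤ n + 1 ∧ w = u ++ v then wt t w else 0) :=
      Finset.sum_nonneg fun u hu => Finset.sum_nonneg fun v hv => hnn u hu v hv
    rcases hmem w hw with h | ⟨u, hu, v, hv, hlen, huv⟩
    · rw [if_pos h]
      linarith
    · have h1 : wt t w ≤ ∑ v ∈ good D (n + 1 - u.length),
          (if u.length ≤ n + 1 ∧ w = u ++ v then wt t w else 0) := by
        have h2 := Finset.single_le_sum (fun v hv => hnn u hu v hv) hv
        rw [if_pos ⟨hlen, huv⟩] at h2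
        exact h2
      have h3 := Finset.single_le_sum
        (f := fun u => ∑ v ∈ good D (n + 1 - u.length),
          (if u.length ≤ n + 1 ∧ w = u ++ v then wt t w else 0))
        (fun u hu => Finset.sum_nonneg fun v hv => hnn u hu v hv) hu
      have h4 : 0 ≤ (if w ∈ good D (n + 1) then wt t w else 0) := by
        split_ifs
        · exact hw0
        · exact le_refl _
      linarith
  refine hle.trans ?_
  rw [Finset.sum_add_distrib]
  refine add_le_add ?_ ?_
  · rw [← Finset.sum_filter, tw]
    refine Finset.sum_le_sum_of_subset_of_nonneg ?_ fun w _ _ => wt_nonneg t ht w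
    intro w hw
    exact (Finset.mem_filter.1 hw).2
  · rw [Finset.sum_comm]
    refine Finset.sum_le_sum fun u hu => ?_
    rw [Finset.sum_comm]
    by_cases hlen : u.length ≤ n + 1
    · rw [if_pos hlen, tw, Finset.mul_sum]
      refine Finset.sum_le_sum fun v hv => ?_
      have h1 : ∑ w ∈ E, (if u.length ≤ n + 1 ∧ w = u ++ v then wt t w else 0) =
          ∑ w ∈ E, (if w = u ++ v then wt t (u ++ v) else 0) := by
        refine Finset.sum_congr rfl fun w _ => ?_
        by_cases hw : w = u ++ v
        · rw [if_pos ⟨hlen, hw⟩, if_pos hw, hw]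
        · rw [if_neg (fun h => hw h.2), if_neg hw]
      rw [h1, Finset.sum_ite_eq']
      rw [← wt_append]
      split_ifs
      · exact le_refl _
      · exact wt_nonneg t ht _
    · rw [if_neg hlen, mul_zero]
      refine le_of_eq (Finset.sum_eq_zero fun v _ => Finset.sum_eq_zero fun w _ => ?_)
      rw [if_neg (fun h => hlen h.1)]

end MilAux

open MilAux in
/-- ROW Mil: the inequality gives exponential growth -/
theorem mil {d : ℕ} (C : Finset (List (Fin d))) (h0 : [] ∉ C) (t : Fin d → ℝ)
    (ht : ∀ i, 0 ≤ t i ∧ t i ≤ 1) (h : 1 - ∑ i, t i + ∑ u ∈ C, wt t u < 0) :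
    ∃ c : ℝ, 1 < c ∧ ∀ n, c ^ n ≤ (cnt (C : Set (List (Fin d))) n : ℝ) := by
  set c : ℝ := ∑ i, t i - ∑ u ∈ C, wt t u with hc
  have hc1 : 1 < c := by rw [hc]; linarith
  refine ⟨c, hc1, ?_⟩
  set W : ℕ → ℝ := tw (C : Set (List (Fin d))) t with hW
  have hW0 : W 0 = 1 := tw_zero _ (by simpa using h0) t
  have hWn : ∀ n, 0 ≤ W n := fun n => tw_nonneg _ t ht n
  have key : ∀ n, (∀ m ≤ n, W m ≤ W n) ∧ c * W n ≤ W (n + 1) := by
    intro n
    induction n with
    | zero =>
      have h1 : ∀ m ≤ 0, W m ≤ W 0 := by
        intro m hm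
        have : m = 0 := by omega
        rw [this]
      refine ⟨h1, ?_⟩
      have h2 := tw_succ C h0 t ht 0
      have h3 : ∑ u ∈ C, wt t u * (if u.length ≤ 0 + 1 then
          tw (C : Set (List (Fin d))) t (0 + 1 - u.length) else 0) ≤ ∑ u ∈ C, wt t u * W 0 := by
        refine Finset.sum_le_sum fun u hu => ?_
        refine mul_le_mul_of_nonneg_left ?_ (wt_nonneg t ht u)
        split_ifs with hl
        · refine h1 _ ?_
          have : u ≠ [] := by rintro rfl; exact h0 hu
          have := List.length_pos_iff.2 this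
          omega
        · exact hWn 0
      rw [← Finset.sum_mul] at h3
      have h4 : c * W 0 = (∑ i, t i) * W 0 - (∑ u ∈ C, wt t u) * W 0 := by rw [hc]; ring
      rw [h4]
      have h5 : (∑ i, t i) * W 0 ≤ W (0 + 1) + (∑ u ∈ C, wt t u) * W 0 := h2.trans (by linarith)
      linarith
    | succ n ih =>
      have h0' : W n ≤ W (n + 1) := by
        have h6 : W n ≤ c * W n := by nlinarith [hWn n]
        linarith [ih.2]
      have h1 : ∀ m ≤ n + 1, W m ≤ W (n + 1) := by
        intro m hm
        rcases Nat.lt_or_ge m (n + 1) with hm1 | hm1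
        · exact (ih.1 m (by omega)).trans h0'
        · have : m = n + 1 := by omega
          rw [this]
      refine ⟨h1, ?_⟩
      have h2 := tw_succ C h0 t ht (n + 1)
      have h3 : ∑ u ∈ C, wt t u * (if u.length ≤ n + 1 + 1 then
          tw (C : Set (List (Fin d))) t (n + 1 + 1 - u.length) else 0) ≤
          ∑ u ∈ C, wt t u * W (n + 1) := by
        refine Finset.sum_le_sum fun u hu => ?_
        refine mul_le_mul_of_nonneg_left ?_ (wt_nonneg t ht u)
        split_ifs with hl
        · refine h1 _ ?_
          have : u ≠ [] := by rintro rfl; exact h0 hu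
          have := List.length_pos_iff.2 this
          omega
        · exact hWn _
      rw [← Finset.sum_mul] at h3
      have h4 : c * W (n + 1) = (∑ i, t i) * W (n + 1) - (∑ u ∈ C, wt t u) * W (n + 1) := by
        rw [hc]; ring
      rw [h4]
      have h5 : (∑ i, t i) * W (n + 1) ≤ W (n + 1 + 1) + (∑ u ∈ C, wt t u) * W (n + 1) :=
        h2.trans (by linarith)
      linarith
  have hpow : ∀ n, c ^ n ≤ W n := by
    intro n
    induction n with
    | zero => rw [hW0, pow_zero]
    | succ n ih =>
      rw [pow_succ]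
      have h1 := (key n).2
      have h2 : c ^ n * c ≤ W n * c := mul_le_mul_of_nonneg_right ih (by linarith)
      linarith
  exact fun n => (hpow n).trans (tw_le_cnt _ t ht n)

end Pool.MW
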