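import Pool.Agent.Helper17.MW.Core
import Pool.Agent.Helper17.MW.Grow
import Pool.Agent.Helper17.MW.Mil
import Pool.Agent.Helper17.MW.Loc1
import Pool.Agent.Helper17.MW.Loc2
import Pool.Agent.Helper17.MW.Loc3
import Pool.Agent.Helper17.MW.Deg
import Pool.Agent.Helper17.MW.Dia
import Pool.Agent.Helper96.GS.Fp

/-!
# Free subgroups: local relators, and relators whose leading words do not overlap
-/

set_option autoImplicit false
set_option linter.unusedSectionVars false

namespace Pool.MW

open Ser Pool.H96.GS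

lemma smul_mul_ser {α K : Type} [Field K] (c : K) (f g : Ser α K) :
    (c • f) * g = c • (f * g) := funext fun w => mulS_smul_left c f g w

lemma mul_smul_ser {α K : Type} [Field K] (c : K) (f g : Ser α K) :
    f * (c • g) = c • (f * g) := by
  funext w
  induction w generalizing f with
  | nil =>
    rw [mul_nil, Ser.smul_apply, Ser.smul_apply, mul_nil]
    ring
  | cons a w ih =>
    rw [mul_cons, ih, Ser.smul_apply, Ser.smul_apply, Ser.smul_apply, mul_cons]
    ring

/-- a word of the Magnus expansion of a local relator has a short bad factor -/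
theorem bad_of_cf {p d s : ℕ} [Fact p.Prime] (K : Finset (Fin d)) (R : Set (FreeGroup (Fin d)))
    (T : Set (Fin d)) (hT : ∀ a ∈ T, a ∉ K) (r : FreeGroup (Fin d)) (hr : r ∈ R)
    (h2 : 2 ≤ deg p r) (hs : (letters r \ K).card ≤ s)
    (h3 : 3 ≤ (letters r \ K).card → (letters r \ K).card < deg p r)
    (w : List (Fin d)) (hw : w ≠ []) (hc : cf (ZMod p) r w ≠ 0) :
    ∃ u ∈ badC (lam p K R) T s, u <:+: w := by
  by_contra hcon
  push Not at hcon
  have hgood : ∀ u : List (Fin d), u ≠ [] → u.length ≤ s + 1 → u <:+: w → Good (lam p K R) T u := by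
    intro u h0 hl hu
    by_contra hg
    exact hcon u ⟨h0, hl, hg⟩ hu
  have hdeg := deg_le (p := p) r w hw hc
  have hlet := letters_of_cf (ZMod p) r w hc
  -- all letters of `w` are outside `K`
  have hout : ∀ a ∈ w, a ∈ letters r \ K := by
    intro a ha
    have h1 : [a] <:+: w := by
      obtain ⟨x, y, rfl⟩ := List.append_of_mem ha
      exact ⟨x, y, by simp⟩
    have h4 := (hgood [a] (by simp) (by simp) h1).1 a (by simp)
    exact Finset.mem_sdiff.2 ⟨hlet a ha, hT a h4⟩
  set k := (letters r \ K).card with hk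
  by_cases hlt : k < deg p r
  · -- a short word with a repeated letter
    have hu : (w.take (k + 1)).length = k + 1 := by
      rw [List.length_take]
      omega
    have hg := hgood (w.take (k + 1)) (by
      intro h
      rw [h] at hu
      simp at hu) (by omega) (List.take_prefix _ _).isInfix
    have h4 : (w.take (k + 1)).toFinset ⊆ letters r \ K := by
      intro a ha
      rw [List.mem_toFinset] at ha
      exact hout a (List.mem_of_mem_take ha)
    have h5 := Finset.card_le_card h4
    rw [List.toFinset_card_of_nodup hg.2.1, hu] at h5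
    omega
  · have hk2 : k = 2 ∧ deg p r = 2 := by
      constructor
      · by_contra h
        have : 3 ≤ k := by omega
        have := h3 this
        omega
      · by_contra h
        by_cases h6 : 3 ≤ k
        · have := h3 h6
          omega
        · omega
    obtain ⟨a, b, w', rfl⟩ : ∃ a b w', w = a :: b :: w' := by
      match w, hdeg with
      | [], h => simp at h; omega
      | [a], h => simp at h; omega
      | a :: b :: w', _ => exact ⟨a, b, w', rfl⟩
    have hg := hgood [a, b] (by simp) (by simp; omega) ⟨[], w', by simp⟩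
    have hne : a ≠ b := by
      have := hg.2.1
      simp at this
      exact this
    have hadj : (lam p K R).Adj a b := by
      have := hg.2.2
      simpa using this
    have hset : letters r \ K = {a, b} := by
      symm
      apply Finset.eq_of_subset_of_card_le
      · intro x hx
        rcases Finset.mem_insert.1 hx with rfl | hx
        · exact hout x (by simp)
        · rw [Finset.mem_singleton] at hx
          subst hx
          exact hout x (by simp)
      · rw [← hk, Finset.card_pair hne]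
        omega
    have := hadj.2.2.2 r hr hset
    omega

/-- **Local relators.** -/
theorem mainA {G : Type} [Group G] {p d s : ℕ} (hp : p.Prime) (hs : 1 ≤ s)
    (φ : FreeGroup (Fin d) →* G) (R : Set (FreeGroup (Fin d)))
    (hR : φ.ker = Subgroup.normalClosure R) (hGS : GSIneq p d R) (K : Finset (Fin d))
    (hd : 4 * (s + K.card) + 2 ≤ d)
    (h : ∀ r ∈ R, 2 ≤ deg p r ∧ (letters r \ K).card ≤ s ∧
      (3 ≤ (letters r \ K).card → (letters r \ K).card < deg p r)) :
    ∃ f : FreeGroup (Fin 2) →* G, Function.Injective f := by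
  have : Fact p.Prime := ⟨hp⟩
  obtain ⟨T, hT, hT'⟩ := loc_core s (lam p K R) (loc_gs K R hGS (fun r hr => (h r hr).1) hd)
  have hTK : ∀ a ∈ T, a ∉ K := by
    intro a ha
    have h1 := hT' a ha
    have h2 : {w | w ∈ T ∧ (lam p K R).Adj a w}.Nonempty := by
      rw [← Set.ncard_pos]
      omega
    obtain ⟨w, hw⟩ := h2
    exact hw.2.2.1
  obtain ⟨hfin, h0, hgr⟩ := loc_walk s hs (lam p K R) T hT hT'
  obtain ⟨A, B, hAB, hlen, hav⟩ := grow _ hfin h0 2 (1 / 2) (by norm_num) (by norm_num) hgr
  exact core_mono p _ hfin h0 A B hAB hlen hav R (fun r hr w hw hc =>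
    bad_of_cf K R T hTK r hr (h r hr).1 (h r hr).2.1 (h r hr).2.2 w hw hc) φ hR

/-- the words of length `n` in the letters of `S` -/
def Wd {d : ℕ} (S : Finset (Fin d)) (n : ℕ) : Finset (List (Fin d)) :=
  (Fintype.piFinset fun _ : Fin n => S).image List.ofFn

lemma card_Wd {d : ℕ} (S : Finset (Fin d)) (n : ℕ) : (Wd S n).card ≤ S.card ^ n := by
  unfold Wd
  refine Finset.card_image_le.trans ?_
  rw [Fintype.card_piFinset_const]

lemma length_Wd {d : ℕ} {S : Finset (Fin d)} {n : ℕ} {u : List (Fin d)} (h : u ∈ Wd S n) :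
    u.length = n := by
  unfold Wd at h
  obtain ⟨f, -, rfl⟩ := Finset.mem_image.1 h
  exact List.length_ofFn

lemma mem_Wd {d : ℕ} {S : Finset (Fin d)} {u : List (Fin d)} (h : ∀ a ∈ u, a ∈ S) :
    u ∈ Wd S u.length := by
  unfold Wd
  rw [Finset.mem_image]
  refine ⟨u.get, ?_, List.ofFn_get u⟩
  rw [Fintype.mem_piFinset]
  intro i
  exact h _ (List.get_mem u i)

lemma sum_biUnion_le' {ι β : Type} [DecidableEq β] (s : Finset ι) (t : ι → Finset β) (f : β → ℝ)
    (hf : ∀ b, 0 ≤ f b) : ∑ b ∈ s.biUnion t, f b ≤ ∑ i ∈ s, ∑ b ∈ t i, f b := by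
  classical
  induction s using Finset.induction_on with
  | empty => simp
  | insert a s ha ih =>
    rw [Finset.biUnion_insert, Finset.sum_insert ha]
    have h1 : ∑ b ∈ t a ∪ s.biUnion t, f b ≤ ∑ b ∈ t a, f b + ∑ b ∈ s.biUnion t, f b := by
      rw [← Finset.sum_union_inter]
      have := Finset.sum_nonneg (s := t a ∩ s.biUnion t) fun b _ => hf b
      linarith
    linarith

/-- an element of degree zero has no words -/
lemma cf_zero {p d : ℕ} [Fact p.Prime] (r : FreeGroup (Fin d)) (h : deg p r = 0)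
    (w : List (Fin d)) (hw : w ≠ []) : cf (ZMod p) r w = 0 := by
  by_contra hc
  -- the set of exponents is not bounded, otherwise the degree is positive
  have h1 : (1 : ℕ) ∈ {n : ℕ | MonoidAlgebra.of (ZMod p) (FreeGroup (Fin d)) r - 1 ∈ M p d n} := by
    show MonoidAlgebra.of (ZMod p) (FreeGroup (Fin d)) r - 1 ∈ M p d 1
    unfold M
    rw [pow_one]
    exact Submodule.subset_span ⟨r, rfl⟩
  have hb : BddAbove {n : ℕ | MonoidAlgebra.of (ZMod p) (FreeGroup (Fin d)) r - 1 ∈ M p d n} := by
    refine ⟨w.length, fun n hn => ?_⟩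
    rw [Set.mem_setOf_eq] at hn
    letI := algSer (Fin d) (ZMod p)
    have h1 := M_low (Fact.out : p.Prime) n _ hn
    rw [map_sub, map_one, MonoidAlgebra.lift_of] at h1
    by_contra hcon
    apply hc
    have h2 := h1 w (by omega)
    rw [Ser.sub_apply] at h2
    cases w with
    | nil => exact absurd rfl hw
    | cons a w =>
      rw [Ser.one_cons, sub_zero] at h2
      exact h2
  have h2 : 1 ≤ deg p r := le_csSup hb h1
  omega

/-- **Few letters.** -/
theorem mainA2 {G : Type} [Group G] (hG : FP G) {p d : ℕ} (hp : p.Prime)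
    (φ : FreeGroup (Fin d) →* G) (hφ : Function.Surjective φ) (R : Set (FreeGroup (Fin d)))
    (hR : φ.ker = Subgroup.normalClosure R) (t : ℝ) (ht0 : 0 < t) (ht1 : t < 1)
    (hsum : Summable fun r : R => (((letters (r : FreeGroup (Fin d))).card : ℝ) * t) ^
      deg p (r : FreeGroup (Fin d)))
    (hlt : 1 - (d : ℝ) * t + ∑' r : R, (((letters (r : FreeGroup (Fin d))).card : ℝ) * t) ^
      deg p (r : FreeGroup (Fin d)) < 0) :
    ∃ f : FreeGroup (Fin 2) →* G, Function.Injective f := by
  classical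
  have : Fact p.Prime := ⟨hp⟩
  obtain ⟨R0, h0, hfin, hker⟩ := finite_subset hG φ hφ R hR
  set T : Finset (FreeGroup (Fin d)) := hfin.toFinset.filter fun r => 1 ≤ deg p r with hT
  have hTm : ∀ r ∈ T, r ∈ R0 ∧ 1 ≤ deg p r := by
    intro r hr
    rw [hT, Finset.mem_filter, Set.Finite.mem_toFinset] at hr
    exact hr
  set C : Finset (List (Fin d)) := T.biUnion fun r => Wd (letters r) (deg p r) with hC
  have hC0 : [] ∉ C := by
    intro h
    rw [hC, Finset.mem_biUnion] at h
    obtain ⟨r, hr, hr'⟩ := h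
    have := length_Wd hr'
    have := (hTm r hr).2
    simp at *
    omega
  have hineq : 1 - ∑ _i : Fin d, t + ∑ u ∈ C, wt (fun _ : Fin d => t) u < 0 := by
    have e1 : ∑ _i : Fin d, t = (d : ℝ) * t := by simp
    have hw : ∀ u : List (Fin d), wt (fun _ : Fin d => t) u = t ^ u.length := by
      intro u
      unfold wt
      simp
    have e2 : ∑ u ∈ C, wt (fun _ : Fin d => t) u ≤
        ∑ r ∈ T, (((letters r).card : ℝ) * t) ^ deg p r := by
      rw [hC]
      refine (sum_biUnion_le' T _ _ (fun u => by rw [hw]; positivity)).trans ?_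
      apply Finset.sum_le_sum
      intro r _
      have e3 : ∑ u ∈ Wd (letters r) (deg p r), wt (fun _ : Fin d => t) u =
          ((Wd (letters r) (deg p r)).card : ℝ) * t ^ deg p r := by
        rw [Finset.sum_congr rfl (g := fun _ => t ^ deg p r), Finset.sum_const, nsmul_eq_mul]
        intro u hu
        rw [hw, length_Wd hu]
      rw [e3, mul_pow]
      have e4 : ((Wd (letters r) (deg p r)).card : ℝ) ≤ ((letters r).card : ℝ) ^ deg p r := by
        exact_mod_cast card_Wd (letters r) (deg p r)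
      exact mul_le_mul_of_nonneg_right e4 (by positivity)
    have e3 : ∑ r ∈ T, (((letters r).card : ℝ) * t) ^ deg p r ≤
        ∑' r : R, (((letters (r : FreeGroup (Fin d))).card : ℝ) * t) ^
          deg p (r : FreeGroup (Fin d)) := by
      have e4 : ∑ r ∈ T, (((letters r).card : ℝ) * t) ^ deg p r =
          ∑ r ∈ (T.subtype (· ∈ R)), (((letters (r : FreeGroup (Fin d))).card : ℝ) * t) ^
            deg p (r : FreeGroup (Fin d)) := by
        rw [Finset.sum_subtype_of_mem (fun r => (((letters r).card : ℝ) * t) ^ deg p r)]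
        intro r hr
        exact h0 (hTm r hr).1
      rw [e4]
      exact hsum.sum_le_tsum _ (fun r _ => by positivity)
    rw [e1]
    linarith
  obtain ⟨c, hc, hgr⟩ := mil C hC0 (fun _ => t) (fun _ => ⟨ht0.le, ht1.le⟩) hineq
  obtain ⟨A, B, hAB, hlen, hav⟩ := grow (C : Set (List (Fin d))) C.finite_toSet (by simpa using hC0)
    c 1 hc one_pos (by simpa using hgr)
  refine core_mono p (C : Set (List (Fin d))) C.finite_toSet (by simpa using hC0) A B hAB hlen hav
    R0 ?_ φ hker
  intro r hr w hw hcf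
  have hd : 1 ≤ deg p r := by
    by_contra h
    exact hcf (cf_zero r (by omega) w hw)
  have hle := deg_le r w hw hcf
  have hlet := letters_of_cf (ZMod p) r w hcf
  refine ⟨w.take (deg p r), ?_, (List.take_prefix _ _).isInfix⟩
  rw [hC, Finset.mem_coe, Finset.mem_biUnion]
  refine ⟨r, ?_, ?_⟩
  · rw [hT, Finset.mem_filter, Set.Finite.mem_toFinset]
    exact ⟨hr, hd⟩
  · have h1 := mem_Wd (S := letters r) (u := w.take (deg p r))
      (fun a ha => hlet a (List.mem_of_mem_take ha))
    have h2 : (w.take (deg p r)).length = deg p r := by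
      rw [List.length_take]
      omega
    rwa [h2] at h1

/-- `L` is the leading word of the Magnus expansion of `r` modulo `p` -/
def LeadWord (p : ℕ) {d : ℕ} (r : FreeGroup (Fin d)) (L : List (Fin d)) : Prop :=
  L ≠ [] ∧ cf (ZMod p) r L ≠ 0 ∧
    ∀ w : List (Fin d), w ≠ [] → cf (ZMod p) r w ≠ 0 → le2 L w

/-- **Leading words that do not overlap.** -/
theorem mainB {G : Type} [Group G] (hG : FP G) {p d : ℕ} (hp : p.Prime)
    (φ : FreeGroup (Fin d) →* G) (hφ : Function.Surjective φ) (R : Set (FreeGroup (Fin d)))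
    (hR : φ.ker = Subgroup.normalClosure R) (hGS : GSIneq p d R)
    (L : FreeGroup (Fin d) → List (Fin d)) (hL : ∀ r ∈ R, LeadWord p r (L r))
    (h1 : ∀ r ∈ R, ∀ r' ∈ R, L r <:+: L r' → r = r')
    (h2 : ∀ r ∈ R, ∀ r' ∈ R, ∀ x y z : List (Fin d), x ≠ [] → y ≠ [] → z ≠ [] →
      ¬ (L r = x ++ y ∧ L r' = y ++ z)) :
    ∃ f : FreeGroup (Fin 2) →* G, Function.Injective f := by
  classical
  have : Fact p.Prime := ⟨hp⟩
  obtain ⟨R0, h0, hfin, hker⟩ := finite_subset hG φ hφ R hR
  obtain ⟨t, ht0, ht1, hsum, hlt⟩ := hGS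
  -- the leading words of the finite set
  set C : Finset (List (Fin d)) := hfin.toFinset.image L with hC
  have hC0 : [] ∉ C := by
    intro h
    rw [hC, Finset.mem_image] at h
    obtain ⟨r, hr, hr'⟩ := h
    rw [Set.Finite.mem_toFinset] at hr
    exact (hL r (h0 hr)).1 hr'
  have hineq : 1 - ∑ _i : Fin d, t + ∑ u ∈ C, wt (fun _ : Fin d => t) u < 0 := by
    have e1 : ∑ _i : Fin d, t = (d : ℝ) * t := by simp
    have e2 : ∑ u ∈ C, wt (fun _ : Fin d => t) u ≤ ∑ r ∈ hfin.toFinset, t ^ deg p r := by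
      rw [hC, Finset.sum_image]
      · apply Finset.sum_le_sum
        intro r hr
        rw [Set.Finite.mem_toFinset] at hr
        have h3 : wt (fun _ : Fin d => t) (L r) = t ^ (L r).length := by
          unfold wt
          simp
        rw [h3]
        exact pow_le_pow_of_le_one ht0.le ht1.le
          (deg_le r (L r) (hL r (h0 hr)).1 (hL r (h0 hr)).2.1)
      · intro r hr r' hr' he
        rw [Finset.mem_coe, Set.Finite.mem_toFinset] at hr hr'
        apply h1 r (h0 hr) r' (h0 hr')
        rw [he]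
    have e3 : ∑ r ∈ hfin.toFinset, t ^ deg p r ≤ ∑' r : R, t ^ deg p (r : FreeGroup (Fin d)) := by
      have e4 : ∑ r ∈ hfin.toFinset, t ^ deg p r =
          ∑ r ∈ (hfin.toFinset.subtype (· ∈ R)), t ^ deg p (r : FreeGroup (Fin d)) := by
        rw [Finset.sum_subtype_of_mem (fun r => t ^ deg p r)]
        intro r hr
        rw [Set.Finite.mem_toFinset] at hr
        exact h0 hr
      rw [e4]
      exact hsum.sum_le_tsum _ (fun r _ => pow_nonneg ht0.le _)
    rw [e1]
    linarith
  obtain ⟨c, hc, hgr⟩ := mil C hC0 (fun _ => t) (fun _ => ⟨ht0.le, ht1.le⟩) hineq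
  obtain ⟨A, B, hAB, hlen, hav⟩ := grow (C : Set (List (Fin d))) C.finite_toSet (by simpa using hC0)
    c 1 hc one_pos (by simpa using hgr)
  -- the ideal
  let F : Set (Ser (Fin d) (ZMod p)) :=
    {f | ∃ r ∈ R0, f = (mag (Fin d) (ZMod p) r : Ser (Fin d) (ZMod p)) - 1}
  have hF : ∀ f : F, ∃ r ∈ R0, (f : Ser (Fin d) (ZMod p)) =
      (mag (Fin d) (ZMod p) r : Ser (Fin d) (ZMod p)) - 1 := fun f => f.2
  choose ρ hρ hρ' using hF
  let L' : Ser (Fin d) (ZMod p) → List (Fin d) := fun f => if hf : f ∈ F then L (ρ ⟨f, hf⟩) else []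
  have hL' : ∀ f (hf : f ∈ F), L' f = L (ρ ⟨f, hf⟩) := fun f hf => dif_pos hf
  have hlead : ∀ r ∈ R, Lead ((mag (Fin d) (ZMod p) r : Ser (Fin d) (ZMod p)) - 1) (L r) := by
    intro r hr
    obtain ⟨a1, a2, a3⟩ := hL r hr
    constructor
    · rw [Ser.sub_apply, one_apply, if_neg a1, sub_zero]
      exact a2
    · intro w hw
      by_cases hw' : w = []
      · subst hw'
        rw [Ser.sub_apply, mag_nil, one_nil, sub_self] at hw
        exact absurd rfl hw
      · apply a3 w hw'
        rw [Ser.sub_apply, one_apply, if_neg hw', sub_zero] at hw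
        exact hw
  refine core p (C : Set (List (Fin d))) C.finite_toSet (by simpa using hC0) A B hAB hlen hav
    ((Submodule.span (ZMod p) {x | ∃ a b : Ser (Fin d) (ZMod p), ∃ f ∈ F, x = a * f * b} :
      Submodule (ZMod p) (Ser (Fin d) (ZMod p))) : Set (Ser (Fin d) (ZMod p))) ?_ ?_ ?_ R0 ?_ φ hker ?_
  · intro f hf g hg
    exact Submodule.add_mem _ hf hg
  · intro f hf a b
    refine Submodule.span_induction ?_ ?_ ?_ ?_ hf
    · rintro x ⟨a', b', f, hf, rfl⟩
      apply Submodule.subset_span
      exact ⟨a * a', b' * b, f, hf, by simp only [mul_assoc]⟩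
    · rw [mul_zero, zero_mul]
      exact Submodule.zero_mem _
    · intro x y _ _ hx hy
      rw [mul_add, add_mul]
      exact Submodule.add_mem _ hx hy
    · intro c x _ hx
      rw [mul_smul_ser, smul_mul_ser]
      exact Submodule.smul_mem _ _ hx
  · intro f hf w hw
    obtain ⟨f', hf', hw'⟩ := dia F L' (by
      intro f hf
      rw [hL' f hf]
      have := hlead _ (h0 (hρ ⟨f, hf⟩))
      rw [← hρ' ⟨f, hf⟩] at this
      exact ⟨this, (hL _ (h0 (hρ ⟨f, hf⟩))).1⟩) (by
      intro f hf g hg hfg
      rw [hL' f hf, hL' g hg] at hfg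
      have := h1 _ (h0 (hρ ⟨f, hf⟩)) _ (h0 (hρ ⟨g, hg⟩)) hfg
      have e1 := hρ' ⟨f, hf⟩
      have e2 := hρ' ⟨g, hg⟩
      rw [this] at e1
      exact e1.trans e2.symm) (by
      intro f hf g hg x y z hx hy hz hxyz
      rw [hL' f hf, hL' g hg] at hxyz
      exact h2 _ (h0 (hρ ⟨f, hf⟩)) _ (h0 (hρ ⟨g, hg⟩)) x y z hx hy hz hxyz) f hf w hw
    refine ⟨L' f', ?_, hw'⟩
    rw [hL' f' hf', hC, Finset.mem_coe, Finset.mem_image]
    exact ⟨_, hfin.mem_toFinset.2 (hρ ⟨f', hf'⟩), rfl⟩
  · intro r hr
    apply Submodule.subset_span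
    exact ⟨1, 1, _, ⟨r, hr, rfl⟩, by rw [one_mul, mul_one]⟩
  · exact Submodule.zero_mem _

end Pool.MW
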