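import Pool.Agent.Helper17.MW.Loc2

/-!
# Walks without backtracking grow exponentially (row NB2)

`f n v w` counts the ways to prolong a walk with last vertices `v, w` by `n` steps without
backtracking. By Jensen's inequality for the logarithm the sum of `log f n` over the directed edges
grows linearly in `n`.
-/

set_option autoImplicit false
set_option linter.unusedSectionVars false

namespace Pool.MW

namespace Nb2

open Loc2

variable {d : ℕ} (Γ : SimpleGraph (Fin d)) (T : Set (Fin d))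

open Classical in
/-- the neighbours in `T` -/
noncomputable def nb (v : Fin d) : Finset (Fin d) := Finset.univ.filter fun a => a ∈ T ∧ Γ.Adj v a

theorem mem_nb (v a : Fin d) : a ∈ nb Γ T v ↔ a ∈ T ∧ Γ.Adj v a := by
  classical
  unfold nb
  simp

theorem card_nb (v : Fin d) : (nb Γ T v).card = {w | w ∈ T ∧ Γ.Adj v w}.ncard := by
  classical
  rw [← Set.ncard_coe_finset]
  congr 1
  ext a
  rw [Finset.mem_coe, mem_nb]
  rfl

/-- number of prolongations -/
noncomputable def f : ℕ → Fin d → Fin d → ℕ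
  | 0, _, _ => 1
  | n + 1, v, w => ∑ a ∈ (nb Γ T v).erase w, f n a v

/-- the words `u` of length `n` such that `u ++ l` avoids the short bad words -/
noncomputable def F (n : ℕ) (l : List (Fin d)) : Finset (List (Fin d)) :=
  Set.Finite.toFinset (s := {u | u.length = n ∧ Av (badC Γ T 2) (u ++ l)})
    ((List.finite_length_eq (Fin d) n).subset fun _ h => h.1)

theorem mem_F (n : ℕ) (l u : List (Fin d)) :
    u ∈ F Γ T n l ↔ u.length = n ∧ Av (badC Γ T 2) (u ++ l) := by
  unfold F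
  rw [Set.Finite.mem_toFinset]
  rfl

theorem f_le_card (n : ℕ) (v w : Fin d) (l : List (Fin d))
    (h : Av (badC Γ T 2) (v :: w :: l)) : f Γ T n v w ≤ (F Γ T n (v :: w :: l)).card := by
  classical
  induction n generalizing v w l with
  | zero =>
    show 1 ≤ _
    rw [Nat.one_le_iff_ne_zero, Finset.card_ne_zero]
    exact ⟨[], (mem_F Γ T _ _ _).2 ⟨rfl, h⟩⟩
  | succ n ih =>
    have h1 : ∀ a ∈ (nb Γ T v).erase w, Av (badC Γ T 2) (a :: v :: w :: l) := by
      intro a ha
      obtain ⟨ha1, ha2⟩ := Finset.mem_erase.1 ha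
      obtain ⟨ha3, ha4⟩ := (mem_nb Γ T v a).1 ha2
      exact good_cons Γ T h ha3 ha4 (by simpa using ha1)
    have hsub : ((nb Γ T v).erase w).biUnion
        (fun a => (F Γ T n (a :: v :: w :: l)).image (fun u => u ++ [a])) ⊆
        F Γ T (n + 1) (v :: w :: l) := by
      intro x hx
      obtain ⟨a, ha, hx⟩ := Finset.mem_biUnion.1 hx
      obtain ⟨u, hu, rfl⟩ := Finset.mem_image.1 hx
      rw [mem_F] at hu ⊢
      exact ⟨by simp [hu.1], by simpa using hu.2⟩
    refine le_trans ?_ (Finset.card_le_card hsub)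
    rw [Finset.card_biUnion]
    · show ∑ a ∈ (nb Γ T v).erase w, f Γ T n a v ≤ _
      refine Finset.sum_le_sum fun a ha => ?_
      rw [Finset.card_image_of_injective _ (List.append_left_injective [a])]
      exact ih a v (w :: l) (h1 a ha)
    · intro a _ b _ hab
      rw [Function.onFun, Finset.disjoint_left]
      intro x hx hx'
      obtain ⟨u, -, rfl⟩ := Finset.mem_image.1 hx
      obtain ⟨u', -, h2⟩ := Finset.mem_image.1 hx'
      exact hab (List.cons.inj (List.append_inj' h2 rfl).2.symm).1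

theorem av_single (v : Fin d) (hv : v ∈ T) : Av (badC Γ T 2) [v] := by
  intro u hu hin
  apply hu.2.2
  have hu1 : u = [v] := by
    rcases List.infix_cons_iff.1 hin with hp | hp
    · rcases List.prefix_cons_iff.1 hp with rfl | ⟨u', rfl, hp'⟩
      · exact absurd rfl hu.1
      · rw [List.prefix_nil.1 hp']
    · exact absurd (List.infix_nil.1 hp) hu.1
  rw [hu1]
  exact ⟨by simpa using hv, by simp, List.isChain_singleton v⟩

theorem f_le_cnt (n : ℕ) (v w : Fin d) (hw : w ∈ T) (hv : v ∈ T) (h : Γ.Adj w v) :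
    f Γ T n v w ≤ cnt (badC Γ T 2) (n + 2) := by
  classical
  have h1 : Av (badC Γ T 2) [v, w] := good_cons Γ T (av_single Γ T w hw) hv h (by simp)
  refine (f_le_card Γ T n v w [] h1).trans ?_
  unfold cnt
  rw [← Set.ncard_coe_finset, ← Set.ncard_image_of_injective _ (List.append_left_injective [v, w])]
  apply Set.ncard_le_ncard
  · rintro _ ⟨u, hu, rfl⟩
    rw [Finset.mem_coe, mem_F] at hu
    exact ⟨by simp [hu.1], hu.2⟩
  · exact (List.finite_length_eq (Fin d) (n + 2)).subset fun _ h => h.1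

/-- Jensen's inequality for the logarithm -/
theorem jensen {ι : Type*} (s : Finset ι) (hs : s.Nonempty) (x : ι → ℝ) (hx : ∀ i ∈ s, 0 < x i) :
    Real.log s.card + (∑ i ∈ s, Real.log (x i)) / s.card ≤ Real.log (∑ i ∈ s, x i) := by
  have hc : (0 : ℝ) < s.card := by exact_mod_cast Finset.card_pos.2 hs
  have h := strictConcaveOn_log_Ioi.concaveOn.le_map_sum (t := s) (w := fun _ => (1 : ℝ) / s.card)
    (p := x) (fun _ _ => by positivity) (by
      rw [Finset.sum_const, nsmul_eq_mul]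
      field_simp) (fun i hi => hx i hi)
  simp only [smul_eq_mul] at h
  rw [← Finset.mul_sum, ← Finset.mul_sum] at h
  have hpos : 0 < ∑ i ∈ s, x i := Finset.sum_pos hx hs
  rw [Real.log_mul (by positivity) hpos.ne', one_div, Real.log_inv] at h
  rw [div_eq_inv_mul]
  linarith

/-- the inner double count -/
theorem inner_sum (N : Finset (Fin d)) (hN : 2 ≤ N.card) (g : Fin d → ℝ) :
    ∑ w ∈ N, (∑ a ∈ N.erase w, g a) / ((N.erase w).card : ℝ) = ∑ a ∈ N, g a := by
  classical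
  have h1 : ∀ w ∈ N, (∑ a ∈ N.erase w, g a) / ((N.erase w).card : ℝ) =
      ((∑ a ∈ N, g a) - g w) / ((N.card : ℝ) - 1) := by
    intro w hw
    rw [Finset.card_erase_of_mem hw, Nat.cast_sub (by omega), Nat.cast_one,
      ← Finset.sum_erase_add N g hw, add_sub_cancel_right]
  rw [Finset.sum_congr rfl h1, ← Finset.sum_div, Finset.sum_sub_distrib, Finset.sum_const,
    nsmul_eq_mul]
  have h2 : (2 : ℝ) ≤ N.card := by exact_mod_cast hN
  rw [div_eq_iff (by linarith)]
  ring

open Classical in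
/-- the directed edges -/
noncomputable def dart : Finset (Σ _ : Fin d, Fin d) :=
  (Finset.univ.filter fun v : Fin d => v ∈ T).sigma fun v => nb Γ T v

theorem mem_dart (e : Σ _ : Fin d, Fin d) :
    e ∈ dart Γ T ↔ e.1 ∈ T ∧ e.2 ∈ T ∧ Γ.Adj e.1 e.2 := by
  classical
  unfold dart
  rw [Finset.mem_sigma, mem_nb]
  simp

theorem f_pos (h2 : ∀ v ∈ T, 2 ≤ (nb Γ T v).card) (n : ℕ) (v w : Fin d) (hv : v ∈ T) :
    0 < f Γ T n v w := by
  classical
  induction n generalizing v w with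
  | zero => exact one_pos
  | succ n ih =>
    show 0 < ∑ a ∈ (nb Γ T v).erase w, f Γ T n a v
    apply Finset.sum_pos
    · intro a ha
      exact ih a v ((mem_nb Γ T v a).1 (Finset.mem_of_mem_erase ha)).1
    · rw [← Finset.card_pos]
      have h3 := h2 v hv
      have h4 := Finset.pred_card_le_card_erase (s := nb Γ T v) (a := w)
      omega

theorem log_step (h2 : ∀ v ∈ T, 2 ≤ (nb Γ T v).card) (n : ℕ) :
    ∑ e ∈ dart Γ T, Real.log (f Γ T n e.1 e.2) +
      ∑ e ∈ dart Γ T, Real.log (((nb Γ T e.1).erase e.2).card : ℝ) ≤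
      ∑ e ∈ dart Γ T, Real.log (f Γ T (n + 1) e.1 e.2) := by
  classical
  have h1 : ∀ e ∈ dart Γ T, Real.log (((nb Γ T e.1).erase e.2).card : ℝ) +
      (∑ a ∈ (nb Γ T e.1).erase e.2, Real.log (f Γ T n a e.1)) /
        (((nb Γ T e.1).erase e.2).card : ℝ) ≤ Real.log (f Γ T (n + 1) e.1 e.2) := by
    intro e he
    obtain ⟨he1, he2, he3⟩ := (mem_dart Γ T e).1 he
    have h3 : ((nb Γ T e.1).erase e.2).Nonempty := by
      rw [← Finset.card_pos]
      have h3 := h2 e.1 he1
      have h4 := Finset.pred_card_le_card_erase (s := nb Γ T e.1) (a := e.2)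
      omega
    have h5 := jensen ((nb Γ T e.1).erase e.2) h3 (fun a => (f Γ T n a e.1 : ℝ)) (by
      intro a ha
      exact_mod_cast f_pos Γ T h2 n a e.1 ((mem_nb Γ T _ a).1 (Finset.mem_of_mem_erase ha)).1)
    have h6 : (f Γ T (n + 1) e.1 e.2 : ℝ) = ∑ a ∈ (nb Γ T e.1).erase e.2, (f Γ T n a e.1 : ℝ) := by
      show ((∑ a ∈ (nb Γ T e.1).erase e.2, f Γ T n a e.1 : ℕ) : ℝ) = _
      push_cast
      rfl
    rw [h6]
    exact h5
  have h3 := Finset.sum_le_sum h1
  rw [Finset.sum_add_distrib] at h3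
  have h4 : ∑ e ∈ dart Γ T, (∑ a ∈ (nb Γ T e.1).erase e.2, Real.log (f Γ T n a e.1)) /
        (((nb Γ T e.1).erase e.2).card : ℝ) = ∑ e ∈ dart Γ T, Real.log (f Γ T n e.1 e.2) := by
    unfold dart
    rw [Finset.sum_sigma, Finset.sum_sigma]
    have h5 : ∀ v ∈ Finset.univ.filter (fun v : Fin d => v ∈ T),
        ∑ w ∈ nb Γ T v, (∑ a ∈ (nb Γ T v).erase w, Real.log (f Γ T n a v)) /
          (((nb Γ T v).erase w).card : ℝ) = ∑ a ∈ nb Γ T v, Real.log (f Γ T n a v) := by
      intro v hv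
      exact inner_sum (nb Γ T v) (h2 v (by simpa using hv)) (fun a => Real.log (f Γ T n a v))
    show ∑ v ∈ Finset.univ.filter (fun v : Fin d => v ∈ T),
        ∑ w ∈ nb Γ T v, (∑ a ∈ (nb Γ T v).erase w, Real.log (f Γ T n a v)) /
          (((nb Γ T v).erase w).card : ℝ) = _
    rw [Finset.sum_congr rfl h5]
    apply Finset.sum_comm'
    intro v a
    simp only [Finset.mem_filter, Finset.mem_univ, true_and, mem_nb]
    constructor
    · rintro ⟨h7, h8, h9⟩; exact ⟨⟨h7, h9.symm⟩, h8⟩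
    · rintro ⟨⟨h7, h9⟩, h8⟩; exact ⟨h7, h8, h9.symm⟩
  rw [h4] at h3
  linarith

end Nb2

open Nb2 in
/-- ROW NB2: walks without backtracking grow exponentially -/
theorem nb_walk {d : ℕ} (Γ : SimpleGraph (Fin d)) (T : Set (Fin d))
    (h2 : ∀ v ∈ T, 2 ≤ {w | w ∈ T ∧ Γ.Adj v w}.ncard)
    (h3 : ∃ v ∈ T, 3 ≤ {w | w ∈ T ∧ Γ.Adj v w}.ncard) :
    (badC Γ T 2).Finite ∧ [] ∉ badC Γ T 2 ∧
      ∃ c k : ℝ, 1 < c ∧ 0 < k ∧ ∀ n, k * c ^ n ≤ (cnt (badC Γ T 2) n : ℝ) := by
  classical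
  refine ⟨(List.finite_length_le (Fin d) 3).subset fun u hu => hu.2.1, fun h => h.1 rfl, ?_⟩
  have h2' : ∀ v ∈ T, 2 ≤ (nb Γ T v).card := fun v hv => by
    rw [card_nb]; exact h2 v hv
  obtain ⟨v0, hv0, h30⟩ := h3
  have h30' : 3 ≤ (nb Γ T v0).card := by rw [card_nb]; exact h30
  obtain ⟨w0, hw0⟩ := Finset.card_pos.1 (show 0 < (nb Γ T v0).card by omega)
  obtain ⟨hw0T, hvw0⟩ := (mem_nb Γ T v0 w0).1 hw0
  have he0 : (⟨v0, w0⟩ : Σ _ : Fin d, Fin d) ∈ dart Γ T := (mem_dart Γ T _).2 ⟨hv0, hw0T, hvw0⟩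
  have hne : (dart Γ T).Nonempty := ⟨_, he0⟩
  set L : ℝ := ∑ e ∈ dart Γ T, Real.log (((nb Γ T e.1).erase e.2).card : ℝ) with hL
  have hcard : ∀ e ∈ dart Γ T, ((nb Γ T e.1).erase e.2).card = (nb Γ T e.1).card - 1 := by
    intro e he
    obtain ⟨he1, he2, he3⟩ := (mem_dart Γ T e).1 he
    exact Finset.card_erase_of_mem ((mem_nb Γ T _ _).2 ⟨he2, he3⟩)
  have hLpos : 0 < L := by
    rw [hL]
    apply Finset.sum_pos'
    · intro e he
      apply Real.log_nonneg
      have h4 := hcard e he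
      have h5 := h2' e.1 ((mem_dart Γ T e).1 he).1
      have h6 : 1 ≤ ((nb Γ T e.1).erase e.2).card := by omega
      exact_mod_cast h6
    · refine ⟨_, he0, ?_⟩
      apply Real.log_pos
      have h4 := hcard _ he0
      have h6 : 1 < ((nb Γ T v0).erase w0).card := by
        change ((nb Γ T v0).erase w0).card = (nb Γ T v0).card - 1 at h4
        omega
      exact_mod_cast h6
  have hS : ∀ n : ℕ, (n : ℝ) * L ≤ ∑ e ∈ dart Γ T, Real.log (f Γ T n e.1 e.2) := by
    intro n
    induction n with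
    | zero =>
      rw [Nat.cast_zero, zero_mul]
      apply Finset.sum_nonneg
      intro e _
      show 0 ≤ Real.log ((1 : ℕ) : ℝ)
      simp
    | succ n ih =>
      have h4 := log_step Γ T h2' n
      push_cast
      rw [← hL] at h4
      linarith
  set m : ℝ := ((dart Γ T).card : ℝ) with hm
  have hmpos : 0 < m := by
    rw [hm]
    exact_mod_cast Finset.card_pos.2 hne
  set c : ℝ := Real.exp (L / m) with hc
  have hc1 : 1 < c := by
    rw [hc]
    exact Real.one_lt_exp_iff.2 (div_pos hLpos hmpos)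
  have hc0 : 0 < c := by linarith
  have hmain : ∀ n : ℕ, c ^ n ≤ (cnt (badC Γ T 2) (n + 2) : ℝ) := by
    intro n
    have h4 : ∑ _e ∈ dart Γ T, (n * L / m) ≤ ∑ e ∈ dart Γ T, Real.log (f Γ T n e.1 e.2) := by
      rw [Finset.sum_const, nsmul_eq_mul, ← hm]
      refine le_trans (le_of_eq ?_) (hS n)
      field_simp
    obtain ⟨e, he, h5⟩ := Finset.exists_le_of_sum_le hne h4
    obtain ⟨he1, he2, he3⟩ := (mem_dart Γ T e).1 he
    have h6 : (0 : ℝ) < (f Γ T n e.1 e.2 : ℝ) := by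
      exact_mod_cast f_pos Γ T h2' n e.1 e.2 he1
    have h7 : c ^ n ≤ (f Γ T n e.1 e.2 : ℝ) := by
      rw [hc, ← Real.exp_nat_mul, ← Real.le_log_iff_exp_le h6]
      refine le_trans (le_of_eq ?_) h5
      ring
    refine h7.trans ?_
    exact_mod_cast f_le_cnt Γ T n e.1 e.2 he2 he1 he3.symm
  refine ⟨c, (c ^ 2)⁻¹, hc1, by positivity, ?_⟩
  intro n
  match n with
  | 0 =>
    have h4 : (1 : ℝ) ≤ (cnt (badC Γ T 2) 0 : ℝ) := by exact_mod_cast Loc2.cnt_zero Γ T
    refine le_trans ?_ h4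
    rw [pow_zero, mul_one]
    exact inv_le_one_of_one_le₀ (one_le_pow₀ hc1.le)
  | 1 =>
    have h4 : (1 : ℝ) ≤ (cnt (badC Γ T 2) 1 : ℝ) := by
      exact_mod_cast Loc2.cnt_one Γ T ⟨v0, hv0⟩
    refine le_trans ?_ h4
    rw [pow_one, inv_mul_le_iff₀ (by positivity), mul_one, sq]
    nlinarith
  | n + 2 =>
    refine le_trans (le_of_eq ?_) (hmain n)
    rw [pow_add]
    field_simp

end Pool.MW
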