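import Pool.Agent.Helper17.MW.Loc2
import Pool.Agent.Helper17.MW.Mil

/-!
# Walks with many continuations that avoid finitely many more words
-/

set_option autoImplicit false
set_option linter.unusedSectionVars false

namespace Pool.MW

namespace W2

open Classical MilAux Loc2

variable {d : ℕ}

/-- the letters which can be put in front -/
noncomputable def ext (Γ : SimpleGraph (Fin d)) (T : Set (Fin d)) (s : ℕ) (w : List (Fin d)) :
    Finset (Fin d) := Finset.univ.filter fun a => Av (badC Γ T s) (a :: w)

lemma ext_card {s j : ℕ} (hs : 1 ≤ s) (Γ : SimpleGraph (Fin d)) (T : Set (Fin d))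
    (h : ∀ v ∈ T, s + j + 1 ≤ {w | w ∈ T ∧ Γ.Adj v w}.ncard) (w : List (Fin d)) (hw0 : w ≠ [])
    (hw : Av (badC Γ T s) w) : j + 2 ≤ (ext Γ T s w).card := by
  obtain ⟨v, w, rfl⟩ := List.exists_cons_of_ne_nil hw0
  have hv : v ∈ T := by
    by_contra hv
    refine hw [v] ⟨by simp, by simp, fun hg => hv (hg.1 v (by simp))⟩ ⟨[], w, by simp⟩
  set N : Set (Fin d) := {a | a ∈ T ∧ Γ.Adj v a} with hN
  set S : Set (Fin d) := {a | a ∈ w.take (s - 1)} with hS
  have h1 : s + j + 1 ≤ N.ncard := h v hv
  have h2 : S.ncard ≤ s - 1 := by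
    have h3 : S = ((w.take (s - 1)).toFinset : Set (Fin d)) := by
      ext a
      simp [hS]
    rw [h3, Set.ncard_coe_finset]
    exact (List.toFinset_card_le _).trans (List.length_take_le _ _)
  have h3 : N.ncard - S.ncard ≤ (N \ S).ncard := Set.le_ncard_sdiff S N (Set.toFinite _)
  have h4 : (N \ S).ncard ≤ (ext Γ T s (v :: w)).card := by
    rw [← Set.ncard_coe_finset]
    refine Set.ncard_le_ncard ?_ (Set.toFinite _)
    intro a ha
    rw [Finset.mem_coe, ext, Finset.mem_filter]
    exact ⟨Finset.mem_univ a, good_cons Γ T hw ha.1.1 ha.1.2 ha.2⟩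
  omega

/-- the basic inequality -/
lemma basic {s j : ℕ} (hs : 1 ≤ s) (Γ : SimpleGraph (Fin d)) (T : Set (Fin d))
    (h : ∀ v ∈ T, s + j + 1 ≤ {w | w ∈ T ∧ Γ.Adj v w}.ncard)
    (C : Finset (List (Fin d))) (hC : ∀ u ∈ C, 2 ≤ u.length) (n : ℕ) (hn : 1 ≤ n) :
    (j + 2) * cnt (badC Γ T s ∪ (C : Set (List (Fin d)))) n ≤
      cnt (badC Γ T s ∪ (C : Set (List (Fin d)))) (n + 1) + ∑ u ∈ C, (if u.length ≤ n + 1 then
        cnt (badC Γ T s ∪ (C : Set (List (Fin d)))) (n + 1 - u.length) else 0) := by
  set D : Set (List (Fin d)) := badC Γ T s ∪ (C : Set (List (Fin d))) with hD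
  have hbad : ∀ w, Av D w → Av (badC Γ T s) w := fun w hw u hu => hw u (Or.inl hu)
  set E : Finset (List (Fin d)) :=
    ((good D n).sigma fun w => ext Γ T s w).image fun p : (_ : List (Fin d)) × Fin d =>
      p.2 :: p.1 with hE
  have hinj : Function.Injective fun p : (_ : List (Fin d)) × Fin d => p.2 :: p.1 := by
    rintro ⟨w, a⟩ ⟨v, b⟩ hh
    simp only [List.cons.injEq] at hh
    obtain ⟨rfl, rfl⟩ := hh
    rfl
  have hcardE : (j + 2) * (good D n).card ≤ E.card := by
    rw [hE, Finset.card_image_of_injective _ hinj, Finset.card_sigma, mul_comm]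
    have hge : ∀ w ∈ good D n, j + 2 ≤ (ext Γ T s w).card := by
      intro w hw
      have hw' := (mem_good _ _ _).1 hw
      refine ext_card hs Γ T h w ?_ (hbad w hw'.2)
      rintro rfl
      have := hw'.1
      rw [List.length_nil] at this
      omega
    calc (good D n).card * (j + 2) = ∑ w ∈ good D n, (j + 2) := by simp
      _ ≤ ∑ w ∈ good D n, (ext Γ T s w).card := Finset.sum_le_sum hge
  have hsub : E ⊆ good D (n + 1) ∪ C.biUnion fun u => if u.length ≤ n + 1 then
      (good D (n + 1 - u.length)).image fun v => u ++ v else ∅ := by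
    intro x hx
    rw [hE, Finset.mem_image] at hx
    obtain ⟨⟨w, a⟩, hp, rfl⟩ := hx
    rw [Finset.mem_sigma] at hp
    have hw := (mem_good _ _ _).1 hp.1
    have ha := (Finset.mem_filter.1 hp.2).2
    rw [Finset.mem_union]
    by_cases hav : Av D (a :: w)
    · exact Or.inl ((mem_good _ _ _).2 ⟨by simp [hw.1], hav⟩)
    · right
      unfold Av at hav
      push Not at hav
      obtain ⟨u, hu, huw⟩ := hav
      have huC : u ∈ C := by
        rcases hu with hu | hu
        · exact absurd huw (ha u hu)
        · exact hu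
      have hul := hC u huC
      rw [Finset.mem_biUnion]
      refine ⟨u, huC, ?_⟩
      rcases List.infix_cons_iff.1 huw with hpre | hin
      · obtain ⟨v, hv⟩ := hpre
        have hlen : u.length + v.length = n + 1 := by
          have := congrArg List.length hv
          rw [List.length_append] at this
          simp only [List.length_cons] at this
          rw [this]
          have hx1 : w.length = n := hw.1
          omega
        rw [if_pos (by omega), Finset.mem_image]
        refine ⟨v, ?_, hv⟩
        rw [mem_good]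
        refine ⟨by omega, ?_⟩
        cases u with
        | nil => simp at hul
        | cons b u' =>
          rw [List.cons_append, List.cons.injEq] at hv
          apply av_suffix D u' v
          rw [hv.2]
          exact hw.2
      · exact absurd hin (hw.2 u hu)
  have hcard := Finset.card_le_card hsub
  have h1 := Finset.card_union_le (good D (n + 1)) (C.biUnion fun u => if u.length ≤ n + 1 then
      (good D (n + 1 - u.length)).image fun v => u ++ v else ∅)
  have h2 : (C.biUnion fun u => if u.length ≤ n + 1 then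
      (good D (n + 1 - u.length)).image fun v => u ++ v else ∅).card ≤
      ∑ u ∈ C, (if u.length ≤ n + 1 then cnt D (n + 1 - u.length) else 0) := by
    refine Finset.card_biUnion_le.trans (Finset.sum_le_sum fun u _ => ?_)
    split_ifs with hl
    · rw [cnt_eq]
      exact Finset.card_image_le
    · simp
  rw [cnt_eq, cnt_eq]
  omega

end W2

open W2 MilAux Loc2 in
/-- ROW W2: walks with many continuations that avoid finitely many more words -/
theorem loc_walk2 {d : ℕ} (s j : ℕ) (hs : 1 ≤ s) (Γ : SimpleGraph (Fin d)) (T : Set (Fin d))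
    (hT : T.Nonempty) (h : ∀ v ∈ T, s + j + 1 ≤ {w | w ∈ T ∧ Γ.Adj v w}.ncard)
    (C : Finset (List (Fin d))) (hC : ∀ u ∈ C, 2 ≤ u.length) (t : ℝ) (ht0 : 0 < t) (ht1 : t < 1)
    (hlt : 1 - ((j : ℝ) + 2) * t + ∑ u ∈ C, t ^ u.length < 0) :
    ∀ n, (1 / t) ^ n ≤ (cnt (badC Γ T s ∪ (C : Set (List (Fin d)))) n : ℝ) := by
  set D : Set (List (Fin d)) := badC Γ T s ∪ (C : Set (List (Fin d))) with hD
  have hD0 : [] ∉ D := by
    rintro (h0 | h0)
    · exact h0.1 rfl
    · have := hC _ h0
      simp at this
  -- the first two numbers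
  have hc0 : cnt D 0 = 1 := by
    rw [cnt_eq]
    have h1 : good D 0 = {[]} := by
      ext w
      rw [mem_good, Finset.mem_singleton, List.length_eq_zero_iff]
      constructor
      · exact fun h => h.1
      · rintro rfl
        refine ⟨rfl, fun u hu h => hD0 ?_⟩
        have h2 : u = [] := List.infix_nil.1 h
        rwa [h2] at hu
    rw [h1, Finset.card_singleton]
  have hc1 : j + 2 ≤ cnt D 1 := by
    obtain ⟨v, hv⟩ := hT
    have h1 := h v hv
    have h2 : {w | w ∈ T ∧ Γ.Adj v w}.ncard ≤ cnt D 1 := by
      unfold cnt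
      refine (Set.ncard_image_of_injective _ (f := fun a : Fin d => [a])
        (fun a b hab => by simpa using hab)).symm.le.trans ?_
      refine Set.ncard_le_ncard ?_ ((List.finite_length_eq (Fin d) 1).subset fun w hw => hw.1)
      rintro _ ⟨a, ha, rfl⟩
      refine ⟨rfl, fun u hu hin => ?_⟩
      have hu1 : u = [a] := by
        rcases List.infix_cons_iff.1 hin with hp | hp
        · rcases List.prefix_cons_iff.1 hp with rfl | ⟨u', rfl, hp'⟩
          · exact absurd hu hD0
          · rw [List.prefix_nil.1 hp']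
        · have := List.infix_nil.1 hp
          rw [this] at hu
          exact absurd hu hD0
      rw [hu1] at hu
      rcases hu with hu | hu
      · exact hu.2.2 ⟨by simpa using ha.1, by simp, List.isChain_singleton a⟩
      · have := hC _ hu
        simp at this
    omega
  have hj : 1 / t < (j : ℝ) + 2 := by
    rw [div_lt_iff₀ ht0]
    have h1 : 0 ≤ ∑ u ∈ C, t ^ u.length := Finset.sum_nonneg fun u _ => pow_nonneg ht0.le _
    linarith
  -- induction
  have key : ∀ n, (∀ m ≤ n, (cnt D m : ℝ) ≤ t ^ (n - m) * cnt D n) ∧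
      (cnt D n : ℝ) ≤ t * cnt D (n + 1) := by
    intro n
    induction n with
    | zero =>
      refine ⟨fun m hm => ?_, ?_⟩
      · have : m = 0 := by omega
        rw [this]
        simp
      · rw [hc0]
        have h1 : ((j : ℝ) + 2) ≤ cnt D 1 := by exact_mod_cast hc1
        have h2 : t * (1 / t) ≤ t * cnt D 1 := mul_le_mul_of_nonneg_left (by linarith) ht0.le
        rw [mul_one_div_cancel ht0.ne'] at h2
        simpa using h2
    | succ n ih =>
      have h1 : ∀ m ≤ n + 1, (cnt D m : ℝ) ≤ t ^ (n + 1 - m) * cnt D (n + 1) := by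
        intro m hm
        rcases Nat.lt_or_ge m (n + 1) with hm1 | hm1
        · have h2 := ih.1 m (by omega)
          have h3 : n + 1 - m = (n - m) + 1 := by omega
          rw [h3, pow_succ, mul_assoc]
          exact h2.trans (mul_le_mul_of_nonneg_left ih.2 (pow_nonneg ht0.le _))
        · have : m = n + 1 := by omega
          rw [this]
          simp
      refine ⟨h1, ?_⟩
      have h2 := basic hs Γ T h C hC (n + 1) (by omega)
      rw [← hD] at h2
      have h3 : (((j + 2) * cnt D (n + 1) : ℕ) : ℝ) ≤ ((cnt D (n + 1 + 1) +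
          ∑ u ∈ C, (if u.length ≤ n + 1 + 1 then cnt D (n + 1 + 1 - u.length) else 0) : ℕ) : ℝ) := by
        exact_mod_cast h2
      push_cast at h3
      have h4 : ∀ u ∈ C, t * (if u.length ≤ n + 1 + 1 then
          (cnt D (n + 1 + 1 - u.length) : ℝ) else 0) ≤ t ^ u.length * cnt D (n + 1) := by
        intro u hu
        have hul := hC u hu
        split_ifs with hl
        · have h5 := h1 (n + 1 + 1 - u.length) (by omega)
          have h6 : u.length = (n + 1 - (n + 1 + 1 - u.length)) + 1 := by omega
          conv_rhs => rw [h6, pow_succ, mul_comm (t ^ _) t, mul_assoc]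
          exact mul_le_mul_of_nonneg_left h5 ht0.le
        · rw [mul_zero]
          positivity
      have h5 : t * ∑ u ∈ C, (if u.length ≤ n + 1 + 1 then
          (cnt D (n + 1 + 1 - u.length) : ℝ) else 0) ≤
          (∑ u ∈ C, t ^ u.length) * cnt D (n + 1) := by
        rw [Finset.mul_sum, Finset.sum_mul]
        exact Finset.sum_le_sum h4
      have h6 := mul_le_mul_of_nonneg_left h3 ht0.le
      have hnn : (0 : ℝ) ≤ cnt D (n + 1) := Nat.cast_nonneg _
      have h7 : (1 - ((j : ℝ) + 2) * t + ∑ u ∈ C, t ^ u.length) * cnt D (n + 1) ≤ 0 :=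
        mul_nonpos_of_nonpos_of_nonneg hlt.le hnn
      nlinarith
  intro n
  induction n with
  | zero => rw [pow_zero, hc0]; simp
  | succ n ih =>
    have h1 := (key n).2
    rw [pow_succ, mul_one_div, div_le_iff₀ ht0]
    calc (1 / t) ^ n ≤ cnt D n := ih
      _ ≤ t * cnt D (n + 1) := h1
      _ = cnt D (n + 1) * t := mul_comm _ _

end Pool.MW
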