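import Pool.Agent.Helper17.MW.Few
import Pool.Agent.Helper17.MW.Walk2
import Pool.Agent.Helper89.MW.NB1
import Pool.Agent.Helper89.MW.NB3
import Pool.Agent.Helper17.MW.Nb2

/-!
# Relators with few letters: the final forms
-/

set_option autoImplicit false
set_option linter.unusedSectionVars false

namespace Pool.MW

open Ser Pool.H96.GS

/-- the least degree of a relator whose set of letters outside `K` is `S` -/
noncomputable def ldeg (p : ℕ) {d : ℕ} (K : Finset (Fin d)) (R : Set (FreeGroup (Fin d)))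
    (S : Finset (Fin d)) : ℕ :=
  sInf {n | ∃ r ∈ R, letters r \ K = S ∧ deg p r = n}

lemma ldeg_le {p d : ℕ} (K : Finset (Fin d)) (R : Set (FreeGroup (Fin d)))
    (r : FreeGroup (Fin d)) (hr : r ∈ R) : ldeg p K R (letters r \ K) ≤ deg p r :=
  Nat.sInf_le ⟨r, hr, rfl, rfl⟩

lemma ldeg_mem {p d : ℕ} (K : Finset (Fin d)) (R : Set (FreeGroup (Fin d)))
    (r : FreeGroup (Fin d)) (hr : r ∈ R) :
    ∃ r' ∈ R, letters r' \ K = letters r \ K ∧ deg p r' = ldeg p K R (letters r \ K) :=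
  Nat.sInf_mem (s := {n | ∃ r' ∈ R, letters r' \ K = letters r \ K ∧ deg p r' = n})
    ⟨_, r, hr, rfl, rfl⟩

/-- a prefix of given length with letters in `S` is in `Wd` -/
lemma take_mem_Wd {d n : ℕ} {S : Finset (Fin d)} {w : List (Fin d)} (h : ∀ a ∈ w, a ∈ S)
    (hn : n ≤ w.length) : w.take n ∈ Wd S n := by
  have h1 := mem_Wd (S := S) (u := w.take n) (fun a ha => h a (List.mem_of_mem_take ha))
  have h2 : (w.take n).length = n := by
    rw [List.length_take]
    omega
  rwa [h2] at h1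

open Classical in
/-- **Few letters, weighted inequality.** -/
theorem mainW {G : Type} [Group G] {p d : ℕ} (hp : p.Prime)
    (φ : FreeGroup (Fin d) →* G) (R : Set (FreeGroup (Fin d)))
    (hR : φ.ker = Subgroup.normalClosure R) (K : Finset (Fin d)) (t : Fin d → ℝ)
    (ht : ∀ i, 0 ≤ t i ∧ t i ≤ 1)
    (hlt : 1 - ∑ i ∈ Kᶜ, t i +
      ∑ S ∈ Finset.univ.filter (fun S : Finset (Fin d) => ∃ r ∈ R, letters r \ K = S),
        (∑ i ∈ S, t i) ^ ldeg p K R S < 0) :
    ∃ f : FreeGroup (Fin 2) →* G, Function.Injective f := by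
  have : Fact p.Prime := ⟨hp⟩
  set Q : Finset (Finset (Fin d)) :=
    Finset.univ.filter (fun S : Finset (Fin d) => ∃ r ∈ R, letters r \ K = S) with hQ
  set Q' : Finset (Finset (Fin d)) := Q.filter fun S => S ≠ ∅ with hQ'
  -- the least degree
  have hdeg : ∀ S ∈ Q', 1 ≤ ldeg p K R S := by
    intro S hS
    rw [hQ', Finset.mem_filter, hQ, Finset.mem_filter] at hS
    obtain ⟨⟨-, r, hr, hrS⟩, hS0⟩ := hS
    obtain ⟨r', hr', h1, h2⟩ := ldeg_mem (p := p) K R r hr
    rw [hrS] at h1 h2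
    rw [← h2]
    apply one_le_deg
    rintro rfl
    apply hS0
    rw [← h1]
    simp [letters]
  set C : Finset (List (Fin d)) :=
    K.image (fun i => [i]) ∪ Q'.biUnion fun S => Wd S (ldeg p K R S) with hC
  have hC0 : [] ∉ C := by
    intro h
    rw [hC, Finset.mem_union, Finset.mem_image, Finset.mem_biUnion] at h
    rcases h with ⟨i, -, h⟩ | ⟨S, hS, hS'⟩
    · simp at h
    · have h1 := length_Wd hS'
      have h2 := hdeg S hS
      rw [List.length_nil] at h1
      omega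
  have hwt : ∀ u : List (Fin d), 0 ≤ wt t u := by
    intro u
    unfold wt
    apply List.prod_nonneg
    intro x hx
    obtain ⟨i, -, rfl⟩ := List.mem_map.1 hx
    exact (ht i).1
  have hineq : 1 - ∑ i, t i + ∑ u ∈ C, wt t u < 0 := by
    have e0 : ∑ u ∈ C, wt t u ≤ ∑ u ∈ K.image (fun i => [i]), wt t u +
        ∑ u ∈ Q'.biUnion fun S => Wd S (ldeg p K R S), wt t u := by
      rw [hC, ← Finset.sum_union_inter]
      have := Finset.sum_nonneg (s := K.image (fun i => [i]) ∩
        Q'.biUnion fun S => Wd S (ldeg p K R S)) fun u _ => hwt u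
      linarith
    have e4 : ∑ u ∈ K.image (fun i => [i]), wt t u = ∑ i ∈ K, t i := by
      rw [Finset.sum_image (fun a _ b _ h => by simpa using h)]
      apply Finset.sum_congr rfl
      intro i _
      simp [wt]
    have e5 : ∑ i ∈ K, t i + ∑ i ∈ Kᶜ, t i = ∑ i, t i := Finset.sum_add_sum_compl K t
    have e1 : ∑ u ∈ Q'.biUnion fun S => Wd S (ldeg p K R S), wt t u ≤
        ∑ S ∈ Q', (∑ i ∈ S, t i) ^ ldeg p K R S := by
      refine (sum_biUnion_le' Q' _ _ hwt).trans ?_
      exact (Finset.sum_congr rfl fun S _ => sum_Wd t S _).le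
    have e2 : ∑ S ∈ Q', (∑ i ∈ S, t i) ^ ldeg p K R S ≤
        ∑ S ∈ Q, (∑ i ∈ S, t i) ^ ldeg p K R S := by
      apply Finset.sum_le_sum_of_subset_of_nonneg (Finset.filter_subset _ _)
      intro S _ _
      exact pow_nonneg (Finset.sum_nonneg fun i _ => (ht i).1) _
    linarith
  obtain ⟨c, hc, hgr⟩ := mil C hC0 t ht hineq
  obtain ⟨A, B, hAB, hlen, hav⟩ := grow (C : Set (List (Fin d))) C.finite_toSet (by simpa using hC0)
    c 1 hc one_pos (by simpa using hgr)
  refine core_mono p (C : Set (List (Fin d))) C.finite_toSet (by simpa using hC0) A B hAB hlen hav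
    R ?_ φ hR
  intro r hr w hw hcf
  by_cases hwK : ∃ a ∈ w, a ∈ K
  · obtain ⟨a, ha, haK⟩ := hwK
    refine ⟨[a], ?_, ?_⟩
    · rw [hC, Finset.mem_coe, Finset.mem_union, Finset.mem_image]
      exact Or.inl ⟨a, haK, rfl⟩
    · obtain ⟨x, y, rfl⟩ := List.append_of_mem ha
      exact ⟨x, y, by simp⟩
  push Not at hwK
  have hle := (ldeg_le K R r hr).trans (deg_le r w hw hcf)
  have hlet := letters_of_cf (ZMod p) r w hcf
  have hlet' : ∀ a ∈ w, a ∈ letters r \ K := fun a ha =>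
    Finset.mem_sdiff.2 ⟨hlet a ha, hwK a ha⟩
  have hS : letters r \ K ∈ Q' := by
    rw [hQ', Finset.mem_filter, hQ, Finset.mem_filter]
    refine ⟨⟨Finset.mem_univ _, r, hr, rfl⟩, ?_⟩
    intro h
    cases w with
    | nil => exact hw rfl
    | cons a w =>
      have := hlet' a (by simp)
      rw [h] at this
      simp at this
  refine ⟨w.take (ldeg p K R (letters r \ K)), ?_, (List.take_prefix _ _).isInfix⟩
  rw [hC, Finset.mem_coe, Finset.mem_union, Finset.mem_biUnion]
  exact Or.inr ⟨letters r \ K, hS, take_mem_Wd hlet' hle⟩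

open Classical in
/-- **Narrow and wide relators.** -/
theorem mainN {G : Type} [Group G] {p d s j : ℕ} (hp : p.Prime) (hs : 1 ≤ s)
    (φ : FreeGroup (Fin d) →* G) (R : Set (FreeGroup (Fin d)))
    (hR : φ.ker = Subgroup.normalClosure R) (hGS : GSIneq p d R) (h2 : ∀ r ∈ R, 2 ≤ deg p r)
    (K : Finset (Fin d)) (hd : 4 * (s + j + K.card) + 2 ≤ d)
    (h : ∀ r ∈ R, (letters r \ K).card ≤ s ∨
      (3 ≤ (letters r \ K).card ∧ deg p r ≤ (letters r \ K).card))
    (t : ℝ) (ht0 : 0 < t) (ht1 : t < 1)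
    (hlt : 1 - ((j : ℝ) + 2) * t +
      ∑ S ∈ Finset.univ.filter (fun S : Finset (Fin d) => ∃ r ∈ R, letters r \ K = S ∧
        3 ≤ S.card ∧ deg p r ≤ S.card), ((S.card : ℝ) * t) ^ ldeg p K R S < 0) :
    ∃ f : FreeGroup (Fin 2) →* G, Function.Injective f := by
  have : Fact p.Prime := ⟨hp⟩
  obtain ⟨T, hT, hT'⟩ := loc_core (s + j) (lam p K R) (loc_gs K R hGS h2 hd)
  have hTK : ∀ a ∈ T, a ∉ K := by
    intro a ha
    have h1 := hT' a ha
    have h2 : {w | w ∈ T ∧ (lam p K R).Adj a w}.Nonempty := by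
      rw [← Set.ncard_pos]
      omega
    obtain ⟨w, hw⟩ := h2
    exact hw.2.2.1
  set Q : Finset (Finset (Fin d)) := Finset.univ.filter (fun S : Finset (Fin d) =>
    ∃ r ∈ R, letters r \ K = S ∧ 3 ≤ S.card ∧ deg p r ≤ S.card) with hQ
  set C : Finset (List (Fin d)) := Q.biUnion fun S => Wd S (ldeg p K R S) with hC
  have hdeg : ∀ S ∈ Q, 2 ≤ ldeg p K R S := by
    intro S hS
    rw [hQ, Finset.mem_filter] at hS
    obtain ⟨-, r, hr, hrS, -⟩ := hS
    obtain ⟨r', hr', h1, h3⟩ := ldeg_mem (p := p) K R r hr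
    rw [hrS] at h3
    rw [← h3]
    exact h2 r' hr'
  have hC2 : ∀ u ∈ C, 2 ≤ u.length := by
    intro u hu
    rw [hC, Finset.mem_biUnion] at hu
    obtain ⟨S, hS, hS'⟩ := hu
    rw [length_Wd hS']
    exact hdeg S hS
  have hineq : 1 - ((j : ℝ) + 2) * t + ∑ u ∈ C, t ^ u.length < 0 := by
    have e1 : ∑ u ∈ C, t ^ u.length ≤ ∑ S ∈ Q, ((S.card : ℝ) * t) ^ ldeg p K R S := by
      rw [hC]
      refine (sum_biUnion_le' Q _ _ (fun u => by positivity)).trans ?_
      apply Finset.sum_le_sum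
      intro S _
      have e3 : ∑ u ∈ Wd S (ldeg p K R S), t ^ u.length =
          ((Wd S (ldeg p K R S)).card : ℝ) * t ^ ldeg p K R S := by
        rw [Finset.sum_congr rfl (g := fun _ => t ^ ldeg p K R S), Finset.sum_const, nsmul_eq_mul]
        intro u hu
        rw [length_Wd hu]
      rw [e3, mul_pow]
      have e4 : ((Wd S (ldeg p K R S)).card : ℝ) ≤ (S.card : ℝ) ^ ldeg p K R S := by
        exact_mod_cast card_Wd S (ldeg p K R S)
      exact mul_le_mul_of_nonneg_right e4 (by positivity)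
    linarith
  obtain ⟨hfin, h0, -⟩ := loc_walk s hs (lam p K R) T hT (fun v hv => by
    have := hT' v hv
    omega)
  have hgr := loc_walk2 s j hs (lam p K R) T hT hT' C hC2 t ht0 ht1 hineq
  have hfin' : (badC (lam p K R) T s ∪ (C : Set (List (Fin d)))).Finite := hfin.union C.finite_toSet
  have h0' : [] ∉ badC (lam p K R) T s ∪ (C : Set (List (Fin d))) := by
    rintro (h | h)
    · exact h0 h
    · have := hC2 [] h
      simp at this
  obtain ⟨A, B, hAB, hlen, hav⟩ := grow _ hfin' h0' (1 / t) 1 (by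
    rw [lt_div_iff₀ ht0]
    linarith) one_pos (by simpa using hgr)
  refine core_mono p _ hfin' h0' A B hAB hlen hav R ?_ φ hR
  intro r hr w hw hcf
  by_cases hwide : 3 ≤ (letters r \ K).card ∧ deg p r ≤ (letters r \ K).card
  · by_cases hwK : ∃ a ∈ w, a ∈ K
    · obtain ⟨a, ha, haK⟩ := hwK
      refine ⟨[a], Or.inl ⟨by simp, by simp, ?_⟩, ?_⟩
      · intro hg
        exact hTK a (hg.1 a (by simp)) haK
      · obtain ⟨x, y, rfl⟩ := List.append_of_mem ha
        exact ⟨x, y, by simp⟩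
    push Not at hwK
    have hle := (ldeg_le K R r hr).trans (deg_le r w hw hcf)
    have hlet := letters_of_cf (ZMod p) r w hcf
    have hlet' : ∀ a ∈ w, a ∈ letters r \ K := fun a ha =>
      Finset.mem_sdiff.2 ⟨hlet a ha, hwK a ha⟩
    refine ⟨w.take (ldeg p K R (letters r \ K)), Or.inr ?_, (List.take_prefix _ _).isInfix⟩
    rw [hC, Finset.mem_coe, Finset.mem_biUnion]
    refine ⟨letters r \ K, ?_, take_mem_Wd hlet' hle⟩
    rw [hQ, Finset.mem_filter]
    exact ⟨Finset.mem_univ _, r, hr, rfl, hwide.1, hwide.2⟩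
  · obtain ⟨u, hu, hu'⟩ := bad_of_cf (s := s) K R T hTK r hr (h2 r hr)
      (by
        rcases h r hr with h | h
        · exact h
        · exact absurd h hwide)
      (by
        intro h3
        by_contra hcon
        exact hwide ⟨h3, by omega⟩) w hw hcf
    exact ⟨u, Or.inl hu, hu'⟩

/-- **At most two letters.** -/
theorem mainT {G : Type} [Group G] {p d : ℕ} (hp : p.Prime)
    (φ : FreeGroup (Fin d) →* G) (R : Set (FreeGroup (Fin d)))
    (hR : φ.ker = Subgroup.normalClosure R) (hGS : GSIneq p d R) (h2 : ∀ r ∈ R, 2 ≤ deg p r)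
    (K : Finset (Fin d)) (hd : 4 * K.card + 6 ≤ d)
    (h : ∀ r ∈ R, (letters r \ K).card ≤ 2) :
    ∃ f : FreeGroup (Fin 2) →* G, Function.Injective f := by
  have : Fact p.Prime := ⟨hp⟩
  obtain ⟨T, hT, hT3⟩ := nb_core K (lam p K R) (fun i j hij => hij.2.1) (nb_gs K R hGS h2 hd)
  have hTK : ∀ a ∈ T, a ∉ K := by
    intro a ha
    have h1 := hT a ha
    have h2 : {w | w ∈ T ∧ (lam p K R).Adj a w}.Nonempty := by
      rw [← Set.ncard_pos]
      omega
    obtain ⟨w, hw⟩ := h2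
    exact hw.2.2.1
  obtain ⟨hfin, h0, c, k, hc, hk, hgr⟩ := nb_walk (lam p K R) T hT hT3
  obtain ⟨A, B, hAB, hlen, hav⟩ := grow _ hfin h0 c k hc hk hgr
  exact core_mono p _ hfin h0 A B hAB hlen hav R (fun r hr w hw hcf =>
    bad_of_cf (s := 2) K R T hTK r hr (h2 r hr) (h r hr) (fun h3 => by
      have := h r hr
      omega) w hw hcf) φ hR

end Pool.MW
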