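import Pool.Agent.Helper17.MW.Mu
import Pool.Agent.Helper17.MW.Dia

/-!
# The words that avoid a set of leading words span the quotient
-/

set_option autoImplicit false
set_option linter.unusedSectionVars false

namespace Pool.MW

open Ser Pool.H96.GS

namespace GB1

section low

variable {α K : Type} [Field K]

/-- the words of length less than `N` do not occur -/
def Low (N : ℕ) (f : Ser α K) : Prop := ∀ w : List α, w.length < N → f w = 0

lemma low_mul_left {N : ℕ} (f : Ser α K) {g : Ser α K} (hg : Low N g) : Low N (f * g) := by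
  intro w hw
  by_contra hne
  obtain ⟨u, v, rfl, hu, hv⟩ := exists_of_mul_ne_zero f g w hne
  rw [List.length_append] at hw
  exact hv (hg v (by omega))

lemma low_mul_right {N : ℕ} {f : Ser α K} (g : Ser α K) (hf : Low N f) : Low N (f * g) := by
  intro w hw
  by_contra hne
  obtain ⟨u, v, rfl, hu, hv⟩ := exists_of_mul_ne_zero f g w hne
  rw [List.length_append] at hw
  exact hu (hf u (by omega))

/-- agreement on the words of length less than `N` -/
def Agr (N : ℕ) (f g : Ser α K) : Prop := ∀ w : List α, w.length < N → f w = g w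

lemma agr_mul {N : ℕ} {f f' g g' : Ser α K} (hf : Agr N f f') (hg : Agr N g g') :
    Agr N (f * g) (f' * g') := by
  have h1 : Low N ((f - f') * g) := low_mul_right g fun w hw => by
    rw [Ser.sub_apply, hf w hw, sub_self]
  have h2 : Low N (f' * (g - g')) := low_mul_left f' fun w hw => by
    rw [Ser.sub_apply, hg w hw, sub_self]
  intro w hw
  have h3 : f * g - f' * g' = (f - f') * g + f' * (g - g') := by
    rw [sub_mul, mul_sub]
    abel
  have h4 : (f * g - f' * g') w = 0 := by
    rw [h3, Ser.add_apply, h1 w hw, h2 w hw, add_zero]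
  rw [Ser.sub_apply] at h4
  exact sub_eq_zero.1 h4

end low

section main

variable (K : Type) [Field K] {α : Type} [LinearOrder α] [Fintype α]

/-- approximation of the elements of the ideal of series by the ideal of the group algebra -/
lemma exists_id (R : Set (FreeGroup α)) (N : ℕ) (f : Ser α K) (hf : f ∈ rid K R) :
    ∃ a ∈ Id K R, Agr N (mu K α a) f := by
  unfold rid at hf
  induction hf using Submodule.span_induction with
  | mem x hx =>
    obtain ⟨a, b, r, hr, rfl⟩ := hx
    obtain ⟨a', ha'⟩ := exists_mu K N a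
    obtain ⟨b', hb'⟩ := exists_mu K N b
    refine ⟨a' * (ι K r - 1) * b', Submodule.subset_span ⟨a', r, hr, b', rfl⟩, ?_⟩
    have h1 : mu K α (ι K r - 1) = (mag α K r : Ser α K) - 1 := by
      have h2 : mu K α (1 : MonoidAlgebra K (FreeGroup α)) = 1 := by
        have h3 := mu_of K (1 : FreeGroup α)
        rwa [map_one (MonoidAlgebra.of K (FreeGroup α)), map_one (mag α K), Units.val_one] at h3
      rw [map_sub, h2]
      unfold ι
      rw [mu_of]
    rw [mu_mul, mu_mul, h1]
    exact agr_mul (agr_mul ha' fun _ _ => rfl) hb'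
  | zero => exact ⟨0, Submodule.zero_mem _, fun w _ => by rw [map_zero]⟩
  | add x y _ _ hx hy =>
    obtain ⟨a, ha, ha'⟩ := hx
    obtain ⟨b, hb, hb'⟩ := hy
    refine ⟨a + b, Submodule.add_mem _ ha hb, fun w hw => ?_⟩
    rw [map_add, Ser.add_apply, Ser.add_apply, ha' w hw, hb' w hw]
  | smul c x _ hx =>
    obtain ⟨a, ha, ha'⟩ := hx
    refine ⟨c • a, Submodule.smul_mem _ c ha, fun w hw => ?_⟩
    rw [map_smul, Ser.smul_apply, Ser.smul_apply, ha' w hw]

lemma lead_mon (a : List α) : Lead (mon a : Ser α K) a := by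
  constructor
  · show (if a = a then (1 : K) else 0) ≠ 0
    rw [if_pos rfl]
    exact one_ne_zero
  · intro w hw
    rw [Dia.mon_ne hw]
    exact le2_refl a

variable {K}

/-- the elements of the group algebra modulo the filtration -/
lemma expand (N : ℕ) (e : List α → MonoidAlgebra K (FreeGroup α))
    (he : ∀ w, Agr N (mu K α (e w)) (mon w)) (W : Finset (List α))
    (hW : ∀ w, w ∈ W ↔ w.length < N) (a : MonoidAlgebra K (FreeGroup α)) :
    a - ∑ w ∈ W, mu K α a w • e w ∈ Fil K α N := by
  apply mem_fil_of_low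
  intro v hv
  rw [map_sub, map_sum, Ser.sub_apply, Dia.sum_apply_ser]
  have h1 : ∀ w ∈ W, mu K α (mu K α a w • e w) v = if v = w then mu K α a w else 0 := by
    intro w _
    rw [map_smul, Ser.smul_apply, he w v hv]
    show mu K α a w * (if v = w then 1 else 0) = _
    by_cases h : v = w
    · rw [if_pos h, if_pos h, mul_one]
    · rw [if_neg h, if_neg h, mul_zero]
  rw [Finset.sum_congr rfl h1]
  have h2 := Finset.sum_ite_eq W v (fun w => (mu K α a : List α → K) w)
  rw [if_pos ((hW v).2 hv)] at h2
  rw [sub_eq_zero]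
  exact h2.symm

/-- all words are combinations of the words without factors in `C` -/
lemma span_av (R : Set (FreeGroup α)) (C : Set (List α)) (hC : ∀ u ∈ C, ∃ f ∈ rid K R, Lead f u)
    (N : ℕ) (e : List α → MonoidAlgebra K (FreeGroup α))
    (he : ∀ w, Agr N (mu K α (e w)) (mon w)) (w : List α) (hw : w.length < N) :
    e w ∈ Submodule.span K (e '' {w | w.length < N ∧ Av C w}) ⊔ J K R N := by
  set Q := Submodule.span K (e '' {w | w.length < N ∧ Av C w}) ⊔ J K R N with hQ
  have hfin : {w : List α | w.length < N}.Finite :=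
    (List.finite_length_le α N).subset fun w (hw : w.length < N) => hw.le
  set W := hfin.toFinset with hWdef
  have hW : ∀ w, w ∈ W ↔ w.length < N := by
    intro w
    rw [hWdef, Set.Finite.mem_toFinset]
    exact Iff.rfl
  by_contra hno
  -- the largest bad word
  obtain ⟨v, ⟨hvN, hvQ⟩, hvmax⟩ := Set.exists_max_image {w : List α | w.length < N ∧ e w ∉ Q}
    (fun w => Dia.rk w) (hfin.subset fun w hw => hw.1) ⟨w, hw, hno⟩
  apply hvQ
  have hav : ¬ Av C v := by
    intro hav
    exact hvQ (Submodule.mem_sup_left (Submodule.subset_span ⟨v, ⟨hvN, hav⟩, rfl⟩))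
  unfold Av at hav
  push Not at hav
  obtain ⟨u, hu, a, b, rfl⟩ := hav
  obtain ⟨f, hf, hfu⟩ := hC u hu
  obtain ⟨f', hf', hff'⟩ := exists_id K R N f hf
  set v := a ++ u ++ b with hv
  set F : Ser α K := mon a * f * mon b with hF
  have hFv : Lead F v := lead_mul (lead_mul (lead_mon K a) hfu) (lead_mon K b)
  -- the element of the ideal
  set g := e a * f' * e b with hg
  have hgId : g ∈ J K R N := by
    apply Submodule.mem_sup_left
    exact Id_mul_top R (Submodule.mul_mem_mul
      (top_mul_Id R (Submodule.mul_mem_mul Submodule.mem_top hf')) Submodule.mem_top)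
  have hgF : Agr N (mu K α g) F := by
    rw [hg, mu_mul, mu_mul]
    exact agr_mul (agr_mul (he a) hff') (he b)
  have hex := expand N e he W hW g
  have hsum : ∑ w ∈ W, mu K α g w • e w ∈ Q := by
    have h1 : ∑ w ∈ W, mu K α g w • e w = g - (g - ∑ w ∈ W, mu K α g w • e w) := by abel
    rw [h1]
    apply Submodule.mem_sup_right
    exact Submodule.sub_mem _ hgId (Submodule.mem_sup_right hex)
  have hvW : v ∈ W := (hW v).2 hvN
  rw [← Finset.add_sum_erase W _ hvW] at hsum
  have hrest : ∑ w ∈ W.erase v, mu K α g w • e w ∈ Q := by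
    apply Submodule.sum_mem
    intro w hw
    rw [Finset.mem_erase, hW] at hw
    by_cases h0 : mu K α g w = 0
    · rw [h0, zero_smul]
      exact Submodule.zero_mem _
    · apply Submodule.smul_mem
      by_contra hwQ
      have h1 := hvmax w ⟨hw.2, hwQ⟩
      rw [hgF w hw.2] at h0
      have h2 := Dia.rk_lt (hFv.2 w h0) (Ne.symm hw.1)
      omega
  have hv0 : mu K α g v ≠ 0 := by
    rw [hgF v hvN]
    exact hFv.1
  have h3 : mu K α g v • e v ∈ Q := by
    have := Submodule.sub_mem _ hsum hrest
    rwa [add_sub_cancel_right] at this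
  have h4 := Submodule.smul_mem Q (mu K α g v)⁻¹ h3
  rwa [smul_smul, inv_mul_cancel₀ hv0, one_smul] at h4

end main

end GB1

open GB1 in
/-- ROW GB1: the words that avoid a set of leading words span the quotient -/
theorem bdim_le (K : Type) [Field K] {d : ℕ} (R : Set (FreeGroup (Fin d)))
    (C : Set (List (Fin d))) (hC : ∀ u ∈ C, ∃ f ∈ rid K R, Lead f u) (N : ℕ) :
    bdim K R N ≤ {w : List (Fin d) | w.length < N ∧ Av C w}.ncard := by
  have hex : ∀ w : List (Fin d), ∃ a, Agr N (mu K (Fin d) a) (mon w) := fun w => exists_mu K N (mon w)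
  choose e he using hex
  set S : Set (List (Fin d)) := {w | w.length < N ∧ Av C w} with hS
  have hfin : {w : List (Fin d) | w.length < N}.Finite :=
    (List.finite_length_le (Fin d) N).subset fun w (hw : w.length < N) => hw.le
  have hSfin : S.Finite := hfin.subset fun w hw => hw.1
  have htop : Submodule.span K (e '' S) ⊔ J K R N = ⊤ := by
    rw [eq_top_iff]
    intro a _
    have h1 := expand N e he hfin.toFinset (fun w => by
      rw [Set.Finite.mem_toFinset]
      exact Iff.rfl) a
    have h2 : a = (a - ∑ w ∈ hfin.toFinset, mu K (Fin d) a w • e w) +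
        ∑ w ∈ hfin.toFinset, mu K (Fin d) a w • e w := by abel
    rw [h2]
    refine Submodule.add_mem _ (Submodule.mem_sup_right (Submodule.mem_sup_right h1))
      (Submodule.sum_mem _ fun w hw => Submodule.smul_mem _ _ ?_)
    rw [Set.Finite.mem_toFinset] at hw
    exact span_av R C hC N e he w hw
  have : Fintype S := hSfin.fintype
  have h3 : Submodule.span K (Set.range fun w : S => (J K R N).mkQ (e w)) = ⊤ := by
    have h4 : (Set.range fun w : S => (J K R N).mkQ (e w)) = (J K R N).mkQ '' (e '' S) := by
      ext x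
      constructor
      · rintro ⟨w, rfl⟩
        exact ⟨_, ⟨w, w.2, rfl⟩, rfl⟩
      · rintro ⟨_, ⟨w, hw, rfl⟩, rfl⟩
        exact ⟨⟨w, hw⟩, rfl⟩
    rw [h4, Submodule.span_image]
    have h5 := congrArg (Submodule.map (J K R N).mkQ) htop
    rw [Submodule.map_sup, Submodule.mkQ_map_self, sup_bot_eq, Submodule.map_top,
      Submodule.range_mkQ] at h5
    exact h5
  have h6 := finrank_le_of_span_eq_top h3
  unfold bdim
  rw [← Nat.card_coe_set_eq, Nat.card_eq_fintype_card]
  exact h6

end Pool.MW
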