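import Pool.Agent.Helper17.MW.Grow
import Mathlib.Computability.Language
import Mathlib.Computability.DFA

/-!
# Exponential growth of a regular set of words: two different words whose products avoid `C`
-/

set_option autoImplicit false

namespace Pool.MW

open Filter Topology

variable {d : ℕ} {σ : Type}

/-- the last visit of the state `q` -/
noncomputable def lastq (M : DFA (Fin d) σ) (n : ℕ) (w : List (Fin d)) (q : σ) : ℕ :=
  open Classical in Nat.findGreatest (fun i => M.eval (w.take i) = q) n

theorem lastq_le (M : DFA (Fin d) σ) (n : ℕ) (w : List (Fin d)) (q : σ) : lastq M n w q ≤ n := by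
  classical
  exact Nat.findGreatest_le n

theorem lastq_spec {M : DFA (Fin d) σ} {n i : ℕ} {w : List (Fin d)} {q : σ} (hi : i ≤ n)
    (h : M.eval (w.take i) = q) : M.eval (w.take (lastq M n w q)) = q ∧ i ≤ lastq M n w q := by
  classical
  exact ⟨Nat.findGreatest_spec (P := fun i => M.eval (w.take i) = q) hi h, Nat.le_findGreatest hi h⟩

theorem eval_append (M : DFA (Fin d) σ) (u x : List (Fin d)) :
    M.eval (u ++ x) = M.evalFrom (M.eval u) x := by
  rw [DFA.eval, DFA.evalFrom_of_append]

/-- a word is determined by the last visits of the states and the letters after them -/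
theorem word_uniqueq {C : Set (List (Fin d))} {M : DFA (Fin d) σ} {n : ℕ}
    (huniq : ∀ u x y : List (Fin d), Av C u → x.length = y.length →
      M.evalFrom (M.eval u) x = M.eval u → M.evalFrom (M.eval u) y = M.eval u → x = y)
    {w w' : List (Fin d)} (hw : w.length = n) (hw' : w'.length = n) (hC : Av C w)
    (hL : ∀ q, lastq M n w q = lastq M n w' q)
    (hn : ∀ q, w[lastq M n w q]? = w'[lastq M n w' q]?) :
    ∀ m i, i ≤ n → n - i ≤ m → w.take i = w'.take i → w = w' := by
  intro m
  induction m with
  | zero =>
    intro i hi hm h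
    have : i = n := by omega
    subst this
    rw [List.take_of_length_le (by omega), List.take_of_length_le (by omega)] at h
    exact h
  | succ m ih =>
    intro i hi hm h
    set q := M.eval (w.take i) with hq
    obtain ⟨h1, h2⟩ := lastq_spec (M := M) (w := w) hi hq.symm
    obtain ⟨h1', -⟩ := lastq_spec (M := M) (w := w') (q := q) hi (by rw [← h])
    have hL' := hL q
    rw [← hL'] at h1'
    have hln := lastq_le M n w q
    set l := lastq M n w q with hl
    have e1 : w.take l = w.take i ++ (w.drop i).take (l - i) := by
      conv_lhs => rw [show l = i + (l - i) by omega, List.take_add]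
    have e2 : w'.take l = w.take i ++ (w'.drop i).take (l - i) := by
      conv_lhs => rw [show l = i + (l - i) by omega, List.take_add]
      rw [h]
    have hxy : (w.drop i).take (l - i) = (w'.drop i).take (l - i) := by
      refine huniq (w.take i) _ _ (av_of_infix (List.take_prefix _ _).isInfix hC) ?_ ?_ ?_
      · rw [List.length_take, List.length_take, List.length_drop, List.length_drop, hw, hw']
      · rw [← eval_append, ← e1, h1]
      · rw [← eval_append, ← e2, h1']
    have ht : w.take l = w'.take l := by rw [e1, e2, hxy]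
    by_cases hlen : l = n
    · rw [hlen, List.take_of_length_le (by omega), List.take_of_length_le (by omega)] at ht
      exact ht
    · refine ih (l + 1) (by omega) (by omega) ?_
      rw [List.take_add_one, List.take_add_one, ht]
      have := hn q
      rw [← hL', ← hl] at this
      rw [this]

/-- polynomial growth -/
theorem ncard_leq [Fintype σ] {C : Set (List (Fin d))} {M : DFA (Fin d) σ}
    (huniq : ∀ u x y : List (Fin d), Av C u → x.length = y.length →
      M.evalFrom (M.eval u) x = M.eval u → M.evalFrom (M.eval u) y = M.eval u → x = y) (N : ℕ) :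
    {w : List (Fin d) | w.length < N ∧ Av C w}.ncard ≤
      (d + 1) ^ Fintype.card σ * N ^ (Fintype.card σ + 1) := by
  classical
  rcases Nat.eq_zero_or_pos N with rfl | hN
  · simp
  let T := Fin N × (σ → Option (Fin d)) × (σ → Fin N)
  let F : List (Fin d) → T := fun w =>
    if hw : w.length < N then (⟨w.length, hw⟩, fun q => w[lastq M w.length w q]?, fun q =>
      ⟨lastq M w.length w q, (lastq_le M w.length w q).trans_lt hw⟩)
    else (⟨0, hN⟩, fun _ => none, fun _ => ⟨0, hN⟩)
  have hinj : Set.InjOn F {w : List (Fin d) | w.length < N ∧ Av C w} := by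
    rintro w ⟨hw, hC⟩ w' ⟨hw', hC'⟩ hF
    simp only [F, dif_pos hw, dif_pos hw'] at hF
    have hF1 : w.length = w'.length := congrArg (fun t : T => (t.1 : ℕ)) hF
    have hF2 := congrArg (fun t : T => t.2.1) hF
    have hF3 := congrArg (fun t : T => t.2.2) hF
    refine word_uniqueq (M := M) (n := w.length) huniq rfl hF1.symm hC (fun q => ?_) (fun q => ?_)
      w.length 0 (Nat.zero_le _) (by omega) (by simp)
    · have h3 : lastq M w.length w q = lastq M w'.length w' q := congrArg Fin.val (congrFun hF3 q)
      rw [h3, hF1]
    · have h2 : w[lastq M w.length w q]? = w'[lastq M w'.length w' q]? := congrFun hF2 q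
      rw [h2, hF1]
  have hle := Set.ncard_le_ncard_of_injOn F (fun a _ => Set.mem_univ _) hinj Set.finite_univ
  rw [Set.ncard_univ, Nat.card_eq_fintype_card] at hle
  refine hle.trans (le_of_eq ?_)
  simp only [T, Fintype.card_prod, Fintype.card_option, Fintype.card_fun, Fintype.card_fin]
  ring

theorem grow_reg {d : ℕ} (C : Set (List (Fin d)))
    (hreg : Language.IsRegular ({w | ¬ Av C w} : Language (Fin d))) (t : ℝ) (ht : 0 < t) (ht1 : t < 1)
    (h : ∀ N, 1 ≤ N → t ≤ t ^ N * ({w : List (Fin d) | w.length < N ∧ Av C w}.ncard : ℝ)) :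
    ∃ A B : List (Fin d), A ≠ B ∧ A.length = B.length ∧ ∀ l, Av C (bw A B l) := by
  obtain ⟨σ, hσ, M, hM⟩ := hreg
  have hacc : ∀ w, M.eval w ∈ M.accept ↔ ¬ Av C w := by
    intro w
    rw [← DFA.mem_accepts, hM]
    exact Iff.rfl
  by_contra hcon
  push Not at hcon
  have huniq : ∀ u x y : List (Fin d), Av C u → x.length = y.length →
      M.evalFrom (M.eval u) x = M.eval u → M.evalFrom (M.eval u) y = M.eval u → x = y := by
    intro u x y hu hxy hx hy
    by_contra hne
    obtain ⟨l, hl⟩ := hcon x y hne hxy
    apply hl
    have key : ∀ l : List Bool, M.evalFrom (M.eval u) (bw x y l) = M.eval u := by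
      intro l
      induction l with
      | nil => simp [bw]
      | cons b l ih =>
        have e : bw x y (b :: l) = (bif b then x else y) ++ bw x y l := by simp [bw]
        rw [e, DFA.evalFrom_of_append]
        cases b with
        | true => simpa [hx] using ih
        | false => simpa [hy] using ih
    have h1 : Av C (u ++ bw x y l) := by
      by_contra h2
      rw [← hacc, eval_append, key, hacc] at h2
      exact h2 hu
    exact av_of_infix (List.suffix_append u _).isInfix h1
  have hlim := (tendsto_pow_const_mul_const_pow_of_lt_one (Fintype.card σ + 1) ht.le ht1).const_mul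
    (((d + 1 : ℕ) : ℝ) ^ Fintype.card σ)
  rw [mul_zero] at hlim
  obtain ⟨N, hN, hN1⟩ := ((hlim.eventually (gt_mem_nhds ht)).and (eventually_ge_atTop 1)).exists
  have h1 := h N hN1
  have h2 : (({w : List (Fin d) | w.length < N ∧ Av C w}.ncard : ℕ) : ℝ) ≤
      ((d + 1 : ℕ) : ℝ) ^ Fintype.card σ * (N : ℝ) ^ (Fintype.card σ + 1) := by
    exact_mod_cast ncard_leq huniq N
  have h3 := mul_le_mul_of_nonneg_left h2 (pow_nonneg ht.le N)
  have h4 : t ^ N * (((d + 1 : ℕ) : ℝ) ^ Fintype.card σ * (N : ℝ) ^ (Fintype.card σ + 1)) =
      ((d + 1 : ℕ) : ℝ) ^ Fintype.card σ * ((N : ℝ) ^ (Fintype.card σ + 1) * t ^ N) := by ring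
  rw [h4] at h3
  linarith

end Pool.MW
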