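import Pool.Agent.Helper96.GS.Growth

/-!
# Exponential growth of the truncations in every degree
-/

set_option autoImplicit false
set_option linter.unusedSectionVars false

namespace Pool.MW

open Pool.H96.GS Equiv Classical Module MonoidAlgebra

section gs

variable {k X : Type*} [Field k] [Fintype X]

theorem gs_all_aux (S : Set (FreeGroup X)) (t : ℝ) (ht : 0 < t) (ht1 : t < 1)
    (hsum : Summable fun r : S => t ^ sSup (degSet k (r : FreeGroup X)))
    (hlt : 1 - (Fintype.card X : ℝ) * t + ∑' r : S, t ^ sSup (degSet k (r : FreeGroup X)) < 0)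
    (N : ℕ) (hN : 1 ≤ N) : t ≤ t ^ N * (bdim k S N : ℝ) := by
  set dg : FreeGroup X → ℕ := fun s => sSup (degSet k s) with hdg
  set f : S → ℝ := fun r => t ^ dg r with hf
  have hfin : {r : S | t ^ N ≤ f r}.Finite := by
    have h1 := hsum.tendsto_cofinite_zero
    have h2 := h1.eventually (gt_mem_nhds (pow_pos ht N))
    have h3 := Filter.eventually_cofinite.mp h2
    refine h3.subset fun r hr => ?_
    exact not_lt.mpr hr
  set T0 : Finset S := hfin.toFinset.filter fun r : S => BddAbove (degSet k (r : FreeGroup X))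
    with hT0
  set T : Finset (FreeGroup X) := T0.map (Function.Embedding.subtype _) with hT
  have hmem : ∀ s ∈ T, s ∈ S ∧ BddAbove (degSet k s) := by
    intro s hs
    rw [hT, Finset.mem_map] at hs
    obtain ⟨r, hr, rfl⟩ := hs
    exact ⟨r.2, (Finset.mem_filter.mp hr).2⟩
  have hin : ∀ s ∈ T, dg s ∈ degSet k s ∧ 1 ≤ dg s := by
    intro s hs
    have hb := (hmem s hs).2
    exact ⟨Nat.sSup_mem ⟨1, one_mem_degSet s⟩ hb, le_csSup hb (one_mem_degSet s)⟩
  have hm : ∀ s ∈ T, ι k s - 1 ∈ Fil k X (dg s) := by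
    intro s hs
    have := (hin s hs).1
    rw [← pow_Mi (hin s hs).2]
    exact this
  have hrest : ∀ s ∈ S, s ∉ T → ι k s - 1 ∈ Fil k X N := by
    intro s hs hsT
    by_cases hb : BddAbove (degSet k s)
    · have h1 : ¬ (t ^ N ≤ t ^ dg s) := by
        intro hle
        refine hsT ?_
        rw [hT, Finset.mem_map]
        refine ⟨⟨s, hs⟩, ?_, rfl⟩
        rw [hT0, Finset.mem_filter]
        exact ⟨hfin.mem_toFinset.mpr hle, hb⟩
      have h2 : N ≤ dg s := by
        by_contra hcon
        exact h1 (pow_le_pow_of_le_one ht.le ht1.le (by omega))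
      have h3 : dg s ∈ degSet k s := Nat.sSup_mem ⟨1, one_mem_degSet s⟩ hb
      have h4 : ι k s - 1 ∈ Fil k X (dg s) := by
        rw [← pow_Mi (hN.trans h2)]
        exact h3
      exact Fil_anti h2 h4
    · rw [not_bddAbove_iff] at hb
      obtain ⟨n, hn, hlt⟩ := hb N
      have h4 : ι k s - 1 ∈ Fil k X n := by
        rw [← pow_Mi (by omega)]
        exact hn
      exact Fil_anti hlt.le h4
  have hH : 1 - (Fintype.card X : ℝ) * t + ∑ s ∈ T, t ^ dg s ≤ 0 := by
    have h1 : ∑ s ∈ T, t ^ dg s = ∑ r ∈ T0, f r := by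
      rw [hT, Finset.sum_map]; rfl
    have h2 : ∑ r ∈ T0, f r ≤ ∑' r, f r := hsum.sum_le_tsum _ fun r _ => pow_nonneg ht.le _
    rw [h1]
    have h3 : 1 - (Fintype.card X : ℝ) * t + ∑' r, f r < 0 := hlt
    linarith
  exact growth ht (Fintype.card X) (bdim k S) (by
      unfold bdim
      rw [J_zero]
      exact finrank_zero_of_subsingleton) T dg (fun s hs => (hin s hs).2) N hN
    (fun n hn => key_ineq S n T dg (fun s hs => (hin s hs).2) hm
      (fun s hs hsT => Fil_anti (by omega) (hrest s hs hsT))) hH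

end gs

/-- ROW GB2: exponential growth in every degree -/
theorem gs_all {p d : ℕ} [Fact p.Prime] (R : Set (FreeGroup (Fin d))) (hR : GSIneq p d R) :
    ∃ t : ℝ, 0 < t ∧ t < 1 ∧ ∀ N, 1 ≤ N → t ≤ t ^ N * (bdim (ZMod p) R N : ℝ) := by
  obtain ⟨t, ht, ht1, hsum, hlt⟩ := hR
  have hlt' : 1 - (Fintype.card (Fin d) : ℝ) * t +
      ∑' r : R, t ^ sSup (degSet (ZMod p) (r : FreeGroup (Fin d))) < 0 := by
    rw [Fintype.card_fin]
    exact hlt
  exact ⟨t, ht, ht1, gs_all_aux R t ht ht1 hsum hlt'⟩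

end Pool.MW
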