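import Pool.Agent.Helper17.MW.Final
import Pool.Agent.Helper17.MW.Core2
import Pool.Agent.Helper17.MW.Gs2
import Pool.Agent.Helper17.MW.Gb
import Pool.Agent.Helper17.MW.GrowReg

/-!
# Regular languages of leading words
-/

set_option autoImplicit false
set_option linter.unusedSectionVars false

namespace Pool.MW

open Ser Pool.H96.GS

/-- the leading words of the elements of the two sided ideal of `F_p<<X>>` generated by the
`r - 1`, `r ∈ R` -/
def leadWords (p : ℕ) [Fact p.Prime] {d : ℕ} (R : Set (FreeGroup (Fin d))) : Language (Fin d) :=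
  {w | ∃ f ∈ rid (ZMod p) R, Lead f w}

lemma rid_mul (K : Type) [Field K] {α : Type} [DecidableEq α] (R : Set (FreeGroup α))
    (f : Ser α K) (hf : f ∈ rid K R) (a b : Ser α K) : a * f * b ∈ rid K R := by
  refine Submodule.span_induction ?_ ?_ ?_ ?_ hf
  · rintro x ⟨a', b', r, hr, rfl⟩
    apply Submodule.subset_span
    exact ⟨a * a', b' * b, r, hr, by simp only [mul_assoc]⟩
  · rw [mul_zero, zero_mul]
    exact Submodule.zero_mem _
  · intro x y _ _ hx hy
    rw [mul_add, add_mul]
    exact Submodule.add_mem _ hx hy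
  · intro c x _ hx
    rw [mul_smul_ser, smul_mul_ser]
    exact Submodule.smul_mem _ _ hx

lemma lead_mono {α K : Type} [LinearOrder α] [Field K] (u : List α) :
    Lead (mon u : Ser α K) u := by
  constructor
  · simp [mon]
  · intro w hw
    by_cases h : w = u
    · rw [h]; exact le2_refl _
    · exact absurd (if_neg h) hw

lemma leadWords_iff (p : ℕ) [Fact p.Prime] {d : ℕ} (R : Set (FreeGroup (Fin d)))
    (w : List (Fin d)) : ¬ Av (leadWords p R : Set (List (Fin d))) w ↔ w ∈ leadWords p R := by
  constructor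
  · intro h
    unfold Av at h
    push Not at h
    obtain ⟨u, ⟨f, hf, hfu⟩, s, t, rfl⟩ := h
    exact ⟨mon s * f * mon t, rid_mul (ZMod p) R f hf _ _,
      lead_mul (lead_mul (lead_mono s) hfu) (lead_mono t)⟩
  · intro h hav
    exact hav w h (List.infix_refl w)

/-- **Regular languages of leading words.** -/
theorem mainR {G : Type} [Group G] {p d : ℕ} [Fact p.Prime]
    (φ : FreeGroup (Fin d) →* G) (R : Set (FreeGroup (Fin d)))
    (hR : φ.ker = Subgroup.normalClosure R) (hGS : GSIneq p d R)
    (hreg : (leadWords p R).IsRegular) :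
    ∃ f : FreeGroup (Fin 2) →* G, Function.Injective f := by
  obtain ⟨t, ht0, ht1, hgr⟩ := gs_all R hGS
  set C : Set (List (Fin d)) := leadWords p R with hC
  have hreg' : Language.IsRegular ({w | ¬ Av C w} : Language (Fin d)) := by
    have h1 : ({w | ¬ Av C w} : Language (Fin d)) = leadWords p R := by
      ext w
      exact leadWords_iff p R w
    rw [h1]
    exact hreg
  obtain ⟨A, B, hAB, hlen, hav⟩ := grow_reg C hreg' t ht0 ht1 (fun N hN => by
    have h1 := hgr N hN
    have h2 := bdim_le (ZMod p) R C (fun u hu => hu) N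
    have h3 : (bdim (ZMod p) R N : ℝ) ≤
        ({w : List (Fin d) | w.length < N ∧ Av C w}.ncard : ℝ) := by exact_mod_cast h2
    exact h1.trans (mul_le_mul_of_nonneg_left h3 (by positivity)))
  refine core_any p A B hAB hlen ((rid (ZMod p) R : Submodule (ZMod p) (Ser (Fin d) (ZMod p))) :
    Set (Ser (Fin d) (ZMod p))) ?_ ?_ ?_ R ?_ φ hR ?_
  · intro f hf g hg
    exact Submodule.add_mem _ hf hg
  · intro f hf a b
    exact rid_mul (ZMod p) R f hf a b
  · intro f hf w hw l hwl
    exact hav l w ⟨f, hf, hw⟩ hwl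
  · intro r hr
    apply Submodule.subset_span
    exact ⟨1, 1, r, hr, by rw [one_mul, mul_one]⟩
  · exact Submodule.zero_mem _

end Pool.MW
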