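import Pool.Agent.Helper17.MW.Defs
import Mathlib.Computability.MyhillNerode

/-!
# The words with a factor in a finite set form a regular language
-/

set_option autoImplicit false

namespace Pool.MW

theorem regular_of_finite {d : ℕ} (C : Set (List (Fin d))) (hC : C.Finite) :
    Language.IsRegular ({w | ∃ u ∈ C, u <:+: w} : Language (Fin d)) := by
  classical
  obtain ⟨N, hN⟩ : ∃ N : ℕ, ∀ u ∈ C, u.length ≤ N := by
    obtain ⟨N, hN⟩ := (hC.image List.length).bddAbove
    exact ⟨N, fun u hu => hN ⟨u, hu, rfl⟩⟩
  set L : Language (Fin d) := {w | ∃ u ∈ C, u <:+: w} with hL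
  have hmem : ∀ w, w ∈ L ↔ ∃ u ∈ C, u <:+: w := fun w => Iff.rfl
  rw [Language.isRegular_iff_finite_range_leftQuotient]
  have hfin : ({w : List (Fin d) | w.length ≤ N}).Finite := List.finite_length_le (Fin d) N
  refine (((Set.finite_singleton (⊤ : Language (Fin d))) : ({⊤} : Set (Language (Fin d))).Finite).union
    (hfin.image L.leftQuotient)).subset ?_
  rintro _ ⟨x, rfl⟩
  by_cases hx : x ∈ L
  · left
    show L.leftQuotient x = ⊤
    ext y
    refine ⟨fun _ => Set.mem_univ y, fun _ => ?_⟩
    rw [Language.mem_leftQuotient]
    obtain ⟨u, hu, s, t, hst⟩ := (hmem x).1 hx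
    exact (hmem _).2 ⟨u, hu, s, t ++ y, by rw [← hst]; simp⟩
  · right
    refine ⟨x.drop (x.length - N), ?_, ?_⟩
    · show (x.drop (x.length - N)).length ≤ N
      rw [List.length_drop]
      omega
    · ext y
      rw [Language.mem_leftQuotient, Language.mem_leftQuotient, hmem, hmem]
      constructor
      · rintro ⟨u, hu, s, t, hst⟩
        refine ⟨u, hu, x.take (x.length - N) ++ s, t, ?_⟩
        rw [List.append_assoc, List.append_assoc, ← List.append_assoc s, hst,
          ← List.append_assoc, List.take_append_drop]
      · rintro ⟨u, hu, s, t, hst⟩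
        have hlen := hN u hu
        have hs : x.length - N ≤ s.length := by
          by_contra hcon
          apply hx
          rw [hmem]
          -- the occurrence is inside `x`
          have h1 : s ++ u <+: x ++ y := ⟨t, hst⟩
          have h2 : s ++ u <+: x := by
            apply List.prefix_of_prefix_length_le h1 (List.prefix_append x y)
            rw [List.length_append]
            omega
          obtain ⟨t', ht'⟩ := h2
          exact ⟨u, hu, s, t', ht'⟩
        refine ⟨u, hu, s.drop (x.length - N), t, ?_⟩
        have h3 := congrArg (List.drop (x.length - N)) hst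
        rw [List.append_assoc, List.drop_append_of_le_length hs,
          List.drop_append_of_le_length (Nat.sub_le _ _)] at h3
        rw [List.append_assoc]
        exact h3

end Pool.MW
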