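import Pool.Agent.Helper17.MW.Cup
import Pool.Agent.Helper17.MW.Reg

/-!
# Leading words of the linear combinations of the relators
-/

set_option autoImplicit false
set_option linter.unusedSectionVars false

namespace Pool.MW

open Ser Pool.H96.GS

lemma gs_mono_aux {α : Type} (D : α → ℕ) (d : ℝ) (t : ℝ) (h0 : 0 < t) {R R0 : Set α}
    (h : R0 ⊆ R) (hs : Summable fun r : R => t ^ D r)
    (hlt : 1 - d * t + ∑' r : R, t ^ D r < 0) :
    (Summable fun r : R0 => t ^ D r) ∧ 1 - d * t + ∑' r : R0, t ^ D r < 0 := by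
  have h1 : Summable ((fun r : R => t ^ D r) ∘ Set.inclusion h) :=
    hs.comp_injective (Set.inclusion_injective h)
  have h2 : tsum ((fun r : R => t ^ D r) ∘ Set.inclusion h) ≤ tsum (fun r : R => t ^ D r) :=
    tsum_comp_le_tsum_of_inj hs (fun r => pow_nonneg h0.le _) (Set.inclusion_injective h)
  refine ⟨h1, ?_⟩
  have h3 : ∑' r : R0, t ^ D r = tsum ((fun r : R => t ^ D r) ∘ Set.inclusion h) := rfl
  rw [h3]
  linarith

lemma gs_mono {p d : ℕ} {R R0 : Set (FreeGroup (Fin d))} (h : R0 ⊆ R) (hGS : GSIneq p d R) :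
    GSIneq p d R0 := by
  obtain ⟨t, h0, h1, hs, hlt⟩ := hGS
  obtain ⟨a, b⟩ := gs_mono_aux (fun r => deg p r) d t h0 h hs hlt
  exact ⟨t, h0, h1, a, b⟩

/-- **Finitely presented groups, leading words without overlap after elimination.** -/
theorem mainS {G : Type} [Group G] (hG : FP G) {p d : ℕ} [Fact p.Prime]
    (φ : FreeGroup (Fin d) →* G) (hφ : Function.Surjective φ) (R : Set (FreeGroup (Fin d)))
    (hR : φ.ker = Subgroup.normalClosure R) (hGS : GSIneq p d R)
    (hfac : ∀ u ∈ spanWords p R, ∀ v ∈ spanWords p R, u <:+: v → u = v)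
    (hov : ∀ u ∈ spanWords p R, ∀ v ∈ spanWords p R, ∀ x y z : List (Fin d),
      x ≠ [] → y ≠ [] → z ≠ [] → ¬ (u = x ++ y ∧ v = y ++ z)) :
    ∃ f : FreeGroup (Fin 2) →* G, Function.Injective f := by
  obtain ⟨R0, h0, hfin, hker⟩ := finite_subset hG φ hφ R hR
  have hsub : spanWords p R0 ⊆ spanWords p R := by
    rintro w ⟨f, hf, hw⟩
    refine ⟨f, Submodule.span_mono ?_ hf, hw⟩
    rintro x ⟨r, hr, rfl⟩
    exact ⟨r, h0 hr, rfl⟩
  obtain ⟨hC, hw⟩ := span_lead (p := p) R0 hfin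
    (fun u hu v hv => hfac u (hsub hu) v (hsub hv))
    (fun u hu v hv => hov u (hsub hu) v (hsub hv))
  have h3 : leadWords p R0 =
      ({w | ∃ u ∈ spanWords p R0, u <:+: w} : Language (Fin d)) := by
    ext w
    exact hw w
  exact mainR φ R0 hker (gs_mono h0 hGS) (h3 ▸ regular_of_finite _ hC)

end Pool.MW
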