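import Pool.Agent.Helper17.MW.Defs

/-!
# Leading words of products, commutators and generators
-/

set_option autoImplicit false
set_option linter.unusedSectionVars false

namespace Pool.MW

open Ser

section ord

variable {α : Type} [LinearOrder α]

lemma app_lt_app_left (c a b : List α) : c ++ a < c ++ b ↔ a < b := by
  induction c with
  | nil => simp
  | cons x c ih =>
    rw [List.cons_append, List.cons_append, List.cons_lt_cons_iff]
    constructor
    · rintro (h | ⟨-, h⟩)
      · exact absurd h (lt_irrefl x)
      · exact ih.1 h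
    · intro h
      exact Or.inr ⟨rfl, ih.2 h⟩

lemma app_le_app_left (c a b : List α) : c ++ a ≤ c ++ b ↔ a ≤ b := by
  rw [← not_lt, ← not_lt, app_lt_app_left]

/-- a difference in the common part decides -/
lemma app_lt_app_of_lt {a b : List α} (hlen : a.length = b.length) (h : a < b) (c c' : List α) :
    a ++ c < b ++ c' := by
  induction a generalizing b with
  | nil =>
    cases b with
    | nil => exact absurd h (lt_irrefl _)
    | cons y b => simp at hlen
  | cons x a ih =>
    cases b with
    | nil => simp at hlen
    | cons y b =>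
      rw [List.cons_append, List.cons_append, List.cons_lt_cons_iff]
      rw [List.cons_lt_cons_iff] at h
      rcases h with h | ⟨hxy, h⟩
      · exact Or.inl h
      · exact Or.inr ⟨hxy, ih (by simpa using hlen) h⟩

lemma app_le_app {a b c c' : List α} (hlen : a.length = b.length) (h : a ≤ b) (hc : c ≤ c') :
    a ++ c ≤ b ++ c' := by
  rcases h.lt_or_eq with h | h
  · exact (app_lt_app_of_lt hlen h c c').le
  · subst h
    exact (app_le_app_left a c c').2 hc

lemma le2_refl (u : List α) : le2 u u := Or.inr ⟨rfl, le_rfl⟩

lemma le2_trans {u v w : List α} (h : le2 u v) (h' : le2 v w) : le2 u w := by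
  rcases h with h | ⟨h, h1⟩ <;> rcases h' with h' | ⟨h', h2⟩
  · exact Or.inl (by omega)
  · exact Or.inl (by omega)
  · exact Or.inl (by omega)
  · exact Or.inr ⟨by omega, h1.trans h2⟩

lemma le2_antisymm {u v : List α} (h : le2 u v) (h' : le2 v u) : u = v := by
  rcases h with h | ⟨h, h1⟩ <;> rcases h' with h' | ⟨h', h2⟩
  · omega
  · omega
  · omega
  · exact le_antisymm h1 h2

lemma le2_total (u v : List α) : le2 u v ∨ le2 v u := by
  rcases lt_trichotomy u.length v.length with h | h | h
  · exact Or.inl (Or.inl h)
  · rcases le_total u v with h1 | h1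
    · exact Or.inl (Or.inr ⟨h, h1⟩)
    · exact Or.inr (Or.inr ⟨h.symm, h1⟩)
  · exact Or.inr (Or.inl h)

lemma le2_app {u v u' v' : List α} (h : le2 u u') (h' : le2 v v') : le2 (u ++ v) (u' ++ v') := by
  rcases h with h | ⟨h, h1⟩ <;> rcases h' with h' | ⟨h', h2⟩
  · exact Or.inl (by simp only [List.length_append]; omega)
  · exact Or.inl (by simp only [List.length_append]; omega)
  · exact Or.inl (by simp only [List.length_append]; omega)
  · exact Or.inr ⟨by simp only [List.length_append]; omega, app_le_app h h1 h2⟩

lemma le2_len {u v : List α} (h : le2 u v) : u.length ≤ v.length := by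
  rcases h with h | ⟨h, -⟩ <;> omega

lemma le2_nil (u : List α) : le2 [] u := by
  cases u with
  | nil => exact le2_refl _
  | cons a u => exact Or.inl (by simp)

end ord

section lead

variable {α K : Type} [LinearOrder α] [Field K]

lemma lead_low {f : Ser α K} {U : List α} (hf : Lead f U) (u : List α)
    (hu : u.length < U.length) : f u = 0 := by
  by_contra h
  have := le2_len (hf.2 u h)
  omega

/-- product of leading words -/
theorem lead_mul {f g : Ser α K} {U V : List α} (hf : Lead f U) (hg : Lead g V) :
    Lead (f * g) (U ++ V) := by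
  constructor
  · rw [mul_append f g U V (lead_low hf) (lead_low hg)]
    exact mul_ne_zero hf.1 hg.1
  · intro w hw
    obtain ⟨u, v, rfl, hu, hv⟩ := exists_of_mul_ne_zero f g w hw
    exact le2_app (hf.2 u hu) (hg.2 v hv)

lemma lead_of_nil {f : Ser α K} (h : f [] ≠ 0) : Lead f [] := ⟨h, fun w _ => le2_nil w⟩

lemma mag_nil (g : FreeGroup α) : (mag α K g : Ser α K) [] = 1 := by
  induction g using FreeGroup.induction_on with
  | C1 => rw [map_one]; rfl
  | of i =>
    unfold mag
    rw [FreeGroup.lift_apply_of]
    show (1 + mon [i] : Ser α K) [] = 1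
    rw [Ser.add_apply, one_nil]
    simp [mon]
  | inv_of i _ =>
    unfold mag
    rw [map_inv, FreeGroup.lift_apply_of]
    show (geo i : Ser α K) [] = 1
    exact geo_nil i
  | mul a b ha hb =>
    rw [map_mul, Units.val_mul, mul_nil, ha, hb, one_mul]

/-- leading word of a generator -/
theorem lead_of (i : α) : Lead ((mag α K (FreeGroup.of i) : Ser α K) - 1) [i] := by
  have h : (mag α K (FreeGroup.of i) : Ser α K) - 1 = mon [i] := by
    unfold mag
    rw [FreeGroup.lift_apply_of]
    show (1 + mon [i] : Ser α K) - 1 = mon [i]
    rw [add_sub_cancel_left]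
  rw [h]
  constructor
  · simp [mon]
  · intro w hw
    by_cases hw' : w = [i]
    · rw [hw']
      exact le2_refl _
    · exact absurd (by simp [mon, hw']) hw

/-- leading word of a commutator -/
theorem lead_comm {g h : FreeGroup α} {U V : List α}
    (hg : Lead ((mag α K g : Ser α K) - 1) U) (hh : Lead ((mag α K h : Ser α K) - 1) V)
    (hUV : U ++ V < V ++ U) : Lead ((mag α K (g * h * g⁻¹ * h⁻¹) : Ser α K) - 1) (U ++ V) := by
  set a : Ser α K := (mag α K g : Ser α K) with ha
  set b : Ser α K := (mag α K h : Ser α K) with hb
  have hD : Lead ((a - 1) * (b - 1) - (b - 1) * (a - 1)) (U ++ V) := by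
    have h1 := lead_mul hg hh
    have h2 := lead_mul hh hg
    constructor
    · rw [Ser.sub_apply]
      have h3 : ((b - 1) * (a - 1)) (U ++ V) = 0 := by
        by_contra hne
        rcases h2.2 _ hne with h | ⟨-, h⟩
        · simp only [List.length_append] at h
          omega
        · exact absurd hUV (not_lt.2 h)
      rw [h3, sub_zero]
      exact h1.1
    · intro w hw
      rw [Ser.sub_apply] at hw
      by_cases h3 : ((a - 1) * (b - 1)) w = 0
      · rw [h3, zero_sub] at hw
        have h4 := h2.2 w (fun h => hw (by rw [h, neg_zero]))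
        exact le2_trans (Or.inr ⟨by simp only [List.length_append]; omega, hUV.le⟩) h4
      · exact h1.2 w h3
  have hkey : (mag α K (g * h * g⁻¹ * h⁻¹) : Ser α K) - 1 =
      ((a - 1) * (b - 1) - (b - 1) * (a - 1)) * (mag α K (g⁻¹ * h⁻¹) : Ser α K) := by
    have h1 : (mag α K (g * h * g⁻¹ * h⁻¹) : Ser α K) = a * b * (mag α K (g⁻¹ * h⁻¹) : Ser α K) := by
      rw [mul_assoc (g * h), map_mul, Units.val_mul, map_mul, Units.val_mul]
    have h2 : b * a * (mag α K (g⁻¹ * h⁻¹) : Ser α K) = 1 := by
      rw [hb, ha, ← Units.val_mul, ← map_mul, ← Units.val_mul, ← map_mul]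
      have : h * g * (g⁻¹ * h⁻¹) = 1 := by group
      rw [this, map_one, Units.val_one]
    have h3 : (a - 1) * (b - 1) - (b - 1) * (a - 1) = a * b - b * a := by noncomm_ring
    rw [h3, sub_mul, h2, h1]
  rw [hkey]
  have := lead_mul hD (lead_of_nil (f := (mag α K (g⁻¹ * h⁻¹) : Ser α K)) (by
    rw [mag_nil]; exact one_ne_zero))
  rwa [List.append_nil] at this

/-- Lyndon words factorize -/
lemma lyn_factor (U : List α) (hU : Lyn U) (hlen : 2 ≤ U.length) :
    ∃ V W, V ≠ [] ∧ W ≠ [] ∧ U = V ++ W ∧ Lyn V ∧ Lyn W := by
  -- the smallest proper suffix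
  have hex : ∃ i, 1 ≤ i ∧ i < U.length ∧ ∀ j, 1 ≤ j → j < U.length → U.drop i ≤ U.drop j := by
    have hne : (Finset.Ico 1 U.length).Nonempty := ⟨1, by rw [Finset.mem_Ico]; omega⟩
    obtain ⟨i, hi, hmin⟩ := Finset.exists_min_image _ (fun i => U.drop i) hne
    rw [Finset.mem_Ico] at hi
    exact ⟨i, hi.1, hi.2, fun j h1 h2 => hmin j (by rw [Finset.mem_Ico]; omega)⟩
  obtain ⟨i, hi1, hi2, hmin⟩ := hex
  have hV : U.take i ≠ [] := by
    intro h
    have := congrArg List.length h
    rw [List.length_take, List.length_nil] at this
    omega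
  have hW : U.drop i ≠ [] := by
    intro h
    have := congrArg List.length h
    rw [List.length_drop, List.length_nil] at this
    omega
  -- a suffix of `U` as a drop
  have hsuf : ∀ q s : List α, q ≠ [] → s ≠ [] → U = q ++ s → U.drop i ≤ s := by
    intro q s hq hs hqs
    have h1 : s = U.drop q.length := by rw [hqs]; simp
    have h2 : 1 ≤ q.length := List.length_pos_iff.2 hq
    have h3 : q.length < U.length := by
      rw [hqs, List.length_append]
      have := List.length_pos_iff.2 hs
      omega
    rw [h1]
    exact hmin _ h2 h3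
  refine ⟨U.take i, U.drop i, hV, hW, (List.take_append_drop i U).symm, ⟨hV, ?_⟩, ⟨hW, ?_⟩⟩
  · intro q s hq hs hqs
    -- compare with `s ++ W`
    have h1 : U = q ++ (s ++ U.drop i) := by
      rw [← List.append_assoc, ← hqs, List.take_append_drop]
    have h2 : U < s ++ U.drop i := hU.2 q _ hq (by simp [hs]) h1
    rw [← not_le]
    intro hle
    have hlen' : s.length < (U.take i).length := by
      rw [hqs, List.length_append]
      have := List.length_pos_iff.2 hq
      omega
    -- split `take i U` at the length of `s`
    set v := (U.take i).drop s.length with hv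
    have h3 : U.take i = (U.take i).take s.length ++ v := (List.take_append_drop _ _).symm
    have h4 : ((U.take i).take s.length).length = s.length := by
      rw [List.length_take]
      omega
    by_cases h5 : (U.take i).take s.length = s
    · -- `s` is a prefix
      rw [h5] at h3
      have hvne : v ≠ [] := by
        intro h
        have := congrArg List.length h3
        rw [h, List.append_nil] at this
        omega
      have h6 : U = s ++ (v ++ U.drop i) := by
        rw [← List.append_assoc, ← h3, List.take_append_drop]
      have h7 : U.drop i ≤ v ++ U.drop i := hsuf s _ hs (by simp [hvne]) h6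
      have h8 : s ++ U.drop i ≤ s ++ (v ++ U.drop i) := (app_le_app_left _ _ _).2 h7
      rw [← h6] at h8
      exact absurd h2 (not_lt.2 h8)
    · -- a difference inside
      have h6 : s < (U.take i).take s.length := by
        rcases lt_trichotomy s ((U.take i).take s.length) with h | h | h
        · exact h
        · exact absurd h.symm h5
        · have h7 := app_lt_app_of_lt h4 h v []
          rw [← h3, List.append_nil] at h7
          exact absurd h7 (not_lt.2 hle)
      have h7 := app_lt_app_of_lt h4.symm h6 (U.drop i) (v ++ U.drop i)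
      rw [← List.append_assoc, ← h3, List.take_append_drop] at h7
      exact absurd h2 (not_lt.2 h7.le)
  · intro q s hq hs hqs
    have h1 : U = (U.take i ++ q) ++ s := by
      rw [List.append_assoc, ← hqs, List.take_append_drop]
    have h2 := hsuf (U.take i ++ q) s (by simp [hq]) hs h1
    rcases h2.lt_or_eq with h | h
    · exact h
    · exfalso
      have := congrArg List.length hqs
      rw [List.length_append, h] at this
      have := List.length_pos_iff.2 hq
      omega

/-- ROW Lyn -/
theorem exists_lyn (U : List α) (hU : Lyn U) :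
    ∃ g : FreeGroup α, Lead ((mag α K g : Ser α K) - 1) U := by
  obtain ⟨n, hn⟩ : ∃ n, U.length ≤ n := ⟨_, le_rfl⟩
  induction n generalizing U with
  | zero =>
    exfalso
    apply hU.1
    exact List.length_eq_zero_iff.1 (by omega)
  | succ n ih =>
    by_cases h2 : 2 ≤ U.length
    · obtain ⟨V, W, hV, hW, rfl, hLV, hLW⟩ := lyn_factor U hU h2
      have hVl := List.length_pos_iff.2 hV
      have hWl := List.length_pos_iff.2 hW
      rw [List.length_append] at hn
      obtain ⟨g, hg⟩ := ih V hLV (by omega)
      obtain ⟨h, hh⟩ := ih W hLW (by omega)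
      refine ⟨g * h * g⁻¹ * h⁻¹, lead_comm hg hh ?_⟩
      have h3 : V ++ W < W := hU.2 V W hV hW rfl
      have h4 : W ≤ W ++ V := by
        conv_lhs => rw [← List.append_nil W]
        rw [app_le_app_left]
        exact not_lt.1 (List.not_lt_nil V)
      exact h3.trans_le h4
    · obtain ⟨a, rfl⟩ : ∃ a, U = [a] := by
        have h1 := List.length_pos_iff.2 hU.1
        exact List.length_eq_one_iff.1 (by omega)
      exact ⟨FreeGroup.of a, lead_of a⟩

end lead

end Pool.MW
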