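import Pool.Agent.Helper17.MW.Deg
import Pool.Agent.Helper17.MW.Lead
import Pool.Agent.Helper96.GS.Growth

/-!
# Rows MU1 - MU4: the Magnus map of the group algebra
-/

set_option autoImplicit false
set_option linter.unusedSectionVars false

namespace Pool.MW

open Ser Pool.H96.GS

/-- the two sided ideal of the series generated by the `r - 1` -/
def rid (K : Type) [Field K] {α : Type} [DecidableEq α] (R : Set (FreeGroup α)) :
    Submodule K (Ser α K) :=
  Submodule.span K {x | ∃ a b : Ser α K, ∃ r ∈ R, x = a * ((mag α K r : Ser α K) - 1) * b}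

/-- the Magnus map of the group algebra -/
noncomputable def mu (K : Type) [Field K] (α : Type) [DecidableEq α] :
    MonoidAlgebra K (FreeGroup α) →ₗ[K] Ser α K :=
  letI := algSer α K
  (MonoidAlgebra.lift K (Ser α K) (FreeGroup α) ((Units.coeHom _).comp (mag α K))).toLinearMap

/-- ROW MU1 -/
theorem mu_of (K : Type) [Field K] {α : Type} [DecidableEq α] (g : FreeGroup α) :
    mu K α (MonoidAlgebra.of K (FreeGroup α) g) = (mag α K g : Ser α K) := by
  letI := algSer α K
  show (MonoidAlgebra.lift K (Ser α K) (FreeGroup α)
    ((Units.coeHom _).comp (mag α K))) (MonoidAlgebra.of _ _ g) = _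
  rw [MonoidAlgebra.lift_of]
  rfl

/-- ROW MU2 -/
theorem mu_mul (K : Type) [Field K] {α : Type} [DecidableEq α]
    (a b : MonoidAlgebra K (FreeGroup α)) : mu K α (a * b) = mu K α a * mu K α b := by
  letI := algSer α K
  exact map_mul (MonoidAlgebra.lift K (Ser α K) (FreeGroup α)
    ((Units.coeHom _).comp (mag α K))) a b

theorem mu_one (K : Type) [Field K] {α : Type} [DecidableEq α] : mu K α 1 = 1 := by
  letI := algSer α K
  exact map_one (MonoidAlgebra.lift K (Ser α K) (FreeGroup α)
    ((Units.coeHom _).comp (mag α K)))

namespace MuP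

variable {K : Type} [Field K] {α : Type} [DecidableEq α]

lemma mag_nil' (g : FreeGroup α) : (mag α K g : Ser α K) [] = 1 := by
  induction g using FreeGroup.induction_on with
  | C1 => rw [map_one]; rfl
  | of i =>
    unfold mag
    rw [FreeGroup.lift_apply_of]
    show (1 + mon [i] : Ser α K) [] = 1
    rw [Ser.add_apply, one_nil]
    simp [mon]
  | inv_of i _ =>
    unfold mag
    rw [map_inv, FreeGroup.lift_apply_of]
    show (geo i : Ser α K) [] = 1
    exact geo_nil i
  | mul a b ha hb =>
    rw [map_mul, Units.val_mul, mul_nil, ha, hb, one_mul]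

/-- the word `w` in the `x_i - 1` -/
noncomputable def xw (K : Type) [Field K] {α : Type} (w : List α) :
    MonoidAlgebra K (FreeGroup α) :=
  (w.map fun i => MonoidAlgebra.of K (FreeGroup α) (FreeGroup.of i) - 1).prod

lemma xw_nil : xw K ([] : List α) = 1 := rfl

lemma xw_append (u v : List α) : xw K (u ++ v) = xw K u * xw K v := by
  unfold xw; rw [List.map_append, List.prod_append]

lemma xw_single (i : α) : xw K [i] = MonoidAlgebra.of K (FreeGroup α) (FreeGroup.of i) - 1 := by
  unfold xw; rw [List.map_singleton, List.prod_singleton]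

lemma mu_xw (w : List α) : mu K α (xw K w) = mon w := by
  induction w with
  | nil => rw [xw_nil, mu_one, mon_nil]
  | cons a w ih =>
    have h1 : a :: w = [a] ++ w := rfl
    rw [h1, xw_append, mu_mul, ih, mon_append, xw_single, map_sub, mu_one, mu_of]
    congr 1
    unfold mag
    rw [FreeGroup.lift_apply_of]
    show (1 + mon [a] : Ser α K) - 1 = mon [a]
    rw [add_sub_cancel_left]

lemma mu_fil (n : ℕ) (a : MonoidAlgebra K (FreeGroup α)) (ha : a ∈ Fil K α n) :
    mu K α a ∈ lowS α K n := by
  induction n generalizing a with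
  | zero => intro w hw; omega
  | succ n ih =>
    have h2 : a ∈ Fil K α n * Mi K α := ha
    induction h2 using Submodule.mul_induction_on' with
    | mem_mul_mem m hm x hx =>
      rw [mu_mul]
      refine lowS_mul (ih m hm) ?_
      clear ha
      unfold Mi at hx
      induction hx using Submodule.span_induction with
      | mem x hx =>
        obtain ⟨g, rfl⟩ := hx
        intro w hw
        have : w = [] := List.length_eq_zero_iff.1 (by omega)
        subst this
        show mu K α (MonoidAlgebra.of K (FreeGroup α) g - 1) [] = 0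
        rw [map_sub, mu_one, mu_of, Ser.sub_apply, mag_nil', Ser.one_nil, sub_self]
      | zero => rw [map_zero]; exact Submodule.zero_mem _
      | add x y _ _ hx hy => rw [map_add]; exact Submodule.add_mem _ hx hy
      | smul c x _ hx => rw [map_smul]; exact Submodule.smul_mem _ c hx
    | add x hx y hy h1 h2 =>
      rw [map_add]; exact Submodule.add_mem _ (h1 hx) (h2 hy)

variable [Fintype α]

/-- the words of length less than `N` -/
noncomputable def wd (α : Type) [Fintype α] (N : ℕ) : Finset (List α) :=
  (List.finite_length_lt α N).toFinset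

lemma mem_wd {N : ℕ} {w : List α} : w ∈ wd α N ↔ w.length < N := by
  unfold wd; rw [Set.Finite.mem_toFinset]; rfl

/-- evaluation of series at a word -/
def evw (w : List α) : Ser α K →+ K where
  toFun f := f w
  map_zero' := rfl
  map_add' _ _ := rfl

lemma sum_apply {β : Type*} (s : Finset β) (f : β → Ser α K) (w : List α) :
    (∑ i ∈ s, f i) w = ∑ i ∈ s, f i w :=
  map_sum (evw (K := K) w) f s

lemma span_xw (N : ℕ) (a : MonoidAlgebra K (FreeGroup α)) :
    a ∈ Submodule.span K (xw K '' {w : List α | w.length < N}) ⊔ Fil K α N := by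
  induction N generalizing a with
  | zero => exact Submodule.mem_sup_right Submodule.mem_top
  | succ N ih =>
    rw [fundamental a]
    refine Submodule.add_mem _ ?_ (Submodule.sum_mem _ fun x _ => ?_)
    · refine Submodule.mem_sup_left ?_
      rw [Algebra.algebraMap_eq_smul_one]
      refine Submodule.smul_mem _ _ (Submodule.subset_span ⟨[], ?_, xw_nil⟩)
      show ([] : List α).length < N + 1
      simp
    · obtain ⟨y, hy, z, hz, hyz⟩ := Submodule.mem_sup.1 (ih (D x a))
      rw [← hyz, add_mul]
      refine Submodule.add_mem _ (Submodule.mem_sup_left ?_) (Submodule.mem_sup_right ?_)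
      · clear hyz
        induction hy using Submodule.span_induction with
        | mem y hy =>
          obtain ⟨w, hw, rfl⟩ := hy
          refine Submodule.subset_span ⟨w ++ [x], ?_, ?_⟩
          · show (w ++ [x]).length < N + 1
            have hw' : w.length < N := hw
            rw [List.length_append, List.length_singleton]
            omega
          · rw [xw_append, xw_single]; rfl
        | zero => rw [zero_mul]; exact Submodule.zero_mem _
        | add y z _ _ hy hz => rw [add_mul]; exact Submodule.add_mem _ hy hz
        | smul c y _ hy => rw [smul_mul_assoc]; exact Submodule.smul_mem _ c hy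
      · exact Submodule.mul_mem_mul hz (Submodule.subset_span ⟨FreeGroup.of x, rfl⟩)

lemma span_eq (N : ℕ) (b : MonoidAlgebra K (FreeGroup α))
    (hb : b ∈ Submodule.span K (xw K '' {w : List α | w.length < N})) :
    b = ∑ w ∈ wd α N, (mu K α b) w • xw K w := by
  induction hb using Submodule.span_induction with
  | mem y hy =>
    obtain ⟨v, hv, rfl⟩ := hy
    rw [mu_xw, Finset.sum_eq_single v]
    · simp [mon]
    · intro w _ hw
      simp [mon, hw]
    · intro h
      exact absurd (mem_wd.2 hv) h
  | zero => simp
  | add y z _ _ hy hz =>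
    rw [map_add]
    simp only [Ser.add_apply, add_smul]
    rw [Finset.sum_add_distrib, ← hy, ← hz]
  | smul c y _ hy =>
    rw [map_smul]
    simp only [Ser.smul_apply, mul_smul]
    rw [← Finset.smul_sum, ← hy]

end MuP

/-- ROW MU3: elements of the `n`-th power of the augmentation ideal are recognized by their
coefficients (only this direction) -/
theorem mem_fil_of_low (K : Type) [Field K] {α : Type} [Fintype α] [DecidableEq α] (n : ℕ)
    (a : MonoidAlgebra K (FreeGroup α)) (h : ∀ w : List α, w.length < n → mu K α a w = 0) :
    a ∈ Fil K α n := by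
  obtain ⟨b, hb, f, hf, hbf⟩ := Submodule.mem_sup.1 (MuP.span_xw n a)
  have h1 : mu K α b ∈ lowS α K n := by
    have h2 : b = a - f := by rw [← hbf]; abel
    rw [h2, map_sub]
    exact Submodule.sub_mem _ h (MuP.mu_fil n f hf)
  have h3 : b = 0 := by
    rw [MuP.span_eq n b hb]
    refine Finset.sum_eq_zero fun w hw => ?_
    rw [h1 w (MuP.mem_wd.1 hw), zero_smul]
  rw [← hbf, h3, zero_add]
  exact hf

/-- ROW MU4: approximation of series -/
theorem exists_mu (K : Type) [Field K] {α : Type} [Fintype α] [DecidableEq α] (n : ℕ)
    (f : Ser α K) : ∃ a, ∀ w : List α, w.length < n → mu K α a w = f w := by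
  refine ⟨∑ w ∈ MuP.wd α n, f w • MuP.xw K w, fun v hv => ?_⟩
  rw [map_sum, MuP.sum_apply, Finset.sum_eq_single v]
  · rw [map_smul, MuP.mu_xw, Ser.smul_apply]
    simp [mon]
  · intro w _ hw
    rw [map_smul, MuP.mu_xw, Ser.smul_apply]
    have : (mon w : Ser α K) v = 0 := by simp [mon, Ne.symm hw]
    rw [this, mul_zero]
  · intro h
    exact absurd (MuP.mem_wd.2 hv) h

end Pool.MW
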