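import Pool.Agent.Helper17.MW.Defs

/-!
# Return words of the smallest factor are Lyndon words (row Ret)
-/

set_option autoImplicit false

namespace Pool.MW

namespace RetAux

variable {α : Type}

/-! ### words -/

theorem exists_infix_length {c W : List α} (h : c <:+: W) (N : ℕ) (h1 : c.length ≤ N)
    (h2 : N ≤ W.length) : ∃ e, e.length = N ∧ c <:+: e ∧ e <:+: W := by
  obtain ⟨k, hk⟩ : ∃ k, N = c.length + k := ⟨N - c.length, by omega⟩
  induction k generalizing c with
  | zero => exact ⟨c, by omega, List.infix_refl c, h⟩
  | succ k ih =>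
    obtain ⟨x, y, hxy⟩ := h
    have hl := congrArg List.length hxy
    simp only [List.length_append] at hl
    cases y with
    | cons a y =>
      obtain ⟨e, he, h3, h4⟩ := ih (c := c ++ [a]) ⟨x, y, by rw [← hxy]; simp⟩
        (by simp only [List.length_append, List.length_singleton]; omega)
        (by simp only [List.length_append, List.length_singleton]; omega)
      exact ⟨e, he, (List.prefix_append c [a]).isInfix.trans h3, h4⟩
    | nil =>
      rcases List.eq_nil_or_concat x with rfl | ⟨x', a, rfl⟩
      · simp only [List.length_nil] at hl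
        omega
      · obtain ⟨e, he, h3, h4⟩ := ih (c := a :: c) ⟨x', [], by rw [← hxy]; simp⟩
          (by simp only [List.length_cons]; omega)
          (by simp only [List.length_cons]; omega)
        exact ⟨e, he, (List.suffix_cons a c).isInfix.trans h3, h4⟩

theorem bw_append (A B : List α) (l l' : List Bool) : bw A B (l ++ l') = bw A B l ++ bw A B l' := by
  simp [bw, List.flatMap_append]

theorem bw_singleton (A B : List α) (b : Bool) : bw A B [b] = bif b then A else B := by
  simp [bw]

theorem length_bw (A B : List α) (h : A.length = B.length) (l : List Bool) :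
    (bw A B l).length = l.length * A.length := by
  induction l with
  | nil => simp [bw]
  | cons b l ih =>
    rw [show b :: l = [b] ++ l from rfl, bw_append, bw_singleton, List.length_append, ih]
    cases b
    · simp only [cond_false, List.length_append, List.length_singleton, ← h]
      ring
    · simp only [cond_true, List.length_append, List.length_singleton]
      ring

theorem bw_mem (A B : List α) (l : List Bool) (a : α) (h : a ∈ bw A B l) : a ∈ A ∨ a ∈ B := by
  unfold bw at h
  obtain ⟨b, -, hb⟩ := List.mem_flatMap.1 h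
  cases b
  · exact Or.inr hb
  · exact Or.inl hb

variable [LinearOrder α]

theorem lt_append_of_lt {x y : List α} (h : x < y) (hl : x.length = y.length) (a b : List α) :
    x ++ a < y ++ b := by
  induction x generalizing y with
  | nil =>
    cases y with
    | nil => exact absurd h (lt_irrefl _)
    | cons c y => simp at hl
  | cons d x ih =>
    cases y with
    | nil => simp at hl
    | cons c y =>
      rw [List.cons_lt_cons_iff] at h
      rw [List.cons_append, List.cons_append, List.cons_lt_cons_iff]
      rcases h with h | ⟨h1, h2⟩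
      · exact Or.inl h
      · exact Or.inr ⟨h1, ih h2 (by simpa using hl)⟩

theorem lt_of_not_prefix {s u : List α} (h : s < u) (hp : ¬ s <+: u) (a b : List α) :
    s ++ a < u ++ b := by
  induction s generalizing u with
  | nil => exact absurd (List.nil_prefix) hp
  | cons d s ih =>
    cases u with
    | nil => exact absurd h (List.not_lt_nil _)
    | cons c u =>
      rw [List.cons_lt_cons_iff] at h
      rw [List.cons_append, List.cons_append, List.cons_lt_cons_iff]
      rcases h with h | ⟨h1, h2⟩
      · exact Or.inl h
      · refine Or.inr ⟨h1, ih h2 ?_⟩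
        intro hp'
        apply hp
        subst h1
        exact (List.prefix_cons_inj d).2 hp'

theorem lt_of_append_lt {s x y : List α} (h : s ++ x < s ++ y) : x < y := by
  induction s with
  | nil => exact h
  | cons d s ih =>
    rw [List.cons_append, List.cons_append, List.cons_lt_cons_iff] at h
    rcases h with h | ⟨-, h⟩
    · exact absurd h (lt_irrefl _)
    · exact ih h

theorem le_of_prefix {x y : List α} (h : x <+: y) : x ≤ y := by
  obtain ⟨t, rfl⟩ := h
  refine not_lt.1 fun h => ?_
  have h1 : x ++ t < x ++ [] := by rwa [List.append_nil]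
  exact List.not_lt_nil _ (lt_of_append_lt h1)

/-- two different Lyndon words do not commute -/
theorem lyn_comm_aux {U V : List α} (hU : Lyn U) (hV : Lyn V) (hl : U.length ≤ V.length)
    (h : U ++ V = V ++ U) : U = V := by
  have h1 : U <+: V :=
    List.prefix_of_prefix_length_le (List.prefix_append U V) (h ▸ List.prefix_append V U) hl
  obtain ⟨V', rfl⟩ := h1
  by_cases hV' : V' = []
  · rw [hV', List.append_nil]
  · rw [List.append_assoc, List.append_cancel_left_eq] at h
    have h2 := hV.2 V' U hV' hU.1 h
    exact absurd h2 (not_lt.2 (le_of_prefix (List.prefix_append U V')))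

theorem lyn_comm {U V : List α} (hU : Lyn U) (hV : Lyn V) (h : U ++ V = V ++ U) : U = V := by
  rcases le_total U.length V.length with hl | hl
  · exact lyn_comm_aux hU hV hl h
  · exact (lyn_comm_aux hV hU hl h.symm).symm

/-! ### return words -/

section

variable (E : Set (List α)) (Z : List α)

/-- words `w` such that `w ++ Z` begins with `Z` and all its factors of the length of `Z` are
in `E` -/
def T (w : List α) : Prop :=
  Z <+: w ++ Z ∧ ∀ e : List α, e.length = Z.length → e <:+: w ++ Z → e ∈ E

/-- return words -/
def Rw (w : List α) : Prop :=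
  T E Z w ∧ w ≠ [] ∧ ∀ q s, q ≠ [] → s ≠ [] → w = q ++ s → ¬ Z <+: s ++ Z

variable {E Z}

omit [LinearOrder α] in
theorem T_nil (hZ : Z ∈ E) : T E Z [] := by
  refine ⟨List.prefix_refl _, fun e he h => ?_⟩
  rw [List.nil_append] at h
  rw [h.eq_of_length he]
  exact hZ

omit [LinearOrder α] in
theorem T_append {w w' : List α} (h : T E Z w) (h' : T E Z w') : T E Z (w ++ w') := by
  obtain ⟨r, hr⟩ := h'.1
  constructor
  · rw [List.append_assoc, ← hr, ← List.append_assoc]
    exact h.1.trans (List.prefix_append _ _)
  · intro e he ⟨x, y, hxy⟩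
    rw [List.append_assoc, List.append_assoc w, List.append_eq_append_iff] at hxy
    rcases hxy with ⟨a, ha, hb⟩ | ⟨a, ha, hb⟩
    · -- `w = x ++ a`
      rw [← hr, ← List.append_assoc] at hb
      have h1 : e <+: a ++ Z :=
        List.prefix_of_prefix_length_le (List.prefix_append e y)
          (hb ▸ List.prefix_append (a ++ Z) r)
          (by simp only [List.length_append]; omega)
      apply h.2 e he
      rw [ha, List.append_assoc]
      exact h1.isInfix.trans (List.suffix_append x (a ++ Z)).isInfix
    · apply h'.2 e he
      exact ⟨a, y, by rw [List.append_assoc]; exact hb.symm⟩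

omit [LinearOrder α] in
theorem T_right {q s : List α} (h : T E Z (q ++ s)) (hs : Z <+: s ++ Z) : T E Z s := by
  refine ⟨hs, fun e he hi => h.2 e he (hi.trans ?_)⟩
  rw [List.append_assoc]
  exact (List.suffix_append q (s ++ Z)).isInfix

omit [LinearOrder α] in
theorem T_left {q s : List α} (h : T E Z (q ++ s)) (hs : Z <+: s ++ Z) : T E Z q := by
  have h1 : q ++ Z <+: q ++ s ++ Z := by
    rw [List.append_assoc]
    exact (List.prefix_append_right_inj q).2 hs
  refine ⟨List.prefix_of_prefix_length_le h.1 h1 (by simp), fun e he hi => ?_⟩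
  exact h.2 e he (hi.trans h1.isInfix)

omit [LinearOrder α] in
theorem decomp (w : List α) (h : T E Z w) :
    ∃ ls : List (List α), (∀ u ∈ ls, Rw E Z u) ∧ w = ls.flatten := by
  obtain ⟨n, hn⟩ : ∃ n, w.length = n := ⟨_, rfl⟩
  induction n using Nat.strong_induction_on generalizing w with
  | _ n ih =>
    by_cases h0 : w = []
    · exact ⟨[], by simp, by simpa using h0⟩
    · by_cases hr : Rw E Z w
      · exact ⟨[w], by simpa using hr, by simp⟩
      · have : ∃ q s, q ≠ [] ∧ s ≠ [] ∧ w = q ++ s ∧ Z <+: s ++ Z := by
          by_contra hc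
          push Not at hc
          exact hr ⟨h, h0, hc⟩
        obtain ⟨q, s, hq, hs, rfl, hZ⟩ := this
        rw [List.length_append] at hn
        have hq' := List.length_pos_iff.2 hq
        have hs' := List.length_pos_iff.2 hs
        obtain ⟨l1, h1, h1'⟩ := ih q.length (by omega) q (T_left h hZ) rfl
        obtain ⟨l2, h2, h2'⟩ := ih s.length (by omega) s (T_right h hZ) rfl
        refine ⟨l1 ++ l2, ?_, by rw [List.flatten_append, ← h1', ← h2']⟩
        intro u hu
        rcases List.mem_append.1 hu with hu | hu
        · exact h1 u hu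
        · exact h2 u hu

theorem Rw_lyn (hmin : ∀ e ∈ E, Z ≤ e) {U : List α} (h : Rw E Z U) : Lyn U := by
  refine ⟨h.2.1, ?_⟩
  intro q s hq hs hU
  by_contra hlt
  have hsU : s ≠ U := by
    intro h1
    have := congrArg List.length hU
    rw [List.length_append, h1] at this
    exact hq (List.length_eq_zero_iff.1 (by omega))
  have hsU' : s < U := lt_of_le_of_ne (not_lt.1 hlt) hsU
  -- first letters of `x ++ Z` for a suffix `x` of `U`
  have key : ∀ x : List α, x <:+ U → ∃ P r, P ++ r = x ++ Z ∧ P.length = Z.length ∧ Z ≤ P := by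
    intro x hx
    refine ⟨(x ++ Z).take Z.length, (x ++ Z).drop Z.length, List.take_append_drop _ _, ?_, ?_⟩
    · rw [List.length_take, List.length_append]; omega
    · apply hmin
      apply h.1.2
      · rw [List.length_take, List.length_append]; omega
      · obtain ⟨y, rfl⟩ := hx
        rw [List.append_assoc]
        exact (List.take_prefix _ _).isInfix.trans (List.suffix_append y (x ++ Z)).isInfix
  obtain ⟨P, r, hP, hPl, hZP⟩ := key s ⟨q, hU.symm⟩
  have hne : Z ≠ P := by
    intro h1
    have h5 : P <+: s ++ Z := ⟨r, hP⟩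
    rw [← h1] at h5
    exact h.2.2 q s hq hs hU h5
  have hlt' : Z < P := lt_of_le_of_ne hZP hne
  obtain ⟨r', hr'⟩ := h.1.1
  have h1 : U ++ Z < s ++ Z := by
    rw [← hr', ← hP]
    exact lt_append_of_lt hlt' hPl.symm _ _
  by_cases hp : s <+: U
  · obtain ⟨U', hU'⟩ := hp
    have h2 : U' ++ Z < Z := by
      rw [← hU', List.append_assoc] at h1
      exact lt_of_append_lt h1
    obtain ⟨Q, t, hQ, hQl, hZQ⟩ := key U' ⟨s, hU'⟩
    rcases eq_or_lt_of_le hZQ with h3 | h3
    · have h5 : Q <+: U' ++ Z := ⟨t, hQ⟩
      rw [← h3] at h5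
      exact absurd h2 (not_lt.2 (le_of_prefix h5))
    · have h4 : Z ++ [] < Q ++ t := lt_append_of_lt h3 hQl.symm _ _
      rw [List.append_nil, hQ] at h4
      exact absurd h2 (not_lt.2 h4.le)
  · exact absurd h1 (not_lt.2 (lt_of_not_prefix hsU' hp Z Z).le)

omit [LinearOrder α] in
theorem bw_T (hZ : Z ∈ E) {U V : List α} (hU : T E Z U) (hV : T E Z V) (l : List Bool) :
    T E Z (bw U V l) := by
  induction l with
  | nil => exact T_nil hZ
  | cons b l ih =>
    rw [show b :: l = [b] ++ l from rfl, bw_append, bw_singleton]
    apply T_append _ ih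
    cases b
    · exact hV
    · exact hU

omit [LinearOrder α] in
/-- if all return words are equal then words of `T` of the same length are equal -/
theorem eq_of_unique (hu : ∀ U V, Rw E Z U → Rw E Z V → U = V) {w w' : List α} (h : T E Z w)
    (h' : T E Z w') (hl : w.length = w'.length) : w = w' := by
  obtain ⟨ls, h1, h2⟩ := decomp w h
  obtain ⟨ls', h1', h2'⟩ := decomp w' h'
  by_cases hne : ls = []
  · subst hne
    rw [List.flatten_nil] at h2
    subst h2
    exact (List.length_eq_zero_iff.1 (by rw [← hl]; rfl)).symm
  · obtain ⟨U, hU⟩ := List.exists_mem_of_ne_nil ls hne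
    have e1 : ls = List.replicate ls.length U :=
      List.eq_replicate_iff.2 ⟨rfl, fun b hb => hu b U (h1 b hb) (h1 U hU)⟩
    have e2 : ls' = List.replicate ls'.length U :=
      List.eq_replicate_iff.2 ⟨rfl, fun b hb => hu b U (h1' b hb) (h1 U hU)⟩
    have hUl : 0 < U.length := List.length_pos_iff.2 (h1 U hU).2.1
    have l1 : w.length = ls.length * U.length := by
      rw [h2, e1]; simp
    have l2 : w'.length = ls'.length * U.length := by
      rw [h2', e2]; simp
    have l3 : ls.length = ls'.length := by
      rw [l1, l2] at hl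
      exact Nat.eq_of_mul_eq_mul_right hUl hl
    rw [h2, h2', e1, e2, l3]

end

end RetAux

open RetAux

/-- ROW Ret -/
theorem ret {α : Type} [LinearOrder α] (C : Set (List α)) (hfin : C.Finite) (_ : [] ∉ C)
    (A B : List α) (hAB : A ≠ B) (hlen : A.length = B.length) (hav : ∀ l, Av C (bw A B l)) :
    ∃ U V : List α, Lyn U ∧ Lyn V ∧ U ++ V < V ++ U ∧ ∀ l, Av C (bw U V l) := by
  classical
  have hA : 0 < A.length := by
    rcases Nat.eq_zero_or_pos A.length with h | h
    · have h1 := List.length_eq_zero_iff.1 h
      have h2 := List.length_eq_zero_iff.1 (hlen ▸ h)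
      exact absurd (h1.trans h2.symm) hAB
    · exact h
  -- the length `N`
  obtain ⟨M, hM⟩ := (hfin.image List.length).bddAbove
  have hM' : ∀ c ∈ C, c.length ≤ M + 1 := fun c hc =>
    (hM (Set.mem_image_of_mem List.length hc)).trans (Nat.le_succ M)
  set N := M + 1 with hN
  let E : Set (List α) := {e | e.length = N ∧ ∃ l, e <:+: bw A B l}
  have hEfin : E.Finite := by
    let S : Set α := {a | a ∈ A ∨ a ∈ B}
    have hS : S.Finite :=
      ((A ++ B).toFinset.finite_toSet).subset (fun a ha => by
        simp only [List.coe_toFinset, Set.mem_ofPred_eq, List.mem_append]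
        exact ha)
    have : Finite S := hS.to_subtype
    refine ((List.finite_length_eq S N).image (List.map Subtype.val)).subset ?_
    rintro e ⟨he, l, hl⟩
    have hmem : ∀ a ∈ e, a ∈ S := fun a ha => bw_mem A B l a (hl.subset ha)
    refine ⟨e.attachWith (· ∈ S) hmem, ?_, List.attachWith_map_subtype_val hmem⟩
    simpa using he
  have hEne : E.Nonempty := by
    obtain ⟨e, he, -, h2⟩ := exists_infix_length (c := ([] : List α))
      (W := bw A B (List.replicate N true)) (List.nil_infix) N (Nat.zero_le _)
      (by rw [length_bw A B hlen, List.length_replicate]; exact Nat.le_mul_of_pos_right N hA)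
    exact ⟨e, he, _, h2⟩
  obtain ⟨Z, hZ, hmin⟩ := Set.exists_min_image E id hEfin hEne
  have hZl : Z.length = N := hZ.1
  obtain ⟨-, l0, x, y, hxy⟩ := hZ.imp id id
  -- two words of `T`
  have hw : ∀ b : Bool, T E Z (Z ++ y ++ (bif b then A else B) ++ x) := by
    intro b
    refine ⟨by simp only [List.append_assoc]; exact List.prefix_append _ _, ?_⟩
    intro e he hi
    refine ⟨by rw [he, hZl], l0 ++ [b] ++ l0, hi.trans ?_⟩
    rw [bw_append, bw_append, bw_singleton, ← hxy]
    exact ⟨x, y, by simp only [List.append_assoc]⟩
  have hex : ∃ U V, Rw E Z U ∧ Rw E Z V ∧ U ≠ V := by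
    by_contra hc
    push Not at hc
    have h1 := eq_of_unique hc (hw true) (hw false) (by
      simp only [List.length_append, cond_true, cond_false, hlen])
    simp only [cond_true, cond_false, List.append_assoc, List.append_cancel_left_eq,
      List.append_cancel_right_eq] at h1
    exact hAB h1
  have hfinal : ∀ U V, Rw E Z U → Rw E Z V → ∀ l, Av C (bw U V l) := by
    intro U V hU hV l c hc hi
    have h1 := bw_T hZ hU.1 hV.1 l
    obtain ⟨e, he, h2, h3⟩ := exists_infix_length (hi.trans
      (List.prefix_append (bw U V l) Z).isInfix) N (hM' c hc)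
      (by rw [List.length_append, hZl]; omega)
    obtain ⟨-, l', h4⟩ := h1.2 e (by rw [he, hZl]) h3
    exact hav l' c hc (h2.trans h4)
  obtain ⟨U, V, hU, hV, hne⟩ := hex
  have hUL := Rw_lyn hmin hU
  have hVL := Rw_lyn hmin hV
  rcases lt_trichotomy (U ++ V) (V ++ U) with h | h | h
  · exact ⟨U, V, hUL, hVL, h, hfinal U V hU hV⟩
  · exact absurd (lyn_comm hUL hVL h) hne
  · exact ⟨V, U, hVL, hUL, h, hfinal V U hV hU⟩

end Pool.MW
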