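import Mathlib

/-!
# Noncommutative power series (functions on words) and the Magnus expansion
-/

set_option autoImplicit false
set_option linter.unusedSectionVars false

namespace Pool.MW

/-- noncommutative power series over `K` in the letters `α`: functions on words -/
def Ser (α K : Type) : Type := List α → K

namespace Ser

variable {α K : Type}

section ring

variable [Ring K]

instance : AddCommGroup (Ser α K) := inferInstanceAs (AddCommGroup (List α → K))

instance : Module K (Ser α K) := inferInstanceAs (Module K (List α → K))

/-- the product of two series -/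
def mulS : (List α → K) → (List α → K) → List α → K
  | f, g, [] => f [] * g []
  | f, g, a :: w => f [] * g (a :: w) + mulS (fun u => f (a :: u)) g w

/-- the constant series `1` -/
def oneS : List α → K
  | [] => 1
  | _ :: _ => 0

lemma mulS_add_left (f f' g : List α → K) (w : List α) :
    mulS (fun u => f u + f' u) g w = mulS f g w + mulS f' g w := by
  induction w generalizing f f' with
  | nil => simp [mulS, add_mul]
  | cons a w ih =>
    simp only [mulS]
    rw [ih, add_mul]
    abel

lemma mulS_add_right (f g g' : List α → K) (w : List α) :
    mulS f (fun u => g u + g' u) w = mulS f g w + mulS f g' w := by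
  induction w generalizing f with
  | nil => simp [mulS, mul_add]
  | cons a w ih =>
    simp only [mulS]
    rw [ih, mul_add]
    abel

lemma mulS_zero_left (g : List α → K) (w : List α) : mulS (fun _ => 0) g w = 0 := by
  induction w with
  | nil => simp [mulS]
  | cons a w ih => simp only [mulS]; rw [ih]; simp

lemma mulS_zero_right (f : List α → K) (w : List α) : mulS f (fun _ => 0) w = 0 := by
  induction w generalizing f with
  | nil => simp [mulS]
  | cons a w ih => simp only [mulS]; rw [ih]; simp

lemma mulS_smul_left (c : K) (f g : List α → K) (w : List α) :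
    mulS (fun u => c * f u) g w = c * mulS f g w := by
  induction w generalizing f with
  | nil => simp [mulS, mul_assoc]
  | cons a w ih =>
    simp only [mulS]
    rw [ih, mul_add, mul_assoc]

lemma mulS_one_left (g : List α → K) (w : List α) : mulS oneS g w = g w := by
  cases w with
  | nil => simp [mulS, oneS]
  | cons a w =>
    simp only [mulS, oneS]
    rw [mulS_zero_left]
    simp

lemma mulS_one_right (f : List α → K) (w : List α) : mulS f oneS w = f w := by
  induction w generalizing f with
  | nil => simp [mulS, oneS]
  | cons a w ih =>
    simp only [mulS]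
    rw [ih]
    simp [oneS]

lemma mulS_assoc (f g h : List α → K) (w : List α) :
    mulS (mulS f g) h w = mulS f (mulS g h) w := by
  induction w generalizing f g with
  | nil => simp [mulS, mul_assoc]
  | cons a w ih =>
    have h1 : mulS (fun u => mulS f g (a :: u)) h w =
        f [] * mulS (fun u => g (a :: u)) h w + mulS (mulS (fun u => f (a :: u)) g) h w := by
      have : (fun u => mulS f g (a :: u)) =
          fun u => (fun u => f [] * (fun u => g (a :: u)) u) u + mulS (fun u => f (a :: u)) g u := by
        funext u
        simp only [mulS]
      rw [this, mulS_add_left, mulS_smul_left]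
    show mulS f g [] * h (a :: w) + mulS (fun u => mulS f g (a :: u)) h w = _
    rw [h1, ih]
    show f [] * g [] * h (a :: w) + _ = f [] * (g [] * h (a :: w) + mulS (fun u => g (a :: u)) h w) +
      mulS (fun u => f (a :: u)) (mulS g h) w
    rw [mul_add, mul_assoc]
    abel

instance : Ring (Ser α K) :=
  { (inferInstance : AddCommGroup (Ser α K)) with
    mul := mulS
    one := oneS
    mul_assoc := fun f g h => funext fun w => mulS_assoc f g h w
    one_mul := fun f => funext fun w => mulS_one_left f w
    mul_one := fun f => funext fun w => mulS_one_right f w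
    left_distrib := fun f g h => funext fun w => mulS_add_right f g h w
    right_distrib := fun f g h => funext fun w => mulS_add_left f g h w
    zero_mul := fun f => funext fun w => mulS_zero_left f w
    mul_zero := fun f => funext fun w => mulS_zero_right f w }

@[simp] lemma add_apply (f g : Ser α K) (w : List α) : (f + g) w = f w + g w := rfl
@[simp] lemma sub_apply (f g : Ser α K) (w : List α) : (f - g) w = f w - g w := rfl
@[simp] lemma neg_apply (f : Ser α K) (w : List α) : (-f) w = -f w := rfl
@[simp] lemma zero_apply (w : List α) : (0 : Ser α K) w = 0 := rfl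
@[simp] lemma one_nil : (1 : Ser α K) [] = 1 := rfl
@[simp] lemma one_cons (a : α) (w : List α) : (1 : Ser α K) (a :: w) = 0 := rfl
lemma one_apply (w : List α) : (1 : Ser α K) w = if w = [] then 1 else 0 := by
  cases w <;> simp
lemma smul_apply (c : K) (f : Ser α K) (w : List α) : (c • f) w = c * f w := rfl

lemma mul_nil (f g : Ser α K) : (f * g) [] = f [] * g [] := rfl

/-- the series with `f = f [] + ∑ a, X_a * ∂_a f` -/
def dl (a : α) (f : Ser α K) : Ser α K := fun u => f (a :: u)

lemma dl_apply (a : α) (f : Ser α K) (u : List α) : dl a f u = f (a :: u) := rfl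

lemma mul_cons (f g : Ser α K) (a : α) (w : List α) :
    (f * g) (a :: w) = f [] * g (a :: w) + (dl a f * g) w := rfl

/-- a word of a product is a product of words -/
lemma exists_of_mul_ne_zero (f g : Ser α K) (w : List α) (h : (f * g) w ≠ 0) :
    ∃ u v, w = u ++ v ∧ f u ≠ 0 ∧ g v ≠ 0 := by
  induction w generalizing f with
  | nil =>
    rw [mul_nil] at h
    exact ⟨[], [], rfl, left_ne_zero_of_mul h, right_ne_zero_of_mul h⟩
  | cons a w ih =>
    rw [mul_cons] at h
    by_cases h1 : f [] * g (a :: w) = 0
    · rw [h1, zero_add] at h
      obtain ⟨u, v, huv, hu, hv⟩ := ih _ h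
      exact ⟨a :: u, v, by rw [huv]; rfl, hu, hv⟩
    · exact ⟨[], a :: w, rfl, left_ne_zero_of_mul h1, right_ne_zero_of_mul h1⟩

lemma mul_eq_zero_right (f g : Ser α K) (w : List α)
    (h : ∀ v : List α, v.length ≤ w.length → g v = 0) : (f * g) w = 0 := by
  by_contra hne
  obtain ⟨u, v, huv, -, hv⟩ := exists_of_mul_ne_zero f g w hne
  apply hv
  apply h
  rw [huv, List.length_append]
  omega

/-- the coefficient of the product of the shortest words -/
lemma mul_append (f g : Ser α K) (U V : List α) (hf : ∀ u : List α, u.length < U.length → f u = 0)
    (hg : ∀ v : List α, v.length < V.length → g v = 0) : (f * g) (U ++ V) = f U * g V := by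
  induction U generalizing f with
  | nil =>
    rw [List.nil_append]
    cases V with
    | nil => rfl
    | cons b V =>
      rw [mul_cons, mul_eq_zero_right, add_zero]
      intro v hv
      exact hg v (by simp only [List.length_cons]; omega)
  | cons a U ih =>
    rw [List.cons_append, mul_cons, hf [] (by simp), zero_mul, zero_add]
    exact ih (dl a f) (fun u hu => hf (a :: u) (by simp only [List.length_cons]; omega))

end ring

section units

variable [CommRing K] [DecidableEq α]

/-- the word `u` as a series -/
def mon (u : List α) : Ser α K := fun w => if w = u then 1 else 0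

lemma mon_nil : (mon [] : Ser α K) = 1 := by
  funext w
  rw [one_apply]
  rfl

lemma dl_mon_cons (a b : α) (u : List α) :
    dl a (mon (b :: u) : Ser α K) = if a = b then mon u else 0 := by
  funext w
  by_cases h : a = b
  · simp [dl, mon, h]
  · simp [dl, mon, h]

lemma mon_append (u v : List α) : (mon (u ++ v) : Ser α K) = mon u * mon v := by
  induction u with
  | nil => rw [mon_nil, one_mul, List.nil_append]
  | cons a u ih =>
    funext w
    cases w with
    | nil => simp [mon, mul_nil]
    | cons b w =>
      rw [mul_cons, dl_mon_cons]
      by_cases h : b = a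
      · subst h
        have h1 : (mon (b :: u) : Ser α K) [] = 0 := by simp [mon]
        rw [if_pos rfl, ← ih, h1, zero_mul, zero_add]
        simp [mon]
      · rw [if_neg h]
        simp [mon, h]

/-- the series of the inverse of `1 + X_i` -/
def geo (i : α) : Ser α K := fun w => if ∀ a ∈ w, a = i then (-1) ^ w.length else 0

lemma geo_nil (i : α) : (geo i : Ser α K) [] = 1 := by simp [geo]

lemma dl_geo (i a : α) : dl a (geo i : Ser α K) = if a = i then -geo i else 0 := by
  by_cases h : a = i
  · subst h
    rw [if_pos rfl]
    funext w
    show (geo a : Ser α K) (a :: w) = -(geo a : Ser α K) w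
    unfold geo
    by_cases hw : ∀ b ∈ w, b = a
    · have h1 : ∀ b ∈ a :: w, b = a := by
        intro b hb
        rcases List.mem_cons.1 hb with rfl | hb
        · rfl
        · exact hw b hb
      rw [if_pos h1, if_pos hw, List.length_cons, pow_succ]
      ring
    · have h1 : ¬ ∀ b ∈ a :: w, b = a := fun h => hw fun b hb => h b (List.mem_cons_of_mem _ hb)
      rw [if_neg h1, if_neg hw, neg_zero]
  · rw [if_neg h]
    funext w
    have h1 : ¬ ∀ b ∈ a :: w, b = i := fun hh => h (hh a (by simp))
    show (geo i : Ser α K) (a :: w) = 0
    unfold geo
    rw [if_neg h1]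

lemma dl_add (a : α) (f g : Ser α K) : dl a (f + g) = dl a f + dl a g := rfl

lemma dl_one (a : α) : dl a (1 : Ser α K) = 0 := rfl

lemma add_mul_geo (i : α) : (1 + mon [i] : Ser α K) * geo i = 1 := by
  funext w
  cases w with
  | nil =>
    rw [mul_nil, geo_nil, add_apply]
    simp [mon]
  | cons a w =>
    rw [mul_cons, dl_add, dl_one, zero_add, dl_mon_cons, mon_nil, one_cons, add_apply, one_nil]
    have h1 : (mon [i] : Ser α K) [] = 0 := by simp [mon]
    rw [h1, add_zero, one_mul]
    have h2 := congrFun (dl_geo (K := K) i a) w
    rw [dl_apply] at h2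
    rw [h2]
    by_cases h : a = i
    · rw [if_pos h, if_pos h, one_mul, neg_apply]
      ring
    · rw [if_neg h, if_neg h, zero_mul]
      simp

lemma geo_mul_add (i : α) : (geo i : Ser α K) * (1 + mon [i]) = 1 := by
  funext w
  induction w with
  | nil =>
    rw [mul_nil, geo_nil, add_apply]
    simp [mon]
  | cons a w ih =>
    rw [mul_cons, dl_geo, geo_nil, one_mul, add_apply, one_cons, zero_add]
    by_cases h : a = i
    · rw [if_pos h, neg_mul, neg_apply, ih, one_apply]
      subst h
      by_cases hw : w = []
      · subst hw
        simp [mon]
      · simp [mon, hw]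
    · rw [if_neg h, zero_mul]
      simp [mon, h]

/-- the unit `1 + X_i` -/
def uX (i : α) : (Ser α K)ˣ where
  val := 1 + mon [i]
  inv := geo i
  val_inv := add_mul_geo i
  inv_val := geo_mul_add i

/-- the Magnus expansion: `x_i` goes to `1 + X_i` -/
def mag (α K : Type) [CommRing K] [DecidableEq α] : FreeGroup α →* (Ser α K)ˣ :=
  FreeGroup.lift uX

/-- the coefficient of the word `w` in the Magnus expansion of `g` -/
def cf (K : Type) [CommRing K] (g : FreeGroup α) (w : List α) : K := (mag α K g : Ser α K) w

end units

end Ser

end Pool.MW
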