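import Pool.Agent.Helper17.MW.Deg
import Pool.Agent.Helper96.GS.Growth

/-!
# Growth of the number of normal words, for a finite standard basis
-/

set_option autoImplicit false
set_option linter.unusedSectionVars false

namespace Pool.MW

open Ser
open Pool.H96.GS (ι ε D Fil Mi Id J bdim Fil_mul_Fil Fil_one Fil_anti pow_Mi fundamental ε_ι)

namespace Std

section gen

open Pool.H96.GS Classical in
/-- exponential growth of all truncations (proof of helper96's `gs_growth`) -/
theorem growth_all {k X : Type*} [Field k] [Fintype X] (S : Set (FreeGroup X)) (t : ℝ) (ht : 0 < t)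
    (ht1 : t < 1) (hsum : Summable fun r : S => t ^ sSup (degSet k (r : FreeGroup X)))
    (hlt : 1 - (Fintype.card X : ℝ) * t + ∑' r : S, t ^ sSup (degSet k (r : FreeGroup X)) < 0)
    (N : ℕ) (hN : 1 ≤ N) : t ≤ t ^ N * Pool.H96.GS.bdim k S N := by
  set dg : FreeGroup X → ℕ := fun s => sSup (degSet k s) with hdg
  set f : S → ℝ := fun r => t ^ dg r with hf
  have hfin : {r : S | t ^ N ≤ f r}.Finite := by
    have h1 := hsum.tendsto_cofinite_zero
    have h2 := h1.eventually (gt_mem_nhds (pow_pos ht N))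
    have h3 := Filter.eventually_cofinite.mp h2
    refine h3.subset fun r hr => ?_
    exact not_lt.mpr hr
  set T0 : Finset S := hfin.toFinset.filter fun r : S => BddAbove (degSet k (r : FreeGroup X))
    with hT0
  set T : Finset (FreeGroup X) := T0.map (Function.Embedding.subtype _) with hT
  have hmem : ∀ s ∈ T, s ∈ S ∧ BddAbove (degSet k s) := by
    intro s hs
    rw [hT, Finset.mem_map] at hs
    obtain ⟨r, hr, rfl⟩ := hs
    exact ⟨r.2, (Finset.mem_filter.mp hr).2⟩
  have hin : ∀ s ∈ T, dg s ∈ degSet k s ∧ 1 ≤ dg s := by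
    intro s hs
    have hb := (hmem s hs).2
    exact ⟨Nat.sSup_mem ⟨1, one_mem_degSet s⟩ hb, le_csSup hb (one_mem_degSet s)⟩
  have hm : ∀ s ∈ T, Pool.H96.GS.ι k s - 1 ∈ Pool.H96.GS.Fil k X (dg s) := by
    intro s hs
    have := (hin s hs).1
    rw [← pow_Mi (hin s hs).2]
    exact this
  have hrest : ∀ s ∈ S, s ∉ T → Pool.H96.GS.ι k s - 1 ∈ Pool.H96.GS.Fil k X N := by
    intro s hs hsT
    by_cases hb : BddAbove (degSet k s)
    · have h1 : ¬ (t ^ N ≤ t ^ dg s) := by
        intro hle
        refine hsT ?_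
        rw [hT, Finset.mem_map]
        refine ⟨⟨s, hs⟩, ?_, rfl⟩
        rw [hT0, Finset.mem_filter]
        exact ⟨hfin.mem_toFinset.mpr hle, hb⟩
      have h2 : N ≤ dg s := by
        by_contra hcon
        exact h1 (pow_le_pow_of_le_one ht.le ht1.le (by omega))
      have h3 : dg s ∈ degSet k s := Nat.sSup_mem ⟨1, one_mem_degSet s⟩ hb
      have h4 : Pool.H96.GS.ι k s - 1 ∈ Pool.H96.GS.Fil k X (dg s) := by
        rw [← pow_Mi (hN.trans h2)]
        exact h3
      exact Fil_anti h2 h4
    · rw [not_bddAbove_iff] at hb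
      obtain ⟨n, hn, hlt⟩ := hb N
      have h4 : Pool.H96.GS.ι k s - 1 ∈ Pool.H96.GS.Fil k X n := by
        rw [← pow_Mi (by omega)]
        exact hn
      exact Fil_anti hlt.le h4
  have hH : 1 - (Fintype.card X : ℝ) * t + ∑ s ∈ T, t ^ dg s ≤ 0 := by
    have h1 : ∑ s ∈ T, t ^ dg s = ∑ r ∈ T0, f r := by
      rw [hT, Finset.sum_map]; rfl
    have h2 : ∑ r ∈ T0, f r ≤ ∑' r, f r := hsum.sum_le_tsum _ fun r _ => pow_nonneg ht.le _
    rw [h1]
    have h3 : 1 - (Fintype.card X : ℝ) * t + ∑' r, f r < 0 := hlt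
    linarith
  exact growth ht (Fintype.card X) (Pool.H96.GS.bdim k S) (by
      unfold Pool.H96.GS.bdim
      rw [J_zero]
      exact Module.finrank_zero_of_subsingleton) T dg (fun s hs => (hin s hs).2) N hN
    (fun n hn => key_ineq S n T dg (fun s hs => (hin s hs).2) hm
      (fun s hs hsT => Fil_anti (by omega) (hrest s hs hsT))) hH

end gen

section words

variable {p d : ℕ} [hp : Fact p.Prime]

/-- the Magnus map on the group algebra -/
noncomputable def Th0 (p d : ℕ) [Fact p.Prime] :
    MonoidAlgebra (ZMod p) (FreeGroup (Fin d)) →+* Ser (Fin d) (ZMod p) :=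
  letI := algSer (Fin d) (ZMod p)
  (MonoidAlgebra.lift (ZMod p) (Ser (Fin d) (ZMod p)) (FreeGroup (Fin d))
    ((Units.coeHom _).comp (mag (Fin d) (ZMod p)))).toRingHom

lemma Th0_ι (g : FreeGroup (Fin d)) :
    Th0 p d (ι (ZMod p) g) = (mag (Fin d) (ZMod p) g : Ser (Fin d) (ZMod p)) := by
  letI := algSer (Fin d) (ZMod p)
  show (MonoidAlgebra.lift (ZMod p) (Ser (Fin d) (ZMod p)) (FreeGroup (Fin d))
    ((Units.coeHom _).comp (mag (Fin d) (ZMod p)))) (MonoidAlgebra.of _ _ g) = _
  rw [MonoidAlgebra.lift_of]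
  rfl

lemma Th0_smul (c : ZMod p) (a : MonoidAlgebra (ZMod p) (FreeGroup (Fin d))) :
    Th0 p d (c • a) = c • Th0 p d a := by
  letI := algSer (Fin d) (ZMod p)
  exact map_smul (MonoidAlgebra.lift (ZMod p) (Ser (Fin d) (ZMod p)) (FreeGroup (Fin d))
    ((Units.coeHom _).comp (mag (Fin d) (ZMod p)))) c a

lemma Th0_Fil (n : ℕ) (a : MonoidAlgebra (ZMod p) (FreeGroup (Fin d)))
    (ha : a ∈ Fil (ZMod p) (Fin d) n) : Th0 p d a ∈ lowS (Fin d) (ZMod p) n := by
  cases n with
  | zero => intro w hw; omega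
  | succ n =>
    have h1 : a ∈ Pool.H96.GS.M p d (n + 1) := by
      have h2 := pow_Mi (k := ZMod p) (X := Fin d) (n := n + 1) (by omega)
      rw [← h2] at ha
      exact ha
    exact M_low hp.out (n + 1) a h1

/-- the word `w` in the `x_i - 1` -/
noncomputable def XW (p : ℕ) {d : ℕ} (w : List (Fin d)) :
    MonoidAlgebra (ZMod p) (FreeGroup (Fin d)) :=
  (w.map fun i => MonoidAlgebra.of (ZMod p) (FreeGroup (Fin d)) (FreeGroup.of i) - 1).prod

lemma XW_nil : XW p ([] : List (Fin d)) = 1 := rfl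

lemma XW_append (u v : List (Fin d)) : XW p (u ++ v) = XW p u * XW p v := by
  unfold XW; rw [List.map_append, List.prod_append]

lemma XW_single (i : Fin d) : XW p [i] = ι (ZMod p) (FreeGroup.of i) - 1 := by
  unfold XW; rw [List.map_singleton, List.prod_singleton]; rfl

lemma Th0_XW (w : List (Fin d)) : Th0 p d (XW p w) = mon w := by
  induction w with
  | nil => rw [XW_nil, map_one, mon_nil]
  | cons a w ih =>
    have h1 : a :: w = [a] ++ w := rfl
    rw [h1, XW_append, map_mul, ih, mon_append, XW_single, map_sub, map_one, Th0_ι]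
    congr 1
    unfold mag
    rw [FreeGroup.lift_apply_of]
    show (1 + mon [a] : Ser (Fin d) (ZMod p)) - 1 = mon [a]
    rw [add_sub_cancel_left]

/-- the words of length less than `N` -/
noncomputable def Wd (d N : ℕ) : Finset (List (Fin d)) := (List.finite_length_lt (Fin d) N).toFinset

lemma mem_Wd {N : ℕ} {w : List (Fin d)} : w ∈ Wd d N ↔ w.length < N := by
  unfold Wd; rw [Set.Finite.mem_toFinset]; rfl

/-- evaluation of series at a word -/
def evw (w : List (Fin d)) : Ser (Fin d) (ZMod p) →+ ZMod p where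
  toFun f := f w
  map_zero' := rfl
  map_add' _ _ := rfl

lemma sum_apply_ser {β : Type*} (s : Finset β) (f : β → Ser (Fin d) (ZMod p))
    (w : List (Fin d)) : (∑ i ∈ s, f i) w = ∑ i ∈ s, f i w :=
  map_sum (evw (p := p) w) f s

lemma span_words (N : ℕ) (a : MonoidAlgebra (ZMod p) (FreeGroup (Fin d))) :
    a ∈ Submodule.span (ZMod p) (XW p '' {w : List (Fin d) | w.length < N}) ⊔
      Fil (ZMod p) (Fin d) N := by
  induction N generalizing a with
  | zero => exact Submodule.mem_sup_right Submodule.mem_top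
  | succ N ih =>
    rw [fundamental a]
    refine Submodule.add_mem _ ?_ (Submodule.sum_mem _ fun x _ => ?_)
    · refine Submodule.mem_sup_left ?_
      rw [Algebra.algebraMap_eq_smul_one]
      refine Submodule.smul_mem _ _ (Submodule.subset_span ⟨[], ?_, XW_nil⟩)
      show ([] : List (Fin d)).length < N + 1
      simp
    · obtain ⟨y, hy, z, hz, hyz⟩ := Submodule.mem_sup.1 (ih (D x a))
      rw [← hyz, add_mul]
      refine Submodule.add_mem _ (Submodule.mem_sup_left ?_) (Submodule.mem_sup_right ?_)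
      · clear hyz
        induction hy using Submodule.span_induction with
        | mem y hy =>
          obtain ⟨w, hw, rfl⟩ := hy
          refine Submodule.subset_span ⟨w ++ [x], ?_, ?_⟩
          · show (w ++ [x]).length < N + 1
            have hw' : w.length < N := hw
            rw [List.length_append, List.length_singleton]
            omega
          · rw [XW_append, XW_single]
        | zero => rw [zero_mul]; exact Submodule.zero_mem _
        | add y z _ _ hy hz => rw [add_mul]; exact Submodule.add_mem _ hy hz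
        | smul c y _ hy => rw [smul_mul_assoc]; exact Submodule.smul_mem _ c hy
      · exact Submodule.mul_mem_mul hz (Submodule.subset_span ⟨FreeGroup.of x, rfl⟩)

lemma span_eq (N : ℕ) (b : MonoidAlgebra (ZMod p) (FreeGroup (Fin d)))
    (hb : b ∈ Submodule.span (ZMod p) (XW p '' {w : List (Fin d) | w.length < N})) :
    b = ∑ w ∈ Wd d N, (Th0 p d b) w • XW p w := by
  induction hb using Submodule.span_induction with
  | mem y hy =>
    obtain ⟨v, hv, rfl⟩ := hy
    rw [Th0_XW, Finset.sum_eq_single v]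
    · simp [mon]
    · intro w _ hw
      simp [mon, hw]
    · intro h
      exact absurd (mem_Wd.2 hv) h
  | zero => simp
  | add y z _ _ hy hz =>
    rw [map_add]
    simp only [Ser.add_apply, add_smul]
    rw [Finset.sum_add_distrib, ← hy, ← hz]
  | smul c y _ hy =>
    rw [Th0_smul]
    simp only [Ser.smul_apply, mul_smul]
    rw [← Finset.smul_sum, ← hy]

lemma mem_Fil_of_low (N : ℕ) (a : MonoidAlgebra (ZMod p) (FreeGroup (Fin d)))
    (ha : Th0 p d a ∈ lowS (Fin d) (ZMod p) N) : a ∈ Fil (ZMod p) (Fin d) N := by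
  obtain ⟨b, hb, f, hf, hbf⟩ := Submodule.mem_sup.1 (span_words N a)
  have h1 : Th0 p d b ∈ lowS (Fin d) (ZMod p) N := by
    have h2 : b = a - f := by rw [← hbf]; abel
    rw [h2, map_sub]
    exact Submodule.sub_mem _ ha (Th0_Fil N f hf)
  have h3 : b = 0 := by
    rw [span_eq N b hb]
    refine Finset.sum_eq_zero fun w hw => ?_
    rw [h1 w (mem_Wd.1 hw), zero_smul]
  rw [← hbf, h3, zero_add]
  exact hf

lemma approx (N : ℕ) (g : Ser (Fin d) (ZMod p)) :
    ∃ a : MonoidAlgebra (ZMod p) (FreeGroup (Fin d)),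
      Th0 p d a - g ∈ lowS (Fin d) (ZMod p) N := by
  refine ⟨∑ w ∈ Wd d N, g w • XW p w, fun v hv => ?_⟩
  rw [Ser.sub_apply, map_sum, sum_apply_ser, Finset.sum_eq_single v]
  · rw [Th0_smul, Th0_XW, Ser.smul_apply]
    simp [mon]
  · intro w _ hw
    rw [Th0_smul, Th0_XW, Ser.smul_apply]
    have : (mon w : Ser (Fin d) (ZMod p)) v = 0 := by simp [mon, Ne.symm hw]
    rw [this, mul_zero]
  · intro h
    exact absurd (mem_Wd.2 hv) h

/-- two-sided ideal of the algebra of series generated by the `r - 1` -/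
def SI (p : ℕ) {d : ℕ} (R : Set (FreeGroup (Fin d))) : Submodule (ZMod p) (Ser (Fin d) (ZMod p)) :=
  Submodule.span (ZMod p) {x | ∃ a b : Ser (Fin d) (ZMod p), ∃ r ∈ R,
    x = a * ((mag (Fin d) (ZMod p) r : Ser (Fin d) (ZMod p)) - 1) * b}

lemma low_mul_left {N : ℕ} (f : Ser (Fin d) (ZMod p)) {g : Ser (Fin d) (ZMod p)}
    (hg : g ∈ lowS (Fin d) (ZMod p) N) : f * g ∈ lowS (Fin d) (ZMod p) N := by
  have h0 : f ∈ lowS (Fin d) (ZMod p) 0 := fun w hw => by omega
  have := lowS_mul h0 hg
  rwa [zero_add] at this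

lemma low_mul_right {N : ℕ} {f : Ser (Fin d) (ZMod p)} (g : Ser (Fin d) (ZMod p))
    (hf : f ∈ lowS (Fin d) (ZMod p) N) : f * g ∈ lowS (Fin d) (ZMod p) N := by
  have h0 : g ∈ lowS (Fin d) (ZMod p) 0 := fun w hw => by omega
  exact lowS_mul hf h0

lemma approx_ideal (R : Set (FreeGroup (Fin d))) (N : ℕ) (f : Ser (Fin d) (ZMod p))
    (hf : f ∈ SI p R) : ∃ F ∈ Id (ZMod p) R, Th0 p d F - f ∈ lowS (Fin d) (ZMod p) N := by
  unfold SI at hf
  induction hf using Submodule.span_induction with
  | mem x hx =>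
    obtain ⟨a, b, r, hr, rfl⟩ := hx
    obtain ⟨a', ha'⟩ := approx (p := p) N a
    obtain ⟨b', hb'⟩ := approx (p := p) N b
    refine ⟨a' * (ι (ZMod p) r - 1) * b', Submodule.subset_span ⟨a', r, hr, b', rfl⟩, ?_⟩
    rw [map_mul, map_mul, map_sub, map_one, Th0_ι]
    have key : ∀ x y m : Ser (Fin d) (ZMod p), x * m * y - a * m * b =
        (x - a) * (m * y) + (a * m) * (y - b) := by
      intro x y m
      noncomm_ring
    rw [key]
    exact Submodule.add_mem _ (low_mul_right _ ha') (low_mul_left _ hb')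
  | zero => exact ⟨0, Submodule.zero_mem _, by rw [map_zero, sub_zero]; exact Submodule.zero_mem _⟩
  | add x y _ _ hx hy =>
    obtain ⟨F, hF, h1⟩ := hx
    obtain ⟨G, hG, h2⟩ := hy
    refine ⟨F + G, Submodule.add_mem _ hF hG, ?_⟩
    have h3 : Th0 p d (F + G) - (x + y) = (Th0 p d F - x) + (Th0 p d G - y) := by
      rw [map_add]; abel
    rw [h3]
    exact Submodule.add_mem _ h1 h2
  | smul c x _ hx =>
    obtain ⟨F, hF, h1⟩ := hx
    refine ⟨c • F, Submodule.smul_mem _ _ hF, ?_⟩
    have h3 : Th0 p d (c • F) - c • x = c • (Th0 p d F - x) := by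
      rw [Th0_smul, smul_sub]
    rw [h3]
    exact Submodule.smul_mem _ _ h1

/-- the span of the normal words modulo the ideal -/
noncomputable def WN (p : ℕ) {d : ℕ} [Fact p.Prime] (R : Set (FreeGroup (Fin d)))
    (C : Set (List (Fin d))) (N : ℕ) :
    Submodule (ZMod p) (MonoidAlgebra (ZMod p) (FreeGroup (Fin d))) :=
  J (ZMod p) R N ⊔ Submodule.span (ZMod p) (XW p '' {w : List (Fin d) | w.length < N ∧ Av C w})

lemma lead_mon (u : List (Fin d)) : Lead (mon u : Ser (Fin d) (ZMod p)) u := by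
  constructor
  · simp [mon]
  · intro w hw
    by_cases h : w = u
    · rw [h]; exact le2_refl _
    · exact absurd (if_neg h) hw

open Classical in
lemma reduce (R : Set (FreeGroup (Fin d))) (C : Set (List (Fin d)))
    (hC : ∀ u ∈ C, ∃ f ∈ SI p R, Lead f u) (N : ℕ) (n : ℕ) :
    ∀ w : List (Fin d), w.length < N →
      ((Wd d N).filter (fun v => le2 w v ∧ v ≠ w)).card ≤ n → XW p w ∈ WN p R C N := by
  induction n using Nat.strong_induction_on with
  | _ n ih =>
    intro w hw hcard
    by_cases hav : Av C w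
    · exact Submodule.mem_sup_right (Submodule.subset_span ⟨w, ⟨hw, hav⟩, rfl⟩)
    · unfold Av at hav
      push Not at hav
      obtain ⟨u, hu, a, b, hw'⟩ := hav
      obtain ⟨f, hf, hfu⟩ := hC u hu
      obtain ⟨F, hF, hFf⟩ := approx_ideal R N f hf
      set φ : Ser (Fin d) (ZMod p) := mon a * f * mon b with hφ
      have hlead : Lead φ w := by
        rw [← hw']
        exact lead_mul (lead_mul (lead_mon a) hfu) (lead_mon b)
      have hJ : XW p a * F * XW p b ∈ J (ZMod p) R N := by
        refine Pool.H96.GS.J_mul_mem R N _ (Pool.H96.GS.mul_J_mem R N _ ?_)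
        exact Submodule.mem_sup_left hF
      have hφ2 : Th0 p d (XW p a * F * XW p b) - φ ∈ lowS (Fin d) (ZMod p) N := by
        rw [map_mul, map_mul, Th0_XW, Th0_XW, hφ, ← sub_mul, ← mul_sub]
        exact low_mul_right _ (low_mul_left _ hFf)
      have hbig : ∀ v ∈ Wd d N, v ≠ w → φ v • XW p v ∈ WN p R C N := by
        intro v hv hvw
        by_cases h0 : φ v = 0
        · rw [h0, zero_smul]; exact Submodule.zero_mem _
        · have hle : le2 w v := hlead.2 v h0
          refine Submodule.smul_mem _ _ (ih _ ?_ v (mem_Wd.1 hv) le_rfl)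
          refine lt_of_lt_of_le (Finset.card_lt_card ?_) hcard
          rw [Finset.ssubset_iff_of_subset]
          · exact ⟨v, Finset.mem_filter.2 ⟨hv, hle, hvw⟩, fun h => (Finset.mem_filter.1 h).2.2 rfl⟩
          · intro x hx
            obtain ⟨hx1, hx2, hx3⟩ := Finset.mem_filter.1 hx
            refine Finset.mem_filter.2 ⟨hx1, le2_trans hle hx2, fun h => ?_⟩
            rw [h] at hx2
            exact hvw (le2_antisymm hx2 hle)
      have hFil : XW p a * F * XW p b - ∑ v ∈ Wd d N, φ v • XW p v ∈ Fil (ZMod p) (Fin d) N := by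
        apply mem_Fil_of_low
        intro v hv
        have h1 := hφ2 v hv
        rw [Ser.sub_apply, sub_eq_zero] at h1
        rw [map_sub, Ser.sub_apply, h1, map_sum, sum_apply_ser, Finset.sum_eq_single v]
        · rw [Th0_smul, Th0_XW, Ser.smul_apply]
          simp [mon]
        · intro x _ hx
          rw [Th0_smul, Th0_XW, Ser.smul_apply]
          have : (mon x : Ser (Fin d) (ZMod p)) v = 0 := by simp [mon, Ne.symm hx]
          rw [this, mul_zero]
        · intro h
          exact absurd (mem_Wd.2 hv) h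
      have hsum : φ w • XW p w = (XW p a * F * XW p b)
          - (XW p a * F * XW p b - ∑ v ∈ Wd d N, φ v • XW p v)
          - ∑ v ∈ (Wd d N).erase w, φ v • XW p v := by
        rw [sub_sub_cancel, ← Finset.add_sum_erase _ _ (mem_Wd.2 hw)]
        abel
      have hmem : φ w • XW p w ∈ WN p R C N := by
        rw [hsum]
        refine Submodule.sub_mem _ (Submodule.sub_mem _ (Submodule.mem_sup_left hJ)
          (Submodule.mem_sup_left (Submodule.mem_sup_right hFil))) (Submodule.sum_mem _ ?_)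
        intro v hv
        exact hbig v (Finset.mem_of_mem_erase hv) (Finset.ne_of_mem_erase hv)
      have h1 := Submodule.smul_mem _ (φ w)⁻¹ hmem
      rwa [smul_smul, inv_mul_cancel₀ hlead.1, one_smul] at h1

lemma WN_top (R : Set (FreeGroup (Fin d))) (C : Set (List (Fin d)))
    (hC : ∀ u ∈ C, ∃ f ∈ SI p R, Lead f u) (N : ℕ) : WN p R C N = ⊤ := by
  rw [eq_top_iff]
  intro a _
  obtain ⟨y, hy, z, hz, rfl⟩ := Submodule.mem_sup.1 (span_words N a)
  refine Submodule.add_mem _ ?_ (Submodule.mem_sup_left (Submodule.mem_sup_right hz))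
  refine (Submodule.span_le.2 ?_ : Submodule.span _ _ ≤ WN p R C N) hy
  rintro _ ⟨w, hw, rfl⟩
  exact reduce R C hC N _ w hw le_rfl

lemma bdim_le (R : Set (FreeGroup (Fin d))) (C : Set (List (Fin d)))
    (hC : ∀ u ∈ C, ∃ f ∈ SI p R, Lead f u) (N : ℕ) :
    bdim (ZMod p) R N ≤ ∑ m ∈ Finset.range N, cnt C m := by
  classical
  set Y : Finset (List (Fin d)) := (Wd d N).filter (fun w => Av C w) with hY
  have h1 : bdim (ZMod p) R N ≤ Y.card := by
    unfold bdim
    set Im : Finset (MonoidAlgebra (ZMod p) (FreeGroup (Fin d)) ⧸ J (ZMod p) R N) :=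
      Y.image fun w => (J (ZMod p) R N).mkQ (XW p w) with hIm
    have htop : Submodule.span (ZMod p)
        (Im : Set (MonoidAlgebra (ZMod p) (FreeGroup (Fin d)) ⧸ J (ZMod p) R N)) = ⊤ := by
      rw [eq_top_iff]
      intro q _
      obtain ⟨a, rfl⟩ := (J (ZMod p) R N).mkQ_surjective q
      have ha : a ∈ WN p R C N := by rw [WN_top R C hC N]; exact Submodule.mem_top
      obtain ⟨y, hy, z, hz, rfl⟩ := Submodule.mem_sup.1 ha
      rw [map_add]
      have h2 : (J (ZMod p) R N).mkQ y = 0 := by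
        rw [Submodule.mkQ_apply, Submodule.Quotient.mk_eq_zero]; exact hy
      rw [h2, zero_add]
      have h3 : Submodule.span (ZMod p) (XW p '' {w : List (Fin d) | w.length < N ∧ Av C w}) ≤
          (Submodule.span (ZMod p)
            (Im : Set (MonoidAlgebra (ZMod p) (FreeGroup (Fin d)) ⧸ J (ZMod p) R N))).comap
            (J (ZMod p) R N).mkQ := by
        rw [Submodule.span_le]
        rintro _ ⟨w, ⟨hw, hav⟩, rfl⟩
        refine Submodule.subset_span ?_
        rw [hIm, Finset.coe_image]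
        exact ⟨w, Finset.mem_coe.2 (Finset.mem_filter.2 ⟨mem_Wd.2 hw, hav⟩), rfl⟩
      exact h3 hz
    have h4 := finrank_span_finset_le_card (R := ZMod p) Im
    unfold Set.finrank at h4
    rw [htop, finrank_top] at h4
    exact h4.trans Finset.card_image_le
  refine h1.trans ?_
  have h5 : Y.card = ∑ m ∈ Finset.range N, (Y.filter fun w => w.length = m).card :=
    Finset.card_eq_sum_card_fiberwise (fun w hw => by
      rw [Finset.coe_range, Set.mem_Iio]
      exact mem_Wd.1 (Finset.mem_filter.1 hw).1)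
  rw [h5]
  refine Finset.sum_le_sum fun m _ => ?_
  unfold cnt
  rw [← Set.ncard_coe_finset]
  refine Set.ncard_le_ncard ?_ ((List.finite_length_eq (Fin d) m).subset fun w hw => hw.1)
  intro w hw
  obtain ⟨h6, h7⟩ := Finset.mem_filter.1 (Finset.mem_coe.1 hw)
  exact ⟨h7, (Finset.mem_filter.1 h6).2⟩

end words

section sub

lemma cnt_add {d : ℕ} (C : Set (List (Fin d))) (m n : ℕ) : cnt C (m + n) ≤ cnt C m * cnt C n := by
  unfold cnt
  have hfin : ∀ l, {w : List (Fin d) | w.length = l ∧ Av C w}.Finite := fun l =>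
    (List.finite_length_eq (Fin d) l).subset fun w hw => hw.1
  rw [← Set.ncard_prod]
  refine Set.ncard_le_ncard_of_injOn (fun w => (w.take m, w.drop m)) ?_ ?_
    ((hfin m).prod (hfin n))
  · rintro w ⟨hw, hav⟩
    refine ⟨⟨?_, ?_⟩, ⟨?_, ?_⟩⟩
    · show (w.take m).length = m
      rw [List.length_take]; omega
    · intro u hu h
      exact hav u hu (h.trans (List.take_prefix m w).isInfix)
    · show (w.drop m).length = n
      rw [List.length_drop]; omega
    · intro u hu h
      exact hav u hu (h.trans (List.drop_suffix m w).isInfix)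
  · intro w _ w' _ h
    rw [Prod.mk.injEq] at h
    rw [← List.take_append_drop m w, ← List.take_append_drop m w', h.1, h.2]

lemma exp_of_sum (a : ℕ → ℕ) (hsub : ∀ m n, a (m + n) ≤ a m * a n) (t : ℝ) (ht : 0 < t)
    (ht1 : t < 1) (h : ∀ N : ℕ, 1 ≤ N → t ≤ t ^ N * (∑ m ∈ Finset.range N, a m : ℕ)) (n : ℕ)
    (hn : 1 ≤ n) : 1 ≤ t ^ n * a n := by
  by_contra hcon
  rw [not_le] at hcon
  set b : ℕ → ℝ := fun m => t ^ m * a m with hb
  have hb0 : ∀ m, 0 ≤ b m := fun m => by positivity
  have hbsub : ∀ m l, b (m + l) ≤ b m * b l := by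
    intro m l
    have h1 : ((a (m + l) : ℕ) : ℝ) ≤ (a m : ℝ) * a l := by exact_mod_cast hsub m l
    calc b (m + l) = t ^ (m + l) * a (m + l) := rfl
      _ ≤ t ^ (m + l) * ((a m : ℝ) * a l) := mul_le_mul_of_nonneg_left h1 (by positivity)
      _ = _ := by rw [hb, pow_add]; ring
  have hbn : b n < 1 := hcon
  -- a base below one
  obtain ⟨ρ, hρt, hρ1, hρn⟩ : ∃ ρ : ℝ, t ≤ ρ ∧ ρ < 1 ∧ b n ≤ ρ ^ n := by
    refine ⟨max t ((b n) ^ ((1 : ℝ) / n)), le_max_left _ _, max_lt ht1 ?_, ?_⟩
    · exact Real.rpow_lt_one (hb0 n) hbn (by positivity)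
    · calc b n = ((b n) ^ ((1 : ℝ) / n)) ^ n := by
            rw [← Real.rpow_natCast, ← Real.rpow_mul (hb0 n), one_div, inv_mul_cancel₀, Real.rpow_one]
            exact_mod_cast (by omega : n ≠ 0)
        _ ≤ _ := pow_le_pow_left₀ (Real.rpow_nonneg (hb0 n) _) (le_max_right _ _) n
  have hρ0 : 0 < ρ := lt_of_lt_of_le ht hρt
  set B : ℝ := (∑ m ∈ Finset.range n, b m) / ρ ^ n with hB
  have hB0 : 0 ≤ B := div_nonneg (Finset.sum_nonneg fun m _ => hb0 m) (by positivity)
  have hbm : ∀ m, b m ≤ B * ρ ^ m := by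
    intro m
    induction m using Nat.strong_induction_on with
    | _ m ih =>
      by_cases hm : m < n
      · have h1 : b m ≤ ∑ m ∈ Finset.range n, b m :=
          Finset.single_le_sum (f := b) (fun i _ => hb0 i) (Finset.mem_range.2 hm)
        have h2 : ρ ^ n ≤ ρ ^ m := pow_le_pow_of_le_one hρ0.le hρ1.le hm.le
        calc b m ≤ ∑ m ∈ Finset.range n, b m := h1
          _ = B * ρ ^ n := by rw [hB]; field_simp
          _ ≤ B * ρ ^ m := mul_le_mul_of_nonneg_left h2 hB0
      · obtain ⟨l, rfl⟩ : ∃ l, m = n + l := ⟨m - n, by omega⟩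
        calc b (n + l) ≤ b n * b l := hbsub n l
          _ ≤ ρ ^ n * (B * ρ ^ l) := mul_le_mul hρn (ih l (by omega)) (hb0 l) (by positivity)
          _ = _ := by rw [pow_add]; ring
  have hN : ∀ N : ℕ, 1 ≤ N → t ≤ B * ((N : ℝ) * ρ ^ N) := by
    intro N hN1
    refine (h N hN1).trans ?_
    push_cast
    rw [Finset.mul_sum]
    calc ∑ m ∈ Finset.range N, t ^ N * (a m : ℝ) ≤ ∑ _m ∈ Finset.range N, B * ρ ^ N := by
          refine Finset.sum_le_sum fun m hm => ?_
          rw [Finset.mem_range] at hm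
          have h1 : t ^ N * (a m : ℝ) = t ^ (N - m) * b m := by
            rw [hb]
            show _ = t ^ (N - m) * (t ^ m * (a m : ℝ))
            rw [← mul_assoc, ← pow_add]
            congr 2
            omega
          rw [h1]
          calc t ^ (N - m) * b m ≤ ρ ^ (N - m) * (B * ρ ^ m) :=
                mul_le_mul (pow_le_pow_left₀ ht.le hρt _) (hbm m) (hb0 m) (by positivity)
            _ = B * ρ ^ (N - m + m) := by rw [pow_add]; ring
            _ = B * ρ ^ N := by congr 2; omega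
      _ = _ := by rw [Finset.sum_const, Finset.card_range, nsmul_eq_mul]; ring
  have hlim : Filter.Tendsto (fun N : ℕ => B * ((N : ℝ) * ρ ^ N)) Filter.atTop (nhds 0) := by
    have := (tendsto_self_mul_const_pow_of_lt_one hρ0.le hρ1).const_mul B
    simpa using this
  obtain ⟨N, hN2, hN1⟩ := ((hlim.eventually (gt_mem_nhds ht)).and
    (Filter.eventually_ge_atTop 1)).exists
  exact absurd (hN N hN1) (not_le.2 hN2)

end sub

end Std

open Pool.H96.GS in
/-- a finite standard basis and the Golod-Shafarevich inequality: the number of normal words grows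
exponentially -/
theorem std_growth {p d : ℕ} [Fact p.Prime] (R : Set (FreeGroup (Fin d))) (hR : GSIneq p d R)
    (C : Set (List (Fin d))) (hC : ∀ u ∈ C, ∃ f ∈ Std.SI p R, Lead f u) (h0 : [] ∉ C) :
    ∃ c : ℝ, 1 < c ∧ ∀ n, c ^ n ≤ (cnt C n : ℝ) := by
  obtain ⟨t, ht0, ht1, hsum, hlt⟩ := hR
  have hgr := fun N hN => Std.growth_all (k := ZMod p) (X := Fin d) R t ht0 ht1 hsum
    (by rw [Fintype.card_fin]; exact hlt) N hN
  have hsum2 : ∀ N : ℕ, 1 ≤ N → t ≤ t ^ N * (∑ m ∈ Finset.range N, cnt C m : ℕ) := by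
    intro N hN
    refine (hgr N hN).trans (mul_le_mul_of_nonneg_left ?_ (by positivity))
    exact_mod_cast Std.bdim_le R C hC N
  refine ⟨1 / t, by rw [lt_div_iff₀ ht0]; linarith, fun n => ?_⟩
  rcases Nat.eq_zero_or_pos n with rfl | hn
  · rw [pow_zero]
    have h1 : 0 < cnt C 0 := by
      unfold cnt
      rw [Set.ncard_pos ((List.finite_length_eq (Fin d) 0).subset fun w hw => hw.1)]
      refine ⟨[], rfl, fun u hu h => ?_⟩
      rw [List.infix_nil] at h
      exact h0 (h ▸ hu)
    exact_mod_cast h1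
  · have h1 := Std.exp_of_sum (cnt C) (Std.cnt_add C) t ht0 ht1 hsum2 n hn
    rw [one_div, inv_pow, inv_le_iff_one_le_mul₀' (by positivity)]
    exact h1

end Pool.MW
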